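import Pool.Agent.H638.IB.Defs

set_option autoImplicit false

open MeasureTheory Set Filter Topology Metric
open scoped Pointwise RealInnerProductSpace ENNReal

namespace Pool.Agent.H638.IB

/-- The Banach-Mazur distance. -/
noncomputable def bm {n : ℕ} (A B : Set (E n)) : ℝ :=
  sInf {l : ℝ | 1 ≤ l ∧ ∃ T : E n ≃ₗ[ℝ] E n, B ⊆ T '' A ∧ T '' A ⊆ l • B}

theorem smul_ball {n : ℕ} (c : ℝ) (hc : 0 < c) :
    c • closedBall (0 : E n) 1 = closedBall 0 c := by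
  rw [_root_.smul_closedBall _ _ zero_le_one]
  simp [abs_of_pos hc]

theorem bm_of_near {n : ℕ} {ε : ℝ} (hε : 0 < ε) {K : Set (E n)} (h : Near ε K) :
    1 ≤ bm K (closedBall 0 1) ∧ bm K (closedBall 0 1) ≤ 1 + ε := by
  obtain ⟨T, h1, h2⟩ := h
  have hmem : (1 + ε) ∈ {l : ℝ | 1 ≤ l ∧ ∃ T : E n ≃ₗ[ℝ] E n,
      closedBall 0 1 ⊆ T '' K ∧ T '' K ⊆ l • closedBall (0 : E n) 1} := by
    refine ⟨by linarith, T, h1, ?_⟩
    rw [smul_ball _ (by linarith)]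
    exact h2
  constructor
  · exact le_csInf ⟨_, hmem⟩ fun l hl => hl.1
  · exact csInf_le ⟨1, fun l hl => hl.1⟩ hmem

theorem main_uniform (hU : S_UNI) {n : ℕ} (hn : 3 ≤ n) (ε : ℝ) (hε : 0 < ε) :
    ∃ M : ℕ, ∀ m, M ≤ m → ∀ K : Set (E n), Body K →
      1 ≤ bm (IB^[m] K) (closedBall 0 1) ∧ bm (IB^[m] K) (closedBall 0 1) ≤ 1 + ε := by
  obtain ⟨N, rfl⟩ : ∃ N, n = N + 1 := ⟨n - 1, by omega⟩
  obtain ⟨M, hM⟩ := hU N (by omega) ε hε
  exact ⟨M, fun m hm K hK => bm_of_near hε (hM m hm K hK).2⟩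

theorem iter_body (hI : S_IBB) {n : ℕ} (hn : 3 ≤ n) (K : Set (E n)) (hK : Body K) (m : ℕ) :
    Body (IB^[m] K) := by
  obtain ⟨N, rfl⟩ : ∃ N, n = N + 1 := ⟨n - 1, by omega⟩
  induction m with
  | zero => exact hK
  | succ m ih =>
    rw [Function.iterate_succ_apply']
    exact (hI (by omega) _ ih).1

theorem main_tendsto (hU : S_UNI) {n : ℕ} (hn : 3 ≤ n) (K : Set (E n)) (hK : Body K) :
    Tendsto (fun m => bm (IB^[m] K) (closedBall 0 1)) atTop (𝓝 1) := by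
  rw [Metric.tendsto_atTop]
  intro ε hε
  obtain ⟨M, hM⟩ := main_uniform hU hn (ε / 2) (by linarith)
  refine ⟨M, fun m hm => ?_⟩
  obtain ⟨h1, h2⟩ := hM m hm K hK
  rw [Real.dist_eq, abs_lt]
  constructor <;> linarith

theorem ball_body {n : ℕ} : Body (closedBall (0 : E n) 1) := by
  refine ⟨isCompact_closedBall _ _, convex_closedBall _ _, ?_, ?_⟩
  · exact ⟨0, mem_interior.2 ⟨ball 0 1, ball_subset_closedBall, isOpen_ball, by simp⟩⟩
  · intro x hx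
    simpa using hx

theorem main_preimages (hU : S_UNI) (hNE : S_NELL) (hGS : S_GS) (hE : S_EPRE) {n : ℕ}
    (hn : 3 ≤ n) (K : Set (E n)) :
    (∀ M : ℕ, ∃ m, M ≤ m ∧ ∃ L : Set (E n), Body L ∧ K = IB^[m] L) ↔
      ∃ T : E n ≃ₗ[ℝ] E n, K = T '' closedBall 0 1 := by
  obtain ⟨N, rfl⟩ : ∃ N, n = N + 1 := ⟨n - 1, by omega⟩
  constructor
  · intro h
    have hnear : ∀ ε : ℝ, 0 < ε → Body K ∧ Near ε K := by
      intro ε hε
      obtain ⟨M, hM⟩ := hU N (by omega) ε hε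
      obtain ⟨m, hm, L, hL, rfl⟩ := h M
      exact hM m hm L hL
    obtain ⟨T, hT⟩ := hNE N (by omega) K (hnear 1 one_pos).1 fun ε hε => (hnear ε hε).2
    refine ⟨T.symm, ?_⟩
    rw [← hT, ← image_comp]
    simp
  · rintro ⟨T, rfl⟩ M
    refine ⟨M, le_rfl, ?_⟩
    have key : ∀ (m : ℕ) (T : E (N + 1) ≃ₗ[ℝ] E (N + 1)), ∃ S : E (N + 1) ≃ₗ[ℝ] E (N + 1),
        T '' closedBall 0 1 = IB^[m] (S '' closedBall 0 1) := by
      intro m
      induction m with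
      | zero => exact fun T => ⟨T, rfl⟩
      | succ m ih =>
        intro T
        obtain ⟨S, hS⟩ := ih T
        obtain ⟨S', hS'⟩ := hE (by omega) S
        refine ⟨S', ?_⟩
        rw [Function.iterate_succ_apply, hS', hS]
    obtain ⟨S, hS⟩ := key M T
    exact ⟨S '' closedBall 0 1, ((hGS _ ball_body).2 S).1, hS⟩

theorem ell_preimages (hGS : S_GS) (hE : S_EPRE) {n : ℕ} (hn : 3 ≤ n) (K : Set (E n))
    (hK : ∃ T : E n ≃ₗ[ℝ] E n, K = T '' closedBall 0 1) (m : ℕ) :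
    ∃ L : Set (E n), Body L ∧ (∃ T : E n ≃ₗ[ℝ] E n, L = T '' closedBall 0 1) ∧ K = IB^[m] L := by
  obtain ⟨N, rfl⟩ : ∃ N, n = N + 1 := ⟨n - 1, by omega⟩
  have key : ∀ (m : ℕ) (T : E (N + 1) ≃ₗ[ℝ] E (N + 1)), ∃ S : E (N + 1) ≃ₗ[ℝ] E (N + 1),
      T '' closedBall 0 1 = IB^[m] (S '' closedBall 0 1) := by
    intro m
    induction m with
    | zero => exact fun T => ⟨T, rfl⟩
    | succ m ih =>
      intro T
      obtain ⟨S, hS⟩ := ih T
      obtain ⟨S', hS'⟩ := hE (by omega) S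
      refine ⟨S', ?_⟩
      rw [Function.iterate_succ_apply, hS', hS]
  obtain ⟨T, rfl⟩ := hK
  obtain ⟨S, hS⟩ := key m T
  exact ⟨S '' closedBall 0 1, ((hGS _ ball_body).2 S).1, ⟨S, rfl⟩, hS⟩

end Pool.Agent.H638.IB
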