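import Pool.Agent.H638.IB.Defs

/-! AEZ: the polytopes of a fixed point (helper477). -/

set_option autoImplicit false

open MeasureTheory Set Filter Topology Metric
open scoped Pointwise RealInnerProductSpace ENNReal

namespace Pool.Agent.H638.IB

namespace AEZaux

/-- volume of the polytope -/
noncomputable def RR {N : ℕ} (M : Set (E (N + 1))) (Y : Fin (N + 1) → E N) : ℝ≥0∞ :=
  volume {v : E N | ∀ i, mk (-⟪v, Y i⟫) (Y i) ∈ M}

theorem RR_meas {N : ℕ} (M : Set (E (N + 1))) (hM : IsClosed M) : Measurable (RR M) := by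
  have hcl : IsClosed {p : (Fin (N + 1) → E N) × E N | ∀ i, mk (-⟪p.2, p.1 i⟫) (p.1 i) ∈ M} := by
    have : {p : (Fin (N + 1) → E N) × E N | ∀ i, mk (-⟪p.2, p.1 i⟫) (p.1 i) ∈ M} =
        ⋂ i, {p : (Fin (N + 1) → E N) × E N | mk (-⟪p.2, p.1 i⟫) (p.1 i) ∈ M} := by
      ext p
      simp
    rw [this]
    refine isClosed_iInter fun i => ?_
    have hc : Continuous (fun p : (Fin (N + 1) → E N) × E N => mk (-⟪p.2, p.1 i⟫) (p.1 i)) := by
      have h1 : Continuous (fun p : (Fin (N + 1) → E N) × E N => p.1 i) :=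
        (continuous_apply i).comp continuous_fst
      have h2 : Continuous (fun p : (Fin (N + 1) → E N) × E N =>
          ((-⟪p.2, p.1 i⟫ : ℝ), (p.1 i : E N))) :=
        ((continuous_snd.inner h1).neg).prodMk h1
      exact continuous_mk.comp h2
    exact hM.preimage hc
  exact measurable_measure_prodMk_left hcl.measurableSet

theorem Qv_one {N : ℕ} (hFIB : S_FIB) (K : Set (E (N + 1))) (hK : Body K)
    (Y : Fin (N + 1) → E N) : Qv K Y 1 = RR K Y := by
  unfold Qv RR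
  congr 1
  ext v
  simp only [mem_ofPred_eq]
  refine forall_congr' fun i => ?_
  rw [(hFIB K hK).1]
  refine and_congr_right fun _ => ?_
  rw [← abs_neg, show -(⟪v, Y i⟫ + 1 * mid K (Y i)) = -⟪v, Y i⟫ - mid K (Y i) by ring]

theorem Qv_t {N : ℕ} (hFIB : S_FIB) (K : Set (E (N + 1))) (hK : Body K)
    (Y : Fin (N + 1) → E N) (t : ℝ) (h0 : 0 ≤ t) (h1 : t ≤ 1) :
    Qv K Y (1 - t) = RR (Kt K t) Y := by
  unfold Qv RR
  congr 1
  ext v
  simp only [mem_ofPred_eq]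
  refine forall_congr' fun i => ?_
  rw [(hFIB K hK).2.1 t h0 h1]
  refine and_congr_right fun _ => ?_
  rw [← abs_neg, show -(⟪v, Y i⟫ + (1 - t) * mid K (Y i)) =
    -⟪v, Y i⟫ - (1 - t) * mid K (Y i) by ring]

theorem Qv_le {N : ℕ} (hLCQ : S_LCQ) (K : Set (E (N + 1))) (Y : Fin (N + 1) → E N) (a : ℝ) :
    Qv K Y a ≤ Qv K Y 0 := by
  have h1 := (hLCQ K Y).1 a (-a)
  rw [(hLCQ K Y).2 a] at h1
  rw [show (a + -a) / 2 = 0 by ring, ← sq] at h1
  by_contra h
  push Not at h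
  have : Qv K Y 0 ^ 2 < Qv K Y a ^ 2 := ENNReal.pow_lt_pow_left (by norm_num) h
  exact absurd h1 (not_le.mpr this)

end AEZaux

open AEZaux in
theorem AEZ_ok (hUPB : S_UPB) (hREP : S_REP) (hFIB : S_FIB) (hKTB : S_KTB) (hLCQ : S_LCQ)
    (hLCS : S_LCS) (hVIB : S_VIB) (hIBB : S_IBB) (hGB : S_GB) : S_AEZ := by
  intro N hN K hK c hc hfix
  -- closedness
  have hKcl : IsClosed K := hK.compact.isClosed
  have hKt : ∀ t, 0 ≤ t → t ≤ 1 → Body (Kt K t) := fun t h0 h1 => (hKTB K hK t h0 h1).1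
  have hfin : ∀ M : Set (E (N + 1)), Body M → ∫⁻ Y, RR M Y ≠ ∞ := by
    intro M hM
    have h1 := hREP M hM.compact.isClosed
    have h2 := hVIB hN M hM
    have h3 : volume (IB M) ≠ ∞ := (hGB _ (hIBB hN M hM).1).2.2.2.2.2.2.2.1
    intro h4
    apply h3
    rw [h2, h1]
    have : ∫⁻ Y : Fin (N + 1) → E N, volume {v : E N | ∀ i, mk (-⟪v, Y i⟫) (Y i) ∈ M} = ∞ := h4
    rw [this, ENNReal.mul_top]
    simp only [ne_eq, ENNReal.ofReal_eq_zero, not_le]
    positivity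
  have hB1 : Body (Kt K 1) := hKt 1 zero_le_one le_rfl
  have hQ0 : ∀ Y, Qv K Y 0 = RR (Kt K 1) Y := by
    intro Y
    have := Qv_t hFIB K hK Y 1 zero_le_one le_rfl
    rwa [sub_self] at this
  have hm0 : Measurable (fun Y => Qv K Y 0) := by
    have : (fun Y => Qv K Y 0) = RR (Kt K 1) := funext hQ0
    rw [this]
    exact RR_meas _ hB1.compact.isClosed
  have hm1 : Measurable (fun Y => Qv K Y 1) := by
    have : (fun Y => Qv K Y 1) = RR K := funext (Qv_one hFIB K hK)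
    rw [this]
    exact RR_meas _ hKcl
  have hI0 : ∫⁻ Y, Qv K Y 0 ≠ ∞ := by
    simp only [hQ0]
    exact hfin _ hB1
  have hI1 : ∫⁻ Y, Qv K Y 1 ≠ ∞ := by
    simp only [Qv_one hFIB K hK]
    exact hfin _ hK
  have hae : ∀ᵐ Y : Fin (N + 1) → E N, Qv K Y 0 ≠ ∞ := by
    filter_upwards [ae_lt_top hm0 hI0] with Y hY using hY.ne
  set D : (Fin (N + 1) → E N) → ℝ≥0∞ := fun Y => ENNReal.ofReal
    ((Qv K Y 1).toReal * ((Qv K Y 0).toReal - (Qv K Y 1).toReal) / (Qv K Y 0).toReal) with hD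
  have hDm : Measurable D := by
    refine ENNReal.measurable_ofReal.comp ?_
    exact (hm1.ennreal_toReal.mul (hm0.ennreal_toReal.sub hm1.ennreal_toReal)).div
      hm0.ennreal_toReal
  -- consequences of log-concavity
  have hlcs : ∀ Y, Qv K Y 0 ≠ ∞ → (Qv K Y 1).toReal ≤ (Qv K Y 0).toReal ∧ ∀ k : ℕ,
      (Qv K Y 1).toReal + (1 / 2) ^ k * ((Qv K Y 1).toReal *
        ((Qv K Y 0).toReal - (Qv K Y 1).toReal) / (Qv K Y 0).toReal) ≤
      (Qv K Y (1 - (1 / 2) ^ k)).toReal := by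
    intro Y hY
    have hf : ∀ a, Qv K Y a ≠ ∞ := fun a => ne_top_of_le_ne_top hY (Qv_le hLCQ K Y a)
    refine hLCS (fun a => (Qv K Y a).toReal) (fun a => ENNReal.toReal_nonneg) ?_ ?_
    · intro a b
      have h := (hLCQ K Y).1 a b
      have h2 := ENNReal.toReal_mono (ENNReal.pow_ne_top (hf _)) h
      rwa [ENNReal.toReal_mul, ENNReal.toReal_pow] at h2
    · intro a
      simp only [(hLCQ K Y).2 a]
  obtain ⟨C, hC, hupb⟩ := hUPB hN K hK c hc hfix
  have key : ∀ k : ℕ, ∫⁻ Y, D Y ≤ ENNReal.ofReal (C * (1 / 2) ^ k) * ∫⁻ Y, Qv K Y 1 := by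
    intro k
    set t : ℝ := (1 / 2) ^ k with ht
    have ht0 : 0 < t := by positivity
    have ht1 : t ≤ 1 := pow_le_one₀ (by norm_num) (by norm_num)
    have h1 : ∫⁻ Y, Qv K Y (1 - t) ≤ ENNReal.ofReal (1 + C * t ^ 2) * ∫⁻ Y, Qv K Y 1 := by
      have h2 := hupb t ht0.le ht1
      rw [hREP (Kt K t) (hKt t ht0.le ht1).compact.isClosed, hREP K hKcl] at h2
      calc ∫⁻ Y, Qv K Y (1 - t) = ∫⁻ Y, RR (Kt K t) Y :=
            lintegral_congr fun Y => Qv_t hFIB K hK Y t ht0.le ht1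
        _ ≤ ENNReal.ofReal (1 + C * t ^ 2) * ∫⁻ Y, RR K Y := h2
        _ = ENNReal.ofReal (1 + C * t ^ 2) * ∫⁻ Y, Qv K Y 1 := by
            congr 1
            exact lintegral_congr fun Y => (Qv_one hFIB K hK Y).symm
    have h3 : (∫⁻ Y, Qv K Y 1) + ENNReal.ofReal t * ∫⁻ Y, D Y ≤ ∫⁻ Y, Qv K Y (1 - t) := by
      rw [← lintegral_const_mul _ hDm, ← lintegral_add_left hm1]
      refine lintegral_mono_ae ?_
      filter_upwards [hae] with Y hY
      have hf : ∀ a, Qv K Y a ≠ ∞ := fun a => ne_top_of_le_ne_top hY (Qv_le hLCQ K Y a)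
      obtain ⟨h4, h5⟩ := hlcs Y hY
      have h6 := h5 k
      have hd0 : 0 ≤ (Qv K Y 1).toReal * ((Qv K Y 0).toReal - (Qv K Y 1).toReal) /
          (Qv K Y 0).toReal := by
        have := sub_nonneg.mpr h4
        positivity
      calc Qv K Y 1 + ENNReal.ofReal t * D Y =
          ENNReal.ofReal ((Qv K Y 1).toReal) + ENNReal.ofReal (t * ((Qv K Y 1).toReal *
            ((Qv K Y 0).toReal - (Qv K Y 1).toReal) / (Qv K Y 0).toReal)) := by
            rw [ENNReal.ofReal_toReal (hf 1), ENNReal.ofReal_mul ht0.le]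
        _ = ENNReal.ofReal ((Qv K Y 1).toReal + t * ((Qv K Y 1).toReal *
            ((Qv K Y 0).toReal - (Qv K Y 1).toReal) / (Qv K Y 0).toReal)) := by
            rw [← ENNReal.ofReal_add ENNReal.toReal_nonneg (by positivity)]
        _ ≤ ENNReal.ofReal ((Qv K Y (1 - t)).toReal) := ENNReal.ofReal_le_ofReal h6
        _ = Qv K Y (1 - t) := ENNReal.ofReal_toReal (hf _)
    have h7 : ENNReal.ofReal (1 + C * t ^ 2) * ∫⁻ Y, Qv K Y 1 =
        (∫⁻ Y, Qv K Y 1) + ENNReal.ofReal (C * t ^ 2) * ∫⁻ Y, Qv K Y 1 := by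
      rw [ENNReal.ofReal_add zero_le_one (by positivity), add_mul, ENNReal.ofReal_one, one_mul]
    have h8 : ENNReal.ofReal t * ∫⁻ Y, D Y ≤ ENNReal.ofReal (C * t ^ 2) * ∫⁻ Y, Qv K Y 1 := by
      have h9 := h3.trans h1
      rw [h7] at h9
      exact (ENNReal.add_le_add_iff_left hI1).mp h9
    have h10 : ENNReal.ofReal (C * t ^ 2) = ENNReal.ofReal t * ENNReal.ofReal (C * t) := by
      rw [← ENNReal.ofReal_mul ht0.le]
      congr 1
      ring
    rw [h10, mul_assoc] at h8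
    have ht' : ENNReal.ofReal t ≠ 0 := by
      rw [ne_eq, ENNReal.ofReal_eq_zero, not_le]
      exact ht0
    exact (ENNReal.mul_le_mul_iff_right ht' ENNReal.ofReal_ne_top).mp h8
  have hD0 : ∫⁻ Y, D Y = 0 := by
    have hlim : Tendsto (fun k : ℕ => ENNReal.ofReal (C * (1 / 2) ^ k) * ∫⁻ Y, Qv K Y 1) atTop
        (𝓝 (ENNReal.ofReal (C * 0) * ∫⁻ Y, Qv K Y 1)) := by
      refine ENNReal.Tendsto.mul_const ?_ (Or.inr hI1)
      refine ENNReal.tendsto_ofReal ?_
      exact (tendsto_pow_atTop_nhds_zero_of_lt_one (by norm_num) (by norm_num)).const_mul C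
    rw [mul_zero, ENNReal.ofReal_zero, zero_mul] at hlim
    exact le_antisymm (ge_of_tendsto' hlim key) zero_le
  have hDae := (lintegral_eq_zero_iff hDm).mp hD0
  filter_upwards [hae, hDae] with Y hY hDY
  refine ⟨hY, ?_⟩
  have hf : ∀ a, Qv K Y a ≠ ∞ := fun a => ne_top_of_le_ne_top hY (Qv_le hLCQ K Y a)
  obtain ⟨h4, _⟩ := hlcs Y hY
  have h5 : (Qv K Y 1).toReal * ((Qv K Y 0).toReal - (Qv K Y 1).toReal) /
      (Qv K Y 0).toReal ≤ 0 := by
    have : D Y = 0 := hDY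
    rw [hD] at this
    exact ENNReal.ofReal_eq_zero.mp this
  have h6 : 0 ≤ (Qv K Y 1).toReal := ENNReal.toReal_nonneg
  rcases h6.eq_or_lt with h7 | h7
  · left
    have := (ENNReal.toReal_eq_zero_iff _).mp h7.symm
    exact this.resolve_right (hf 1)
  · right
    have h8 : 0 < (Qv K Y 0).toReal := h7.trans_le h4
    have h9 : (Qv K Y 0).toReal = (Qv K Y 1).toReal := by
      by_contra hne
      have h10 : 0 < (Qv K Y 0).toReal - (Qv K Y 1).toReal := by
        rcases h4.eq_or_lt with h | h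
        · exact (hne h.symm).elim
        · linarith
      have : 0 < (Qv K Y 1).toReal * ((Qv K Y 0).toReal - (Qv K Y 1).toReal) /
          (Qv K Y 0).toReal := by positivity
      linarith
    exact (ENNReal.toReal_eq_toReal_iff' (hf 0) (hf 1)).mp h9

end Pool.Agent.H638.IB
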