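import Pool.Agent.H638.IB.Defs

set_option autoImplicit false

open MeasureTheory Set Filter Topology Metric
open scoped Pointwise RealInnerProductSpace ENNReal

namespace Pool.Agent.H638.IB

theorem BALL_ok : S_BALL := by
  intro N
  refine ⟨(volume (closedBall (0 : E N) 1)).toReal, ?_, ?_⟩
  · exact ENNReal.toReal_pos (measure_closedBall_pos volume 0 one_pos).ne'
      measure_closedBall_lt_top.ne
  · intro x hx r hr
    unfold A secVol
    haveI : Fact (Module.finrank ℝ (E (N + 1)) = N + 1) := ⟨by simp⟩
    have hfin : Module.finrank ℝ (ℝ ∙ x)ᗮ = N := Submodule.finrank_orthogonal_span_singleton hx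
    let b := (stdOrthonormalBasis ℝ (ℝ ∙ x)ᗮ).reindex (finCongr hfin)
    have hmp := b.measurePreserving_repr
    have hset : {y : (ℝ ∙ x)ᗮ | (y : E (N + 1)) ∈ closedBall 0 r} =
        b.repr ⁻¹' closedBall 0 r := by
      ext y
      simp only [mem_setOf_eq, mem_closedBall, dist_zero_right, mem_preimage,
        LinearIsometryEquiv.norm_map]
      exact Iff.rfl
    rw [hset, hmp.measure_preimage measurableSet_closedBall.nullMeasurableSet,
      Measure.addHaar_closedBall' volume 0 hr, ENNReal.toReal_mul,
      ENNReal.toReal_ofReal (by positivity)]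
    rw [finrank_euclideanSpace_fin]
    ring

end Pool.Agent.H638.IB
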