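import Pool.Agent.H638.IB.Defs

/-! BATH: bathtub principle. -/

set_option autoImplicit false

open MeasureTheory Set Filter Topology Metric
open scoped Pointwise RealInnerProductSpace ENNReal

namespace Pool.Agent.H638.IB

namespace BATHaux

theorem sub_of_null {n : ℕ} {K L : Set (E n)} (hK : Body K) (hL : Body L)
    (h : volume (K \ L) = 0) : K ⊆ L := by
  have hLc : IsClosed L := hL.compact.isClosed
  have h1 : interior K ⊆ L := by
    have ho : IsOpen (interior K \ L) := isOpen_interior.sdiff hLc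
    have h0 : volume (interior K \ L) = 0 :=
      measure_mono_null (sdiff_subset_sdiff_left interior_subset) h
    have h2 := (ho.measure_eq_zero_iff volume).1 h0
    exact sdiff_eq_empty.1 h2
  have h2 := hK.convex.closure_interior_eq_closure_of_nonempty_interior hK.int
  calc K ⊆ closure K := subset_closure
    _ = closure (interior K) := h2.symm
    _ ⊆ L := closure_minimal h1 hLc

end BATHaux

theorem BATH_ok (hGB : S_GB) (hGINT : S_GINT) : S_BATH := by
  intro N hN K L hK hL hvol
  obtain ⟨⟨rK, RK, hrK, _, hKr, _⟩, _, _, _, _, _, _, hKfin, hKm⟩ := hGB K hK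
  obtain ⟨⟨rL, RL, hrL, _, hLr, _⟩, hLmem, hLpos, _, _, hLc, _, hLfin, hLm⟩ := hGB L hL
  obtain ⟨hfin, _⟩ := hGINT hN K L hK hL
  obtain ⟨g, hg⟩ : ∃ g : E (N + 1) → ℝ≥0∞, ∀ x, g x = ENNReal.ofReal (gauge L x)⁻¹ :=
    ⟨_, fun _ => rfl⟩
  have hgm : Measurable g := by
    have : g = fun x => ENNReal.ofReal (gauge L x)⁻¹ := funext hg
    rw [this]
    exact (hLc.measurable.inv).ennreal_ofReal
  simp_rw [← hg] at hfin ⊢
  -- decompositions
  have hdK : ∫⁻ x in K, g x = (∫⁻ x in K ∩ L, g x) + ∫⁻ x in K \ L, g x :=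
    (lintegral_inter_add_sdiff g K hLm).symm
  have hdL : ∫⁻ x in L, g x = (∫⁻ x in K ∩ L, g x) + ∫⁻ x in L \ K, g x := by
    rw [inter_comm K L]
    exact (lintegral_inter_add_sdiff g L hKm).symm
  have hlt : ∀ x ∈ K \ L, g x < 1 := by
    intro x hx
    have h1 : 1 < gauge L x := by
      by_contra h
      exact hx.2 ((hLmem x).1 (not_lt.1 h))
    rw [hg, ← ENNReal.ofReal_one]
    exact (ENNReal.ofReal_lt_ofReal_iff one_pos).2 (inv_lt_one_of_one_lt₀ h1)
  have hge : ∀ x ∈ L \ K, 1 ≤ g x := by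
    intro x hx
    have hx0 : x ≠ 0 := by
      rintro rfl
      exact hx.2 (hKr (mem_closedBall_self hrK.le))
    have h1 : gauge L x ≤ 1 := (hLmem x).2 hx.1
    rw [hg, ← ENNReal.ofReal_one]
    exact ENNReal.ofReal_le_ofReal ((one_le_inv₀ (hLpos x hx0)).2 h1)
  have hKL : volume (K \ L) = volume (L \ K) := by
    have h1 := measure_sdiff_add_inter (μ := volume) K hLm
    have h2 := measure_sdiff_add_inter (μ := volume) L hKm
    rw [inter_comm L K] at h2
    have h3 : volume (K ∩ L) ≠ ∞ := ne_top_of_le_ne_top hKfin (measure_mono inter_subset_left)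
    have h4 : volume (K \ L) + volume (K ∩ L) = volume (L \ K) + volume (K ∩ L) := by
      rw [h1, h2, hvol]
    exact (ENNReal.add_left_inj h3).1 h4
  have hup : ∫⁻ x in K \ L, g x ≤ volume (K \ L) := by
    calc ∫⁻ x in K \ L, g x ≤ ∫⁻ x in K \ L, 1 :=
          setLIntegral_mono' (hKm.diff hLm) fun x hx => (hlt x hx).le
      _ = volume (K \ L) := by rw [setLIntegral_one]
  have hlo : volume (L \ K) ≤ ∫⁻ x in L \ K, g x := by
    calc volume (L \ K) = ∫⁻ x in L \ K, 1 := by rw [setLIntegral_one]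
      _ ≤ ∫⁻ x in L \ K, g x := setLIntegral_mono' (hLm.diff hKm) fun x hx => hge x hx
  refine ⟨?_, ?_⟩
  · rw [hdK, hdL]
    exact add_le_add_right (hup.trans (hKL.le.trans hlo)) _
  · intro heq
    rw [hdK, hdL] at heq
    have hfin2 : ∫⁻ x in K ∩ L, g x ≠ ∞ :=
      ne_top_of_le_ne_top hfin (lintegral_mono_set inter_subset_left)
    have heq2 : ∫⁻ x in K \ L, g x = ∫⁻ x in L \ K, g x := (ENNReal.add_right_inj hfin2).1 heq
    have heq3 : volume (K \ L) ≤ ∫⁻ x in K \ L, g x := by
      rw [heq2, hKL]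
      exact hlo
    have h0 : volume (K \ L) = 0 := by
      by_contra hne
      have hμ : volume.restrict (K \ L) ≠ 0 := by
        intro h
        exact hne (Measure.restrict_eq_zero.1 h)
      have hfi : ∫⁻ x in K \ L, g x ≠ ∞ :=
        ne_top_of_le_ne_top hfin (lintegral_mono_set sdiff_subset)
      have h1 := lintegral_strict_mono (g := fun _ => (1 : ℝ≥0∞)) hμ aemeasurable_const hfi
        ((ae_restrict_iff' (hKm.diff hLm)).2 (Eventually.of_forall hlt))
      rw [setLIntegral_one] at h1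
      exact absurd heq3 (not_le.2 h1)
    have h0' : volume (L \ K) = 0 := by rw [← hKL]; exact h0
    exact Subset.antisymm (BATHaux.sub_of_null hK hL h0) (BATHaux.sub_of_null hL hK h0')

end Pool.Agent.H638.IB
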