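import Pool.Agent.H638.IB.Defs

/-! Task BND: bounds for the sections and for the slabs. -/

set_option autoImplicit false

open MeasureTheory Set Filter Topology Metric
open scoped Pointwise RealInnerProductSpace ENNReal

namespace Pool.Agent.H638.IB

namespace BNDaux

theorem body_ball {n : ℕ} (R : ℝ) (hR : 0 < R) : Body (closedBall (0 : E n) R) where
  compact := isCompact_closedBall 0 R
  convex := convex_closedBall 0 R
  int := ⟨0, mem_interior_iff_mem_nhds.mpr (closedBall_mem_nhds 0 hR)⟩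
  neg := fun x hx => by simpa using hx

/-- a thin slab of the ball, translated -/
theorem piece {n : ℕ} (R : ℝ) (x : E n) (a δ : ℝ) :
    volume (closedBall (0 : E n) R ∩ {z | a ≤ ⟪x, z⟫ ∧ ⟪x, z⟫ ≤ a + δ}) ≤
      volume (closedBall (0 : E n) (2 * R) ∩ {z | |⟪x, z⟫| ≤ δ}) := by
  rcases (closedBall (0 : E n) R ∩ {z | a ≤ ⟪x, z⟫ ∧ ⟪x, z⟫ ≤ a + δ}).eq_empty_or_nonempty with
    h | ⟨z2, hz2⟩
  · rw [h]
    simp
  · have hsub : closedBall (0 : E n) R ∩ {z | a ≤ ⟪x, z⟫ ∧ ⟪x, z⟫ ≤ a + δ} ⊆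
        (fun z => z + -z2) ⁻¹' (closedBall (0 : E n) (2 * R) ∩ {z | |⟪x, z⟫| ≤ δ}) := by
      rintro z ⟨hz, hz'⟩
      obtain ⟨hy, hy'⟩ := hz2
      rw [mem_closedBall_zero_iff] at hz hy
      simp only [mem_ofPred_eq] at hz' hy'
      rw [mem_preimage]
      refine ⟨?_, ?_⟩
      · rw [mem_closedBall_zero_iff]
        calc ‖z + -z2‖ ≤ ‖z‖ + ‖-z2‖ := norm_add_le _ _
          _ = ‖z‖ + ‖z2‖ := by rw [norm_neg]
          _ ≤ 2 * R := by linarith
      · simp only [mem_ofPred_eq]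
        rw [inner_add_right, inner_neg_right, abs_le]
        constructor
        · linarith [hz'.1, hy'.2]
        · linarith [hz'.2, hy'.1]
    refine (measure_mono hsub).trans (le_of_eq ?_)
    exact measure_preimage_add_right volume (-z2) _

theorem cover {n : ℕ} (R ε : ℝ) (hε : 0 < ε) (x : E n) (m : ℕ) (hm : 1 ≤ m) :
    volume (closedBall (0 : E n) R ∩ {z | |⟪x, z⟫| ≤ ε}) ≤
      m * volume (closedBall (0 : E n) (2 * R) ∩ {z | |⟪x, z⟫| ≤ 2 * ε / m}) := by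
  have hm0 : (0:ℝ) < m := by exact_mod_cast hm
  have hδ : 0 < 2 * ε / m := by positivity
  have hmδ : (m:ℝ) * (2 * ε / m) = 2 * ε := by field_simp
  obtain ⟨δ, hδe⟩ : ∃ δ : ℝ, δ = 2 * ε / m := ⟨_, rfl⟩
  rw [← hδe] at hδ hmδ ⊢
  have hsub : closedBall (0 : E n) R ∩ {z | |⟪x, z⟫| ≤ ε} ⊆
      ⋃ k ∈ Finset.range m, (closedBall (0 : E n) R ∩
        {z | -ε + k * δ ≤ ⟪x, z⟫ ∧ ⟪x, z⟫ ≤ (-ε + k * δ) + δ}) := by
    rintro z ⟨hz, hz'⟩
    simp only [mem_ofPred_eq, abs_le] at hz'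
    rw [mem_iUnion₂]
    obtain ⟨t, ht⟩ : ∃ t : ℝ, t = ⟪x, z⟫ := ⟨_, rfl⟩
    rw [← ht] at hz'
    have hq0 : 0 ≤ (t + ε) / δ := div_nonneg (by linarith [hz'.1]) hδ.le
    have hqe : (t + ε) / δ * δ = t + ε := div_mul_cancel₀ _ hδ.ne'
    rcases Nat.lt_or_ge ⌊(t + ε) / δ⌋₊ m with hk | hk
    · refine ⟨⌊(t + ε) / δ⌋₊, Finset.mem_range.mpr hk, hz, ?_⟩
      simp only [mem_ofPred_eq, ← ht]
      have h1 := Nat.floor_le hq0
      have h2 := Nat.lt_floor_add_one ((t + ε) / δ)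
      have h3 := mul_le_mul_of_nonneg_right h1 hδ.le
      have h4 := mul_le_mul_of_nonneg_right h2.le hδ.le
      rw [hqe] at h3 h4
      constructor
      · linarith
      · linarith
    · refine ⟨m - 1, Finset.mem_range.mpr (by omega), hz, ?_⟩
      simp only [mem_ofPred_eq, ← ht]
      have h1 : (m:ℝ) ≤ (t + ε) / δ := by
        refine le_trans ?_ (Nat.floor_le hq0)
        exact_mod_cast hk
      have h3 := mul_le_mul_of_nonneg_right h1 hδ.le
      rw [hqe, hmδ] at h3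
      have h5 : ((m - 1 : ℕ) : ℝ) = m - 1 := by
        push_cast [hm]
        ring
      rw [h5]
      constructor
      · nlinarith [hz'.2]
      · nlinarith [hz'.2]
  refine (measure_mono hsub).trans ((measure_biUnion_finset_le _ _).trans ?_)
  refine (Finset.sum_le_sum fun (k : ℕ) _ => piece R x (-ε + (k : ℝ) * δ) δ).trans (le_of_eq ?_)
  rw [Finset.sum_const, Finset.card_range, nsmul_eq_mul]

theorem fin {n : ℕ} (R : ℝ) (s : Set (E n)) : volume (closedBall (0 : E n) R ∩ s) ≠ ∞ :=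
  ((measure_mono inter_subset_left).trans_lt measure_closedBall_lt_top).ne

/-- slabs of the ball -/
theorem slab_le (hS : S_SLAB) {n : ℕ} (R : ℝ) (hR : 0 < R) (x : E n) (hx : x ≠ 0) (ε : ℝ)
    (hε : 0 < ε) : vol (closedBall (0 : E n) R ∩ {z | |⟪x, z⟫| ≤ ε}) / (2 * ε) ≤
      2 * A (closedBall (0 : E n) (2 * R)) x := by
  have hlim := (hS (closedBall (0 : E n) (2 * R)) (body_ball (2 * R) (by linarith)) x hx)
  have hδ : Tendsto (fun m : ℕ => 2 * ε / (m:ℝ)) atTop (𝓝[>] 0) := by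
    rw [tendsto_nhdsWithin_iff]
    refine ⟨tendsto_const_div_atTop_nhds_zero_nat (2 * ε), ?_⟩
    filter_upwards [eventually_ge_atTop 1] with m hm
    have hm0 : (0:ℝ) < m := by exact_mod_cast hm
    exact mem_Ioi.mpr (by positivity)
  have hlim2 := (hlim.comp hδ).const_mul 2
  refine ge_of_tendsto hlim2 ?_
  filter_upwards [eventually_ge_atTop 1] with m hm
  have hm0 : (0:ℝ) < m := by exact_mod_cast hm
  have hc := cover R ε hε x m hm
  have hc' : vol (closedBall (0 : E n) R ∩ {z | |⟪x, z⟫| ≤ ε}) ≤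
      m * vol (closedBall (0 : E n) (2 * R) ∩ {z | |⟪x, z⟫| ≤ 2 * ε / m}) := by
    unfold vol
    have := ENNReal.toReal_mono (ENNReal.mul_ne_top (ENNReal.natCast_ne_top m)
      (fin (2 * R) {z | |⟪x, z⟫| ≤ 2 * ε / m})) hc
    rwa [ENNReal.toReal_mul, ENNReal.toReal_natCast] at this
  simp only [Function.comp]
  calc vol (closedBall (0 : E n) R ∩ {z | |⟪x, z⟫| ≤ ε}) / (2 * ε) ≤
      m * vol (closedBall (0 : E n) (2 * R) ∩ {z | |⟪x, z⟫| ≤ 2 * ε / m}) / (2 * ε) := by gcongr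
    _ = _ := by field_simp

end BNDaux

open BNDaux in
theorem BND_ok (h1 : S_GB) (h2 : S_HOM) (h3 : S_BALL) (h4 : S_SLAB) : S_BND := by
  intro N K hK
  obtain ⟨⟨r, R, hr, hR, hrK, hKR⟩, -⟩ := h1 K hK
  obtain ⟨κ, hκ, hball⟩ := h3 (N := N)
  refine ⟨κ * r ^ N, 2 * (κ * (2 * R) ^ N), by positivity, by positivity, fun x hx => ?_⟩
  have hx0 : 0 < ‖x‖ := norm_pos_iff.mpr hx
  have hBR := body_ball (n := N + 1) R hR
  refine ⟨?_, ?_, fun ε hε => ?_⟩
  · rw [← hball x hx r hr.le]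
    exact (h2 (closedBall 0 r)).2.2 K hrK hK x
  · refine ((h2 K).2.2 _ hKR hBR x).trans ?_
    rw [hball x hx R hR.le]
    refine div_le_div_of_nonneg_right ?_ hx0.le
    have h5 : R ^ N ≤ (2 * R) ^ N := by
      gcongr
      linarith
    have h6 : κ * R ^ N ≤ κ * (2 * R) ^ N := mul_le_mul_of_nonneg_left h5 hκ.le
    have h7 : 0 ≤ κ * (2 * R) ^ N := by positivity
    linarith
  · have h5 : vol (K ∩ {z | |⟪x, z⟫| ≤ ε}) ≤ vol (closedBall (0 : E (N + 1)) R ∩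
        {z | |⟪x, z⟫| ≤ ε}) := by
      unfold vol
      refine ENNReal.toReal_mono (fin R _) (measure_mono ?_)
      exact inter_subset_inter_left _ hKR
    calc vol (K ∩ {z | |⟪x, z⟫| ≤ ε}) / (2 * ε) ≤
        vol (closedBall (0 : E (N + 1)) R ∩ {z | |⟪x, z⟫| ≤ ε}) / (2 * ε) := by gcongr
      _ ≤ 2 * A (closedBall (0 : E (N + 1)) (2 * R)) x := slab_le h4 R hR x hx ε hε
      _ = 2 * (κ * (2 * R) ^ N) / ‖x‖ := by
        rw [hball x hx (2 * R) (by linarith)]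
        ring

end Pool.Agent.H638.IB
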