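import Pool.Agent.H638.IB.Defs
import Pool.Agent.H212R2.KLS.T1

/-! Task BU1 (helper180): the function `hh`. -/

set_option autoImplicit false

open MeasureTheory Set Filter Topology Metric
open scoped Pointwise RealInnerProductSpace ENNReal

namespace Pool.Agent.H638.IB

namespace BU1aux

/-- the slice -/
def S {N : ℕ} (K : Set (E (N + 2))) (a b : ℝ) : Set (E N) := {z : E N | mk2 a b z ∈ K}

theorem hh_eq {N : ℕ} (K : Set (E (N + 2))) (a b : ℝ) : hh K a b = (volume (S K a b)).toReal := rfl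

theorem continuous_mk2 {N : ℕ} : Continuous (fun p : (ℝ × ℝ) × E N => mk2 p.1.1 p.1.2 p.2) := by
  unfold mk2
  have h1 : Continuous (fun p : (ℝ × ℝ) × E N => (p.1.1, mk p.1.2 p.2)) := by
    refine Continuous.prodMk (by fun_prop) ?_
    exact continuous_mk.comp (by fun_prop : Continuous (fun p : (ℝ × ℝ) × E N => (p.1.2, p.2)))
  exact continuous_mk.comp h1

theorem norm_mk2_sq {N : ℕ} (a b : ℝ) (z : E N) : ‖mk2 a b z‖ ^ 2 = a ^ 2 + b ^ 2 + ‖z‖ ^ 2 := by
  unfold mk2
  rw [norm_mk_sq, norm_mk_sq]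
  ring

theorem norm_z_le {N : ℕ} (a b : ℝ) (z : E N) : ‖z‖ ≤ ‖mk2 a b z‖ := by
  have h := norm_mk2_sq a b z
  nlinarith [norm_nonneg z, norm_nonneg (mk2 a b z), sq_nonneg a, sq_nonneg b]

theorem abs_a_le {N : ℕ} (a b : ℝ) (z : E N) : |a| ≤ ‖mk2 a b z‖ := by
  have h := norm_mk2_sq a b z
  refine abs_le_of_sq_le_sq ?_ (norm_nonneg _)
  nlinarith [sq_nonneg b, sq_nonneg ‖z‖]

theorem abs_b_le {N : ℕ} (a b : ℝ) (z : E N) : |b| ≤ ‖mk2 a b z‖ := by
  have h := norm_mk2_sq a b z
  refine abs_le_of_sq_le_sq ?_ (norm_nonneg _)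
  nlinarith [sq_nonneg a, sq_nonneg ‖z‖]

theorem measurableSet_S {N : ℕ} {K : Set (E (N + 2))} (hK : Body K) (a b : ℝ) :
    MeasurableSet (S K a b) := by
  have h1 : Continuous (fun z : E N => mk2 a b z) :=
    continuous_mk2.comp (by fun_prop : Continuous (fun z : E N => ((a, b), z)))
  exact (hK.compact.isClosed.preimage h1).measurableSet

theorem exists_R {N : ℕ} {K : Set (E (N + 2))} (hK : Body K) :
    ∃ R : ℝ, 0 < R ∧ ∀ x ∈ K, ‖x‖ ≤ R := by
  obtain ⟨R, hR⟩ := hK.compact.isBounded.exists_norm_le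
  exact ⟨max R 1, lt_of_lt_of_le one_pos (le_max_right _ _), fun x hx => (hR x hx).trans (le_max_left _ _)⟩

theorem volume_S_ne_top {N : ℕ} {K : Set (E (N + 2))} (hK : Body K) (a b : ℝ) :
    volume (S K a b) ≠ ∞ := by
  obtain ⟨R, _, hR⟩ := exists_R hK
  have h1 : S K a b ⊆ closedBall 0 R := by
    intro z hz
    rw [mem_closedBall_zero_iff]
    exact (norm_z_le a b z).trans (hR _ hz)
  exact ((measure_mono h1).trans_lt measure_closedBall_lt_top).ne

theorem zero_mem_interior {N : ℕ} {K : Set (E (N + 2))} (hK : Body K) : (0 : E (N + 2)) ∈ interior K := by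
  obtain ⟨x, hx⟩ := hK.int
  have hneg : -K = K := by
    ext y
    rw [Set.mem_neg]
    exact ⟨fun h => by simpa using hK.neg _ h, fun h => hK.neg _ h⟩
  have hx2 : -x ∈ interior K := by
    have h1 : interior (-K) = -interior K := by
      have := (Homeomorph.neg (E (N + 2))).preimage_interior K
      simpa using this.symm
    rw [hneg] at h1
    rw [h1]
    simpa using hx
  have h2 := hK.convex.interior hx hx2 (by norm_num : (0 : ℝ) ≤ 1 / 2) (by norm_num : (0 : ℝ) ≤ 1 / 2)
    (by norm_num)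
  simpa using h2

theorem even {N : ℕ} (K : Set (E (N + 2))) (hK : Body K) (a b : ℝ) : hh K (-a) (-b) = hh K a b := by
  rw [hh_eq, hh_eq]
  have h1 : S K (-a) (-b) = -S K a b := by
    ext z
    rw [Set.mem_neg]
    have h2 : mk2 (-a) (-b) z = -mk2 a b (-z) := by
      unfold mk2
      rw [neg_mk, neg_mk, neg_neg]
    constructor
    · intro h
      have h3 : mk2 (-a) (-b) z ∈ K := h
      rw [h2] at h3
      have := hK.neg _ h3
      rw [neg_neg] at this
      exact this
    · intro h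
      have h3 : mk2 a b (-z) ∈ K := h
      show mk2 (-a) (-b) z ∈ K
      rw [h2]
      exact hK.neg _ h3
  rw [h1]
  congr 1
  exact Measure.measure_neg _ _

theorem pos {N : ℕ} (K : Set (E (N + 2))) (hK : Body K) : 0 < hh K 0 0 := by
  rw [hh_eq]
  have h0 := zero_mem_interior hK
  rw [mem_interior_iff_mem_nhds, Metric.mem_nhds_iff] at h0
  obtain ⟨r, hr, hrK⟩ := h0
  have h1 : ball (0 : E N) r ⊆ S K 0 0 := by
    intro z hz
    apply hrK
    rw [mem_ball_zero_iff] at hz ⊢
    have h2 := norm_mk2_sq 0 0 z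
    have h3 : ‖mk2 0 0 z‖ = ‖z‖ := by
      have h4 : ‖mk2 0 0 z‖ ^ 2 = ‖z‖ ^ 2 := by rw [h2]; ring
      exact (sq_eq_sq₀ (norm_nonneg _) (norm_nonneg _)).1 h4
    rw [h3]
    exact hz
  exact ENNReal.toReal_pos ((measure_ball_pos volume (0 : E N) hr).trans_le (measure_mono h1)).ne'
    (volume_S_ne_top hK 0 0)

theorem bdd {N : ℕ} (K : Set (E (N + 2))) (hK : Body K) :
    ∃ M : ℝ, 0 < M ∧ ∀ a b, M < |a| ∨ M < |b| → hh K a b = 0 := by
  obtain ⟨R, hR0, hR⟩ := exists_R hK
  refine ⟨R, hR0, fun a b h => ?_⟩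
  have h1 : S K a b = ∅ := by
    rw [Set.eq_empty_iff_forall_notMem]
    intro z hz
    have h2 : ‖mk2 a b z‖ ≤ R := hR _ hz
    rcases h with h | h
    · exact absurd ((abs_a_le a b z).trans h2) (not_le.2 h)
    · exact absurd ((abs_b_le a b z).trans h2) (not_le.2 h)
  rw [hh_eq, h1]
  simp

theorem meas {N : ℕ} (K : Set (E (N + 2))) (hK : Body K) :
    Measurable (fun p : ℝ × ℝ => hh K p.1 p.2) := by
  have h1 : MeasurableSet {p : (ℝ × ℝ) × E N | mk2 p.1.1 p.1.2 p.2 ∈ K} :=
    (hK.compact.isClosed.preimage continuous_mk2).measurableSet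
  have h2 := measurable_measure_prodMk_left (ν := (volume : Measure (E N))) h1
  exact h2.ennreal_toReal

theorem logc {N : ℕ} (K : Set (E (N + 2))) (hK : Body K) (a b a' b' l : ℝ) (hl0 : 0 < l) (hl1 : l < 1) :
    hh K a b ^ l * hh K a' b' ^ (1 - l) ≤ hh K (l * a + (1 - l) * a') (l * b + (1 - l) * b') := by
  have hl2 : 0 < 1 - l := by linarith
  have key := Pool.Agent.H212R2.KLS.PL (volume : Measure (E N)) (1 - l) hl2 (by linarith)
    ((S K a b).indicator 1) ((S K a' b').indicator 1)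
    ((S K (l * a + (1 - l) * a') (l * b + (1 - l) * b')).indicator 1)
    (measurable_one.indicator (measurableSet_S hK _ _)) (measurable_one.indicator (measurableSet_S hK _ _))
    (measurable_one.indicator (measurableSet_S hK _ _)) (by
      intro x y
      rw [show 1 - (1 - l) = l by ring]
      by_cases hx : x ∈ S K a b
      · by_cases hy : y ∈ S K a' b'
        · have h1 : l • x + (1 - l) • y ∈ S K (l * a + (1 - l) * a') (l * b + (1 - l) * b') := by
            have h2 := hK.convex hx hy hl0.le hl2.le (by ring)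
            show mk2 _ _ _ ∈ K
            unfold mk2 at h2 ⊢
            rw [smul_mk, smul_mk, smul_mk, smul_mk, mk_add, mk_add] at h2
            exact h2
          rw [Set.indicator_of_mem hx, Set.indicator_of_mem hy, Set.indicator_of_mem h1]
          simp
        · rw [Set.indicator_of_notMem hy, ENNReal.zero_rpow_of_pos hl2, mul_zero]
          exact zero_le
      · rw [Set.indicator_of_notMem hx, ENNReal.zero_rpow_of_pos hl0, zero_mul]
        exact zero_le)
  rw [show 1 - (1 - l) = l by ring, lintegral_indicator_one (measurableSet_S hK _ _),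
    lintegral_indicator_one (measurableSet_S hK _ _), lintegral_indicator_one (measurableSet_S hK _ _)] at key
  rw [hh_eq, hh_eq, hh_eq, ENNReal.toReal_rpow, ENNReal.toReal_rpow, ← ENNReal.toReal_mul]
  exact ENNReal.toReal_mono (volume_S_ne_top hK _ _) key

end BU1aux

theorem BU1_ok : S_BU1 := by
  intro N K hK
  exact ⟨BU1aux.even K hK, fun a b => ENNReal.toReal_nonneg, BU1aux.pos K hK, BU1aux.bdd K hK,
    BU1aux.meas K hK, fun a b a' b' l hl0 hl1 => BU1aux.logc K hK a b a' b' l hl0 hl1⟩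

end Pool.Agent.H638.IB
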