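import Pool.Agent.H638.IB.Defs

/-! BU2: three sections in terms of `hh`. -/

set_option autoImplicit false

open MeasureTheory Set Filter Topology Metric
open scoped Pointwise RealInnerProductSpace ENNReal

namespace Pool.Agent.H638.IB

namespace BU2aux

theorem norm_le_mk {N : ℕ} (s : ℝ) (y : E N) : ‖y‖ ≤ ‖mk s y‖ := by
  have h := norm_mk_sq s y
  have h2 : ‖y‖ ^ 2 ≤ ‖mk s y‖ ^ 2 := by nlinarith [sq_nonneg s]
  exact (pow_le_pow_iff_left₀ (norm_nonneg _) (norm_nonneg _) (by norm_num)).1 h2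

/-- the general section containing the direction of the remaining coordinates -/
theorem sec (h1 : S_HSEC) (h2 : S_MP) {N : ℕ} (K : Set (E (N + 2))) (hK : Body K)
    (v : E (N + 1)) (t : ℝ) (hv : ∀ (r : ℝ) (z : E N), (⟪v, mk r z⟫ : ℝ) = t * r) :
    A K (mk 1 v) = ∫ r, hh K (-(t * r)) r := by
  rw [h1 K hK v]
  set S : Set (E (N + 1)) := {y : E (N + 1) | mk (-⟪v, y⟫) y ∈ K} with hS
  have hcl : IsClosed S := by
    have hcont : Continuous (fun y : E (N + 1) => mk (-⟪v, y⟫) y) := by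
      have hpair : Continuous (fun y : E (N + 1) => ((-⟪v, y⟫ : ℝ), y)) := by fun_prop
      exact (continuous_mk (N := N + 1)).comp hpair
    exact hK.compact.isClosed.preimage hcont
  have hmeas : MeasurableSet S := hcl.measurableSet
  have hfin : volume S ≠ ∞ := by
    apply (Bornology.IsBounded.measure_lt_top _).ne
    obtain ⟨R, hR⟩ := hK.compact.isBounded.exists_norm_le
    rw [Metric.isBounded_iff_subset_closedBall 0]
    refine ⟨R, fun y hy => ?_⟩
    rw [mem_closedBall_zero_iff]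
    exact (norm_le_mk _ y).trans (hR _ hy)
  have hpre : volume S = (volume.prod volume) ((fun p : ℝ × E N => mk p.1 p.2) ⁻¹' S) :=
    ((h2 N).measure_preimage hmeas.nullMeasurableSet).symm
  have hmeasP : MeasurableSet ((fun p : ℝ × E N => mk p.1 p.2) ⁻¹' S) :=
    (h2 N).measurable hmeas
  rw [hpre, Measure.prod_apply hmeasP]
  have hfin' : ∫⁻ r, volume (Prod.mk r ⁻¹' ((fun p : ℝ × E N => mk p.1 p.2) ⁻¹' S)) ≠ ∞ := by
    rw [← Measure.prod_apply hmeasP, ← hpre]
    exact hfin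
  have hm : Measurable fun r : ℝ =>
      volume (Prod.mk r ⁻¹' ((fun p : ℝ × E N => mk p.1 p.2) ⁻¹' S)) :=
    measurable_measure_prodMk_left hmeasP
  rw [← integral_toReal hm.aemeasurable (ae_lt_top hm hfin')]
  apply integral_congr_ae
  refine Filter.Eventually.of_forall fun r => ?_
  show (volume (Prod.mk r ⁻¹' ((fun p : ℝ × E N => mk p.1 p.2) ⁻¹' S))).toReal =
    (volume {z : E N | mk2 (-(t * r)) r z ∈ K}).toReal
  congr 2
  ext z
  show mk (-⟪v, mk r z⟫) (mk r z) ∈ K ↔ mk2 (-(t * r)) r z ∈ K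
  rw [hv r z]
  rfl

/-- the swap of the first two coordinates -/
noncomputable def sw (N : ℕ) : E (N + 2) ≃ₗᵢ[ℝ] E (N + 2) :=
  LinearIsometryEquiv.piLpCongrLeft 2 ℝ ℝ (Equiv.swap (0 : Fin (N + 2)) 1)

theorem sw_apply {N : ℕ} (x : E (N + 2)) (i : Fin (N + 2)) :
    sw N x i = x (Equiv.swap (0 : Fin (N + 2)) 1 i) := by
  simp [sw, LinearIsometryEquiv.piLpCongrLeft_apply]

theorem sw_sw {N : ℕ} (x : E (N + 2)) : sw N (sw N x) = x := by
  ext i
  rw [sw_apply, sw_apply, Equiv.swap_apply_self]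

theorem sw_mk2 {N : ℕ} (a b : ℝ) (z : E N) : sw N (mk2 a b z) = mk2 b a z := by
  ext i
  rw [sw_apply]
  refine Fin.cases ?_ (fun j => ?_) i
  · rw [Equiv.swap_apply_left]
    rfl
  · refine Fin.cases ?_ (fun k => ?_) j
    · have : (Fin.succ 0 : Fin (N + 2)) = 1 := rfl
      rw [this, Equiv.swap_apply_right]
      rfl
    · have h0 : (k.succ.succ : Fin (N + 2)) ≠ 0 := Fin.succ_ne_zero _
      have h1 : (k.succ.succ : Fin (N + 2)) ≠ 1 := by
        intro h
        have := congrArg Fin.val h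
        simp at this
      rw [Equiv.swap_apply_of_ne_of_ne h0 h1]
      rfl

theorem sw_adj {N : ℕ} (x : E (N + 2)) :
    LinearMap.adjoint ((sw N).toLinearEquiv : E (N + 2) →ₗ[ℝ] E (N + 2)) x = sw N x := by
  apply ext_inner_right ℝ
  intro y
  rw [LinearMap.adjoint_inner_left]
  show (⟪x, sw N y⟫ : ℝ) = ⟪sw N x, y⟫
  rw [← (sw N).inner_map_map (sw N x) y, sw_sw]

theorem sw_det {N : ℕ} :
    |LinearMap.det ((sw N).toLinearEquiv : E (N + 2) →ₗ[ℝ] E (N + 2))| = 1 := by
  have h : ((sw N).toLinearEquiv : E (N + 2) →ₗ[ℝ] E (N + 2)) ∘ₗ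
      ((sw N).toLinearEquiv : E (N + 2) →ₗ[ℝ] E (N + 2)) = LinearMap.id := by
    ext1 x
    exact sw_sw x
  have h2 := congrArg LinearMap.det h
  rw [LinearMap.det_comp, LinearMap.det_id] at h2
  have h3 : |LinearMap.det ((sw N).toLinearEquiv : E (N + 2) →ₗ[ℝ] E (N + 2))| ^ 2 = 1 := by
    rw [sq_abs, pow_two]
    exact h2
  have h4 := abs_nonneg (LinearMap.det ((sw N).toLinearEquiv : E (N + 2) →ₗ[ℝ] E (N + 2)))
  nlinarith

end BU2aux

open BU2aux in
theorem BU2_ok (h1 : S_HSEC) (h2 : S_MP) (h3 : S_COV) (h4 : S_GS) : S_BU2 := by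
  intro N K hK
  have e1 : ∀ K : Set (E (N + 2)), Body K → A K (mk2 1 0 0) = ∫ r, hh K 0 r := by
    intro K hK
    have := sec h1 h2 K hK (mk 0 0) 0 (by
      intro r z
      rw [inner_mk, inner_zero_left]
      ring)
    simp only [zero_mul, neg_zero] at this
    exact this
  refine ⟨e1 K hK, ?_, ?_⟩
  · have hT := (h4 K hK).2 (sw N).toLinearEquiv
    have hcov := h3 K hK (sw N).toLinearEquiv (mk2 1 0 0) (by
      intro h
      have := congrArg (fun x : E (N + 2) => x 0) h
      simp [mk2, mk_zero_apply] at this)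
    rw [sw_adj, sw_det, one_mul, sw_mk2] at hcov
    rw [← hcov, e1 _ hT.1]
    apply integral_congr_ae
    refine Filter.Eventually.of_forall fun r => ?_
    show (volume {z : E N | mk2 0 r z ∈ (sw N).toLinearEquiv '' K}).toReal =
      (volume {z : E N | mk2 r 0 z ∈ K}).toReal
    congr 2
    ext z
    constructor
    · rintro ⟨x, hx, hxe⟩
      have hx' : sw N x = mk2 0 r z := hxe
      have : x = mk2 r 0 z := by
        rw [← sw_sw x, hx', sw_mk2]
      show mk2 r 0 z ∈ K
      rw [← this]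
      exact hx
    · intro hz
      exact ⟨mk2 r 0 z, hz, sw_mk2 r 0 z⟩
  · have := sec h1 h2 K hK (mk 1 0) 1 (by
      intro r z
      rw [inner_mk, inner_zero_left]
      ring)
    simp only [one_mul] at this
    exact this

end Pool.Agent.H638.IB
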