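import Pool.Agent.H638.IB.Defs

/-! Task BUC: Busemann's inequality in coordinates. -/

set_option autoImplicit false

open MeasureTheory Set Filter Topology Metric
open scoped Pointwise RealInnerProductSpace ENNReal

namespace Pool.Agent.H638.IB

namespace BUCaux

theorem integral_even {φ : ℝ → ℝ} (he : ∀ r, φ (-r) = φ r) :
    ∫ r, φ r = 2 * ∫ r in Ioi (0 : ℝ), φ r := by
  rw [← integral_comp_abs]
  congr 1
  ext r
  rcases abs_cases r with h | h
  · rw [h.1]
  · rw [h.1, he]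

theorem integral_Ioi_eq {φ : ℝ → ℝ} {f : ℝ} (hf : 0 < f) (h0 : ∀ r, f < r → φ r = 0) :
    ∫ r in Ioi (0 : ℝ), φ r = ∫ r in Ioo 0 f, φ r := by
  rw [← integral_Ioc_eq_integral_Ioo]
  apply setIntegral_eq_of_subset_of_forall_sdiff_eq_zero measurableSet_Ioi
  · exact fun x hx => hx.1
  · rintro x ⟨hx, hx'⟩
    apply h0
    by_contra hc
    exact hx' ⟨hx, not_lt.1 hc⟩

theorem mk2_ne_a {N : ℕ} (b : ℝ) (z : E N) : mk2 1 b z ≠ 0 := mk_one_ne _

theorem mk2_ne_b {N : ℕ} (z : E N) : mk2 0 1 z ≠ 0 := by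
  intro h
  unfold mk2 at h
  rw [← mk_zero_zero, mk_inj] at h
  exact mk_one_ne _ h.2

/-- the one-variable part -/
theorem core {φ : ℝ → ℝ} (h0 : ∀ r, 0 ≤ φ r) (he : ∀ r, φ (-r) = φ r)
    (hI : 0 < ∫ r, φ r) : ∃ δ > 0, 0 < φ δ := by
  by_contra hc
  push Not at hc
  rw [integral_even he] at hI
  have : ∫ r in Ioi (0 : ℝ), φ r = 0 := by
    apply setIntegral_eq_zero_of_forall_eq_zero
    intro x hx
    exact le_antisymm (hc x hx) (h0 x)
  rw [this] at hI
  simp at hI

end BUCaux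

open BUCaux in
theorem BUC_ok (h1 : S_BU1) (h2 : S_BU2) (hHP : S_HP) (hLCR : S_LCR) (hBND : S_BND) : S_BUC := by
  intro N K hK
  obtain ⟨hev, hnn, hpos, ⟨M, hM, hsupp⟩, hmeas, hlc⟩ := h1 K hK
  obtain ⟨e10, e01, e11⟩ := h2 K hK
  obtain ⟨c, C, hc, hC, hbnd⟩ := hBND K hK
  have pA : ∀ x : E (N + 2), x ≠ 0 → 0 < A K x := fun x hx =>
    lt_of_lt_of_le (div_pos hc (norm_pos_iff.2 hx)) (hbnd x hx).1
  have p10 := pA (mk2 1 0 0) (mk2_ne_a _ _)
  have p01 := pA (mk2 0 1 0) (mk2_ne_b _)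
  have p11 := pA (mk2 1 1 0) (mk2_ne_a _ _)
  set P : ℝ → ℝ := fun a => hh K (-a) 0 with hP
  set Q : ℝ → ℝ := fun b => hh K 0 b with hQ
  set H : ℝ → ℝ := fun r => hh K (-r) r with hH
  have evP : ∀ r, P (-r) = P r := fun r => by
    have := hev (-r) 0
    simp only [hP]
    rw [← this]
    simp
  have evQ : ∀ r, Q (-r) = Q r := fun r => by
    have := hev 0 r
    simp only [hQ]
    rw [← this]
    simp
  have evH : ∀ r, H (-r) = H r := fun r => by
    have := hev (-r) r
    simp only [hH]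
    rw [← this]
  have eP : A K (mk2 0 1 0) = ∫ r, P r := by
    rw [e01]
    have := integral_neg_eq_self (fun r => hh K r 0) volume
    simp only [hP]
    rw [this]
  have eQ : A K (mk2 1 0 0) = ∫ r, Q r := e10
  have eH : A K (mk2 1 1 0) = ∫ r, H r := e11
  -- log-concavity
  have lcP : ∀ a b l : ℝ, 0 < l → l < 1 →
      P a ^ l * P b ^ (1 - l) ≤ P (l * a + (1 - l) * b) := by
    intro a b l hl hl'
    have := hlc (-a) 0 (-b) 0 l hl hl'
    simp only [hP]
    refine this.trans (le_of_eq ?_)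
    congr 1 <;> ring
  have lcQ : ∀ a b l : ℝ, 0 < l → l < 1 →
      Q a ^ l * Q b ^ (1 - l) ≤ Q (l * a + (1 - l) * b) := by
    intro a b l hl hl'
    have := hlc 0 a 0 b l hl hl'
    simp only [hQ]
    refine this.trans (le_of_eq ?_)
    congr 1; ring
  have lcH : ∀ a b l : ℝ, 0 < l → l < 1 →
      H a ^ l * H b ^ (1 - l) ≤ H (l * a + (1 - l) * b) := by
    intro a b l hl hl'
    have := hlc (-a) a (-b) b l hl hl'
    simp only [hH]
    refine this.trans (le_of_eq ?_)
    congr 1; ring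
  obtain ⟨f, hf, cP, posP, zP, bP⟩ := hLCR P (fun r => hnn _ _) evP (by simpa [hP] using hpos)
    ⟨M, fun r hr => hsupp _ _ (Or.inl (by rw [abs_neg]; exact lt_of_lt_of_le hr (le_abs_self r)))⟩
    lcP (core (fun r => hnn _ _) evP (eP ▸ p01))
  obtain ⟨g, hg, cQ, posQ, zQ, bQ⟩ := hLCR Q (fun r => hnn _ _) evQ (by simpa [hQ] using hpos)
    ⟨M, fun r hr => hsupp _ _ (Or.inr (lt_of_lt_of_le hr (le_abs_self r)))⟩
    lcQ (core (fun r => hnn _ _) evQ (eQ ▸ p10))
  have mP : Measurable P := hmeas.comp (by fun_prop : Measurable fun a : ℝ => (-a, (0 : ℝ)))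
  have mQ : Measurable Q := hmeas.comp (by fun_prop : Measurable fun a : ℝ => ((0 : ℝ), a))
  have mH : Measurable H := hmeas.comp (by fun_prop : Measurable fun a : ℝ => (-a, a))
  have iP : IntegrableOn P (Ioo 0 f) := by
    refine Measure.integrableOn_of_bounded (M := P 0) (by simp) mP.aestronglyMeasurable ?_
    exact Eventually.of_forall fun r => by
      rw [Real.norm_eq_abs, abs_of_nonneg (hnn _ _)]
      exact bP r
  have iQ : IntegrableOn Q (Ioo 0 g) := by
    refine Measure.integrableOn_of_bounded (M := Q 0) (by simp) mQ.aestronglyMeasurable ?_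
    exact Eventually.of_forall fun r => by
      rw [Real.norm_eq_abs, abs_of_nonneg (hnn _ _)]
      exact bQ r
  have bH : ∀ r, H r ≤ H 0 := by
    intro r
    have := lcH r (-r) (1 / 2) (by norm_num) (by norm_num)
    rw [evH] at this
    have hr0 : 0 ≤ H r := hnn _ _
    have e : H r = H r ^ (1 / 2 : ℝ) * H r ^ (1 - 1 / 2 : ℝ) := by
      rw [← Real.rpow_add_of_nonneg hr0 (by norm_num) (by norm_num)]
      norm_num
    rw [e]
    refine this.trans (le_of_eq ?_)
    congr 1; ring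
  have iH : IntegrableOn H (Ioi 0) := by
    have i1 : IntegrableOn H (Ioc 0 M) := by
      refine Measure.integrableOn_of_bounded (M := H 0) (by simp) mH.aestronglyMeasurable ?_
      exact Eventually.of_forall fun r => by
        rw [Real.norm_eq_abs, abs_of_nonneg (hnn _ _)]
        exact bH r
    refine i1.of_forall_sdiff_eq_zero measurableSet_Ioi ?_
    rintro x ⟨hx, hx'⟩
    apply hsupp
    right
    rw [abs_of_pos hx]
    by_contra hcon
    exact hx' ⟨hx, not_lt.1 hcon⟩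
  have key := hHP P Q H f g hf hg cP cQ posP posQ iP iQ (fun r => hnn _ _) iH (by
    intro a ha b hb
    have hab : 0 < a + b := add_pos ha.1 hb.1
    have := hlc (-a) 0 0 b (b / (a + b)) (div_pos hb.1 hab)
      ((div_lt_one hab).2 (by linarith [ha.1]))
    have e : 1 - b / (a + b) = a / (a + b) := by field_simp; ring
    rw [e] at this
    simp only [hP, hQ, hH]
    refine this.trans (le_of_eq ?_)
    congr 1
    · ring
    · ring)
  rw [← integral_Ioi_eq hf zP, ← integral_Ioi_eq hg zQ] at key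
  have fP := integral_even evP
  have fQ := integral_even evQ
  have fH := integral_even evH
  rw [← eP] at fP
  rw [← eQ] at fQ
  rw [← eH] at fH
  have key2 : A K (mk2 0 1 0) * A K (mk2 1 0 0) ≤
      (A K (mk2 0 1 0) + A K (mk2 1 0 0)) * A K (mk2 1 1 0) := by
    rw [fP, fQ, fH]
    nlinarith [key]
  have e : (A K (mk2 1 0 0))⁻¹ + (A K (mk2 0 1 0))⁻¹ =
      (A K (mk2 0 1 0) + A K (mk2 1 0 0)) / (A K (mk2 0 1 0) * A K (mk2 1 0 0)) := by
    field_simp
  rw [e, inv_eq_one_div, div_le_div_iff₀ p11 (mul_pos p01 p10)]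
  linarith

end Pool.Agent.H638.IB
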