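import Pool.Agent.H638.IB.Defs

/-! BUS: Busemann's theorem from its version in coordinates. -/

set_option autoImplicit false

open MeasureTheory Set Filter Topology Metric
open scoped Pointwise RealInnerProductSpace ENNReal

namespace Pool.Agent.H638.IB

namespace BUSaux

theorem exists_S {n : ℕ} (v w : Fin 2 → E n) (hv : LinearIndependent ℝ v) (hw : LinearIndependent ℝ w) :
    ∃ S : E n ≃ₗ[ℝ] E n, ∀ i, S (v i) = w i := by
  obtain ⟨S, hS⟩ := Submodule.exists_linearEquiv_restrict_eq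
    ((Module.Basis.span hv).equiv (Module.Basis.span hw) (Equiv.refl (Fin 2)))
  refine ⟨S, fun i => ?_⟩
  have h1 := hS (Module.Basis.span hv i)
  rw [Module.Basis.equiv_apply, Equiv.refl_apply, Module.Basis.span_apply, Module.Basis.span_apply] at h1
  exact h1.symm

theorem indep {N : ℕ} : LinearIndependent ℝ ![mk2 1 0 (0 : E N), mk2 0 1 (0 : E N)] := by
  rw [LinearIndependent.pair_iff]
  intro s t h
  unfold mk2 at h
  rw [smul_mk, smul_mk, smul_mk, smul_mk, mk_add, mk_add] at h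
  have h0 : (0 : E (N + 2)) = mk 0 (mk 0 (0 : E N)) := by rw [mk_zero_zero, mk_zero_zero]
  rw [h0, mk_inj, mk_inj] at h
  exact ⟨by linarith [h.1], by linarith [h.2.1]⟩

theorem exists_T {n : ℕ} (S : E n ≃ₗ[ℝ] E n) : ∃ T : E n ≃ₗ[ℝ] E n,
    LinearMap.adjoint (T : E n →ₗ[ℝ] E n) = (S : E n →ₗ[ℝ] E n) := by
  have h1 : LinearMap.adjoint (S : E n →ₗ[ℝ] E n) ∘ₗ LinearMap.adjoint (S.symm : E n →ₗ[ℝ] E n) =
      LinearMap.id := by
    rw [← LinearMap.adjoint_comp, LinearEquiv.symm_comp, LinearMap.adjoint_id]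
  have h2 : LinearMap.adjoint (S.symm : E n →ₗ[ℝ] E n) ∘ₗ LinearMap.adjoint (S : E n →ₗ[ℝ] E n) =
      LinearMap.id := by
    rw [← LinearMap.adjoint_comp, LinearEquiv.comp_symm, LinearMap.adjoint_id]
  refine ⟨LinearEquiv.ofLinearMap (LinearMap.adjoint (S : E n →ₗ[ℝ] E n))
    (LinearMap.adjoint (S.symm : E n →ₗ[ℝ] E n)) h1 h2, ?_⟩
  have h3 : ((LinearEquiv.ofLinearMap (LinearMap.adjoint (S : E n →ₗ[ℝ] E n))
      (LinearMap.adjoint (S.symm : E n →ₗ[ℝ] E n)) h1 h2 : E n ≃ₗ[ℝ] E n) : E n →ₗ[ℝ] E n) =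
      LinearMap.adjoint (S : E n →ₗ[ℝ] E n) := by
    ext x; rfl
  rw [h3, LinearMap.adjoint_adjoint]

end BUSaux

open BUSaux in
theorem BUS_ok (hBUC : S_BUC) (hCOV : S_COV) (hGS : S_GS) (hHOM : S_HOM) : S_BUS := by
  intro N K hK x y hx hy hxy
  have hpos : ∀ z, 0 ≤ A K z := (hHOM K).2.1
  by_cases hlin : LinearIndependent ℝ ![x, y]
  · obtain ⟨S, hS⟩ := exists_S _ _ hlin indep
    have hSx : S x = mk2 1 0 0 := hS 0
    have hSy : S y = mk2 0 1 0 := hS 1
    have hSxy : S (x + y) = mk2 1 1 0 := by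
      rw [map_add, hSx, hSy]
      unfold mk2
      rw [mk_add, mk_add, add_zero, zero_add, add_zero]
    obtain ⟨T, hT⟩ := exists_T S
    have hK' : Body (T.symm '' K) := ((hGS K hK).2 T.symm).1
    have himg : T '' (T.symm '' K) = K := by
      rw [← image_comp]
      have : (T ∘ T.symm : E (N + 2) → E (N + 2)) = id := by
        funext z; simp
      rw [this, image_id]
    have hA : ∀ z, z ≠ 0 → A K z = |LinearMap.det (T : E (N + 2) →ₗ[ℝ] E (N + 2))| * A (T.symm '' K) (S z) := by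
      intro z hz
      have h1 := hCOV (T.symm '' K) hK' T z hz
      rw [himg, hT] at h1
      exact h1
    have h1 := hBUC (T.symm '' K) hK'
    rw [hA x hx, hA y hy, hA (x + y) hxy, hSx, hSy, hSxy, mul_inv, mul_inv, mul_inv, ← mul_add]
    exact mul_le_mul_of_nonneg_left h1 (by positivity)
  · rw [LinearIndependent.pair_iff' hx] at hlin
    push Not at hlin
    obtain ⟨c, rfl⟩ := hlin
    have hc : c ≠ 0 := by
      rintro rfl
      exact hy (zero_smul ℝ x)
    have h1c : 1 + c ≠ 0 := by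
      intro h
      apply hxy
      calc x + c • x = (1 + c) • x := by rw [add_smul, one_smul]
        _ = 0 := by rw [h, zero_smul]
    have e1 := (hHOM K).1 c x hc
    have e2 := (hHOM K).1 (1 + c) x h1c
    have e3 : x + c • x = (1 + c) • x := by rw [add_smul, one_smul]
    rw [e3, e1, e2, mul_inv, mul_inv, inv_inv, inv_inv]
    have h4 : |1 + c| ≤ 1 + |c| := by
      have := abs_add_le 1 c
      rwa [abs_one] at this
    have h5 : 0 ≤ (A K x)⁻¹ := inv_nonneg.2 (hpos x)
    nlinarith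

end Pool.Agent.H638.IB
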