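import Pool.Agent.H638.IB.Defs

/-! Task CONT: near bodies have nearly maximal functional (helper83). -/

set_option autoImplicit false

open MeasureTheory Set Filter Topology Metric
open scoped Pointwise RealInnerProductSpace ENNReal

namespace Pool.Agent.H638.IB

namespace CONTaux

theorem body_image {n : ℕ} {K : Set (E n)} (hK : Body K) (T : E n ≃ₗ[ℝ] E n) : Body (T '' K) := by
  have hc : Continuous T := LinearMap.continuous_of_finiteDimensional (T : E n →ₗ[ℝ] E n)
  refine ⟨hK.compact.image hc, hK.convex.is_linear_image (T : E n →ₗ[ℝ] E n).isLinear, ?_, ?_⟩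
  · have h := T.toContinuousLinearEquiv.toHomeomorph.image_interior K
    have h' : T '' interior K = interior (T '' K) := h
    rw [← h']
    exact hK.int.image _
  · rintro _ ⟨x, hx, rfl⟩
    exact ⟨-x, hK.neg x hx, by simp⟩

theorem body_ball {n : ℕ} : Body (closedBall (0 : E n) 1) := by
  refine ⟨isCompact_closedBall 0 1, convex_closedBall 0 1, ?_, ?_⟩
  · exact ⟨0, mem_interior_iff_mem_nhds.mpr (closedBall_mem_nhds 0 zero_lt_one)⟩
  · intro x hx
    simpa using hx

theorem zero_mem {n : ℕ} {K : Set (E n)} (hK : Body K) : (0 : E n) ∈ K := by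
  obtain ⟨x, hx⟩ := hK.int
  have hx' := interior_subset hx
  have := hK.convex hx' (hK.neg x hx') (by norm_num : (0 : ℝ) ≤ 1 / 2)
    (by norm_num : (0 : ℝ) ≤ 1 / 2) (by norm_num)
  simpa using this

theorem sub_smul {n : ℕ} {K : Set (E n)} (hK : Body K) {l : ℝ} (hl : 1 ≤ l) : K ⊆ l • K := by
  intro x hx
  have hl0 : 0 < l := by linarith
  refine ⟨l⁻¹ • x, ?_, ?_⟩
  · have := hK.convex (zero_mem hK) hx (sub_nonneg.mpr (inv_le_one_of_one_le₀ hl))
      (inv_nonneg.mpr hl0.le) (by ring)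
    simpa using this
  · simp only [smul_smul, mul_inv_cancel₀ hl0.ne', one_smul]

end CONTaux

open CONTaux in
theorem CONT_ok (h1 : S_FNEAR) (h2 : S_FLIN) : S_CONT := by
  intro N hN δ hδ
  have hN1 : 1 ≤ N := by omega
  obtain ⟨ε, hε, hεδ⟩ : ∃ ε : ℝ, 0 < ε ∧ F (closedBall (0 : E (N + 1)) 1) - δ <
      F (closedBall (0 : E (N + 1)) 1) / (1 + ε) ^ (2 * (N + 1) * N) := by
    have hc : ContinuousAt (fun ε : ℝ => F (closedBall (0 : E (N + 1)) 1) /
        (1 + ε) ^ (2 * (N + 1) * N)) 0 := by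
      refine ContinuousAt.div continuousAt_const ?_ ?_
      · fun_prop
      · simp
    have h0 : F (closedBall (0 : E (N + 1)) 1) - δ <
        (fun ε : ℝ => F (closedBall (0 : E (N + 1)) 1) / (1 + ε) ^ (2 * (N + 1) * N)) 0 := by
      simp only [add_zero, one_pow, div_one]; linarith
    have hev := hc.eventually_const_lt h0
    obtain ⟨r, hr, hball⟩ := Metric.eventually_nhds_iff_ball.mp hev
    exact ⟨r / 2, by positivity, hball (r / 2) (by
      rw [mem_ball, dist_zero_right, Real.norm_eq_abs, abs_of_pos (by positivity)]; linarith)⟩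
  refine ⟨ε, hε, ?_⟩
  intro K hK hnear
  obtain ⟨T, hT1, hT2⟩ := hnear
  have hTK := body_image hK T
  have hl : (1 : ℝ) ≤ 1 + ε := by linarith
  have hl0 : (0 : ℝ) < 1 + ε := by linarith
  have hA : T '' K ⊆ (1 + ε) • closedBall (0 : E (N + 1)) 1 := by
    rw [smul_unitClosedBall, Real.norm_eq_abs, abs_of_pos hl0]
    exact hT2
  have hB : closedBall (0 : E (N + 1)) 1 ⊆ (1 + ε) • (T '' K) :=
    hT1.trans (sub_smul hTK hl)
  have h3 := (h1 hN1 (T '' K) (closedBall 0 1) hTK body_ball (1 + ε) hl hA hB).1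
  rw [h2 hN1 K hK T] at h3
  have hp : 0 < (1 + ε) ^ (2 * (N + 1) * N) := pow_pos hl0 _
  have h4 : F (closedBall (0 : E (N + 1)) 1) / (1 + ε) ^ (2 * (N + 1) * N) ≤ F K := by
    rw [div_le_iff₀ hp, mul_comm]; exact h3
  linarith

end Pool.Agent.H638.IB
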