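import Mathlib
import Pool.Agent.H638.IB.Defs

set_option autoImplicit false

open MeasureTheory Set Filter Topology Metric
open scoped Pointwise RealInnerProductSpace ENNReal

namespace Pool.Agent.H638.IB.COVaux

variable {n : ℕ}

theorem image_slab (K : Set (E n)) (T : E n ≃ₗ[ℝ] E n) (x : E n) (ε : ℝ) :
    T '' K ∩ {z | |⟪x, z⟫| ≤ ε} =
      (T : E n →ₗ[ℝ] E n) ''
        (K ∩ {z | |⟪LinearMap.adjoint (T : E n →ₗ[ℝ] E n) x, z⟫| ≤ ε}) := by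
  ext z
  constructor
  · rintro ⟨⟨y, hy, rfl⟩, hz⟩
    refine ⟨y, ⟨hy, ?_⟩, rfl⟩
    show |⟪LinearMap.adjoint (T : E n →ₗ[ℝ] E n) x, y⟫| ≤ ε
    rw [LinearMap.adjoint_inner_left]
    exact hz
  · rintro ⟨y, ⟨hy, hz⟩, rfl⟩
    refine ⟨⟨y, hy, rfl⟩, ?_⟩
    show |⟪x, (T : E n →ₗ[ℝ] E n) y⟫| ≤ ε
    rw [← LinearMap.adjoint_inner_left]
    exact hz

theorem vol_slab (K : Set (E n)) (T : E n ≃ₗ[ℝ] E n) (x : E n) (ε : ℝ) :
    vol (T '' K ∩ {z | |⟪x, z⟫| ≤ ε}) = |LinearMap.det (T : E n →ₗ[ℝ] E n)| *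
      vol (K ∩ {z | |⟪LinearMap.adjoint (T : E n →ₗ[ℝ] E n) x, z⟫| ≤ ε}) := by
  unfold vol
  rw [image_slab, Measure.addHaar_image_linearMap, ENNReal.toReal_mul,
    ENNReal.toReal_ofReal (abs_nonneg _)]

theorem adjoint_ne (T : E n ≃ₗ[ℝ] E n) (x : E n) (hx : x ≠ 0) :
    LinearMap.adjoint (T : E n →ₗ[ℝ] E n) x ≠ 0 := by
  intro h
  have h1 : (⟪x, (T : E n →ₗ[ℝ] E n) (T.symm x)⟫ : ℝ) = 0 := by
    rw [← LinearMap.adjoint_inner_left, h, inner_zero_left]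
  have h2 : (T : E n →ₗ[ℝ] E n) (T.symm x) = x := T.apply_symm_apply x
  rw [h2, inner_self_eq_zero] at h1
  exact hx h1

end Pool.Agent.H638.IB.COVaux

namespace Pool.Agent.H638.IB

theorem COV_ok (hSLAB : S_SLAB) (hGS : S_GS) : S_COV := by
  intro n K hK T x hx
  have h1 := hSLAB (T '' K) ((hGS K hK).2 T).1 x hx
  have h2 := (hSLAB K hK _ (COVaux.adjoint_ne T x hx)).const_mul
    |LinearMap.det (T : E n →ₗ[ℝ] E n)|
  refine tendsto_nhds_unique h1 (h2.congr fun ε => ?_)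
  rw [COVaux.vol_slab, mul_div_assoc]

end Pool.Agent.H638.IB
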