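import Pool.Agent.H638.IB.Defs

/-! Task CPT: compactness modulo linear maps (helper83). -/

set_option autoImplicit false

open MeasureTheory Set Filter Topology Metric
open scoped Pointwise RealInnerProductSpace ENNReal

namespace Pool.Agent.H638.IB

theorem CPT_ok (h1 : S_POSN) (h2 : S_SEL) (h3 : S_GS) : S_CPT := by
  intro n K hK
  obtain ⟨C, hC, hT⟩ := h1 n
  choose T hT1 hT2 using fun j => hT (K j) (hK j)
  have hB : ∀ j, Body (T j '' K j) := fun j => ((h3 (K j) (hK j)).2 (T j)).1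
  obtain ⟨L, φ, hL, hφ, hε⟩ := h2 n C hC (fun j => T j '' K j) hB (fun j => ⟨hT1 j, hT2 j⟩)
  exact ⟨L, fun j => T (φ j), φ, hL, hφ, hε⟩

end Pool.Agent.H638.IB
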