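import Pool.Agent.H638.IB.Defs

set_option autoImplicit false

open MeasureTheory Set Filter Topology Metric
open scoped Pointwise RealInnerProductSpace ENNReal

namespace Pool.Agent.H638.IB

theorem DM_ok (hGB : S_GB) (hGS : S_GS) (hGI : S_GINT) (hBA : S_BATH) : S_DM := by
  intro N hN K L hK hL
  obtain ⟨-, -, -, -, -, -, ha, hKf, -⟩ := hGB K hK
  obtain ⟨-, -, -, -, -, -, hb, hLf, -⟩ := hGB L hL
  set a := vol K with ha_def
  set b := vol L with hb_def
  set c : ℝ := (a / b) ^ (((N + 1 : ℕ) : ℝ)⁻¹) with hc_def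
  have hc : 0 < c := Real.rpow_pos_of_pos (div_pos ha hb) _
  have hcp : c ^ (N + 1) = a / b := by
    rw [hc_def, Real.rpow_inv_natCast_pow (div_pos ha hb).le (Nat.succ_ne_zero N)]
  obtain ⟨hL', hvL', hgL'⟩ := (hGS L hL).1 c hc
  have hvol : vol (c • L) = a := by
    rw [hvL', hcp, ← hb_def]
    field_simp
  obtain ⟨-, -, -, -, -, -, -, hLf', -⟩ := hGB (c • L) hL'
  have hvv : volume K = volume (c • L) := by
    rw [← ENNReal.toReal_eq_toReal_iff' hKf hLf']
    exact hvol.symm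
  set I := ∫⁻ x in K, ENNReal.ofReal (gauge L x)⁻¹ with hI_def
  have hIf : I ≠ ∞ := (hGI hN K L hK hL).1
  have hIK : ∫⁻ x in K, ENNReal.ofReal (gauge (c • L) x)⁻¹ = ENNReal.ofReal c * I := by
    rw [hI_def, ← lintegral_const_mul' _ _ ENNReal.ofReal_ne_top]
    refine lintegral_congr fun x => ?_
    rw [hgL', mul_inv, inv_inv, ENNReal.ofReal_mul hc.le]
  have hIL : ∫⁻ x in (c • L), ENNReal.ofReal (gauge (c • L) x)⁻¹
      = ENNReal.ofReal ((N + 1) / N) * volume K := by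
    rw [(hGI hN (c • L) (c • L) hL' hL').2, hvv]
  obtain ⟨hB1, hB2⟩ := hBA hN K (c • L) hK hL' hvv
  rw [hIK, hIL] at hB1 hB2
  have hN0 : (0 : ℝ) < N := by exact_mod_cast hN
  have hN1 : (0 : ℝ) ≤ ((N : ℝ) + 1) / N := by positivity
  have hI0 : 0 ≤ I.toReal := ENNReal.toReal_nonneg
  have hle : c * I.toReal ≤ ((N : ℝ) + 1) / N * a := by
    have h1 := ENNReal.toReal_mono (ENNReal.mul_ne_top ENNReal.ofReal_ne_top hKf) hB1
    rwa [ENNReal.toReal_mul, ENNReal.toReal_mul, ENNReal.toReal_ofReal hc.le,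
      ENNReal.toReal_ofReal hN1] at h1
  have key : ∀ t : ℝ, (c * t) ^ (N + 1) = a / b * t ^ (N + 1) := by
    intro t
    rw [mul_pow, hcp]
  have key2 : (((N : ℝ) + 1) / N * a) ^ (N + 1)
      = a / b * ((((N : ℝ) + 1) / N) ^ (N + 1) * a ^ N * b) := by
    rw [mul_pow, pow_succ a N]
    field_simp
  refine ⟨?_, fun heq => ?_⟩
  · have h2 := pow_le_pow_left₀ (mul_nonneg hc.le hI0) hle (N + 1)
    rw [key, key2] at h2
    exact le_of_mul_le_mul_left h2 (div_pos ha hb)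
  · have h2 : (c * I.toReal) ^ (N + 1) = (((N : ℝ) + 1) / N * a) ^ (N + 1) := by
      rw [key, key2, heq]
    have h3 : c * I.toReal = ((N : ℝ) + 1) / N * a :=
      (pow_left_inj₀ (mul_nonneg hc.le hI0) (mul_nonneg hN1 ha.le) (Nat.succ_ne_zero N)).1 h2
    have h4 : ENNReal.ofReal c * I = ENNReal.ofReal ((N + 1) / N) * volume K := by
      rw [← ENNReal.toReal_eq_toReal_iff' (ENNReal.mul_ne_top ENNReal.ofReal_ne_top hIf)
        (ENNReal.mul_ne_top ENNReal.ofReal_ne_top hKf), ENNReal.toReal_mul, ENNReal.toReal_mul,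
        ENNReal.toReal_ofReal hc.le, ENNReal.toReal_ofReal hN1]
      exact h3
    refine ⟨c⁻¹, inv_pos.2 hc, ?_⟩
    rw [hB2 h4, smul_smul, inv_mul_cancel₀ hc.ne', one_smul]

end Pool.Agent.H638.IB
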