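import Pool.Agent.H638.IB.Defs

set_option autoImplicit false

open MeasureTheory Set Filter Topology Metric
open scoped Pointwise RealInnerProductSpace ENNReal

namespace Pool.Agent.H638.IB

namespace DMVaux

/-- the sections in the chart are bounded -/
theorem aE_ne_top (h5 : S_GB) {N : ℕ} (K : Set (E (N + 1))) (hK : Body K) (v : E N) :
    aE K v ≠ ∞ := by
  obtain ⟨⟨r, R, hr, hR, h1, h2⟩, -⟩ := h5 K hK
  have hsub : {y : E N | mk (-⟪v, y⟫) y ∈ K} ⊆ closedBall 0 R := by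
    intro y hy
    have h3 := h2 hy
    rw [mem_closedBall_zero_iff] at h3 ⊢
    have h4 := norm_mk_sq (-⟪v, y⟫) y
    have h6 : ‖y‖ ^ 2 ≤ ‖mk (-⟪v, y⟫) y‖ ^ 2 := by rw [h4]; nlinarith [sq_nonneg (-⟪v, y⟫ : ℝ)]
    have h7 : ‖y‖ ≤ ‖mk (-⟪v, y⟫) y‖ := by
      exact (abs_le_of_sq_le_sq' h6 (norm_nonneg _)).2
    linarith
  unfold aE
  exact ((measure_mono hsub).trans_lt measure_closedBall_lt_top).ne

theorem A_eq (h2 : S_IBB) {N : ℕ} (hN : 1 ≤ N) (M : Set (E (N + 1))) (hM : Body M) :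
    A M = fun x => (gauge (IB M) x)⁻¹ := by
  obtain ⟨hb, hg⟩ := h2 hN M hM
  funext x
  by_cases hx : x = 0
  · rw [hx, gauge_zero]
    simp [A]
  · rw [hg x hx, inv_inv]

end DMVaux

theorem DMV_ok (h1 : S_POLAR) (h2 : S_IBB) (h3 : S_HSEC) (h4 : S_HOM) (h5 : S_GB) : S_DMV := by
  intro N hN K M hK hM
  obtain ⟨hKb, hKg⟩ := h2 hN K hK
  obtain ⟨hMb, hMg⟩ := h2 hN M hM
  have hmeas : Measurable (fun x : E (N + 1) => ENNReal.ofReal (A M x)) := by
    apply ENNReal.measurable_ofReal.comp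
    rw [DMVaux.A_eq h2 hN M hM]
    have hc : Continuous (gauge (IB M)) := (h5 (IB M) hMb).2.2.2.2.2.1
    exact hc.measurable.inv
  have hhom : ∀ (c : ℝ) (x : E (N + 1)), c ≠ 0 → ENNReal.ofReal (A M (c • x)) =
      ENNReal.ofReal (|c|⁻¹ ^ 1) * ENNReal.ofReal (A M x) := by
    intro c x hc
    rw [(h4 M).1 c x hc, pow_one, ENNReal.ofReal_mul (by positivity)]
  rw [h1 (IB K) hKb 1 hN (fun x => ENNReal.ofReal (A M x)) hmeas hhom]
  have e1 : (2 : ℝ) / ((N : ℝ) + 1 - ((1 : ℕ) : ℝ)) = 2 / N := by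
    congr 1
    push_cast
    ring
  rw [e1]
  congr 1
  apply lintegral_congr
  intro v
  have hv : mk 1 v ≠ 0 := mk_one_ne v
  rw [hKg _ hv, inv_inv, h3 K hK v, h3 M hM v, Nat.add_sub_cancel]
  show ENNReal.ofReal ((aE K v).toReal ^ N) * ENNReal.ofReal ((aE M v).toReal) = _
  rw [ENNReal.ofReal_pow ENNReal.toReal_nonneg, ENNReal.ofReal_toReal (DMVaux.aE_ne_top h5 K hK v),
    ENNReal.ofReal_toReal (DMVaux.aE_ne_top h5 M hM v)]

end Pool.Agent.H638.IB
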