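import Mathlib
import Pool.Agent.H638.IB.Defs

set_option autoImplicit false

open MeasureTheory Set Filter Topology Metric
open scoped Pointwise RealInnerProductSpace ENNReal

namespace Pool.Agent.H638.IB

namespace ELLaux

variable {n : ℕ}

/-- the reflection -/
noncomputable def refl (ψ : E n →ₗ[ℝ] ℝ) (e : E n) : E n →ₗ[ℝ] E n :=
  LinearMap.id - (2 : ℝ) • ψ.smulRight e

theorem refl_apply (ψ : E n →ₗ[ℝ] ℝ) (e x : E n) : refl ψ e x = x - (2 * ψ x) • e := by
  simp only [refl, LinearMap.sub_apply, LinearMap.id_apply, LinearMap.smul_apply,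
    LinearMap.smulRight_apply, smul_smul]

theorem refl_refl {ψ : E n →ₗ[ℝ] ℝ} {e : E n} (h : ψ e = 1) (x : E n) :
    refl ψ e (refl ψ e x) = x := by
  rw [refl_apply, refl_apply, map_sub, map_smul, h]
  simp only [smul_eq_mul, mul_one]
  rw [show 2 * (ψ x - 2 * ψ x) = -(2 * ψ x) by ring, neg_smul]
  abel

theorem mp_refl {ψ : E n →ₗ[ℝ] ℝ} {e : E n} (h : ψ e = 1) :
    MeasurePreserving (refl ψ e) (volume : Measure (E n)) volume := by
  have hcomp : (refl ψ e) ∘ₗ (refl ψ e) = LinearMap.id := by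
    ext1 x
    exact refl_refl h x
  have hdet : LinearMap.det (refl ψ e) * LinearMap.det (refl ψ e) = 1 := by
    rw [← LinearMap.det_comp, hcomp, LinearMap.det_id]
  have habs : |LinearMap.det (refl ψ e)| = 1 := by
    have h2 : |LinearMap.det (refl ψ e)| * |LinearMap.det (refl ψ e)| = 1 := by
      rw [← abs_mul, hdet, abs_one]
    nlinarith [abs_nonneg (LinearMap.det (refl ψ e))]
  have hne : LinearMap.det (refl ψ e) ≠ 0 := by
    intro h0
    rw [h0, abs_zero] at habs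
    exact zero_ne_one habs
  refine ⟨(refl ψ e).continuous_of_finiteDimensional.measurable, ?_⟩
  rw [Measure.map_linearMap_addHaar_eq_smul_addHaar _ hne, abs_inv, habs]
  simp

theorem key (M : Set (E n)) (c : ℝ) (hc : 0 < c)
    (hiso : ∀ x : E n, ∫ z in M, ⟪x, z⟫ ^ 2 = c * ‖x‖ ^ 2) (ψ : E n →ₗ[ℝ] ℝ) (e : E n)
    (he : e ≠ 0) (hψ : ψ e = 1) (hM : ∀ x ∈ M, x - (2 * ψ x) • e ∈ M) :
    ∀ x, ψ x = ⟪e, x⟫ / ‖e‖ ^ 2 := by
  -- the Riesz representative
  obtain ⟨w, hw⟩ : ∃ w : E n, ∀ x, ψ x = ⟪w, x⟫ := by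
    refine ⟨(InnerProductSpace.toDual ℝ (E n)).symm (LinearMap.toContinuousLinearMap ψ), ?_⟩
    intro x
    rw [InnerProductSpace.toDual_symm_apply]
    rfl
  have hpre : (refl ψ e) ⁻¹' M = M := by
    ext x
    constructor
    · intro hx
      have h1 := hM _ hx
      rw [← refl_apply, refl_refl hψ] at h1
      exact h1
    · intro hx
      show refl ψ e x ∈ M
      rw [refl_apply]
      exact hM x hx
  have hemb : MeasurableEmbedding (refl ψ e) := by
    have hcont := (refl ψ e).continuous_of_finiteDimensional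
    let H : E n ≃ₜ E n := ⟨⟨refl ψ e, refl ψ e, refl_refl hψ, refl_refl hψ⟩, hcont, hcont⟩
    exact H.measurableEmbedding
  have hint : ∫ z in M, ⟪e, refl ψ e z⟫ ^ 2 = ∫ z in M, ⟪e, z⟫ ^ 2 := by
    have := (mp_refl hψ).setIntegral_preimage_emb hemb (fun z => ⟪e, z⟫ ^ 2) M
    rw [hpre] at this
    exact this
  have hrew : ∀ z, ⟪e, refl ψ e z⟫ = ⟪e - (2 * ‖e‖ ^ 2) • w, z⟫ := by
    intro z
    rw [refl_apply, inner_sub_right, inner_sub_left, inner_smul_right, inner_smul_left, hw,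
      real_inner_self_eq_norm_sq]
    simp only [conj_trivial]
    ring
  have h1 : c * ‖e - (2 * ‖e‖ ^ 2) • w‖ ^ 2 = c * ‖e‖ ^ 2 := by
    rw [← hiso, ← hiso, ← hint]
    congr 1
    funext z
    rw [hrew]
  have h2 : ‖e - (2 * ‖e‖ ^ 2) • w‖ ^ 2 = ‖e‖ ^ 2 := mul_left_cancel₀ hc.ne' h1
  have hwe : (⟪e, w⟫ : ℝ) = 1 := by rw [real_inner_comm, ← hw, hψ]
  rw [norm_sub_sq_real, inner_smul_right, hwe, norm_smul, Real.norm_eq_abs, mul_pow, sq_abs] at h2
  have hepos : 0 < ‖e‖ ^ 2 := by have := norm_pos_iff.mpr he; positivity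
  have h3 : ‖e‖ ^ 2 * ‖w‖ ^ 2 = 1 := by
    have h4 : 4 * ‖e‖ ^ 2 * (‖e‖ ^ 2 * ‖w‖ ^ 2 - 1) = 0 := by linear_combination h2
    have h5 : (4 * ‖e‖ ^ 2) ≠ 0 := by positivity
    have := (mul_eq_zero.mp h4).resolve_left h5
    linarith
  have h6 : w = (1 / ‖e‖ ^ 2) • e := by
    rw [← sub_eq_zero, ← norm_eq_zero, ← sq_eq_zero_iff]
    rw [norm_sub_sq_real, inner_smul_right, real_inner_comm, hwe, norm_smul, mul_pow,
      Real.norm_eq_abs, sq_abs]
    have h7 : ‖w‖ ^ 2 = 1 / ‖e‖ ^ 2 := by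
      field_simp
      linarith
    rw [h7]
    field_simp
    ring
  intro x
  rw [hw, h6, inner_smul_left]
  simp only [conj_trivial]
  ring

end ELLaux

open ELLaux in
theorem ELL_ok (hISO : S_ISO) (hGS : S_GS) (hGB : S_GB) : S_ELL := by
  intro n K hK hrefl
  obtain ⟨T, c, hc, hiso⟩ := hISO K hK
  have hM : Body (T '' K) := ((hGS K hK).2 T).1
  obtain ⟨⟨r, R₀, hr, -, hrM, -⟩, -⟩ := hGB (T '' K) hM
  set M := T '' K with hMdef
  -- orthogonal reflections
  have horth : ∀ e : E n, e ≠ 0 → ∀ x ∈ M, x - (2 * (⟪e, x⟫ / ‖e‖ ^ 2)) • e ∈ M := by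
    intro e he
    obtain ⟨φ, hφ1, hφ2⟩ := hrefl (T.symm e) (by
      intro h0
      apply he
      have := congrArg T h0
      simpa using this)
    have hψ1 : (φ ∘ₗ (T.symm : E n →ₗ[ℝ] E n)) e = 1 := by simpa using hφ1
    have hψ2 : ∀ x ∈ M, x - (2 * (φ ∘ₗ (T.symm : E n →ₗ[ℝ] E n)) x) • e ∈ M := by
      rintro x ⟨z, hz, rfl⟩
      refine ⟨z - (2 * φ z) • T.symm e, hφ2 z hz, ?_⟩
      simp
    have hk := key M c hc hiso _ e he hψ1 hψ2
    intro x hx
    rw [← hk x]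
    exact hψ2 x hx
  have hrad : ∀ x y : E n, ‖x‖ = ‖y‖ → x ∈ M → y ∈ M := by
    intro x y hxy hx
    by_cases h : x = y
    · rwa [← h]
    have he : x - y ≠ 0 := sub_ne_zero.mpr h
    have h1 := horth (x - y) he x hx
    have h2 : 2 * (⟪x - y, x⟫ / ‖x - y‖ ^ 2) = 1 := by
      have h3 : ‖x - y‖ ^ 2 = 2 * ⟪x - y, x⟫ := by
        rw [norm_sub_sq_real, inner_sub_left, real_inner_self_eq_norm_sq, ← hxy,
          real_inner_comm x y]
        ring
      have h4 : 0 < ‖x - y‖ ^ 2 := by have := norm_pos_iff.mpr he; positivity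
      rw [h3] at h4 ⊢
      have h5 : (⟪x - y, x⟫ : ℝ) ≠ 0 := by
        intro h0
        rw [h0, mul_zero] at h4
        exact lt_irrefl _ h4
      field_simp
    rw [h2, one_smul] at h1
    simpa using h1
  have h0M : (0 : E n) ∈ M := hrM (by simp [hr.le])
  obtain ⟨z, hzM, hz⟩ := hM.compact.exists_isMaxOn ⟨0, h0M⟩ (continuous_norm.continuousOn)
  have hball : M = closedBall 0 ‖z‖ := by
    apply Subset.antisymm
    · intro x hx
      rw [mem_closedBall_zero_iff]
      exact hz hx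
    · intro y hy
      rw [mem_closedBall_zero_iff] at hy
      by_cases hy0 : y = 0
      · rw [hy0]; exact h0M
      have hyn : 0 < ‖y‖ := norm_pos_iff.mpr hy0
      have hzn : 0 < ‖z‖ := lt_of_lt_of_le hyn hy
      have h1 : (‖z‖ / ‖y‖) • y ∈ M := by
        apply hrad z _ _ hzM
        rw [norm_smul, Real.norm_of_nonneg (by positivity)]
        field_simp
      have h2 : y = (‖y‖ / ‖z‖) • ((‖z‖ / ‖y‖) • y) := by
        rw [smul_smul]
        have : ‖y‖ / ‖z‖ * (‖z‖ / ‖y‖) = 1 := by field_simp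
        rw [this, one_smul]
      rw [h2]
      exact hM.convex.smul_mem_of_zero_mem h0M h1
        ⟨by positivity, (div_le_one hzn).mpr hy⟩
  by_cases hz0 : ‖z‖ = 0
  · refine ⟨T, ?_⟩
    rw [← hMdef]
    apply Subset.antisymm
    · rw [hball, hz0]
      exact closedBall_subset_closedBall zero_le_one
    · intro x _
      by_cases hx0 : x = 0
      · rw [hx0]; exact h0M
      exfalso
      have hxn : 0 < ‖x‖ := norm_pos_iff.mpr hx0
      have h1 : (r / ‖x‖) • x ∈ M := by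
        apply hrM
        rw [mem_closedBall_zero_iff, norm_smul, Real.norm_of_nonneg (by positivity)]
        field_simp
        exact le_refl _
      rw [hball, hz0, mem_closedBall_zero_iff, norm_smul,
        Real.norm_of_nonneg (by positivity)] at h1
      have h2 : r / ‖x‖ * ‖x‖ = r := by field_simp
      rw [h2] at h1
      linarith
  · have hzn : 0 < ‖z‖ := lt_of_le_of_ne (norm_nonneg _) (Ne.symm hz0)
    refine ⟨T.trans (LinearEquiv.smulOfNeZero ℝ (E n) (‖z‖⁻¹) (inv_ne_zero hz0)), ?_⟩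
    have h1 : (T.trans (LinearEquiv.smulOfNeZero ℝ (E n) (‖z‖⁻¹) (inv_ne_zero hz0))) '' K =
        (fun x => ‖z‖⁻¹ • x) '' M := by
      rw [hMdef, ← image_comp]
      rfl
    rw [h1, hball]
    ext x
    constructor
    · rintro ⟨y, hy, rfl⟩
      rw [mem_closedBall_zero_iff] at hy ⊢
      rw [norm_smul, Real.norm_of_nonneg (by positivity)]
      rw [inv_mul_le_iff₀ hzn, mul_one]
      exact hy
    · intro hx
      rw [mem_closedBall_zero_iff] at hx
      refine ⟨‖z‖ • x, ?_, ?_⟩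
      · rw [mem_closedBall_zero_iff, norm_smul, Real.norm_of_nonneg (by positivity)]
        calc ‖z‖ * ‖x‖ ≤ ‖z‖ * 1 := mul_le_mul_of_nonneg_left hx hzn.le
          _ = ‖z‖ := mul_one _
      · show ‖z‖⁻¹ • ‖z‖ • x = x
        rw [smul_smul, inv_mul_cancel₀ hz0, one_smul]

end Pool.Agent.H638.IB
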