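import Pool.Agent.H638.IB.Defs

/-! EPRE: ellipsoids are intersection bodies of ellipsoids. -/

set_option autoImplicit false

open MeasureTheory Set Filter Topology Metric
open scoped Pointwise RealInnerProductSpace ENNReal

namespace Pool.Agent.H638.IB

namespace EPREaux

theorem body_ball (n : ℕ) : Body (closedBall (0 : E n) 1) where
  compact := isCompact_closedBall _ _
  convex := convex_closedBall _ _
  int := ⟨0, by
    rw [mem_interior]
    exact ⟨ball 0 1, ball_subset_closedBall, isOpen_ball, mem_ball_self one_pos⟩⟩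
  neg := fun x hx => by
    rw [mem_closedBall_zero_iff] at hx ⊢
    rwa [norm_neg]

/-- the dilated adjoint of an equivalence, as an equivalence -/
theorem exists_equiv {n : ℕ} (T : E n ≃ₗ[ℝ] E n) (l : ℝ) (hl : l ≠ 0) :
    ∃ S : E n ≃ₗ[ℝ] E n, (S : E n →ₗ[ℝ] E n) =
      l • LinearMap.adjoint (T.symm : E n →ₗ[ℝ] E n) := by
  have h1 : LinearMap.adjoint (T.symm : E n →ₗ[ℝ] E n) ∘ₗ LinearMap.adjoint (T : E n →ₗ[ℝ] E n) =
      LinearMap.id := by
    rw [← LinearMap.adjoint_comp]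
    simp
  have h2 : LinearMap.adjoint (T : E n →ₗ[ℝ] E n) ∘ₗ LinearMap.adjoint (T.symm : E n →ₗ[ℝ] E n) =
      LinearMap.id := by
    rw [← LinearMap.adjoint_comp]
    simp
  refine ⟨LinearEquiv.ofLinear (l • LinearMap.adjoint (T.symm : E n →ₗ[ℝ] E n))
    (l⁻¹ • LinearMap.adjoint (T : E n →ₗ[ℝ] E n)) ?_ ?_, ?_⟩
  · rw [LinearMap.smul_comp, LinearMap.comp_smul, h1, smul_smul, mul_inv_cancel₀ hl, one_smul]
  · rw [LinearMap.smul_comp, LinearMap.comp_smul, h2, smul_smul, inv_mul_cancel₀ hl, one_smul]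
  · ext x
    rfl

end EPREaux

open EPREaux in
theorem EPRE_ok (hGB : S_GB) (hGS : S_GS) (hCOV : S_COV) (hBALL : S_BALL) (hIBB : S_IBB) :
    S_EPRE := by
  intro N hN T
  obtain ⟨κ, hκ, hball⟩ := hBALL (N := N)
  -- the determinant of the adjoint
  obtain ⟨S₀, hS₀⟩ := exists_equiv T 1 one_ne_zero
  rw [one_smul] at hS₀
  set D : ℝ := |LinearMap.det (LinearMap.adjoint (T.symm : E (N + 1) →ₗ[ℝ] E (N + 1)))| with hD
  have hD0 : 0 < D := by
    rw [hD, abs_pos, ← hS₀]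
    exact S₀.isUnit_det'.ne_zero
  set l : ℝ := (1 / (κ * D)) ^ ((1 : ℝ) / N) with hl
  have hl0 : 0 < l := Real.rpow_pos_of_pos (by positivity) _
  have hN0 : (N : ℝ) ≠ 0 := by
    have : 0 < N := hN
    exact_mod_cast this.ne'
  have hlN : l ^ N * D * κ = 1 := by
    have : l ^ N = 1 / (κ * D) := by
      rw [hl, ← Real.rpow_natCast, ← Real.rpow_mul (by positivity), one_div_mul_cancel hN0,
        Real.rpow_one]
    rw [this]
    field_simp
  obtain ⟨S, hS⟩ := exists_equiv T l hl0.ne'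
  refine ⟨S, ?_⟩
  have hB := body_ball (N + 1)
  have hSB : Body (S '' closedBall (0 : E (N + 1)) 1) := ((hGS _ hB).2 S).1
  obtain ⟨hIB, hg⟩ := hIBB hN _ hSB
  have hdet : |LinearMap.det (S : E (N + 1) →ₗ[ℝ] E (N + 1))| = l ^ (N + 1) * D := by
    rw [hS, LinearMap.det_smul, abs_mul, abs_pow, abs_of_pos hl0]
    simp [hD]
  have hadj : ∀ x, LinearMap.adjoint (S : E (N + 1) →ₗ[ℝ] E (N + 1)) x = l • T.symm x := by
    intro x
    rw [hS]
    simp
  have hA : ∀ x, x ≠ 0 → (A (S '' closedBall (0 : E (N + 1)) 1) x)⁻¹ = ‖T.symm x‖ := by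
    intro x hx
    have hx' : T.symm x ≠ 0 := fun h => hx (by simpa using h)
    have hx'' : l • T.symm x ≠ 0 := smul_ne_zero hl0.ne' hx'
    have hn : 0 < ‖T.symm x‖ := norm_pos_iff.2 hx'
    rw [hCOV _ hB S x hx, hdet, hadj, hball _ hx'' 1 zero_le_one, one_pow, norm_smul,
      Real.norm_of_nonneg hl0.le]
    have e1 : l ^ (N + 1) * D * (κ * 1 / (l * ‖T.symm x‖)) = (l ^ N * D * κ) / ‖T.symm x‖ := by
      rw [pow_succ]
      field_simp
    rw [e1, hlN, one_div, inv_inv]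
  ext x
  rw [← (hGB _ hIB).2.1 x]
  have hT : x ∈ T '' closedBall (0 : E (N + 1)) 1 ↔ ‖T.symm x‖ ≤ 1 := by
    constructor
    · rintro ⟨y, hy, rfl⟩
      simpa using hy
    · intro h
      exact ⟨T.symm x, by simpa using h, by simp⟩
  rw [hT]
  rcases eq_or_ne x 0 with rfl | hx
  · simp
  · rw [hg x hx, hA x hx]

end Pool.Agent.H638.IB
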