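import Pool.Agent.H638.IB.Defs

set_option autoImplicit false

open MeasureTheory Set Filter Topology Metric
open scoped Pointwise RealInnerProductSpace ENNReal

namespace Pool.Agent.H638.IB

namespace FBDaux

theorem body_ball {n : ℕ} (C : ℝ) (hC : 0 < C) : Body (closedBall (0 : E n) C) where
  compact := isCompact_closedBall 0 C
  convex := convex_closedBall 0 C
  int := ⟨0, ball_subset_interior_closedBall (mem_ball_self hC)⟩
  neg := fun x hx => by
    rw [mem_closedBall_zero_iff] at hx ⊢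
    simpa using hx

end FBDaux

open FBDaux

theorem FBD_ok (hGB : S_GB) (hGS : S_GS) (hIBB : S_IBB) (hICOV : S_ICOV) (hFLIN : S_FLIN)
    (hPOSN : S_POSN) : S_FBD := by
  intro N hN
  obtain ⟨C0, hC0, hpos⟩ := hPOSN (N + 1)
  have hC0' : 0 < C0 := by linarith
  have hB1 : Body (closedBall (0 : E (N + 1)) 1) := body_ball 1 one_pos
  have hBC : Body (closedBall (0 : E (N + 1)) C0) := body_ball C0 hC0'
  refine ⟨vol (IB (closedBall (0 : E (N + 1)) C0)) / vol (closedBall (0 : E (N + 1)) 1) ^ N, ?_⟩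
  intro K hK
  have hpo : ∀ M : Set (E (N + 1)), Body M → 0 < vol M := fun M hM =>
    (hGB M hM).2.2.2.2.2.2.1
  have hfin : ∀ M : Set (E (N + 1)), Body M → volume M ≠ ∞ := fun M hM =>
    (hGB M hM).2.2.2.2.2.2.2.1
  refine ⟨?_, ?_⟩
  · exact div_pos (hpo _ (hIBB hN K hK).1) (pow_pos (hpo _ hK) N)
  · obtain ⟨T, hT1, hT2⟩ := hpos K hK
    rw [← hFLIN hN K hK T]
    have hTK : Body (T '' K) := ((hGS K hK).2 T).1
    have h1 : IB (T '' K) ⊆ IB (closedBall (0 : E (N + 1)) C0) :=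
      (hICOV hN (T '' K) hTK).2.2 _ hBC hT2
    have h2 : vol (IB (T '' K)) ≤ vol (IB (closedBall (0 : E (N + 1)) C0)) :=
      ENNReal.toReal_mono (hfin _ (hIBB hN _ hBC).1) (measure_mono h1)
    have h3 : vol (closedBall (0 : E (N + 1)) 1) ≤ vol (T '' K) :=
      ENNReal.toReal_mono (hfin _ hTK) (measure_mono hT1)
    unfold F
    have h4 : 0 < vol (closedBall (0 : E (N + 1)) 1) := hpo _ hB1
    exact div_le_div₀ ENNReal.toReal_nonneg h2 (pow_pos h4 N) (pow_le_pow_left₀ h4.le h3 N)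

end Pool.Agent.H638.IB
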