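import Pool.Agent.H638.IB.Defs

/-! Task FLIN: the functional is linearly invariant (helper355). -/

open MeasureTheory Set Filter Topology Metric
open scoped Pointwise RealInnerProductSpace ENNReal

namespace Pool.Agent.H638.IB

theorem FLIN_ok (h1 : S_ICOV) (h2 : S_GS) (h3 : S_IBB) : S_FLIN := by
  intro N hN K hK T
  obtain ⟨S, hS, hdet, -⟩ := (h1 hN K hK).1 T
  have hIK : Body (IB K) := (h3 hN K hK).1
  have hv1 : vol (T '' K) = |LinearMap.det (T : E (N + 1) →ₗ[ℝ] E (N + 1))| * vol K :=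
    ((h2 K hK).2 T).2.1
  have hv2 : vol (S '' IB K) = |LinearMap.det (S : E (N + 1) →ₗ[ℝ] E (N + 1))| * vol (IB K) :=
    ((h2 (IB K) hIK).2 S).2.1
  have hd : |LinearMap.det (T : E (N + 1) →ₗ[ℝ] E (N + 1))| ≠ 0 :=
    abs_ne_zero.2 (LinearEquiv.isUnit_det' T).ne_zero
  unfold F
  rw [hS, hv1, hv2, hdet, mul_pow]
  exact mul_div_mul_left _ _ (pow_ne_zero _ hd)

end Pool.Agent.H638.IB
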