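import Pool.Agent.H638.IB.Defs

/-! FNEAR: continuity of the functional and of `IB`. -/

set_option autoImplicit false

open MeasureTheory Set Filter Topology Metric
open scoped Pointwise RealInnerProductSpace ENNReal

namespace Pool.Agent.H638.IB

theorem FNEAR_ok (h1 : S_ICOV) (h2 : S_GS) (h3 : S_IBB) (h4 : S_GB) : S_FNEAR := by
  intro N hN K L hK hL l hl hKL hLK
  have hl0 : 0 < l := by linarith
  have key : ∀ K L : Set (E (N + 1)), Body K → Body L → K ⊆ l • L → IB K ⊆ l ^ N • IB L := by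
    intro K L hK hL hKL
    obtain ⟨-, -, hmono⟩ := h1 hN K hK
    obtain ⟨-, hdil, -⟩ := h1 hN L hL
    have hb : Body (l • L) := ((h2 L hL).1 l hl0).1
    have h5 := hmono (l • L) hb hKL
    rwa [hdil l hl0] at h5
  have hA := key K L hK hL hKL
  have hB := key L K hL hK hLK
  refine ⟨?_, hA, hB⟩
  have hIK : Body (IB K) := (h3 hN K hK).1
  have hlN : 0 < l ^ N := by positivity
  -- volume of `IB L`
  have e1 : vol (IB L) ≤ (l ^ N) ^ (N + 1) * vol (IB K) := by
    rw [← ((h2 (IB K) hIK).1 (l ^ N) hlN).2.1]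
    have hb : Body (l ^ N • IB K) := ((h2 (IB K) hIK).1 (l ^ N) hlN).1
    have hfin : volume (l ^ N • IB K) ≠ ∞ := (h4 _ hb).2.2.2.2.2.2.2.1
    exact ENNReal.toReal_mono hfin (measure_mono hB)
  have e2 : vol K ≤ l ^ (N + 1) * vol L := by
    rw [← ((h2 L hL).1 l hl0).2.1]
    have hb : Body (l • L) := ((h2 L hL).1 l hl0).1
    have hfin : volume (l • L) ≠ ∞ := (h4 _ hb).2.2.2.2.2.2.2.1
    exact ENNReal.toReal_mono hfin (measure_mono hKL)
  have hvK : 0 < vol K := (h4 K hK).2.2.2.2.2.2.1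
  have hvL : 0 < vol L := (h4 L hL).2.2.2.2.2.2.1
  have hvI : 0 < vol (IB K) := (h4 (IB K) hIK).2.2.2.2.2.2.1
  unfold F
  have e3 : vol K ^ N ≤ (l ^ (N + 1)) ^ N * vol L ^ N := by
    rw [← mul_pow]
    exact pow_le_pow_left₀ hvK.le e2 N
  rw [div_le_iff₀ (by positivity)]
  have e4 : 1 ≤ (l ^ (N + 1)) ^ N * vol L ^ N / vol K ^ N := by
    rw [le_div_iff₀ (by positivity), one_mul]
    exact e3
  calc vol (IB L) ≤ (l ^ N) ^ (N + 1) * vol (IB K) := e1
    _ = (l ^ N) ^ (N + 1) * vol (IB K) * 1 := by ring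
    _ ≤ (l ^ N) ^ (N + 1) * vol (IB K) * ((l ^ (N + 1)) ^ N * vol L ^ N / vol K ^ N) := by
        apply mul_le_mul_of_nonneg_left e4
        positivity
    _ = l ^ (2 * (N + 1) * N) * (vol (IB K) / vol K ^ N) * vol L ^ N := by
        have : l ^ (2 * (N + 1) * N) = (l ^ N) ^ (N + 1) * (l ^ (N + 1)) ^ N := by
          rw [← pow_mul, ← pow_mul, ← pow_add]
          congr 1
          ring
        rw [this]
        ring

end Pool.Agent.H638.IB
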