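import Pool.Agent.H638.IB.Defs

set_option autoImplicit false

open MeasureTheory Set Filter Topology Metric
open scoped Pointwise RealInnerProductSpace ENNReal

namespace Pool.Agent.H638.IB

theorem GAP_ok (hCPT : S_CPT) (hLYAP : S_LYAP) (hFLIN : S_FLIN) (hFNEAR : S_FNEAR)
    (hICOV : S_ICOV) (hIBB : S_IBB) (hRIG : S_RIG) (hGS : S_GS) : S_GAP := by
  intro N hN ε hε
  have hN1 : 1 ≤ N := by omega
  by_contra hcon
  push Not at hcon
  have hex : ∀ j : ℕ, ∃ K : Set (E (N + 1)), Body K ∧ F (IB K) ≤ F K + 1 / ((j : ℝ) + 1) ∧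
      ¬ Near ε K := by
    intro j
    exact hcon (1 / ((j : ℝ) + 1)) (by positivity)
  choose K hKb hKF hKn using hex
  obtain ⟨L, T, φ, hL, hφ, hclose⟩ := hCPT (N + 1) K hKb
  have hMb : ∀ j, Body (T j '' K (φ j)) := fun j => ((hGS _ (hKb (φ j))).2 (T j)).1
  have hFM : ∀ j, F (T j '' K (φ j)) = F (K (φ j)) := fun j => hFLIN hN1 _ (hKb (φ j)) (T j)
  have hFIM : ∀ j, F (IB (T j '' K (φ j))) = F (IB (K (φ j))) := by
    intro j
    obtain ⟨S, hS, _, _⟩ := (hICOV hN1 _ (hKb (φ j))).1 (T j)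
    rw [hS]
    exact hFLIN hN1 _ (hIBB hN1 _ (hKb (φ j))).1 S
  set q : ℕ := 2 * (N + 1) * N with hq
  have hLI : Body (IB L) := (hIBB hN1 L hL).1
  -- the limit body satisfies `F (IB L) ≤ F L`
  have key : ∀ l : ℝ, 1 < l → F (IB L) ≤ (l ^ N) ^ q * (l ^ q * F L + (l - 1)) := by
    intro l hl
    have hl0 : 0 < l := by linarith
    have hev := hclose (l - 1) (by linarith)
    have hev2 : ∀ᶠ j : ℕ in atTop, 1 / ((j : ℝ) + 1) ≤ l - 1 := by
      have := tendsto_one_div_add_atTop_nhds_zero_nat (𝕜 := ℝ)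
      exact (this.eventually (gt_mem_nhds (show (0 : ℝ) < l - 1 by linarith))).mono
        fun j hj => le_of_lt hj
    obtain ⟨j, hj1, hj2⟩ := (hev.and hev2).exists
    have hll : (1 : ℝ) + (l - 1) = l := by ring
    rw [hll] at hj1
    have hMI : Body (IB (T j '' K (φ j))) := (hIBB hN1 _ (hMb j)).1
    obtain ⟨a1, a2, a3⟩ := hFNEAR hN1 (T j '' K (φ j)) L (hMb j) hL l hl.le hj1.1 hj1.2
    obtain ⟨b1, _, _⟩ := hFNEAR hN1 L (T j '' K (φ j)) hL (hMb j) l hl.le hj1.2 hj1.1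
    have hlN : 1 ≤ l ^ N := one_le_pow₀ hl.le
    obtain ⟨c1, _, _⟩ := hFNEAR hN1 (IB (T j '' K (φ j))) (IB L) hMI hLI (l ^ N) hlN a2 a3
    have h1 : F (IB (T j '' K (φ j))) ≤ F (T j '' K (φ j)) + (l - 1) := by
      rw [hFIM, hFM]
      have h2 := hKF (φ j)
      have h3 : (1 : ℝ) / ((φ j : ℝ) + 1) ≤ 1 / ((j : ℝ) + 1) := by
        have h4 : (j : ℝ) ≤ (φ j : ℝ) := by exact_mod_cast hφ.id_le j
        apply one_div_le_one_div_of_le
        · positivity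
        · linarith
      linarith
    calc F (IB L) ≤ (l ^ N) ^ q * F (IB (T j '' K (φ j))) := c1
      _ ≤ (l ^ N) ^ q * (l ^ q * F L + (l - 1)) := by
        apply mul_le_mul_of_nonneg_left _ (by positivity)
        linarith
  have hlim : F (IB L) ≤ F L := by
    have hcont : Tendsto (fun l : ℝ => (l ^ N) ^ q * (l ^ q * F L + (l - 1))) (𝓝[>] 1)
        (𝓝 (((1 : ℝ) ^ N) ^ q * ((1 : ℝ) ^ q * F L + (1 - 1)))) := by
      have hc : Continuous (fun l : ℝ => (l ^ N) ^ q * (l ^ q * F L + (l - 1))) := by fun_prop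
      exact hc.continuousWithinAt
    have h1 : ((1 : ℝ) ^ N) ^ q * ((1 : ℝ) ^ q * F L + (1 - 1)) = F L := by simp
    rw [h1] at hcont
    refine ge_of_tendsto hcont ?_
    filter_upwards [self_mem_nhdsWithin] with l hl
    exact key l hl
  obtain ⟨h4, h5⟩ := hLYAP hN1 L hL
  obtain ⟨c, hc, hcL⟩ := h5 (le_antisymm hlim h4)
  obtain ⟨T', hT'⟩ := hRIG hN L hL c hc hcL
  -- choose `e`
  obtain ⟨e, he, hee⟩ : ∃ e : ℝ, 0 < e ∧ (1 + e) ^ 2 ≤ 1 + ε := by
    refine ⟨min 1 (ε / 3), by positivity, ?_⟩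
    have h6 : min 1 (ε / 3) ≤ 1 := min_le_left _ _
    have h7 : min 1 (ε / 3) ≤ ε / 3 := min_le_right _ _
    have h8 : 0 < min 1 (ε / 3) := by positivity
    nlinarith
  obtain ⟨j, hj1, hj2⟩ := (hclose e he).exists
  apply hKn (φ j)
  have he1 : (1 + e : ℝ) ≠ 0 := by positivity
  have he0 : (0 : ℝ) < 1 + e := by positivity
  refine ⟨((T j).trans T').trans (LinearEquiv.smulOfNeZero ℝ (E (N + 1)) (1 + e) he1), ?_, ?_⟩
  · have h1 : (((T j).trans T').trans (LinearEquiv.smulOfNeZero ℝ (E (N + 1)) (1 + e) he1)) ''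
        K (φ j) = T' '' ((1 + e) • (T j '' K (φ j))) := by
      ext x
      constructor
      · rintro ⟨y, hy, rfl⟩
        refine ⟨(1 + e) • T j y, smul_mem_smul_set ⟨y, hy, rfl⟩, ?_⟩
        simp
      · rintro ⟨z, hz, rfl⟩
        obtain ⟨w, ⟨y, hy, rfl⟩, rfl⟩ := hz
        refine ⟨y, hy, ?_⟩
        simp
    rw [h1, ← hT']
    exact image_mono hj2
  · rintro x ⟨y, hy, rfl⟩
    have h1 : T j y ∈ (1 + e) • L := hj1 ⟨y, hy, rfl⟩
    obtain ⟨z, hz, hzy⟩ := h1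
    have h2 : T' z ∈ closedBall (0 : E (N + 1)) 1 := by
      rw [← hT']
      exact ⟨z, hz, rfl⟩
    rw [mem_closedBall_zero_iff] at h2 ⊢
    have h3 : (((T j).trans T').trans (LinearEquiv.smulOfNeZero ℝ (E (N + 1)) (1 + e) he1)) y =
        (1 + e) • ((1 + e) • T' z) := by
      have h4 : T j y = (1 + e) • z := hzy.symm
      simp [h4]
    rw [h3, norm_smul, norm_smul, Real.norm_of_nonneg he0.le]
    calc (1 + e) * ((1 + e) * ‖T' z‖) ≤ (1 + e) * ((1 + e) * 1) := by gcongr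
      _ = (1 + e) ^ 2 := by ring
      _ ≤ 1 + ε := hee

end Pool.Agent.H638.IB
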