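import Pool.Agent.H638.IB.Defs

set_option autoImplicit false

open MeasureTheory Set Filter Topology Metric
open scoped Pointwise RealInnerProductSpace ENNReal

namespace Pool.Agent.H638.IB

theorem GBaux.zero_mem {n : ℕ} (K : Set (E n)) (hK : Body K) : (0 : E n) ∈ interior K := by
  obtain ⟨x, hx⟩ := hK.int
  have hneg : -x ∈ interior K := by
    rw [mem_interior]
    refine ⟨(fun y => -y) ⁻¹' interior K, ?_, isOpen_interior.preimage continuous_neg, ?_⟩
    · intro y hy
      have h1 := hK.neg _ (interior_subset hy)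
      rw [neg_neg] at h1
      exact h1
    · show -(-x) ∈ interior K
      rw [neg_neg]
      exact hx
  have h1 := hK.convex.interior hx hneg (show (0:ℝ) ≤ 1 / 2 by norm_num)
    (show (0:ℝ) ≤ 1 / 2 by norm_num) (by norm_num)
  rw [smul_neg, add_neg_cancel] at h1
  exact h1

/-- GB: basic facts on the gauge. -/
theorem GB_ok : S_GB := by
  intro n K hK
  have h0 := GBaux.zero_mem K hK
  have hn : K ∈ 𝓝 (0 : E n) := mem_interior_iff_mem_nhds.1 h0
  have hb : Bornology.IsBounded K := hK.compact.isBounded
  have habs : Absorbent ℝ K := absorbent_nhds_zero hn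
  have hcl : IsClosed K := hK.compact.isClosed
  refine ⟨?_, ?_, ?_, ?_, ?_, ?_, ?_, ?_, ?_⟩
  · obtain ⟨r, hr, hr'⟩ := Metric.nhds_basis_closedBall.mem_iff.1 hn
    obtain ⟨R, hR, hR'⟩ := hb.subset_closedBall_lt 0 0
    exact ⟨r, R, hr, hR, hr', hR'⟩
  · intro x
    rw [gauge_le_one_iff_mem_closure hK.convex hn, hcl.closure_eq]
  · intro x hx
    exact (gauge_pos habs ((NormedSpace.isVonNBounded_iff ℝ).2 hb)).2 hx
  · intro c x
    rcases le_total 0 c with hc | hc
    · rw [gauge_smul_of_nonneg hc, abs_of_nonneg hc, smul_eq_mul]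
    · have h1 : c • x = -((-c) • x) := by rw [neg_smul, neg_neg]
      rw [h1, gauge_neg hK.neg, gauge_smul_of_nonneg (neg_nonneg.2 hc), abs_of_nonpos hc,
        smul_eq_mul]
  · intro x y
    exact gauge_add_le hK.convex habs x y
  · exact continuous_gauge hK.convex hn
  · have h1 : 0 < volume K :=
      lt_of_lt_of_le (isOpen_interior.measure_pos volume ⟨0, h0⟩) (measure_mono interior_subset)
    exact ENNReal.toReal_pos h1.ne' hK.compact.measure_ne_top
  · exact hK.compact.measure_ne_top
  · exact hcl.measurableSet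

end Pool.Agent.H638.IB
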