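import Pool.Agent.H638.IB.Defs

/-! GC: norms are gauges of bodies. -/

set_option autoImplicit false

open MeasureTheory Set Filter Topology Metric
open scoped Pointwise RealInnerProductSpace ENNReal

namespace Pool.Agent.H638.IB

namespace GCaux

variable {n : ℕ} {p : E n → ℝ}

lemma cont (hadd : ∀ x y, p (x + y) ≤ p x + p y) (hsm : ∀ (c : ℝ) x, p (c • x) = |c| * p x) :
    Continuous p := by
  have hc : ConvexOn ℝ (univ : Set (E n)) p := by
    refine ⟨convex_univ, ?_⟩
    intro x _ y _ a b ha hb _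
    calc p (a • x + b • y) ≤ p (a • x) + p (b • y) := hadd _ _
      _ = a • p x + b • p y := by
          rw [hsm, hsm, abs_of_nonneg ha, abs_of_nonneg hb, smul_eq_mul, smul_eq_mul]
  exact continuousOn_univ.1 (hc.continuousOn isOpen_univ)

lemma zero (hsm : ∀ (c : ℝ) x, p (c • x) = |c| * p x) : p 0 = 0 := by
  have := hsm 0 0
  simpa using this

lemma nonneg (hsm : ∀ (c : ℝ) x, p (c • x) = |c| * p x) (hpos : ∀ x, x ≠ 0 → 0 < p x) (x : E n) :
    0 ≤ p x := by
  by_cases hx : x = 0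
  · rw [hx, zero hsm]
  · exact (hpos x hx).le

lemma lower (hadd : ∀ x y, p (x + y) ≤ p x + p y) (hsm : ∀ (c : ℝ) x, p (c • x) = |c| * p x)
    (hpos : ∀ x, x ≠ 0 → 0 < p x) : ∃ c : ℝ, 0 < c ∧ ∀ x, c * ‖x‖ ≤ p x := by
  by_cases hs : (sphere (0 : E n) 1).Nonempty
  · obtain ⟨x₀, hx₀, hmin⟩ := (isCompact_sphere (0 : E n) 1).exists_isMinOn hs
      (cont hadd hsm).continuousOn
    have hx₀' : x₀ ≠ 0 := by
      rintro rfl
      simp at hx₀
    refine ⟨p x₀, hpos x₀ hx₀', fun x => ?_⟩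
    by_cases hx : x = 0
    · rw [hx, norm_zero, mul_zero, zero hsm]
    · have hn : 0 < ‖x‖ := norm_pos_iff.2 hx
      have h1 : ‖x‖⁻¹ • x ∈ sphere (0 : E n) 1 := by
        rw [mem_sphere_zero_iff_norm, norm_smul, norm_inv, norm_norm, inv_mul_cancel₀ hn.ne']
      have h2 : p x₀ ≤ p (‖x‖⁻¹ • x) := hmin h1
      rw [hsm, abs_of_pos (inv_pos.2 hn)] at h2
      calc p x₀ * ‖x‖ ≤ (‖x‖⁻¹ * p x) * ‖x‖ := mul_le_mul_of_nonneg_right h2 hn.le
        _ = p x := by field_simp
  · refine ⟨1, one_pos, fun x => ?_⟩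
    have hx : x = 0 := by
      by_contra hx
      apply hs
      have hn : 0 < ‖x‖ := norm_pos_iff.2 hx
      refine ⟨‖x‖⁻¹ • x, ?_⟩
      rw [mem_sphere_zero_iff_norm, norm_smul, norm_inv, norm_norm, inv_mul_cancel₀ hn.ne']
    rw [hx, norm_zero, mul_zero, zero hsm]

end GCaux

theorem GC_ok : S_GC := by
  intro n p hadd hsm hpos
  have hcont := GCaux.cont hadd hsm
  have h0 := GCaux.zero hsm
  have hnn := GCaux.nonneg hsm hpos
  obtain ⟨c, hc, hlow⟩ := GCaux.lower hadd hsm hpos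
  have hopen : IsOpen {x : E n | p x < 1} := isOpen_lt hcont continuous_const
  have hint : {x : E n | p x < 1} ⊆ interior {x : E n | p x ≤ 1} :=
    interior_maximal (fun x (hx : p x < 1) => le_of_lt hx) hopen
  have h0int : (0 : E n) ∈ interior {x : E n | p x ≤ 1} := hint (by
    show p 0 < 1
    rw [h0]; exact one_pos)
  refine ⟨⟨?_, ?_, ⟨0, h0int⟩, ?_⟩, ?_⟩
  · refine Metric.isCompact_of_isClosed_isBounded (isClosed_le hcont continuous_const) ?_
    refine (Metric.isBounded_closedBall (x := (0 : E n)) (r := c⁻¹)).subset ?_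
    intro x (hx : p x ≤ 1)
    rw [mem_closedBall_zero_iff]
    have := (hlow x).trans hx
    rw [inv_eq_one_div, le_div_iff₀ hc, mul_comm]
    exact this
  · intro x (hx : p x ≤ 1) y (hy : p y ≤ 1) a b ha hb hab
    show p (a • x + b • y) ≤ 1
    calc p (a • x + b • y) ≤ p (a • x) + p (b • y) := hadd _ _
      _ = a * p x + b * p y := by
          rw [hsm, hsm, abs_of_nonneg ha, abs_of_nonneg hb]
      _ ≤ a * 1 + b * 1 := by gcongr
      _ = 1 := by rw [mul_one, mul_one, hab]
  · intro x (hx : p x ≤ 1)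
    show p (-x) ≤ 1
    have : p (-x) = p x := by
      have := hsm (-1) x
      simpa using this
    rw [this]; exact hx
  · funext x
    have habs : Absorbent ℝ {x : E n | p x ≤ 1} :=
      absorbent_nhds_zero (mem_interior_iff_mem_nhds.1 h0int)
    apply le_antisymm
    · by_cases hx : x = 0
      · rw [hx, gauge_zero, h0]
      · have hp := hpos x hx
        refine gauge_le_of_mem hp.le ?_
        rw [mem_smul_set_iff_inv_smul_mem₀ hp.ne']
        show p ((p x)⁻¹ • x) ≤ 1
        rw [hsm, abs_of_pos (inv_pos.2 hp), inv_mul_cancel₀ hp.ne']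
    · by_contra hlt
      push_neg at hlt
      obtain ⟨b, hb, hbx, hmem⟩ := exists_lt_of_gauge_lt habs hlt
      rw [mem_smul_set_iff_inv_smul_mem₀ hb.ne'] at hmem
      have h1 : p (b⁻¹ • x) ≤ 1 := hmem
      rw [hsm, abs_of_pos (inv_pos.2 hb)] at h1
      have h2 : p x ≤ b := by
        calc p x = b * (b⁻¹ * p x) := by field_simp
          _ ≤ b * 1 := mul_le_mul_of_nonneg_left h1 hb.le
          _ = b := mul_one _
      linarith

end Pool.Agent.H638.IB
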