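import Pool.Agent.H638.IB.Defs

set_option autoImplicit false

open MeasureTheory Set Filter Topology Metric
open scoped Pointwise RealInnerProductSpace ENNReal

namespace Pool.Agent.H638.IB

namespace GINTaux

theorem sub_level {n : ℕ} (L : Set (E n)) (hL : Body L) (h1 : S_GB) (r : ℝ) (hr : 0 < r) :
    {x : E n | gauge L x ≤ r} = r • L := by
  obtain ⟨_, hmem, _, hhom, _, _, _, _, _⟩ := h1 L hL
  ext x
  rw [mem_smul_set_iff_inv_smul_mem₀ hr.ne', ← hmem, hhom, abs_of_pos (inv_pos.2 hr), mem_setOf_eq]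
  constructor
  · intro h
    rw [inv_mul_le_iff₀ hr, mul_one]
    exact h
  · intro h
    rw [inv_mul_le_iff₀ hr, mul_one] at h
    exact h

theorem vol_level {N : ℕ} (L : Set (E (N + 1))) (hL : Body L) (h1 : S_GB) (r : ℝ) (hr : 0 < r) :
    volume {x : E (N + 1) | gauge L x ≤ r} = ENNReal.ofReal (r ^ (N + 1)) * volume L := by
  rw [sub_level L hL h1 r hr, Measure.addHaar_smul]
  congr 2
  rw [finrank_euclideanSpace, Fintype.card_fin, abs_of_pos (pow_pos hr _)]

theorem tail_int {N : ℕ} (hN : 1 ≤ N) :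
    ∫⁻ t in Ioi (1 : ℝ), ENNReal.ofReal ((t⁻¹) ^ (N + 1)) = ENNReal.ofReal (1 / N) := by
  have hN0 : (0 : ℝ) < N := by exact_mod_cast hN
  have ha : (-((N : ℝ) + 1)) < -1 := by linarith
  have e1 : ∀ t ∈ Ioi (1 : ℝ), ENNReal.ofReal ((t⁻¹) ^ (N + 1)) =
      ENNReal.ofReal (t ^ (-((N : ℝ) + 1))) := by
    intro t ht
    have ht0 : (0 : ℝ) < t := lt_trans one_pos ht
    congr 1
    rw [Real.rpow_neg ht0.le, inv_pow]
    congr 1
    have := Real.rpow_natCast t (N + 1)
    push_cast at this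
    exact this.symm
  rw [setLIntegral_congr_fun measurableSet_Ioi e1,
    ← ofReal_integral_eq_lintegral_ofReal (integrableOn_Ioi_rpow_of_lt ha one_pos)
      ((ae_restrict_iff' measurableSet_Ioi).2 (Eventually.of_forall fun t ht =>
        Real.rpow_nonneg (lt_trans one_pos ht).le _)),
    integral_Ioi_rpow_of_lt ha one_pos, Real.one_rpow]
  congr 1
  have : (-((N : ℝ) + 1) + 1) = -N := by ring
  rw [this, neg_div_neg_eq]

theorem main {N : ℕ} (hN : 1 ≤ N) (L : Set (E (N + 1))) (hL : Body L) (h1 : S_GB) :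
    ∫⁻ x in L, ENNReal.ofReal (gauge L x)⁻¹ = ENNReal.ofReal ((N + 1) / N) * volume L := by
  obtain ⟨_, hmem, hpos, _, _, hcont, _, hfin, hmeas⟩ := h1 L hL
  have hN0 : (0 : ℝ) < N := by exact_mod_cast hN
  have hm : Measurable fun x => (gauge L x)⁻¹ := hcont.measurable.inv
  rw [lintegral_eq_lintegral_meas_le (μ := volume.restrict L)
    (Eventually.of_forall fun x => inv_nonneg.2 (gauge_nonneg x)) hm.aemeasurable]
  have hz : volume ({0} : Set (E (N + 1))) = 0 := measure_singleton 0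
  -- the measure of the superlevel sets
  have key : ∀ t : ℝ, 0 < t → (volume.restrict L) {a | t ≤ (gauge L a)⁻¹} =
      volume {x : E (N + 1) | gauge L x ≤ min 1 t⁻¹} := by
    intro t ht
    rw [Measure.restrict_apply (measurableSet_le measurable_const hm)]
    apply le_antisymm
    · apply measure_mono
      rintro x ⟨hx1, hx2⟩
      rw [mem_setOf_eq] at hx1 ⊢
      refine le_min ((hmem x).2 hx2) ?_
      have hg : 0 < gauge L x := by
        rcases (gauge_nonneg x : 0 ≤ gauge L x).eq_or_lt with h | h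
        · rw [← h, inv_zero] at hx1
          exact absurd hx1 (not_le.2 ht)
        · exact h
      rw [le_inv_comm₀ hg ht]
      exact hx1
    · have hsub : {x : E (N + 1) | gauge L x ≤ min 1 t⁻¹} ⊆
          ({a | t ≤ (gauge L a)⁻¹} ∩ L) ∪ {0} := by
        intro x hx
        rw [mem_setOf_eq, le_min_iff] at hx
        by_cases h0 : x = 0
        · exact Or.inr h0
        · left
          refine ⟨?_, (hmem x).1 hx.1⟩
          rw [mem_setOf_eq, le_inv_comm₀ ht (hpos x h0)]
          exact hx.2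
      calc _ ≤ volume (({a | t ≤ (gauge L a)⁻¹} ∩ L) ∪ {0}) := measure_mono hsub
        _ ≤ volume ({a | t ≤ (gauge L a)⁻¹} ∩ L) + volume ({0} : Set (E (N + 1))) :=
          measure_union_le _ _
        _ = _ := by rw [hz, add_zero]
  have hsplit : Ioi (0 : ℝ) = Ioc 0 1 ∪ Ioi 1 := (Ioc_union_Ioi_eq_Ioi zero_le_one).symm
  have hdisj : Disjoint (Ioc (0 : ℝ) 1) (Ioi 1) := by
    rw [Set.disjoint_left]
    intro t ht1 ht2
    exact absurd ht1.2 (not_le.2 ht2)
  rw [hsplit, lintegral_union measurableSet_Ioi hdisj]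
  have e1 : ∫⁻ t in Ioc (0 : ℝ) 1, (volume.restrict L) {a | t ≤ (gauge L a)⁻¹} = volume L := by
    have : ∀ t ∈ Ioc (0 : ℝ) 1, (volume.restrict L) {a | t ≤ (gauge L a)⁻¹} = volume L := by
      intro t ht
      rw [key t ht.1, min_eq_left ((one_le_inv₀ ht.1).2 ht.2), vol_level L hL h1 1 one_pos]
      simp
    rw [setLIntegral_congr_fun measurableSet_Ioc this, lintegral_const, Measure.restrict_apply
      MeasurableSet.univ, univ_inter, Real.volume_Ioc]
    simp
  have e2 : ∫⁻ t in Ioi (1 : ℝ), (volume.restrict L) {a | t ≤ (gauge L a)⁻¹} =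
      ENNReal.ofReal (1 / N) * volume L := by
    have : ∀ t ∈ Ioi (1 : ℝ), (volume.restrict L) {a | t ≤ (gauge L a)⁻¹} =
        ENNReal.ofReal ((t⁻¹) ^ (N + 1)) * volume L := by
      intro t ht
      have ht0 : (0 : ℝ) < t := lt_trans one_pos ht
      rw [key t ht0, min_eq_right (inv_le_one_of_one_le₀ (le_of_lt ht)),
        vol_level L hL h1 _ (inv_pos.2 ht0)]
    rw [setLIntegral_congr_fun measurableSet_Ioi this, lintegral_mul_const' _ _ hfin, tail_int hN]
  rw [e1, e2, ← one_mul (volume L), ← mul_assoc, ← add_mul, mul_one]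
  congr 1
  · rw [← ENNReal.ofReal_one, ← ENNReal.ofReal_add zero_le_one (by positivity)]
    congr 1
    field_simp
  · rw [one_mul]

end GINTaux

theorem GINT_ok (h1 : S_GB) (h2 : S_GS) : S_GINT := by
  intro N hN K L hK hL
  have hm := GINTaux.main hN L hL h1
  refine ⟨?_, hm⟩
  obtain ⟨_, hmem, hpos, _, _, hcont, _, hfin, hmeas⟩ := h1 L hL
  obtain ⟨_, _, _, _, _, _, _, hfinK, hmeasK⟩ := h1 K hK
  have hsub : K ⊆ L ∪ (K \ L) := by
    intro x hx
    by_cases h : x ∈ L
    · exact Or.inl h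
    · exact Or.inr ⟨hx, h⟩
  have hle : ∫⁻ x in K, ENNReal.ofReal (gauge L x)⁻¹ ≤
      ENNReal.ofReal ((N + 1) / N) * volume L + volume K := by
    calc ∫⁻ x in K, ENNReal.ofReal (gauge L x)⁻¹ ≤
        ∫⁻ x in L ∪ (K \ L), ENNReal.ofReal (gauge L x)⁻¹ := lintegral_mono_set hsub
      _ ≤ (∫⁻ x in L, ENNReal.ofReal (gauge L x)⁻¹) +
          ∫⁻ x in K \ L, ENNReal.ofReal (gauge L x)⁻¹ := lintegral_union_le _ _ _
      _ ≤ ENNReal.ofReal ((N + 1) / N) * volume L + volume K := by
        rw [hm]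
        gcongr
        calc ∫⁻ x in K \ L, ENNReal.ofReal (gauge L x)⁻¹ ≤ ∫⁻ _ in K \ L, 1 := by
              apply setLIntegral_mono measurable_const
              intro x hx
              rw [← ENNReal.ofReal_one]
              apply ENNReal.ofReal_le_ofReal
              apply inv_le_one_of_one_le₀
              by_contra hlt
              exact hx.2 ((hmem x).1 (not_le.1 hlt).le)
          _ = volume (K \ L) := by rw [setLIntegral_one]
          _ ≤ volume K := measure_mono diff_subset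
  exact ne_top_of_le_ne_top (ENNReal.add_ne_top.2
    ⟨ENNReal.mul_ne_top ENNReal.ofReal_ne_top hfin, hfinK⟩) hle

end Pool.Agent.H638.IB
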