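import Pool.Agent.H638.IB.Defs

/-! Project IB, task GM: inclusion and gauges. -/

set_option autoImplicit false

open MeasureTheory Set Filter Topology Metric
open scoped Pointwise RealInnerProductSpace ENNReal

namespace Pool.Agent.H638.IB

theorem GM_ok (hGB : S_GB) : S_GM := by
  intro n K L hK hL c hc
  obtain ⟨-, hK1, hK2, hK3, -⟩ := hGB K hK
  obtain ⟨-, hL1, -, hL3, -⟩ := hGB L hL
  constructor
  · intro h x
    by_cases hx : x = 0
    · subst hx
      simp
    · have hg := hK2 x hx
      set g : ℝ := gauge K x with hgdef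
      have hy : g⁻¹ • x ∈ K := by
        rw [← hK1, hK3, abs_of_pos (inv_pos.2 hg), ← hgdef, inv_mul_cancel₀ hg.ne']
      obtain ⟨z, hz, hzx⟩ := h hy
      have hzx' : c • z = g⁻¹ • x := hzx
      have h1 : gauge L z ≤ 1 := (hL1 z).2 hz
      have h2 : gauge L (c • z) = c * gauge L z := by rw [hL3, abs_of_pos hc]
      have h3 : gauge L (g⁻¹ • x) = g⁻¹ * gauge L x := by rw [hL3, abs_of_pos (inv_pos.2 hg)]
      rw [hzx', h3] at h2
      have h4 : gauge L x = c * g * gauge L z := by
        have h5 : g * (g⁻¹ * gauge L x) = g * (c * gauge L z) := by rw [h2]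
        rw [← mul_assoc, mul_inv_cancel₀ hg.ne', one_mul] at h5
        rw [h5]
        ring
      rw [h4]
      have : 0 < c * g := mul_pos hc hg
      nlinarith
  · intro h x hx
    have h1 : gauge K x ≤ 1 := (hK1 x).2 hx
    have h2 : gauge L x ≤ c := (h x).trans (by nlinarith)
    refine ⟨c⁻¹ • x, ?_, ?_⟩
    · rw [← hL1, hL3, abs_of_pos (inv_pos.2 hc)]
      rw [inv_mul_le_iff₀ hc]
      linarith
    · show c • c⁻¹ • x = x
      rw [smul_smul, mul_inv_cancel₀ hc.ne', one_smul]

end Pool.Agent.H638.IB
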