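import Pool.Agent.H638.IB.Defs

/-! Task GS: dilates and linear images. -/

set_option autoImplicit false

open MeasureTheory Set Filter Topology Metric
open scoped Pointwise RealInnerProductSpace ENNReal

namespace Pool.Agent.H638.IB

theorem GS_ok : S_GS := by
  intro n K hK
  refine ⟨?_, ?_⟩
  · intro c hc
    refine ⟨⟨hK.compact.smul c, hK.convex.smul c, ?_, ?_⟩, ?_, ?_⟩
    · rw [interior_smul₀ hc.ne']
      exact hK.int.smul_set
    · rintro _ ⟨y, hy, rfl⟩
      exact ⟨-y, hK.neg y hy, smul_neg c y⟩
    · unfold vol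
      rw [Measure.addHaar_smul, ENNReal.toReal_mul, ENNReal.toReal_ofReal (abs_nonneg _),
        finrank_euclideanSpace_fin, abs_of_pos (pow_pos hc n)]
    · intro x
      rw [gauge_smul_left_of_nonneg hc.le]
      rfl
  · intro T
    have hTc : Continuous T := T.toContinuousLinearEquiv.continuous
    refine ⟨⟨hK.compact.image hTc, hK.convex.linear_image (T : E n →ₗ[ℝ] E n), ?_, ?_⟩, ?_, ?_⟩
    · have h := T.toContinuousLinearEquiv.toHomeomorph.image_interior K
      have h2 : interior (T '' K) = T '' interior K := h.symm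
      rw [h2]
      exact hK.int.image T
    · rintro _ ⟨y, hy, rfl⟩
      exact ⟨-y, hK.neg y hy, map_neg T y⟩
    · unfold vol
      have h := Measure.addHaar_image_linearMap (volume : Measure (E n)) (T : E n →ₗ[ℝ] E n) K
      have h2 : volume (T '' K) = ENNReal.ofReal |LinearMap.det (T : E n →ₗ[ℝ] E n)| * volume K := h
      rw [h2, ENNReal.toReal_mul, ENNReal.toReal_ofReal (abs_nonneg _)]
    · intro x
      unfold gauge
      congr 1
      ext r
      have h : r • (T '' K) = T '' (r • K) := by
        ext z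
        constructor
        · rintro ⟨_, ⟨y, hy, rfl⟩, rfl⟩
          exact ⟨r • y, ⟨y, hy, rfl⟩, map_smul T r y⟩
        · rintro ⟨_, ⟨y, hy, rfl⟩, rfl⟩
          exact ⟨T y, ⟨y, hy, rfl⟩, (map_smul T r y).symm⟩
      simp only [Set.mem_setOf_eq]
      rw [h, T.injective.mem_set_image]

end Pool.Agent.H638.IB
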