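import Pool.Agent.H638.IB.Defs

/-! HP: the one-dimensional harmonic transport inequality. -/

set_option autoImplicit false

namespace Pool.Agent.H638.IB

open MeasureTheory Set

namespace HPaux

theorem prim (Q : ℝ → ℝ) (g : ℝ) (hg : 0 < g) (hc : ContinuousOn Q (Ioo 0 g))
    (hpos : ∀ b ∈ Ioo 0 g, 0 < Q b) (hi : IntegrableOn Q (Ioo 0 g)) :
    (∀ b ∈ Ioo 0 g, HasDerivAt (fun b => ∫ t in (0:ℝ)..b, Q t) (Q b) b) ∧
    ContinuousOn (fun b => ∫ t in (0:ℝ)..b, Q t) (Icc 0 g) ∧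
    StrictMonoOn (fun b => ∫ t in (0:ℝ)..b, Q t) (Icc 0 g) ∧
    (∫ t in (0:ℝ)..0, Q t) = 0 ∧ (∫ t in (0:ℝ)..g, Q t) = ∫ b in Ioo 0 g, Q b := by
  have hicc : IntegrableOn Q (Icc 0 g) := (integrableOn_Icc_iff_integrableOn_Ioo).2 hi
  have hd : ∀ b ∈ Ioo 0 g, HasDerivAt (fun b => ∫ t in (0:ℝ)..b, Q t) (Q b) b := by
    intro b hb
    refine intervalIntegral.integral_hasDerivAt_right ?_ ?_ ?_
    · rw [intervalIntegrable_iff_integrableOn_Ioo_of_le hb.1.le]
      exact hi.mono_set (Ioo_subset_Ioo_right hb.2.le)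
    · exact hc.stronglyMeasurableAtFilter isOpen_Ioo b hb
    · exact hc.continuousAt (isOpen_Ioo.mem_nhds hb)
  have hcont : ContinuousOn (fun b => ∫ t in (0:ℝ)..b, Q t) (Icc 0 g) := by
    have := intervalIntegral.continuousOn_primitive_interval (a := 0) (b := g) (f := Q)
      (μ := volume) (by rwa [uIcc_of_le hg.le])
    rwa [uIcc_of_le hg.le] at this
  refine ⟨hd, hcont, ?_, by simp, ?_⟩
  · refine strictMonoOn_of_deriv_pos (convex_Icc _ _) hcont ?_
    intro b hb
    rw [interior_Icc] at hb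
    rw [(hd b hb).deriv]
    exact hpos b hb
  · rw [intervalIntegral.integral_of_le hg.le, integral_Ioc_eq_integral_Ioo]

/-- weighted inequality -/
theorem amgm (P Q I J l : ℝ) (hP : 0 < P) (hQ : 0 < Q) (hI : 0 < I) (hJ : 0 < J) (hl : 0 < l)
    (hl1 : l < 1) :
    P * J / (I + J) ≤ P ^ l * Q ^ (1 - l) * (l ^ 2 + (1 - l) ^ 2 * ((Q)⁻¹ * (P * (J / I)))) := by
  have hm : 0 < 1 - l := by linarith
  have e1 : (l * I / P) ^ l * ((1 - l) * J / Q) ^ (1 - l) ≤
      l * (l * I / P) + (1 - l) * ((1 - l) * J / Q) :=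
    Real.geom_mean_le_arith_mean2_weighted hl.le hm.le (by positivity) (by positivity) (by ring)
  have e2 : (1 / (l * I)) ^ l * (1 / ((1 - l) * J)) ^ (1 - l) ≤
      l * (1 / (l * I)) + (1 - l) * (1 / ((1 - l) * J)) :=
    Real.geom_mean_le_arith_mean2_weighted hl.le hm.le (by positivity) (by positivity) (by ring)
  have e3 : l * (1 / (l * I)) + (1 - l) * (1 / ((1 - l) * J)) = (I + J) / (I * J) := by
    field_simp
    ring
  rw [e3] at e2
  have e4 : (1 / (l * I)) ^ l * (1 / ((1 - l) * J)) ^ (1 - l) =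
      ((l * I) ^ l * ((1 - l) * J) ^ (1 - l))⁻¹ := by
    rw [one_div, one_div, Real.inv_rpow (by positivity), Real.inv_rpow (by positivity), mul_inv]
  rw [e4] at e2
  have hK : 0 < (l * I) ^ l * ((1 - l) * J) ^ (1 - l) := by positivity
  have e5 : I * J / (I + J) ≤ (l * I) ^ l * ((1 - l) * J) ^ (1 - l) := by
    rw [inv_le_comm₀ hK (by positivity)] at e2
    rwa [inv_div] at e2
  have e6 : (l * I / P) ^ l * ((1 - l) * J / Q) ^ (1 - l) * (P ^ l * Q ^ (1 - l)) =
      (l * I) ^ l * ((1 - l) * J) ^ (1 - l) := by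
    rw [Real.div_rpow (by positivity) hP.le, Real.div_rpow (by positivity) hQ.le]
    have := Real.rpow_pos_of_pos hP l
    have := Real.rpow_pos_of_pos hQ (1 - l)
    field_simp
  have hPQ : 0 < P ^ l * Q ^ (1 - l) := by positivity
  have e7 := mul_le_mul_of_nonneg_right e1 hPQ.le
  rw [e6] at e7
  have e8 : I * J / (I + J) ≤ (l * (l * I / P) + (1 - l) * ((1 - l) * J / Q)) *
      (P ^ l * Q ^ (1 - l)) := e5.trans e7
  have e9 := mul_le_mul_of_nonneg_left e8 (by positivity : 0 ≤ P / I)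
  have e10 : P / I * (I * J / (I + J)) = P * J / (I + J) := by field_simp
  rw [e10] at e9
  refine e9.trans (le_of_eq ?_)
  field_simp

end HPaux

open HPaux

theorem HP_ok : S_HP := by
  intro P Q H f g hf hg hPc hQc hPp hQp hPi hQi hH0 hHi hPQ
  obtain ⟨hF', hFc, hFm, hF0, hFf⟩ := prim P f hf hPc hPp hPi
  obtain ⟨hG', hGc, hGm, hG0, hGg⟩ := prim Q g hg hQc hQp hQi
  set F : ℝ → ℝ := fun a => ∫ t in (0:ℝ)..a, P t with hF
  set G : ℝ → ℝ := fun b => ∫ t in (0:ℝ)..b, Q t with hG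
  have hF0' : F 0 = 0 := hF0
  have hG0' : G 0 = 0 := hG0
  have hI : 0 < F f := by
    have := hFm (left_mem_Icc.2 hf.le) (right_mem_Icc.2 hf.le) hf
    linarith
  have hJ : 0 < G g := by
    have := hGm (left_mem_Icc.2 hg.le) (right_mem_Icc.2 hg.le) hg
    linarith
  have hFf' : F f = ∫ b in Ioo 0 f, P b := hFf
  have hGg' : G g = ∫ b in Ioo 0 g, Q b := hGg
  rw [← hFf', ← hGg']
  set I := F f with hIdef
  set J := G g with hJdef
  -- surjectivity of `G`
  have hsurj : ∀ y ∈ Ioo 0 J, ∃ b ∈ Ioo 0 g, G b = y := by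
    intro y hy
    obtain ⟨b, hb, hby⟩ := intermediate_value_Icc hg.le hGc
      (show y ∈ Icc (G 0) (G g) from ⟨by rw [hG0']; exact hy.1.le, hy.2.le⟩)
    refine ⟨b, ⟨lt_of_le_of_ne hb.1 ?_, lt_of_le_of_ne hb.2 ?_⟩, hby⟩
    · rintro rfl
      have : G 0 = y := hby
      rw [hG0'] at this
      exact hy.1.ne this
    · rintro rfl
      exact hy.2.ne hby.symm
  set K : ℝ → ℝ := fun y => Function.invFunOn G (Ioo 0 g) y with hK
  have hKm : ∀ y ∈ Ioo 0 J, K y ∈ Ioo 0 g := fun y hy => Function.invFunOn_mem (hsurj y hy)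
  have hGK : ∀ y ∈ Ioo 0 J, G (K y) = y := fun y hy => Function.invFunOn_eq (hsurj y hy)
  have hGmem : ∀ b ∈ Ioo 0 g, G b ∈ Ioo 0 J := by
    intro b hb
    constructor
    · have := hGm (left_mem_Icc.2 hg.le) (Ioo_subset_Icc_self hb) hb.1
      linarith
    · exact hGm (Ioo_subset_Icc_self hb) (right_mem_Icc.2 hg.le) hb.2
  have hFmem : ∀ a ∈ Ioo 0 f, F a ∈ Ioo 0 I := by
    intro b hb
    constructor
    · have := hFm (left_mem_Icc.2 hf.le) (Ioo_subset_Icc_self hb) hb.1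
      linarith
    · exact hFm (Ioo_subset_Icc_self hb) (right_mem_Icc.2 hf.le) hb.2
  have hKG : ∀ b ∈ Ioo 0 g, K (G b) = b := by
    intro b hb
    have h1 := hGmem b hb
    exact hGm.injOn (Ioo_subset_Icc_self (hKm _ h1)) (Ioo_subset_Icc_self hb) (hGK _ h1)
  have hKmono : MonotoneOn K (Ioo 0 J) := by
    intro y hy z hz hyz
    by_contra hlt
    push Not at hlt
    have := hGm (Ioo_subset_Icc_self (hKm z hz)) (Ioo_subset_Icc_self (hKm y hy)) hlt
    rw [hGK z hz, hGK y hy] at this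
    linarith
  have hKc : ∀ y ∈ Ioo 0 J, ContinuousAt K y := by
    intro y hy
    refine continuousAt_of_monotoneOn_of_image_mem_nhds hKmono (isOpen_Ioo.mem_nhds hy) ?_
    refine Filter.mem_of_superset (isOpen_Ioo.mem_nhds (hKm y hy)) ?_
    intro b hb
    exact ⟨G b, hGmem b hb, hKG b hb⟩
  have hK' : ∀ y ∈ Ioo 0 J, HasDerivAt K (Q (K y))⁻¹ y := by
    intro y hy
    refine HasDerivAt.of_local_left_inverse (hKc y hy) (hG' _ (hKm y hy)) (hQp _ (hKm y hy)).ne' ?_
    filter_upwards [isOpen_Ioo.mem_nhds hy] with z hz using hGK z hz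
  -- the transport map
  set T : ℝ → ℝ := fun a => K (F a * (J / I)) with hT
  have hsc : ∀ a ∈ Ioo 0 f, F a * (J / I) ∈ Ioo 0 J := by
    intro a ha
    have h1 := hFmem a ha
    constructor
    · have := h1.1
      positivity
    · rw [mul_div_assoc', div_lt_iff₀ hI]
      nlinarith [h1.2]
  have hTm : ∀ a ∈ Ioo 0 f, T a ∈ Ioo 0 g := fun a ha => hKm _ (hsc a ha)
  have hT' : ∀ a ∈ Ioo 0 f, HasDerivAt T ((Q (T a))⁻¹ * (P a * (J / I))) a := by
    intro a ha
    exact (hK' _ (hsc a ha)).comp a ((hF' a ha).mul_const (J / I))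
  set r : ℝ → ℝ := fun a => a * T a / (a + T a) with hr
  set r' : ℝ → ℝ := fun a => (T a / (a + T a)) ^ 2 +
    (a / (a + T a)) ^ 2 * ((Q (T a))⁻¹ * (P a * (J / I))) with hr'
  have hr'' : ∀ a ∈ Ioo 0 f, HasDerivAt r (r' a) a := by
    intro a ha
    have h1 := hT' a ha
    have hb := (hTm a ha).1
    have ha0 := ha.1
    have hs : a + T a ≠ 0 := by positivity
    have h2 : HasDerivAt r _ a := ((hasDerivAt_id a).mul h1).div ((hasDerivAt_id a).add h1) hs
    refine h2.congr_deriv ?_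
    show _ = (T a / (a + T a)) ^ 2 + (a / (a + T a)) ^ 2 * ((Q (T a))⁻¹ * (P a * (J / I)))
    simp only [id_eq, Pi.mul_apply, Pi.add_apply]
    generalize (Q (T a))⁻¹ * (P a * (J / I)) = X
    field_simp
    ring
  have hr'pos : ∀ a ∈ Ioo 0 f, 0 < r' a := by
    intro a ha
    have hb := (hTm a ha).1
    have ha0 := ha.1
    have := hPp a ha
    have := hQp _ (hTm a ha)
    show 0 < (T a / (a + T a)) ^ 2 + (a / (a + T a)) ^ 2 * ((Q (T a))⁻¹ * (P a * (J / I)))
    positivity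
  have hrm : StrictMonoOn r (Ioo 0 f) := by
    refine strictMonoOn_of_deriv_pos (convex_Ioo _ _)
      (fun a ha => (hr'' a ha).continuousAt.continuousWithinAt) ?_
    intro a ha
    rw [interior_Ioo] at ha
    rw [(hr'' a ha).deriv]
    exact hr'pos a ha
  have hrpos : r '' Ioo 0 f ⊆ Ioi 0 := by
    rintro _ ⟨a, ha, rfl⟩
    have hb := (hTm a ha).1
    have ha0 := ha.1
    simp only [hr, mem_Ioi]
    positivity
  -- pointwise inequality
  have hpt : ∀ a ∈ Ioo 0 f, P a * J / (I + J) ≤ r' a * H (r a) := by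
    intro a ha
    have hb := (hTm a ha).1
    have ha0 := ha.1
    have hP := hPp a ha
    have hQ := hQp _ (hTm a ha)
    have hl : 0 < T a / (a + T a) := by positivity
    have hl1 : T a / (a + T a) < 1 := by
      rw [div_lt_one (by positivity)]; linarith
    have h1l : 1 - T a / (a + T a) = a / (a + T a) := by
      field_simp
      ring
    have h1 := amgm (P a) (Q (T a)) I J (T a / (a + T a)) hP hQ hI hJ hl hl1
    rw [h1l] at h1
    refine h1.trans ?_
    rw [mul_comm (r' a)]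
    exact mul_le_mul_of_nonneg_right (hPQ a ha (T a) (hTm a ha)) (hr'pos a ha).le
  -- integration
  have hlin : ENNReal.ofReal (I * J / (I + J)) ≤ ENNReal.ofReal (∫ x in Ioi 0, H x) := by
    have e1 : ENNReal.ofReal (∫ a in Ioo 0 f, P a * J / (I + J)) =
        ∫⁻ a in Ioo 0 f, ENNReal.ofReal (P a * J / (I + J)) := by
      refine ofReal_integral_eq_lintegral_ofReal ((hPi.mul_const J).div_const (I + J)) ?_
      refine (ae_restrict_mem measurableSet_Ioo).mono fun a ha => ?_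
      have := hPp a ha
      simp only [Pi.zero_apply]
      positivity
    have e2 : ∫ a in Ioo 0 f, P a * J / (I + J) = I * J / (I + J) := by
      rw [integral_div, integral_mul_const, ← hFf']
    have e3 : ENNReal.ofReal (∫ x in Ioi 0, H x) = ∫⁻ x in Ioi 0, ENNReal.ofReal (H x) :=
      ofReal_integral_eq_lintegral_ofReal hHi (Filter.Eventually.of_forall fun x => hH0 x)
    rw [← e2, e1, e3]
    have e4 : ∫⁻ x in r '' Ioo 0 f, ENNReal.ofReal (H x) =
        ∫⁻ x in Ioo 0 f, ENNReal.ofReal |r' x| * ENNReal.ofReal (H (r x)) :=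
      lintegral_image_eq_lintegral_abs_deriv_mul measurableSet_Ioo
        (fun a ha => (hr'' a ha).hasDerivWithinAt) hrm.injOn _
    calc ∫⁻ a in Ioo 0 f, ENNReal.ofReal (P a * J / (I + J))
        ≤ ∫⁻ x in Ioo 0 f, ENNReal.ofReal |r' x| * ENNReal.ofReal (H (r x)) := by
          refine setLIntegral_mono' measurableSet_Ioo fun a ha => ?_
          rw [abs_of_pos (hr'pos a ha), ← ENNReal.ofReal_mul (hr'pos a ha).le]
          exact ENNReal.ofReal_le_ofReal (hpt a ha)
      _ = ∫⁻ x in r '' Ioo 0 f, ENNReal.ofReal (H x) := e4.symm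
      _ ≤ ∫⁻ x in Ioi 0, ENNReal.ofReal (H x) := lintegral_mono_set hrpos
  have hH : 0 ≤ ∫ x in Ioi 0, H x := integral_nonneg hH0
  have hfin : I * J / (I + J) ≤ ∫ x in Ioi 0, H x := (ENNReal.ofReal_le_ofReal_iff hH).1 hlin
  rw [div_le_iff₀ (by positivity)] at hfin
  linarith

end Pool.Agent.H638.IB
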