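import Mathlib
import Pool.Agent.H638.IB.Defs

set_option autoImplicit false

open MeasureTheory Set Filter Topology Metric
open scoped Pointwise RealInnerProductSpace ENNReal

namespace Pool.Agent.H638.IB.HSECaux

variable {N : ℕ}

/-- slices by the hyperplanes `⟪mk 1 v, z⟫ = t`, in the chart -/
noncomputable def sl (K : Set (E (N + 1))) (v : E N) (t : ℝ) : ℝ≥0∞ :=
  volume {y : E N | mk (t - ⟪v, y⟫) y ∈ K}

theorem slab_eq (hMP : S_MP) (K : Set (E (N + 1))) (hK : MeasurableSet K) (v : E N) (ε : ℝ) :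
    volume (K ∩ {z | |⟪mk 1 v, z⟫| ≤ ε}) = ∫⁻ t in Icc (-ε) ε, sl K v t := by
  have hS : MeasurableSet (K ∩ {z : E (N + 1) | |⟪mk 1 v, z⟫| ≤ ε}) := by
    refine hK.inter ?_
    exact (isClosed_le (by fun_prop) continuous_const).measurableSet
  have hmk : Measurable (fun p : ℝ × E N => mk p.1 p.2) := (hMP N).measurable
  have hmk2 : Measurable (fun p : ℝ × E N => mk (p.1 - ⟪v, p.2⟫) p.2) := by
    refine hmk.comp (f := fun p : ℝ × E N => ((p.1 - ⟪v, p.2⟫ : ℝ), p.2)) ?_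
    have : Continuous (fun p : ℝ × E N => ((p.1 - ⟪v, p.2⟫ : ℝ), p.2)) := by fun_prop
    exact this.measurable
  have hT : MeasurableSet {p : ℝ × E N | mk (p.1 - ⟪v, p.2⟫) p.2 ∈ K ∧ |p.1| ≤ ε} := by
    refine (hmk2 hK).inter ?_
    show MeasurableSet {p : ℝ × E N | |p.1| ≤ ε}
    exact (isClosed_le (continuous_fst.abs) continuous_const).measurableSet
  rw [← (hMP N).measure_preimage hS.nullMeasurableSet, Measure.prod_apply_symm (hmk hS)]
  have h1 : ∀ y : E N, volume ((fun x : ℝ => (x, y)) ⁻¹' ((fun p : ℝ × E N => mk p.1 p.2) ⁻¹'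
      (K ∩ {z | |⟪mk 1 v, z⟫| ≤ ε}))) =
      volume ((fun x : ℝ => (x, y)) ⁻¹'
        {p : ℝ × E N | mk (p.1 - ⟪v, p.2⟫) p.2 ∈ K ∧ |p.1| ≤ ε}) := by
    intro y
    rw [← measure_preimage_add_right volume (-(⟪v, y⟫ : ℝ))
      ((fun x : ℝ => (x, y)) ⁻¹' ((fun p : ℝ × E N => mk p.1 p.2) ⁻¹'
      (K ∩ {z | |⟪mk 1 v, z⟫| ≤ ε})))]
    congr 1
    ext t
    show (mk (t + -⟪v, y⟫) y ∈ K ∧ |(⟪mk 1 v, mk (t + -⟪v, y⟫) y⟫ : ℝ)| ≤ ε) ↔
      (mk (t - ⟪v, y⟫) y ∈ K ∧ |t| ≤ ε)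
    rw [inner_mk, ← sub_eq_add_neg]
    have : (1 : ℝ) * (t - ⟪v, y⟫) + ⟪v, y⟫ = t := by ring
    rw [this]
  rw [lintegral_congr h1, ← Measure.prod_apply_symm hT, Measure.prod_apply hT,
    ← lintegral_indicator measurableSet_Icc]
  refine lintegral_congr fun t => ?_
  by_cases ht : t ∈ Icc (-ε) ε
  · rw [indicator_of_mem ht]
    unfold sl
    congr 1
    ext y
    show (mk (t - ⟪v, y⟫) y ∈ K ∧ |t| ≤ ε) ↔ _
    constructor
    · exact fun h => h.1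
    · exact fun h => ⟨h, abs_le.2 ht⟩
  · rw [indicator_of_notMem ht]
    have : Prod.mk t ⁻¹' {p : ℝ × E N | mk (p.1 - ⟪v, p.2⟫) p.2 ∈ K ∧ |p.1| ≤ ε} = ∅ := by
      rw [eq_empty_iff_forall_notMem]
      intro y hy
      have hy' : mk (t - ⟪v, y⟫) y ∈ K ∧ |t| ≤ ε := hy
      exact ht (abs_le.1 hy'.2)
    rw [this, measure_empty]

theorem norm_mk_zero (s : ℝ) : ‖mk s (0 : E N)‖ = |s| := by
  have h := norm_mk_sq s (0 : E N)
  rw [norm_zero] at h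
  have h2 : ‖mk s (0 : E N)‖ ^ 2 = |s| ^ 2 := by rw [h, sq_abs]; ring
  exact (sq_eq_sq₀ (norm_nonneg _) (abs_nonneg _)).1 h2

theorem finrank_E : Module.finrank ℝ (E N) = N := by simp

theorem lower (K : Set (E (N + 1))) (hK : Convex ℝ K) (v : E N) (r : ℝ) (hr : 0 < r)
    (hball : closedBall 0 r ⊆ K) (t : ℝ) (ht : |t| < r) :
    ENNReal.ofReal ((1 - |t| / r) ^ N) * sl K v 0 ≤ sl K v t := by
  have h1 : 0 < 1 - |t| / r := by
    rw [sub_pos, div_lt_one hr]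
    exact ht
  have h2 : ENNReal.ofReal ((1 - |t| / r) ^ N) * sl K v 0 =
      volume ((1 - |t| / r) • {y : E N | mk (0 - ⟪v, y⟫) y ∈ K}) := by
    rw [Measure.addHaar_smul, finrank_E, abs_of_nonneg (pow_nonneg h1.le _)]
    rfl
  rw [h2]
  refine measure_mono ?_
  rintro z ⟨y, hy, rfl⟩
  have hy' : mk (0 - ⟪v, y⟫) y ∈ K := hy
  show mk (t - ⟪v, (1 - |t| / r) • y⟫) ((1 - |t| / r) • y) ∈ K
  have hp : mk (t * (r / |t|)) (0 : E N) ∈ K := by
    apply hball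
    rw [mem_closedBall_zero_iff, norm_mk_zero, abs_mul, abs_div, abs_abs, abs_of_pos hr]
    by_cases h0 : |t| = 0
    · rw [h0]; simp [hr.le]
    · rw [mul_div_cancel₀ _ h0]
  have h3 := hK hy' hp h1.le (by positivity : 0 ≤ |t| / r) (by ring)
  have h4 : (1 - |t| / r) • mk (0 - ⟪v, y⟫) y + (|t| / r) • mk (t * (r / |t|)) (0 : E N) =
      mk (t - ⟪v, (1 - |t| / r) • y⟫) ((1 - |t| / r) • y) := by
    rw [smul_mk, smul_mk, mk_add, mk_inj]
    refine ⟨?_, by rw [smul_zero, add_zero]⟩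
    rw [real_inner_smul_right]
    by_cases h0 : |t| = 0
    · have : t = 0 := abs_eq_zero.1 h0
      subst this
      simp
    · field_simp
      ring
  rw [← h4]
  exact h3

theorem upper (K : Set (E (N + 1))) (hK : Convex ℝ K) (v : E N) (r : ℝ) (hr : 0 < r)
    (hball : closedBall 0 r ⊆ K) (t : ℝ) :
    sl K v t ≤ ENNReal.ofReal ((1 + |t| / r) ^ N) * sl K v 0 := by
  have h1 : 0 < 1 + |t| / r := by positivity
  have h2 : ENNReal.ofReal ((1 + |t| / r) ^ N) * sl K v 0 =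
      volume ((1 + |t| / r) • {y : E N | mk (0 - ⟪v, y⟫) y ∈ K}) := by
    rw [Measure.addHaar_smul, finrank_E, abs_of_nonneg (pow_nonneg h1.le _)]
    rfl
  rw [h2]
  refine measure_mono ?_
  intro y hy
  have hy' : mk (t - ⟪v, y⟫) y ∈ K := hy
  rw [mem_smul_set_iff_inv_smul_mem₀ h1.ne']
  show mk (0 - ⟪v, (1 + |t| / r)⁻¹ • y⟫) ((1 + |t| / r)⁻¹ • y) ∈ K
  have hp : mk (-(t * (r / |t|))) (0 : E N) ∈ K := by
    apply hball
    rw [mem_closedBall_zero_iff, norm_mk_zero, abs_neg, abs_mul, abs_div, abs_abs, abs_of_pos hr]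
    by_cases h0 : |t| = 0
    · rw [h0]; simp [hr.le]
    · rw [mul_div_cancel₀ _ h0]
  have h3 := hK hy' hp (by positivity : 0 ≤ (1 + |t| / r)⁻¹)
    (by positivity : 0 ≤ (1 + |t| / r)⁻¹ * (|t| / r)) (by field_simp)
  have h4 : (1 + |t| / r)⁻¹ • mk (t - ⟪v, y⟫) y +
      ((1 + |t| / r)⁻¹ * (|t| / r)) • mk (-(t * (r / |t|))) (0 : E N) =
      mk (0 - ⟪v, (1 + |t| / r)⁻¹ • y⟫) ((1 + |t| / r)⁻¹ • y) := by
    rw [smul_mk, smul_mk, mk_add, mk_inj]
    refine ⟨?_, by rw [smul_zero, add_zero]⟩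
    rw [real_inner_smul_right]
    by_cases h0 : |t| = 0
    · have : t = 0 := abs_eq_zero.1 h0
      subst this
      simp
    · field_simp
      ring
  rw [← h4]
  exact h3

theorem sl_zero_ne_top (K : Set (E (N + 1))) (v : E N) (R : ℝ) (hK : K ⊆ closedBall 0 R) :
    sl K v 0 ≠ ∞ := by
  refine ne_top_of_le_ne_top (measure_closedBall_lt_top (μ := (volume : Measure (E N)))
    (x := 0) (r := R)).ne ?_
  refine measure_mono ?_
  intro y hy
  have hy' : mk (0 - ⟪v, y⟫) y ∈ K := hy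
  have := hK hy'
  rw [mem_closedBall_zero_iff] at this ⊢
  refine le_trans ?_ this
  have h2 := norm_mk_sq (0 - ⟪v, y⟫) y
  have h3 : ‖y‖ ^ 2 ≤ ‖mk (0 - ⟪v, y⟫) y‖ ^ 2 := by
    rw [h2]
    nlinarith [sq_nonneg ((0 : ℝ) - ⟪v, y⟫)]
  exact (sq_le_sq₀ (norm_nonneg _) (norm_nonneg _)).1 h3

theorem core (hMP : S_MP) (K : Set (E (N + 1))) (hK : MeasurableSet K) (hc : Convex ℝ K)
    (r R : ℝ) (hr : 0 < r) (hball : closedBall 0 r ⊆ K) (hR : K ⊆ closedBall 0 R) (v : E N) :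
    Tendsto (fun ε : ℝ => vol (K ∩ {z | |⟪mk 1 v, z⟫| ≤ ε}) / (2 * ε)) (𝓝[>] 0)
      (𝓝 (sl K v 0).toReal) := by
  have hfin := sl_zero_ne_top K v R hR
  set s0 := (sl K v 0).toReal with hs0
  have hs0' : sl K v 0 = ENNReal.ofReal s0 := (ENNReal.ofReal_toReal hfin).symm
  have hs00 : 0 ≤ s0 := ENNReal.toReal_nonneg
  have hlow : Tendsto (fun ε : ℝ => (1 - ε / r) ^ N * s0) (𝓝[>] 0) (𝓝 s0) := by
    have : Tendsto (fun ε : ℝ => (1 - ε / r) ^ N * s0) (𝓝 0) (𝓝 ((1 - 0 / r) ^ N * s0)) := by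
      have hcont : Continuous (fun ε : ℝ => (1 - ε / r) ^ N * s0) := by fun_prop
      exact hcont.tendsto 0
    rw [zero_div, sub_zero, one_pow, one_mul] at this
    exact this.mono_left nhdsWithin_le_nhds
  have hup : Tendsto (fun ε : ℝ => (1 + ε / r) ^ N * s0) (𝓝[>] 0) (𝓝 s0) := by
    have : Tendsto (fun ε : ℝ => (1 + ε / r) ^ N * s0) (𝓝 0) (𝓝 ((1 + 0 / r) ^ N * s0)) := by
      have hcont : Continuous (fun ε : ℝ => (1 + ε / r) ^ N * s0) := by fun_prop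
      exact hcont.tendsto 0
    rw [zero_div, add_zero, one_pow, one_mul] at this
    exact this.mono_left nhdsWithin_le_nhds
  have hev : ∀ᶠ δ : ℝ in 𝓝[>] 0, (1 - δ / r) ^ N * s0 ≤
      vol (K ∩ {z | |⟪mk 1 v, z⟫| ≤ δ}) / (2 * δ) ∧
      vol (K ∩ {z | |⟪mk 1 v, z⟫| ≤ δ}) / (2 * δ) ≤ (1 + δ / r) ^ N * s0 := by
    have hmem : Ioo (0 : ℝ) r ∈ 𝓝[>] (0 : ℝ) := Ioo_mem_nhdsGT hr
    filter_upwards [hmem] with δ hδ
    have hδ0 : 0 < δ := hδ.1
    have hδr : δ < r := hδ.2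
    have heq := slab_eq hMP K hK v δ
    have h1 : (0 : ℝ) ≤ 1 - δ / r := by
      rw [sub_nonneg, div_le_one hr]
      exact hδr.le
    have hvolI : volume (Icc (-δ) δ) = ENNReal.ofReal (2 * δ) := by
      rw [Real.volume_Icc]
      congr 1
      ring
    have hlo : ENNReal.ofReal ((1 - δ / r) ^ N * s0 * (2 * δ)) ≤
        volume (K ∩ {z | |⟪mk 1 v, z⟫| ≤ δ}) := by
      rw [heq, ENNReal.ofReal_mul (by positivity), ENNReal.ofReal_mul (by positivity), ← hs0',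
        ← hvolI, ← setLIntegral_const]
      refine setLIntegral_mono' measurableSet_Icc ?_
      intro t ht
      have ht' : |t| ≤ δ := abs_le.2 ht
      refine le_trans ?_ (lower K hc v r hr hball t (ht'.trans_lt hδr))
      gcongr
    have hhi : volume (K ∩ {z | |⟪mk 1 v, z⟫| ≤ δ}) ≤
        ENNReal.ofReal ((1 + δ / r) ^ N * s0 * (2 * δ)) := by
      rw [heq, ENNReal.ofReal_mul (by positivity), ENNReal.ofReal_mul (by positivity), ← hs0',
        ← hvolI, ← setLIntegral_const]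
      refine setLIntegral_mono' measurableSet_Icc ?_
      intro t ht
      have ht' : |t| ≤ δ := abs_le.2 ht
      refine (upper K hc v r hr hball t).trans ?_
      gcongr
    have hne : volume (K ∩ {z | |⟪mk 1 v, z⟫| ≤ δ}) ≠ ∞ :=
      ne_top_of_le_ne_top ENNReal.ofReal_ne_top hhi
    have hlo' : (1 - δ / r) ^ N * s0 * (2 * δ) ≤ vol (K ∩ {z | |⟪mk 1 v, z⟫| ≤ δ}) :=
      (ENNReal.ofReal_le_iff_le_toReal hne).1 hlo
    have hhi' : vol (K ∩ {z | |⟪mk 1 v, z⟫| ≤ δ}) ≤ (1 + δ / r) ^ N * s0 * (2 * δ) :=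
      ENNReal.toReal_le_of_le_ofReal (by positivity) hhi
    have hε0 : 0 < 2 * δ := by positivity
    rw [le_div_iff₀ hε0, div_le_iff₀ hε0]
    exact ⟨hlo', hhi'⟩
  exact tendsto_of_tendsto_of_tendsto_of_le_of_le' hlow hup (hev.mono fun _ h => h.1)
    (hev.mono fun _ h => h.2)

end Pool.Agent.H638.IB.HSECaux

namespace Pool.Agent.H638.IB

theorem HSEC_ok (hSLAB : S_SLAB) (hMP : S_MP) (hGB : S_GB) : S_HSEC := by
  intro N K hK v
  obtain ⟨⟨r, R, hr, hR, hball, hsub⟩, -, -, -, -, -, -, -, hmeas⟩ := hGB K hK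
  have h1 := HSECaux.core hMP K hmeas hK.convex r R hr hball hsub v
  have h2 := hSLAB K hK (mk 1 v) (mk_one_ne v)
  rw [tendsto_nhds_unique h2 h1]
  unfold HSECaux.sl
  simp only [zero_sub]

end Pool.Agent.H638.IB
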