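import Pool.Agent.H638.IB.Defs

/-! IBB: the intersection body is a body with gauge `1 / A K`. -/

set_option autoImplicit false

open MeasureTheory Set Filter Topology Metric
open scoped Pointwise RealInnerProductSpace ENNReal

namespace Pool.Agent.H638.IB

theorem IBB_ok (h1 : S_BUS) (h2 : S_HOM) (h3 : S_BND) (h4 : S_GC) : S_IBB := by
  intro N hN K hK
  obtain ⟨M, rfl⟩ : ∃ M, N = M + 1 := ⟨N - 1, by omega⟩
  obtain ⟨hhom, hnn, -⟩ := h2 K
  obtain ⟨c, C, hc, hC, hb⟩ := h3 K hK
  set p : E (M + 1 + 1) → ℝ := fun x => (A K x)⁻¹ with hp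
  have hp0 : p 0 = 0 := by simp [hp, A]
  have hpn : ∀ x, 0 ≤ p x := fun x => inv_nonneg.2 (hnn x)
  have hApos : ∀ x, x ≠ 0 → 0 < A K x := by
    intro x hx
    have h5 := (hb x hx).1
    have h6 : 0 < ‖x‖ := norm_pos_iff.2 hx
    have h7 : 0 < c / ‖x‖ := by positivity
    linarith
  have hsub : ∀ x y, p (x + y) ≤ p x + p y := by
    intro x y
    by_cases hx : x = 0
    · subst hx; rw [zero_add, hp0, zero_add]
    by_cases hy : y = 0
    · subst hy; rw [add_zero, hp0, add_zero]
    by_cases hxy : x + y = 0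
    · rw [hxy, hp0]; exact add_nonneg (hpn x) (hpn y)
    exact h1 K hK x y hx hy hxy
  have hsm : ∀ (c : ℝ) x, p (c • x) = |c| * p x := by
    intro c x
    by_cases hc0 : c = 0
    · subst hc0; rw [zero_smul, hp0]; simp
    · show (A K (c • x))⁻¹ = |c| * (A K x)⁻¹
      rw [hhom c x hc0, mul_inv, inv_inv]
  have hpos : ∀ x, x ≠ 0 → 0 < p x := fun x hx => inv_pos.2 (hApos x hx)
  have hset : IB K = {x | p x ≤ 1} := by
    ext x
    constructor
    · rintro ⟨u, hu, r, hr0, hr, rfl⟩
      show p (r • u) ≤ 1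
      have hu0 : u ≠ 0 := by
        intro h
        rw [h, norm_zero] at hu
        exact zero_ne_one hu
      rw [hsm r u, abs_of_nonneg hr0]
      have hAu : A K u = secVol K u := by unfold A; rw [hu, div_one]
      show r * (A K u)⁻¹ ≤ 1
      have h5 := hApos u hu0
      rw [← hAu] at hr
      rw [← div_eq_mul_inv, div_le_one h5]
      exact hr
    · intro hx
      have hx' : p x ≤ 1 := hx
      by_cases hx0 : x = 0
      · refine ⟨EuclideanSpace.single 0 1, by simp, 0, le_rfl, ?_, by rw [hx0, zero_smul]⟩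
        unfold secVol
        exact ENNReal.toReal_nonneg
      · have hn : 0 < ‖x‖ := norm_pos_iff.2 hx0
        have hu : ‖‖x‖⁻¹ • x‖ = 1 := by
          rw [norm_smul, norm_inv, norm_norm, inv_mul_cancel₀ hn.ne']
        refine ⟨‖x‖⁻¹ • x, hu, ‖x‖, hn.le, ?_, ?_⟩
        · have hAu : A K (‖x‖⁻¹ • x) = secVol K (‖x‖⁻¹ • x) := by unfold A; rw [hu, div_one]
          rw [← hAu, hhom _ x (inv_ne_zero hn.ne'), abs_of_pos (inv_pos.2 hn), inv_inv]
          have h5 : 1 ≤ A K x := by
            have h6 := hApos x hx0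
            have h7 : (A K x)⁻¹ ≤ 1 := hx'
            rw [inv_le_one₀ h6] at h7
            exact h7
          nlinarith
        · rw [smul_smul, mul_inv_cancel₀ hn.ne', one_smul]
  obtain ⟨g1, g2⟩ := h4 p hsub hsm hpos
  rw [hset]
  refine ⟨g1, fun x _ => ?_⟩
  rw [g2]

end Pool.Agent.H638.IB
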