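import Pool.Agent.H638.IB.Defs

/-! Task ICOV (project IB, MP_5ac201_gt): intersection bodies of linear images and dilates. -/

set_option autoImplicit false

open MeasureTheory Set Filter Topology Metric
open scoped Pointwise RealInnerProductSpace ENNReal

namespace Pool.Agent.H638.IB

namespace ICOVaux

/-- membership in the intersection body in terms of `A`. -/
theorem mem_IB (hHOM : S_HOM) {N : ℕ} (K : Set (E (N + 1))) (x : E (N + 1)) (hx : x ≠ 0) :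
    x ∈ IB K ↔ 1 ≤ A K x := by
  obtain ⟨hh, -, -⟩ := hHOM K
  constructor
  · rintro ⟨u, hu, r, hr, hr', rfl⟩
    have hr0 : r ≠ 0 := by
      rintro rfl
      exact hx (zero_smul _ _)
    have hrp : 0 < r := lt_of_le_of_ne hr (Ne.symm hr0)
    rw [hh r u hr0]
    have : A K u = secVol K u := by
      unfold A
      rw [hu, div_one]
    rw [this, abs_of_pos hrp, inv_mul_eq_div, le_div_iff₀ hrp, one_mul]
    exact hr'
  · intro h
    have hn : 0 < ‖x‖ := norm_pos_iff.2 hx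
    refine ⟨‖x‖⁻¹ • x, ?_, ‖x‖, hn.le, ?_, ?_⟩
    · rw [norm_smul, norm_inv, norm_norm, inv_mul_cancel₀ hn.ne']
    · have h1 : ‖‖x‖⁻¹ • x‖ = 1 := by
        rw [norm_smul, norm_inv, norm_norm, inv_mul_cancel₀ hn.ne']
      have h2 : A K (‖x‖⁻¹ • x) = secVol K (‖x‖⁻¹ • x) := by
        unfold A
        rw [h1, div_one]
      rw [← h2, hh _ x (inv_ne_zero hn.ne'), abs_of_pos (inv_pos.2 hn), inv_inv]
      nlinarith
    · rw [smul_smul, mul_inv_cancel₀ hn.ne', one_smul]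

theorem zero_mem {N : ℕ} (K : Set (E (N + 1))) : (0 : E (N + 1)) ∈ IB K := by
  obtain ⟨u, hu⟩ : ∃ u : E (N + 1), ‖u‖ = 1 := ⟨EuclideanSpace.single 0 1, by simp⟩
  exact ⟨u, hu, 0, le_rfl, ENNReal.toReal_nonneg, (zero_smul _ _).symm⟩

theorem det_pos {n : ℕ} (T : E n ≃ₗ[ℝ] E n) :
    0 < |LinearMap.det (T : E n →ₗ[ℝ] E n)| :=
  abs_pos.2 (LinearEquiv.isUnit_det' T).ne_zero

theorem det_adj {n : ℕ} (f : E n →ₗ[ℝ] E n) : LinearMap.det (LinearMap.adjoint f) =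
    LinearMap.det f := by
  have b := EuclideanSpace.basisFun (Fin n) ℝ
  rw [← LinearMap.det_toMatrix b.toBasis, LinearMap.toMatrix_adjoint b b,
    Matrix.det_conjTranspose, LinearMap.det_toMatrix]
  simp

/-- The linear map with `IB (T '' K) = Sof T '' IB K`. -/
noncomputable def Sof {n : ℕ} (T : E n ≃ₗ[ℝ] E n) : E n ≃ₗ[ℝ] E n :=
  LinearEquiv.ofLinearMap
    (|LinearMap.det (T : E n →ₗ[ℝ] E n)| • LinearMap.adjoint (T.symm : E n →ₗ[ℝ] E n))
    (|LinearMap.det (T : E n →ₗ[ℝ] E n)|⁻¹ • LinearMap.adjoint (T : E n →ₗ[ℝ] E n))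
    (by
      rw [LinearMap.smul_comp, LinearMap.comp_smul, smul_smul, mul_inv_cancel₀ (det_pos T).ne',
        one_smul, ← LinearMap.adjoint_comp]
      simp)
    (by
      rw [LinearMap.smul_comp, LinearMap.comp_smul, smul_smul, inv_mul_cancel₀ (det_pos T).ne',
        one_smul, ← LinearMap.adjoint_comp]
      simp)

theorem Sof_coe {n : ℕ} (T : E n ≃ₗ[ℝ] E n) : (Sof T : E n →ₗ[ℝ] E n) =
    |LinearMap.det (T : E n →ₗ[ℝ] E n)| • LinearMap.adjoint (T.symm : E n →ₗ[ℝ] E n) := by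
  ext x
  rfl

theorem Sof_symm_coe {n : ℕ} (T : E n ≃ₗ[ℝ] E n) : ((Sof T).symm : E n →ₗ[ℝ] E n) =
    |LinearMap.det (T : E n →ₗ[ℝ] E n)|⁻¹ • LinearMap.adjoint (T : E n →ₗ[ℝ] E n) := by
  ext x
  rfl

theorem adj_Sof {n : ℕ} (T : E n ≃ₗ[ℝ] E n) (x : E n) :
    LinearMap.adjoint (T : E n →ₗ[ℝ] E n) (Sof T x) =
      |LinearMap.det (T : E n →ₗ[ℝ] E n)| • x := by
  have h : LinearMap.adjoint (T : E n →ₗ[ℝ] E n) ∘ₗ (Sof T : E n →ₗ[ℝ] E n)
      = |LinearMap.det (T : E n →ₗ[ℝ] E n)| • LinearMap.id := by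
    rw [Sof_coe, LinearMap.comp_smul, ← LinearMap.adjoint_comp]
    simp
  have := congrArg (fun f => f x) h
  simpa using this

theorem det_Sof {N : ℕ} (T : E (N + 1) ≃ₗ[ℝ] E (N + 1)) :
    |LinearMap.det (Sof T : E (N + 1) →ₗ[ℝ] E (N + 1))| =
      |LinearMap.det (T : E (N + 1) →ₗ[ℝ] E (N + 1))| ^ N := by
  have hd := det_pos T
  rw [Sof_coe, LinearMap.det_smul, det_adj, abs_mul, LinearEquiv.det_coe_symm, abs_inv,
    abs_pow, abs_abs]
  simp only [finrank_euclideanSpace, Fintype.card_fin]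
  rw [pow_succ, mul_assoc, mul_inv_cancel₀ hd.ne', mul_one]

theorem IB_image (hCOV : S_COV) (hHOM : S_HOM) {N : ℕ} (K : Set (E (N + 1))) (hK : Body K)
    (T : E (N + 1) ≃ₗ[ℝ] E (N + 1)) : IB (T '' K) = Sof T '' IB K := by
  have hd := det_pos T
  have key : ∀ x, Sof T x ∈ IB (T '' K) ↔ x ∈ IB K := by
    intro x
    by_cases hx : x = 0
    · subst hx
      rw [map_zero]
      exact ⟨fun _ => zero_mem K, fun _ => zero_mem _⟩
    · have hx' : Sof T x ≠ 0 := by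
        rwa [Ne, LinearEquiv.map_eq_zero_iff]
      rw [mem_IB hHOM _ _ hx, mem_IB hHOM _ _ hx', hCOV K hK T _ hx', adj_Sof,
        (hHOM K).1 _ _ hd.ne', abs_abs, mul_inv_cancel_left₀ hd.ne']
  ext y
  constructor
  · intro hy
    refine ⟨(Sof T).symm y, ?_, (Sof T).apply_symm_apply y⟩
    rw [← key, LinearEquiv.apply_symm_apply]
    exact hy
  · rintro ⟨x, hx, rfl⟩
    exact (key x).2 hx

theorem Sof_Sof {n : ℕ} (T : E n ≃ₗ[ℝ] E n) (x : E n) : Sof (Sof T) x =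
    (|LinearMap.det (Sof T : E n →ₗ[ℝ] E n)| * |LinearMap.det (T : E n →ₗ[ℝ] E n)|⁻¹) • T x := by
  have h : (Sof (Sof T) : E n →ₗ[ℝ] E n) =
      (|LinearMap.det (Sof T : E n →ₗ[ℝ] E n)| * |LinearMap.det (T : E n →ₗ[ℝ] E n)|⁻¹) •
        (T : E n →ₗ[ℝ] E n) := by
    rw [Sof_coe (Sof T), Sof_symm_coe T, map_smulₛₗ, LinearMap.adjoint_adjoint, smul_smul]
    simp
  have := congrArg (fun f => f x) h
  simpa using this

end ICOVaux

open ICOVaux in
theorem ICOV_ok (hCOV : S_COV) (hSC : S_SC) (hIBB : S_IBB) (hHOM : S_HOM) : S_ICOV := by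
  intro N hN K hK
  refine ⟨?_, ?_, ?_⟩
  · intro T
    have hd := det_pos T
    refine ⟨Sof T, IB_image hCOV hHOM K hK T, det_Sof T, ?_⟩
    refine ⟨|LinearMap.det (Sof T : E (N + 1) →ₗ[ℝ] E (N + 1))| *
      |LinearMap.det (T : E (N + 1) →ₗ[ℝ] E (N + 1))|⁻¹, mul_pos (det_pos _) (inv_pos.2 hd), ?_⟩
    rw [IB_image hCOV hHOM K hK T, IB_image hCOV hHOM (IB K) (hIBB hN K hK).1 (Sof T)]
    ext y
    constructor
    · rintro ⟨x, hx, rfl⟩
      exact ⟨T x, ⟨x, hx, rfl⟩, (Sof_Sof T x).symm⟩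
    · rintro ⟨-, ⟨x, hx, rfl⟩, rfl⟩
      exact ⟨x, hx, Sof_Sof T x⟩
  · intro c hc
    have hcN : 0 < c ^ N := pow_pos hc N
    ext x
    rw [mem_smul_set_iff_inv_smul_mem₀ hcN.ne']
    by_cases hx : x = 0
    · subst hx
      rw [smul_zero]
      exact ⟨fun _ => zero_mem _, fun _ => zero_mem _⟩
    · have hx' : (c ^ N)⁻¹ • x ≠ 0 := smul_ne_zero (inv_ne_zero hcN.ne') hx
      rw [mem_IB hHOM _ _ hx, mem_IB hHOM _ _ hx', hSC K hK c hc x hx,
        (hHOM K).1 _ _ (inv_ne_zero hcN.ne'), abs_of_pos (inv_pos.2 hcN), inv_inv]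
  · intro L hL hKL x hx
    by_cases h0 : x = 0
    · subst h0
      exact zero_mem _
    · rw [mem_IB hHOM _ _ h0] at hx ⊢
      exact hx.trans ((hHOM K).2.2 L hKL hL x)

end Pool.Agent.H638.IB
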