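import Pool.Agent.H638.IB.Defs

set_option autoImplicit false

open MeasureTheory Set Filter Topology Metric
open scoped Pointwise RealInnerProductSpace ENNReal

namespace Pool.Agent.H638.IB
namespace ISOaux

variable {n : ℕ}

theorem int1 (K : Set (E n)) (hK : IsCompact K) (x : E n) :
    IntegrableOn (fun z : E n => (⟪x, z⟫ : ℝ) • z) K volume :=
  (by fun_prop : Continuous fun z : E n => (⟪x, z⟫ : ℝ) • z).continuousOn.integrableOn_compact hK

/-- the operator `x ↦ ∫_K ⟪x, z⟫ z dz` -/
noncomputable def S (K : Set (E n)) (hK : IsCompact K) : E n →ₗ[ℝ] E n where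
  toFun x := ∫ z in K, (⟪x, z⟫ : ℝ) • z
  map_add' x y := by
    rw [← integral_add (int1 K hK x) (int1 K hK y)]
    congr 1
    funext z
    rw [inner_add_left, add_smul]
  map_smul' c x := by
    simp only [RingHom.id_apply]
    rw [← integral_smul]
    congr 1
    funext z
    rw [real_inner_smul_left, mul_smul]

theorem S_inner (K : Set (E n)) (hK : IsCompact K) (x y : E n) :
    (⟪y, S K hK x⟫ : ℝ) = ∫ z in K, (⟪x, z⟫ : ℝ) * ⟪y, z⟫ := by
  have h := integral_inner (𝕜 := ℝ) (int1 K hK x) y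
  have e : S K hK x = ∫ z in K, (⟪x, z⟫ : ℝ) • z := rfl
  rw [e, ← h]
  congr 1
  funext z
  rw [real_inner_smul_right]

theorem S_symm (K : Set (E n)) (hK : IsCompact K) : (S K hK).IsSymmetric := by
  intro x y
  rw [real_inner_comm, S_inner, S_inner]
  congr 1
  funext z
  ring

theorem pos (K : Set (E n)) (hK : IsCompact K) (hi : (interior K).Nonempty) (u : E n) (hu : u ≠ 0) :
    0 < ∫ z in K, (⟪u, z⟫ : ℝ) * ⟪u, z⟫ := by
  have hc : Continuous fun z : E n => (⟪u, z⟫ : ℝ) * ⟪u, z⟫ := by fun_prop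
  rw [setIntegral_pos_iff_support_of_nonneg_ae
    (Filter.Eventually.of_forall fun z => mul_self_nonneg _) (hc.continuousOn.integrableOn_compact hK)]
  have hK0 : 0 < volume K := by
    refine lt_of_lt_of_le ?_ (measure_mono interior_subset)
    exact isOpen_interior.measure_pos volume hi
  have hsub : volume ((LinearMap.ker (innerₛₗ ℝ u) : Submodule ℝ (E n)) : Set (E n)) = 0 := by
    refine Measure.addHaar_submodule volume _ ?_
    intro h
    have : u ∈ LinearMap.ker (innerₛₗ ℝ u) := by rw [h]; trivial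
    rw [LinearMap.mem_ker, innerₛₗ_apply_apply] at this
    exact hu (inner_self_eq_zero.1 this)
  have hle : K ⊆ (Function.support (fun z : E n => (⟪u, z⟫ : ℝ) * ⟪u, z⟫) ∩ K) ∪
      ((LinearMap.ker (innerₛₗ ℝ u) : Submodule ℝ (E n)) : Set (E n)) := by
    intro z hz
    by_cases h : (⟪u, z⟫ : ℝ) = 0
    · right
      simpa using h
    · left
      exact ⟨by simpa using h, hz⟩
  have h1 := (measure_mono (μ := volume) hle).trans (measure_union_le _ _)
  rw [hsub, add_zero] at h1
  exact hK0.trans_le h1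

end ISOaux

theorem ISO_ok : S_ISO := by
  intro n K hK
  have hKc := hK.compact
  set S := ISOaux.S K hKc with hSdef
  have hS : S.IsSymmetric := ISOaux.S_symm K hKc
  have hn : Module.finrank ℝ (E n) = n := finrank_euclideanSpace_fin
  set u := hS.eigenvectorBasis hn with hu
  set lam := hS.eigenvalues hn with hlam
  have hSu : ∀ i, S (u i) = lam i • u i := fun i => by
    exact hS.apply_eigenvectorBasis hn i
  have hlpos : ∀ i, 0 < lam i := by
    intro i
    have h1 := ISOaux.S_inner K hKc (u i) (u i)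
    have hne : u i ≠ 0 := u.orthonormal.ne_zero i
    have h2 := ISOaux.pos K hKc hK.int (u i) hne
    rw [← h1] at h2
    have h3 : ISOaux.S K hKc (u i) = lam i • u i := hSu i
    rw [h3, real_inner_smul_right, real_inner_self_eq_norm_sq, u.orthonormal.1 i] at h2
    simpa using h2
  set w : Fin n → ℝ := fun i => (Real.sqrt (lam i))⁻¹ with hw
  have hwpos : ∀ i, 0 < w i := fun i => inv_pos.2 (Real.sqrt_pos.2 (hlpos i))
  set v := u.toBasis.isUnitSMul (w := w) (fun i => (hwpos i).ne'.isUnit) with hv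
  set T : E n ≃ₗ[ℝ] E n := u.toBasis.equiv v (Equiv.refl _) with hT
  have hTu : ∀ i, T (u i) = w i • u i := by
    intro i
    have h := u.toBasis.equiv_apply (b' := v) i (Equiv.refl _)
    rw [OrthonormalBasis.coe_toBasis] at h
    rw [hT, h, hv, Module.Basis.isUnitSMul_apply]
    simp
  have hTx : ∀ x, T x = ∑ i, (w i * ⟪u i, x⟫) • u i := by
    intro x
    conv_lhs => rw [← u.sum_repr' x]
    rw [map_sum]
    refine Finset.sum_congr rfl fun i _ => ?_
    rw [map_smul, hTu, smul_smul, mul_comm]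
  have hSx : ∀ x, S x = ∑ i, (lam i * ⟪u i, x⟫) • u i := by
    intro x
    conv_lhs => rw [← u.sum_repr' x]
    rw [map_sum]
    refine Finset.sum_congr rfl fun i _ => ?_
    rw [map_smul, hSu, smul_smul, mul_comm]
  have hTc : ∀ x i, (⟪u i, T x⟫ : ℝ) = w i * ⟪u i, x⟫ := by
    intro x i
    rw [hTx, inner_sum]
    simp only [real_inner_smul_right]
    rw [Finset.sum_eq_single i]
    · rw [real_inner_self_eq_norm_sq, u.orthonormal.1 i]
      ring
    · intro j _ hj
      rw [u.orthonormal.2 hj.symm, mul_zero]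
    · intro h
      exact absurd (Finset.mem_univ i) h
  have hTsymm : ∀ x y, (⟪x, T y⟫ : ℝ) = ⟪T x, y⟫ := by
    intro x y
    rw [hTx y, hTx x, inner_sum, sum_inner]
    refine Finset.sum_congr rfl fun i _ => ?_
    rw [real_inner_smul_left, real_inner_smul_right, real_inner_comm x (u i)]
    ring
  refine ⟨T, |(LinearMap.toContinuousLinearMap (T : E n →ₗ[ℝ] E n)).det|, ?_, ?_⟩
  · rw [abs_pos]
    have h1 : (LinearMap.toContinuousLinearMap (T : E n →ₗ[ℝ] E n)).det =
        LinearMap.det (T : E n →ₗ[ℝ] E n) := rfl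
    rw [h1]
    exact (LinearEquiv.isUnit_det' T).ne_zero
  · intro x
    have hmeas : MeasurableSet K := hKc.measurableSet
    have hcv := integral_image_eq_integral_abs_det_fderiv_smul (μ := volume) (s := K)
      (f := fun z => LinearMap.toContinuousLinearMap (T : E n →ₗ[ℝ] E n) z)
      (f' := fun _ => LinearMap.toContinuousLinearMap (T : E n →ₗ[ℝ] E n)) hmeas
      (fun z _ => (ContinuousLinearMap.hasFDerivAt _).hasFDerivWithinAt)
      (fun a _ b _ h => T.injective h) (fun z => (⟪x, z⟫ : ℝ)^2)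
    have e1 : (fun z => LinearMap.toContinuousLinearMap (T : E n →ₗ[ℝ] E n) z) '' K = T '' K := rfl
    rw [e1] at hcv
    rw [hcv]
    simp only [smul_eq_mul]
    rw [integral_const_mul]
    congr 1
    have e2 : ∀ z, (⟪x, LinearMap.toContinuousLinearMap (T : E n →ₗ[ℝ] E n) z⟫ : ℝ)^2 =
        ⟪T x, z⟫ * ⟪T x, z⟫ := by
      intro z
      have : (⟪x, LinearMap.toContinuousLinearMap (T : E n →ₗ[ℝ] E n) z⟫ : ℝ) = ⟪T x, z⟫ :=
        hTsymm x z
      rw [this, sq]
    simp only [e2]
    rw [← ISOaux.S_inner K hKc (T x) (T x)]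
    have e3 : ISOaux.S K hKc (T x) = ∑ i, (lam i * ⟪u i, T x⟫) • u i := hSx (T x)
    rw [e3, inner_sum, ← u.sum_sq_norm_inner_right x]
    refine Finset.sum_congr rfl fun i _ => ?_
    rw [real_inner_smul_right, real_inner_comm (u i) (T x), hTc, Real.norm_eq_abs, sq_abs]
    have hl := Real.mul_self_sqrt (hlpos i).le
    have hsq : Real.sqrt (lam i) ≠ 0 := (Real.sqrt_pos.2 (hlpos i)).ne'
    have e4 : lam i * (w i * w i) = 1 := by
      rw [hw]
      simp only
      field_simp
      rw [sq]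
      exact hl.symm
    calc lam i * (w i * ⟪u i, x⟫) * (w i * ⟪u i, x⟫) = (lam i * (w i * w i)) * (⟪u i, x⟫ : ℝ)^2 := by ring
      _ = (⟪u i, x⟫ : ℝ)^2 := by rw [e4, one_mul]

end Pool.Agent.H638.IB
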