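import Pool.Agent.H638.IB.Defs

/-! Task KTB of project IB: the symmetrized sets are bodies of the same volume. -/

set_option autoImplicit false

open MeasureTheory Set Filter Topology Metric
open scoped Pointwise RealInnerProductSpace ENNReal

namespace Pool.Agent.H638.IB

namespace KTBaux

theorem norm_fst_le {N : ℕ} (s : ℝ) (y : E N) : |s| ≤ ‖mk s y‖ := by
  have h := norm_mk_sq s y
  exact abs_le_of_sq_le_sq (by nlinarith [sq_nonneg ‖y‖]) (norm_nonneg _)

theorem norm_snd_le {N : ℕ} (s : ℝ) (y : E N) : ‖y‖ ≤ ‖mk s y‖ := by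
  have h := norm_mk_sq s y
  exact (sq_le_sq₀ (norm_nonneg _) (norm_nonneg _)).mp (by nlinarith [sq_nonneg s])

theorem norm_neg_fst {N : ℕ} (s : ℝ) (y : E N) : ‖mk (-s) y‖ = ‖mk s y‖ := by
  have h := norm_mk_sq s y
  have h' := norm_mk_sq (-s) y
  have : ‖mk (-s) y‖ ^ 2 = ‖mk s y‖ ^ 2 := by rw [h, h']; ring
  exact (sq_eq_sq₀ (norm_nonneg _) (norm_nonneg _)).mp this

/-- the parameter set -/
def S {N : ℕ} (K : Set (E (N + 1))) : Set (E N × ℝ × ℝ) := {p | mk p.2.1 p.1 ∈ K ∧ mk p.2.2 p.1 ∈ K}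

theorem S_compact {N : ℕ} (K : Set (E (N + 1))) (hK : Body K) : IsCompact (S K) := by
  obtain ⟨R, hR⟩ := hK.compact.isBounded.subset_closedBall (0 : E (N + 1))
  have hbox : IsCompact ((closedBall (0 : E N) R) ×ˢ ((Icc (-R) R) ×ˢ (Icc (-R) R)) :
      Set (E N × ℝ × ℝ)) := (isCompact_closedBall _ _).prod (isCompact_Icc.prod isCompact_Icc)
  apply hbox.of_isClosed_subset
  · have c1 : Continuous (fun p : E N × ℝ × ℝ => mk p.2.1 p.1) :=
      continuous_mk.comp (f := fun p : E N × ℝ × ℝ => (p.2.1, p.1)) (by fun_prop)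
    have c2 : Continuous (fun p : E N × ℝ × ℝ => mk p.2.2 p.1) :=
      continuous_mk.comp (f := fun p : E N × ℝ × ℝ => (p.2.2, p.1)) (by fun_prop)
    exact (hK.compact.isClosed.preimage c1).inter (hK.compact.isClosed.preimage c2)
  · rintro ⟨y, s1, s2⟩ ⟨h1, h2⟩
    have n1 := hR h1
    have n2 := hR h2
    rw [mem_closedBall_zero_iff] at n1 n2
    refine ⟨?_, ?_, ?_⟩
    · rw [mem_closedBall_zero_iff]
      exact (norm_snd_le s1 y).trans n1
    · exact abs_le.mp ((norm_fst_le s1 y).trans n1)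
    · exact abs_le.mp ((norm_fst_le s2 y).trans n2)

theorem Kt_eq {N : ℕ} (K : Set (E (N + 1))) (t : ℝ) :
    Kt K t = (fun p : E N × ℝ × ℝ => mk ((1 - t / 2) * p.2.1 - t / 2 * p.2.2) p.1) '' S K := by
  ext x
  constructor
  · rintro ⟨y, s1, s2, h1, h2, rfl⟩
    exact ⟨(y, s1, s2), ⟨h1, h2⟩, rfl⟩
  · rintro ⟨⟨y, s1, s2⟩, ⟨h1, h2⟩, rfl⟩
    exact ⟨y, s1, s2, h1, h2, rfl⟩

theorem Kt_body {N : ℕ} (K : Set (E (N + 1))) (hK : Body K) (r : ℝ) (hr : 0 < r)
    (hrK : closedBall 0 r ⊆ K) (t : ℝ) : Body (Kt K t) := by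
  refine ⟨?_, ?_, ?_, ?_⟩
  · rw [Kt_eq]
    apply (S_compact K hK).image
    exact continuous_mk.comp
      (f := fun p : E N × ℝ × ℝ => ((1 - t / 2) * p.2.1 - t / 2 * p.2.2, p.1)) (by fun_prop)
  · rintro x ⟨y, s1, s2, h1, h2, rfl⟩ x' ⟨y', s1', s2', h1', h2', rfl⟩ a b ha hb hab
    refine ⟨a • y + b • y', a * s1 + b * s1', a * s2 + b * s2', ?_, ?_, ?_⟩
    · have := hK.convex h1 h1' ha hb hab
      rwa [smul_mk, smul_mk, mk_add] at this
    · have := hK.convex h2 h2' ha hb hab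
      rwa [smul_mk, smul_mk, mk_add] at this
    · rw [smul_mk, smul_mk, mk_add]
      congr 1
      ring
  · have hsub : closedBall (0 : E (N + 1)) r ⊆ Kt K t := by
      intro x hx
      obtain ⟨s, y, rfl⟩ := exists_mk x
      refine ⟨y, s, -s, hrK hx, hrK ?_, ?_⟩
      · rw [mem_closedBall_zero_iff] at hx ⊢
        rwa [norm_neg_fst]
      · congr 1
        ring
    have h1 : ball (0 : E (N + 1)) r ⊆ interior (Kt K t) :=
      interior_maximal (ball_subset_closedBall.trans hsub) isOpen_ball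
    exact ⟨0, h1 (mem_ball_self hr)⟩
  · rintro x ⟨y, s1, s2, h1, h2, rfl⟩
    refine ⟨-y, -s1, -s2, ?_, ?_, ?_⟩
    · rw [← neg_mk]; exact hK.neg _ h1
    · rw [← neg_mk]; exact hK.neg _ h2
    · rw [neg_mk]
      congr 1
      ring

/-- volume from the fibres -/
theorem vol_fib (hMP : S_MP) {N : ℕ} (M : Set (E (N + 1))) (hM : MeasurableSet M) (P : Set (E N))
    (m l : E N → ℝ) (h : ∀ s y, mk s y ∈ M ↔ y ∈ P ∧ |s - m y| ≤ l y) :
    volume M = ∫⁻ y : E N, (open Classical in if y ∈ P then ENNReal.ofReal (2 * l y) else 0) := by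
  classical
  have h1 := (hMP N).measure_preimage hM.nullMeasurableSet
  have hmeas : MeasurableSet ((fun p : ℝ × E N => mk p.1 p.2) ⁻¹' M) :=
    (continuous_mk.measurable) hM
  rw [← h1, Measure.prod_apply_symm hmeas]
  apply lintegral_congr
  intro y
  by_cases hy : y ∈ P
  · rw [if_pos hy]
    have : (fun s : ℝ => (s, y)) ⁻¹' ((fun p : ℝ × E N => mk p.1 p.2) ⁻¹' M) =
        closedBall (m y) (l y) := by
      ext s
      simp only [mem_preimage, mem_closedBall, Real.dist_eq]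
      rw [h s y]
      exact ⟨fun hh => hh.2, fun hh => ⟨hy, hh⟩⟩
    rw [this, Real.volume_closedBall]
  · rw [if_neg hy]
    have : (fun s : ℝ => (s, y)) ⁻¹' ((fun p : ℝ × E N => mk p.1 p.2) ⁻¹' M) = ∅ := by
      ext s
      simp only [mem_preimage, mem_empty_iff_false, iff_false]
      rw [h s y]
      exact fun hh => hy hh.1
    rw [this, measure_empty]

end KTBaux

open KTBaux in
theorem KTB_ok (hFIB : S_FIB) (hMP : S_MP) (hGB : S_GB) : S_KTB := by
  intro N K hK t ht0 ht1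
  obtain ⟨⟨r, R, hr, hR, hrK, hKR⟩, -⟩ := hGB K hK
  have hB := Kt_body K hK r hr hrK t
  refine ⟨hB, ?_⟩
  obtain ⟨f1, f2, -⟩ := hFIB K hK
  rw [vol_fib hMP K hK.compact.isClosed.measurableSet (Pr K) (mid K) (len K) f1,
    vol_fib hMP (Kt K t) hB.compact.isClosed.measurableSet (Pr K) (fun y => (1 - t) * mid K y) (len K)
      (f2 t ht0 ht1)]

end Pool.Agent.H638.IB
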