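import Pool.Agent.H638.IB.Defs

set_option autoImplicit false

open MeasureTheory Set Filter Topology Metric
open scoped Pointwise RealInnerProductSpace ENNReal

namespace Pool.Agent.H638.IB

namespace KTNaux

theorem convex_Kt {N : ℕ} (K : Set (E (N + 1))) (hK : Convex ℝ K) (t : ℝ) :
    Convex ℝ (Kt K t) := by
  rintro x ⟨y, s₁, s₂, h1, h2, rfl⟩ x' ⟨y', s₁', s₂', h1', h2', rfl⟩ a b ha hb hab
  refine ⟨a • y + b • y', a * s₁ + b * s₁', a * s₂ + b * s₂', ?_, ?_, ?_⟩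
  · have := hK h1 h1' ha hb hab
    rwa [smul_mk, smul_mk, mk_add] at this
  · have := hK h2 h2' ha hb hab
    rwa [smul_mk, smul_mk, mk_add] at this
  · rw [smul_mk, smul_mk, mk_add]
    congr 1
    ring

theorem abs_le_of_mem {N : ℕ} {R s : ℝ} {y : E N} (hR : 0 < R)
    (h : mk s y ∈ closedBall (0 : E (N + 1)) R) : |s| ≤ R := by
  rw [mem_closedBall_zero_iff] at h
  have h1 := norm_mk_sq s y
  have h2 : ‖mk s y‖ ^ 2 ≤ R ^ 2 := pow_le_pow_left₀ (norm_nonneg _) h 2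
  apply abs_le_of_sq_le_sq _ hR.le
  nlinarith [sq_nonneg ‖y‖]

theorem norm_mk_zero {N : ℕ} (s : ℝ) : ‖mk s (0 : E N)‖ = |s| := by
  have h1 := norm_mk_sq s (0 : E N)
  rw [norm_zero, zero_pow two_ne_zero, add_zero] at h1
  rw [← abs_norm, ← sq_eq_sq₀ (abs_nonneg _) (abs_nonneg _), sq_abs, sq_abs, h1]

theorem norm_mk_neg {N : ℕ} (s : ℝ) (y : E N) : ‖mk (-s) y‖ = ‖mk s y‖ := by
  rw [← abs_norm (mk (-s) y), ← abs_norm (mk s y), ← sq_eq_sq₀ (abs_nonneg _) (abs_nonneg _),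
    sq_abs, sq_abs, norm_mk_sq, norm_mk_sq, neg_sq]

theorem ball_sub {N : ℕ} {L : Set (E (N + 1))} {r c : ℝ} (hr : 0 < r) (hc : 0 ≤ c)
    (h : closedBall 0 r ⊆ L) : closedBall 0 (c * r) ⊆ c • L := by
  have h1 : c • closedBall (0 : E (N + 1)) r = closedBall 0 (c * r) := by
    rw [smul_closedBall c 0 hr.le, smul_zero, Real.norm_of_nonneg hc]
  rw [← h1]
  exact Set.smul_set_mono h

theorem add_mem {N : ℕ} {L : Set (E (N + 1))} {c r : ℝ} (hL : Convex ℝ L) (hr : 0 < r)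
    (hc : 0 ≤ c) (h : closedBall 0 r ⊆ L) {x w : E (N + 1)} (hx : x ∈ L) (hw : ‖w‖ ≤ c * r) :
    x + w ∈ (1 + c) • L := by
  rw [hL.add_smul zero_le_one hc, one_smul]
  exact Set.add_mem_add hx (ball_sub hr hc h (by rwa [mem_closedBall_zero_iff]))

end KTNaux

open KTNaux in
theorem KTN_ok (h1 : S_GB) : S_KTN := by
  intro N K hK
  obtain ⟨⟨r, R, hr, hR, hrK, hKR⟩, -⟩ := h1 K hK
  refine ⟨R / r, by positivity, ?_⟩
  intro t ht0 ht1
  have hC : 0 ≤ R / r * t := by positivity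
  have hCr : R / r * t * r = t * R := by field_simp
  have hball : closedBall 0 r ⊆ Kt K t := by
    intro z hz
    obtain ⟨s, y, rfl⟩ := exists_mk z
    refine ⟨y, s, -s, hrK hz, hrK ?_, ?_⟩
    · rw [mem_closedBall_zero_iff] at hz ⊢
      rwa [norm_mk_neg]
    · congr 1
      ring
  constructor
  · intro z hz
    obtain ⟨s, y, rfl⟩ := exists_mk z
    have hs := abs_le_of_mem hR (hKR hz)
    have hx : mk ((1 - t / 2) * s - t / 2 * s) y ∈ Kt K t := ⟨y, s, s, hz, hz, rfl⟩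
    have hw : ‖mk (t * s) (0 : E N)‖ ≤ R / r * t * r := by
      rw [norm_mk_zero, hCr, abs_mul, abs_of_nonneg ht0]
      exact mul_le_mul_of_nonneg_left hs ht0
    have := add_mem (convex_Kt K hK.convex t) hr hC hball hx hw
    rw [mk_add, add_zero] at this
    convert this using 2
    ring
  · rintro z ⟨y, s₁, s₂, hm1, hm2, rfl⟩
    have hs1 := abs_le_of_mem hR (hKR hm1)
    have hs2 := abs_le_of_mem hR (hKR hm2)
    have hw : ‖mk (-(t / 2) * (s₁ + s₂)) (0 : E N)‖ ≤ R / r * t * r := by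
      rw [norm_mk_zero, hCr, abs_mul, abs_neg, abs_of_nonneg (by positivity : 0 ≤ t / 2)]
      have h3 : |s₁ + s₂| ≤ 2 * R := (abs_add_le _ _).trans (by linarith)
      calc t / 2 * |s₁ + s₂| ≤ t / 2 * (2 * R) := mul_le_mul_of_nonneg_left h3 (by positivity)
        _ = t * R := by ring
    have := add_mem hK.convex hr hC hrK hm1 hw
    rw [mk_add, add_zero] at this
    convert this using 2
    ring

end Pool.Agent.H638.IB
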