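import Pool.Agent.H638.IB.Defs
import Pool.Agent.H212R2.KLS.T1

set_option autoImplicit false

open MeasureTheory Set Filter Topology Metric
open scoped Pointwise RealInnerProductSpace ENNReal

namespace Pool.Agent.H638.IB

namespace LCQaux

/-- The polytope. -/
def Q {N : ℕ} (K : Set (E (N + 1))) (Y : Fin (N + 1) → E N) (τ : ℝ) : Set (E N) :=
  {v : E N | ∀ i, Y i ∈ Pr K ∧ |⟪v, Y i⟫ + τ * mid K (Y i)| ≤ len K (Y i)}

theorem Q_meas {N : ℕ} (K : Set (E (N + 1))) (Y : Fin (N + 1) → E N) (τ : ℝ) :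
    MeasurableSet (Q K Y τ) := by
  unfold Q
  rw [setOf_forall]
  refine MeasurableSet.iInter fun i => ?_
  refine (MeasurableSet.const _).inter ?_
  have hc : Continuous fun v : E N => |⟪v, Y i⟫ + τ * mid K (Y i)| := by fun_prop
  exact (isClosed_le hc continuous_const).measurableSet

theorem Q_neg {N : ℕ} (K : Set (E (N + 1))) (Y : Fin (N + 1) → E N) (a : ℝ) :
    Q K Y (-a) = Neg.neg ⁻¹' (Q K Y a) := by
  ext v
  simp only [Q, mem_setOf_eq, mem_preimage]
  refine forall_congr' fun i => and_congr_right fun _ => ?_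
  have : ⟪-v, Y i⟫ + a * mid K (Y i) = -(⟪v, Y i⟫ + -a * mid K (Y i)) := by
    rw [inner_neg_left]; ring
  rw [this, abs_neg]

theorem Q_mid {N : ℕ} (K : Set (E (N + 1))) (Y : Fin (N + 1) → E N) (a b : ℝ) (v w : E N)
    (hv : v ∈ Q K Y a) (hw : w ∈ Q K Y b) :
    (1 - (1 / 2 : ℝ)) • v + (1 / 2 : ℝ) • w ∈ Q K Y ((a + b) / 2) := by
  intro i
  obtain ⟨h1, h2⟩ := hv i
  obtain ⟨_, h3⟩ := hw i
  refine ⟨h1, ?_⟩
  rw [inner_add_left, inner_smul_left, inner_smul_left]
  simp only [conj_trivial]
  rw [abs_le] at h2 h3 ⊢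
  constructor <;> linarith [h2.1, h2.2, h3.1, h3.2]

end LCQaux

open LCQaux

theorem LCQ_ok : S_LCQ := by
  intro N K Y
  refine ⟨fun a b => ?_, fun a => ?_⟩
  · have hPL := Pool.Agent.H212R2.KLS.PL (volume : Measure (E N)) (1 / 2) (by norm_num) (by norm_num)
      ((Q K Y a).indicator 1) ((Q K Y b).indicator 1) ((Q K Y ((a + b) / 2)).indicator 1)
      (measurable_one.indicator (Q_meas K Y a)) (measurable_one.indicator (Q_meas K Y b))
      (measurable_one.indicator (Q_meas K Y _)) (by
        intro x y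
        by_cases hx : x ∈ Q K Y a
        · by_cases hy : y ∈ Q K Y b
          · have := Q_mid K Y a b x y hx hy
            rw [indicator_of_mem hx, indicator_of_mem hy, indicator_of_mem this]
            simp
          · rw [indicator_of_notMem hy]
            simp
        · rw [indicator_of_notMem hx]
          have : (0 : ℝ≥0∞) ^ (1 - (1 / 2 : ℝ)) = 0 := by
            rw [ENNReal.zero_rpow_of_pos]; norm_num
          rw [this, zero_mul]
          exact zero_le)
    rw [lintegral_indicator_one (Q_meas K Y a), lintegral_indicator_one (Q_meas K Y b),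
      lintegral_indicator_one (Q_meas K Y _)] at hPL
    have h2 := pow_le_pow_left' hPL 2
    rw [mul_pow, ← ENNReal.rpow_natCast, ← ENNReal.rpow_natCast, ← ENNReal.rpow_mul,
      ← ENNReal.rpow_mul] at h2
    norm_num at h2
    exact h2
  · show volume (Q K Y (-a)) = volume (Q K Y a)
    rw [Q_neg]
    exact Measure.measure_preimage_neg _ _

end Pool.Agent.H638.IB
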