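import Pool.Agent.H638.IB.Defs

set_option autoImplicit false

open Set

namespace Pool.Agent.H638.IB

theorem LCR_ok : S_LCR := by
  intro φ hφ heven h0 hM hlc hδ
  obtain ⟨M, hM⟩ := hM
  obtain ⟨δ, hδ, hφδ⟩ := hδ
  have hbdd : BddAbove {r | 0 < φ r} := by
    refine ⟨M, ?_⟩
    intro r hr
    by_contra h
    have := hM r (not_le.mp h)
    rw [Set.mem_setOf_eq, this] at hr
    exact lt_irrefl _ hr
  have hne : {r | 0 < φ r}.Nonempty := ⟨δ, hφδ⟩
  set f := sSup {r | 0 < φ r} with hf
  have hfpos : 0 < f := lt_of_lt_of_le hδ (le_csSup hbdd hφδ)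
  have hpos : ∀ r ∈ Ioo 0 f, 0 < φ r := by
    intro r hr
    obtain ⟨r', hr', hrr⟩ := exists_lt_of_lt_csSup hne hr.2
    have hr'pos : 0 < r' := hr.1.trans hrr
    have hl1 : r / r' < 1 := (div_lt_one hr'pos).mpr hrr
    have hl0 : 0 < r / r' := div_pos hr.1 hr'pos
    have h := hlc 0 r' (1 - r / r') (by linarith) (by linarith)
    have e1 : (1 - r / r') * 0 + (1 - (1 - r / r')) * r' = r := by
      field_simp
      ring
    rw [e1] at h
    refine lt_of_lt_of_le ?_ h
    have hr'' : 0 < φ r' := hr'
    positivity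
  refine ⟨f, hfpos, ?_, hpos, ?_, ?_⟩
  · have hconc : ConcaveOn ℝ (Ioo 0 f) (fun r => Real.log (φ r)) := by
      refine ⟨convex_Ioo 0 f, ?_⟩
      intro x hx y hy a b ha hb hab
      rcases ha.eq_or_lt with ha0 | ha0
      · have hb1 : b = 1 := by linarith
        subst hb1
        rw [← ha0]
        simp
      rcases hb.eq_or_lt with hb0 | hb0
      · have ha1 : a = 1 := by linarith
        subst ha1
        rw [← hb0]
        simp
      have h := hlc x y a ha0 (by linarith)
      have e1 : 1 - a = b := by linarith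
      rw [e1] at h
      have hx1 := hpos x hx
      have hy1 := hpos y hy
      have h2 := Real.log_le_log (by positivity) h
      rw [Real.log_mul (by positivity) (by positivity), Real.log_rpow hx1, Real.log_rpow hy1] at h2
      simpa using h2
    have hcont := hconc.continuousOn isOpen_Ioo
    have h3 : ContinuousOn (fun r => Real.exp (Real.log (φ r))) (Ioo 0 f) := hcont.rexp
    refine h3.congr ?_
    intro r hr
    exact (Real.exp_log (hpos r hr)).symm
  · intro r hr
    by_contra h
    have h1 : 0 < φ r := lt_of_le_of_ne (hφ r) (Ne.symm h)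
    have := le_csSup hbdd h1
    linarith
  · intro r
    have h := hlc r (-r) (1 / 2) (by norm_num) (by norm_num)
    rw [heven r] at h
    have e1 : (1 / 2 : ℝ) * r + (1 - 1 / 2) * -r = 0 := by ring
    rw [e1] at h
    have e2 : (1 - 1 / 2 : ℝ) = 1 / 2 := by norm_num
    rw [e2, ← Real.sqrt_eq_rpow, Real.mul_self_sqrt (hφ r)] at h
    exact h

end Pool.Agent.H638.IB
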