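import Pool.Agent.H638.IB.Defs

set_option autoImplicit false

namespace Pool.Agent.H638.IB

theorem LCS_ok : S_LCS := by
  intro q hq hmid heven
  have h10 : q 1 ≤ q 0 := by
    have h := hmid 1 (-1)
    rw [heven 1] at h
    norm_num at h
    have h2 : q 1 ^ 2 ≤ q 0 ^ 2 := by nlinarith
    exact (pow_le_pow_iff_left₀ (hq 1) (hq 0) two_ne_zero).mp h2
  refine ⟨h10, ?_⟩
  rcases (hq 1).eq_or_lt with h0 | hpos
  · intro k
    rw [← h0]
    simp only [zero_mul, zero_div, mul_zero, add_zero]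
    exact hq _
  · have hq0 : 0 < q 0 := lt_of_lt_of_le hpos h10
    have key : ∀ k : ℕ, q 1 * Real.exp ((1 / 2) ^ k * Real.log (q 0 / q 1)) ≤ q (1 - (1 / 2) ^ k) := by
      intro k
      induction k with
      | zero =>
        rw [pow_zero, one_mul, sub_self, Real.exp_log (by positivity)]
        rw [mul_div_cancel₀ _ hpos.ne']
      | succ k ih =>
        have h := hmid (1 - (1 / 2) ^ k) 1
        have e1 : ((1 - (1 / 2 : ℝ) ^ k) + 1) / 2 = 1 - (1 / 2) ^ (k + 1) := by
          rw [pow_succ]; ring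
        rw [e1] at h
        have h3 : (q 1 * Real.exp ((1 / 2) ^ (k + 1) * Real.log (q 0 / q 1))) ^ 2 ≤
            q (1 - (1 / 2) ^ (k + 1)) ^ 2 := by
          have e2 : (q 1 * Real.exp ((1 / 2) ^ (k + 1) * Real.log (q 0 / q 1))) ^ 2 =
              (q 1 * Real.exp ((1 / 2) ^ k * Real.log (q 0 / q 1))) * q 1 := by
            rw [mul_pow, ← Real.exp_nat_mul]
            have e3 : ((2 : ℕ) : ℝ) * ((1 / 2) ^ (k + 1) * Real.log (q 0 / q 1)) =
                (1 / 2) ^ k * Real.log (q 0 / q 1) := by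
              rw [pow_succ]; push_cast; ring
            rw [e3]
            ring
          rw [e2]
          exact (mul_le_mul_of_nonneg_right ih hpos.le).trans h
        exact (pow_le_pow_iff_left₀ (by positivity) (hq _) two_ne_zero).mp h3
    intro k
    refine le_trans ?_ (key k)
    have hlog : (q 0 - q 1) / q 0 ≤ Real.log (q 0 / q 1) := by
      have h := Real.one_sub_inv_le_log_of_pos (x := q 0 / q 1) (by positivity)
      rw [inv_div] at h
      rw [sub_div, div_self hq0.ne']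
      exact h
    have hexp := Real.add_one_le_exp ((1 / 2 : ℝ) ^ k * Real.log (q 0 / q 1))
    have hk : (0 : ℝ) ≤ (1 / 2) ^ k := by positivity
    have h4 : (1 / 2 : ℝ) ^ k * ((q 0 - q 1) / q 0) ≤ (1 / 2) ^ k * Real.log (q 0 / q 1) :=
      mul_le_mul_of_nonneg_left hlog hk
    have h5 : (1 / 2 : ℝ) ^ k * ((q 0 - q 1) / q 0) + 1 ≤ Real.exp ((1 / 2) ^ k * Real.log (q 0 / q 1)) := by
      linarith
    have h6 := mul_le_mul_of_nonneg_left h5 hpos.le
    calc q 1 + (1 / 2) ^ k * (q 1 * (q 0 - q 1) / q 0)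
        = q 1 * ((1 / 2 : ℝ) ^ k * ((q 0 - q 1) / q 0) + 1) := by ring
      _ ≤ _ := h6

end Pool.Agent.H638.IB
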