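import Pool.Agent.H638.IB.Defs

/-! LIN: the midpoints are linear. -/

set_option autoImplicit false

open MeasureTheory Set Filter Topology Metric

namespace Pool.Agent.H638.IB

namespace LINaux

variable {V : Type*} [NormedAddCommGroup V] [NormedSpace ℝ V]

/-- additivity on the small ball from the relation for independent pairs -/
theorem additive_of_indep (hdim : 1 < Module.finrank ℝ V) (m : V → ℝ) (ρ : ℝ)
    (hcont : ContinuousOn m (ball 0 ρ)) (h0 : m 0 = 0)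
    (hadd : ∀ y₁ y₂ : V, ‖y₁‖ < ρ / 2 → ‖y₂‖ < ρ / 2 → LinearIndependent ℝ ![y₁, y₂] →
      m (y₁ + y₂) = m y₁ + m y₂) :
    ∀ y₁ y₂ : V, ‖y₁‖ < ρ / 2 → ‖y₂‖ < ρ / 2 → m (y₁ + y₂) = m y₁ + m y₂ := by
  intro y₁ y₂ h1 h2
  by_cases hy2 : y₂ = 0
  · subst hy2; simp [h0]
  by_cases hind : LinearIndependent ℝ ![y₁, y₂]
  · exact hadd y₁ y₂ h1 h2 hind
  obtain ⟨u, hu⟩ := exists_linearIndependent_pair_of_one_lt_finrank hdim hy2
  rw [LinearIndependent.pair_iff] at hu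
  -- y₁ is a multiple of y₂
  obtain ⟨a, ha⟩ : ∃ a : ℝ, y₁ = a • y₂ := by
    by_contra hcon
    push Not at hcon
    apply hind
    rw [LinearIndependent.pair_iff]
    intro s t hst
    by_cases hs : s = 0
    · subst hs
      rw [zero_smul, zero_add] at hst
      exact ⟨rfl, (smul_eq_zero.mp hst).resolve_right hy2⟩
    · exfalso
      apply hcon (-(t / s))
      have h3 : s • y₁ = -(t • y₂) := eq_neg_of_add_eq_zero_left hst
      have h4 : s⁻¹ • (s • y₁) = s⁻¹ • (-(t • y₂)) := by rw [h3]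
      rw [smul_smul, inv_mul_cancel₀ hs, one_smul] at h4
      rw [h4, smul_neg, smul_smul, neg_smul]
      congr 2
      field_simp
  -- independent for small t ≠ 0
  have hindt : ∀ t : ℝ, t ≠ 0 → LinearIndependent ℝ ![y₁ + t • u, y₂] := by
    intro t ht
    rw [LinearIndependent.pair_iff]
    intro s r hsr
    have h3 : (s * a + r) • y₂ + (s * t) • u = 0 := by
      rw [← hsr, ha]; module
    obtain ⟨h4, h5⟩ := hu _ _ h3
    have hs : s = 0 := (mul_eq_zero.mp h5).resolve_right ht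
    refine ⟨hs, ?_⟩
    rw [hs] at h4
    simpa using h4
  have hc1 : ContinuousAt m y₁ := hcont.continuousAt (isOpen_ball.mem_nhds (by
    rw [mem_ball_zero_iff]
    have := norm_nonneg y₁
    linarith))
  have hc2 : ContinuousAt m (y₁ + y₂) := hcont.continuousAt (isOpen_ball.mem_nhds (by
    rw [mem_ball_zero_iff]
    have := norm_add_le y₁ y₂
    linarith))
  have ht1 : Tendsto (fun t : ℝ => y₁ + t • u) (𝓝[≠] 0) (𝓝 y₁) := by
    have : Tendsto (fun t : ℝ => y₁ + t • u) (𝓝 0) (𝓝 (y₁ + (0 : ℝ) • u)) :=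
      (Continuous.tendsto (by fun_prop) 0)
    rw [zero_smul, add_zero] at this
    exact this.mono_left nhdsWithin_le_nhds
  have ht2 : Tendsto (fun t : ℝ => y₁ + t • u + y₂) (𝓝[≠] 0) (𝓝 (y₁ + y₂)) :=
    ht1.add_const y₂
  have hL : Tendsto (fun t : ℝ => m (y₁ + t • u + y₂)) (𝓝[≠] 0) (𝓝 (m (y₁ + y₂))) :=
    hc2.tendsto.comp ht2
  have hR : Tendsto (fun t : ℝ => m (y₁ + t • u) + m y₂) (𝓝[≠] 0) (𝓝 (m y₁ + m y₂)) :=
    (hc1.tendsto.comp ht1).add_const _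
  have hev : ∀ᶠ t : ℝ in 𝓝[≠] 0, m (y₁ + t • u + y₂) = m (y₁ + t • u) + m y₂ := by
    have hn : ∀ᶠ t : ℝ in 𝓝[≠] 0, ‖y₁ + t • u‖ < ρ / 2 :=
      (ht1.norm).eventually (gt_mem_nhds h1)
    filter_upwards [hn, self_mem_nhdsWithin] with t h3 h4
    exact hadd _ _ h3 h2 (hindt t h4)
  exact tendsto_nhds_unique hL ((tendsto_congr' hev).mpr hR)

/-- a function additive and continuous near `0` agrees with a linear map near `0` -/
theorem linear_of_additive (m : V → ℝ) (ρ : ℝ) (hρ : 0 < ρ)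
    (hcont : ContinuousOn m (ball 0 ρ))
    (hadd : ∀ y₁ y₂ : V, ‖y₁‖ < ρ / 2 → ‖y₂‖ < ρ / 2 → m (y₁ + y₂) = m y₁ + m y₂) :
    ∃ ℓ : V →ₗ[ℝ] ℝ, ∀ y : V, ‖y‖ < ρ / 2 → m y = ℓ y := by
  set g : ℕ → V → ℝ := fun n y => 2 ^ n * m (((2 : ℝ) ^ n)⁻¹ • y) with hg
  have hnorm : ∀ (n : ℕ) (y : V), ‖((2 : ℝ) ^ n)⁻¹ • y‖ = ((2 : ℝ) ^ n)⁻¹ * ‖y‖ := by
    intro n y
    rw [norm_smul, Real.norm_of_nonneg (by positivity)]
  have hsmall : ∀ (n : ℕ) (y : V), ‖y‖ < ρ / 2 * 2 ^ n → ‖((2 : ℝ) ^ n)⁻¹ • y‖ < ρ / 2 := by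
    intro n y h
    rw [hnorm, inv_mul_lt_iff₀ (by positivity)]
    linarith
  have hstep : ∀ (n : ℕ) (y : V), ‖y‖ < ρ / 2 * 2 ^ n → g (n + 1) y = g n y := by
    intro n y h
    have h1 := hsmall n y h
    have h2 : ‖((2 : ℝ) ^ (n + 1))⁻¹ • y‖ < ρ / 2 := by
      apply hsmall
      have h3 : (0 : ℝ) < ρ / 2 * 2 ^ n := by positivity
      rw [pow_succ]
      linarith
    have h3 : ((2 : ℝ) ^ n)⁻¹ • y = ((2 : ℝ) ^ (n + 1))⁻¹ • y + ((2 : ℝ) ^ (n + 1))⁻¹ • y := by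
      rw [← two_smul ℝ, smul_smul]
      congr 1
      rw [pow_succ]
      field_simp
    simp only [hg]
    rw [h3, hadd _ _ h2 h2, pow_succ]
    ring
  have hmono : ∀ (n j : ℕ) (y : V), ‖y‖ < ρ / 2 * 2 ^ n → g (n + j) y = g n y := by
    intro n j y h
    induction j with
    | zero => rfl
    | succ j ih =>
      rw [← ih]
      apply hstep
      refine lt_of_lt_of_le h ?_
      have : (2 : ℝ) ^ n ≤ 2 ^ (n + j) := pow_le_pow_right₀ (by norm_num) (by omega)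
      exact mul_le_mul_of_nonneg_left this (by linarith)
  have hex : ∀ y : V, ∃ n : ℕ, ‖y‖ < ρ / 2 * 2 ^ n := by
    intro y
    obtain ⟨n, hn⟩ := pow_unbounded_of_one_lt (‖y‖ / (ρ / 2)) (by norm_num : (1 : ℝ) < 2)
    refine ⟨n, ?_⟩
    rw [div_lt_iff₀ (by positivity)] at hn
    linarith
  choose k hk using hex
  have hf : ∀ (n : ℕ) (y : V), ‖y‖ < ρ / 2 * 2 ^ n → g (k y) y = g n y := by
    intro n y h
    rcases le_total n (k y) with h1 | h1
    · obtain ⟨j, hj⟩ := Nat.exists_eq_add_of_le h1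
      rw [hj]
      exact hmono n j y h
    · obtain ⟨j, hj⟩ := Nat.exists_eq_add_of_le h1
      rw [hj]
      exact (hmono (k y) j y (hk y)).symm
  have hkadd : ∀ x y : V, g (k (x + y)) (x + y) = g (k x) x + g (k y) y := by
    intro x y
    set n := k (x + y) + k x + k y with hn
    have hle : ∀ z : V, ∀ i : ℕ, i ≤ n → ‖z‖ < ρ / 2 * 2 ^ i → ‖z‖ < ρ / 2 * 2 ^ n := by
      intro z i hi hz
      refine lt_of_lt_of_le hz ?_
      have : (2 : ℝ) ^ i ≤ 2 ^ n := pow_le_pow_right₀ (by norm_num) hi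
      exact mul_le_mul_of_nonneg_left this (by linarith)
    have h1 := hle x (k x) (by omega) (hk x)
    have h2 := hle y (k y) (by omega) (hk y)
    have h3 := hle (x + y) (k (x + y)) (by omega) (hk (x + y))
    rw [hf n _ h1, hf n _ h2, hf n _ h3]
    simp only [hg]
    rw [smul_add, hadd _ _ (hsmall n x h1) (hsmall n y h2)]
    ring
  have hcf : Continuous (fun y => g (k y) y) := by
    rw [continuous_iff_continuousAt]
    intro y₀
    have hev : ∀ᶠ y in 𝓝 y₀, g (k y₀) y = g (k y) y := by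
      have : ∀ᶠ y in 𝓝 y₀, ‖y‖ < ρ / 2 * 2 ^ (k y₀) :=
        (continuous_norm.tendsto y₀).eventually (gt_mem_nhds (hk y₀))
      filter_upwards [this] with y hy
      exact (hf (k y₀) y hy).symm
    refine ContinuousAt.congr ?_ hev
    have h1 : ContinuousAt m (((2 : ℝ) ^ (k y₀))⁻¹ • y₀) := by
      apply hcont.continuousAt
      apply isOpen_ball.mem_nhds
      rw [mem_ball_zero_iff]
      have := hsmall (k y₀) y₀ (hk y₀)
      linarith
    have h2 : ContinuousAt (fun y : V => ((2 : ℝ) ^ (k y₀))⁻¹ • y) y₀ := by fun_prop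
    have h3 : ContinuousAt (fun y : V => m (((2 : ℝ) ^ (k y₀))⁻¹ • y)) y₀ :=
      ContinuousAt.comp (f := fun y : V => ((2 : ℝ) ^ (k y₀))⁻¹ • y) (g := m) h1 h2
    exact continuousAt_const.mul h3
  let f : V →+ ℝ := AddMonoidHom.mk' (fun y => g (k y) y) hkadd
  refine ⟨(f.toRealLinearMap hcf : V →ₗ[ℝ] ℝ), ?_⟩
  intro y hy
  have h1 : g (k y) y = g 0 y := hf 0 y (by simpa using hy)
  have h2 : g 0 y = m y := by simp [hg]
  have h3 : (f.toRealLinearMap hcf : V →ₗ[ℝ] ℝ) y = g (k y) y := rfl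
  rw [h3, h1, h2]

/-- the abstract statement -/
theorem main (hdim : 1 < Module.finrank ℝ V) (U : Set V) (hU : IsOpen U) (hU0 : (0 : V) ∈ U)
    (m l : V → ℝ) (hm : ContinuousOn m U) (hl : ContinuousOn l U) (hm0 : m 0 = 0)
    (hlpos : ∀ y ∈ U, 0 < l y)
    (hrel : ∀ (y₁ y₂ : V) (γ : ℝ), 0 < γ → LinearIndependent ℝ ![y₁, y₂] →
      y₁ ∈ U → y₂ ∈ U → γ • (y₁ + y₂) ∈ U →
      |l y₁ - l y₂| < l (γ • (y₁ + y₂)) / γ →
      l (γ • (y₁ + y₂)) / γ < l y₁ + l y₂ →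
      |m (γ • (y₁ + y₂)) - γ * (m y₁ + m y₂)| / γ < l y₁ + l y₂ + l (γ • (y₁ + y₂)) / γ →
      m (γ • (y₁ + y₂)) = γ * (m y₁ + m y₂)) :
    ∃ ℓ : V →ₗ[ℝ] ℝ, ∀ y ∈ U, m y = ℓ y := by
  have hl0 : 0 < l 0 := hlpos 0 hU0
  have hlc : ContinuousAt l 0 := hl.continuousAt (hU.mem_nhds hU0)
  have hmc : ContinuousAt m 0 := hm.continuousAt (hU.mem_nhds hU0)
  obtain ⟨ρ, hρ, hball⟩ : ∃ ρ > 0, ∀ y : V, ‖y‖ < ρ → y ∈ U ∧ |l y - l 0| < l 0 / 8 ∧
      |m y| < l 0 / 8 := by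
    have h1 : ∀ᶠ y in 𝓝 (0 : V), y ∈ U := hU.mem_nhds hU0
    have h2 : ∀ᶠ y in 𝓝 (0 : V), |l y - l 0| < l 0 / 8 := by
      have := Metric.tendsto_nhds.mp hlc.tendsto (l 0 / 8) (by positivity)
      simpa [Real.dist_eq] using this
    have h3 : ∀ᶠ y in 𝓝 (0 : V), |m y| < l 0 / 8 := by
      have := Metric.tendsto_nhds.mp hmc.tendsto (l 0 / 8) (by positivity)
      simpa [Real.dist_eq, hm0] using this
    obtain ⟨ρ, hρ, h⟩ := Metric.eventually_nhds_iff.mp (h1.and (h2.and h3))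
    refine ⟨ρ, hρ, fun y hy => ?_⟩
    exact h (by simpa using hy)
  have hmball : ContinuousOn m (ball 0 ρ) := hm.mono (fun y hy => (hball y (by simpa using hy)).1)
  have hadd := additive_of_indep hdim m ρ hmball hm0 (by
    intro y₁ y₂ h1 h2 hind
    have h3 : ‖y₁ + y₂‖ < ρ := by
      have := norm_add_le y₁ y₂
      linarith
    obtain ⟨u1, a1, b1⟩ := hball y₁ (by linarith)
    obtain ⟨u2, a2, b2⟩ := hball y₂ (by linarith)
    obtain ⟨u3, a3, b3⟩ := hball (y₁ + y₂) h3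
    have h := hrel y₁ y₂ 1 one_pos hind u1 u2
    simp only [one_smul, div_one, one_mul] at h
    rw [abs_lt] at a1 a2 a3 b1 b2 b3
    refine h u3 ?_ ?_ ?_
    · rw [abs_lt]; constructor <;> linarith [a1.1, a1.2, a2.1, a2.2, a3.1, a3.2]
    · linarith [a1.1, a1.2, a2.1, a2.2, a3.1, a3.2]
    · rw [abs_lt]
      constructor <;> linarith [a1.1, a1.2, a2.1, a2.2, a3.1, a3.2, b1.1, b1.2, b2.1, b2.2,
        b3.1, b3.2])
  obtain ⟨ℓ, hℓ⟩ := linear_of_additive m ρ hρ hmball hadd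
  refine ⟨ℓ, ?_⟩
  intro y hy
  by_cases hy0 : y = 0
  · subst hy0; rw [hm0, map_zero]
  obtain ⟨u, hu⟩ := exists_linearIndependent_pair_of_one_lt_finrank hdim hy0
  rw [LinearIndependent.pair_iff] at hu
  have hly := hlpos y hy
  -- choose γ
  obtain ⟨γ, hγ, hγ1, hγ2, hγ3⟩ : ∃ γ : ℝ, 0 < γ ∧ ‖y‖ / (2 * γ) < ρ / 4 ∧ l y / γ < l 0 / 2 ∧
      |m y - ℓ y| / γ < l 0 / 2 := by
    refine ⟨2 * ‖y‖ / ρ + 2 * l y / l 0 + 2 * |m y - ℓ y| / l 0 + 1, by positivity, ?_, ?_, ?_⟩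
    · rw [div_lt_iff₀ (by positivity)]
      have h1 : 0 ≤ 2 * l y / l 0 := by positivity
      have h2 : 0 ≤ 2 * |m y - ℓ y| / l 0 := by positivity
      have h3 : ρ / 4 * (2 * (2 * ‖y‖ / ρ)) = ‖y‖ := by field_simp; ring
      nlinarith
    · rw [div_lt_iff₀ (by positivity)]
      have h1 : 0 ≤ 2 * ‖y‖ / ρ := by positivity
      have h2 : 0 ≤ 2 * |m y - ℓ y| / l 0 := by positivity
      have h3 : l 0 / 2 * (2 * l y / l 0) = l y := by field_simp
      nlinarith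
    · rw [div_lt_iff₀ (by positivity)]
      have h1 : 0 ≤ 2 * ‖y‖ / ρ := by positivity
      have h2 : 0 ≤ 2 * l y / l 0 := by positivity
      have h3 : l 0 / 2 * (2 * |m y - ℓ y| / l 0) = |m y - ℓ y| := by field_simp
      nlinarith
  set x : V := (2 * γ)⁻¹ • y with hx
  have hxn : ‖x‖ < ρ / 4 := by
    rw [hx, norm_smul, Real.norm_of_nonneg (by positivity)]
    rw [div_eq_inv_mul] at hγ1
    exact hγ1
  obtain ⟨t, ht0, ht1, ht2⟩ : ∃ t : ℝ, t ≠ 0 ∧ ‖t • u‖ < ρ / 4 ∧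
      |l (x + t • u) - l (x - t • u)| < l y / γ := by
    have hxU : x ∈ U := (hball x (by linarith)).1
    have hlx : ContinuousAt l x := hl.continuousAt (hU.mem_nhds hxU)
    have c1 : Tendsto (fun t : ℝ => x + t • u) (𝓝 0) (𝓝 x) := by
      have : Tendsto (fun t : ℝ => x + t • u) (𝓝 0) (𝓝 (x + (0 : ℝ) • u)) :=
        (Continuous.tendsto (by fun_prop) 0)
      rwa [zero_smul, add_zero] at this
    have c2 : Tendsto (fun t : ℝ => x - t • u) (𝓝 0) (𝓝 x) := by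
      have : Tendsto (fun t : ℝ => x - t • u) (𝓝 0) (𝓝 (x - (0 : ℝ) • u)) :=
        (Continuous.tendsto (by fun_prop) 0)
      rwa [zero_smul, sub_zero] at this
    have c3 : Tendsto (fun t : ℝ => |l (x + t • u) - l (x - t • u)|) (𝓝 0) (𝓝 0) := by
      have := ((hlx.tendsto.comp c1).sub (hlx.tendsto.comp c2)).abs
      simpa using this
    have c4 : Tendsto (fun t : ℝ => ‖t • u‖) (𝓝 0) (𝓝 0) := by
      have : Tendsto (fun t : ℝ => ‖t • u‖) (𝓝 0) (𝓝 ‖(0 : ℝ) • u‖) :=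
        (Continuous.tendsto (by fun_prop) 0)
      rwa [zero_smul, norm_zero] at this
    have e1 : ∀ᶠ t : ℝ in 𝓝[≠] 0, |l (x + t • u) - l (x - t • u)| < l y / γ :=
      (c3.mono_left nhdsWithin_le_nhds).eventually (gt_mem_nhds (by positivity))
    have e2 : ∀ᶠ t : ℝ in 𝓝[≠] 0, ‖t • u‖ < ρ / 4 :=
      (c4.mono_left nhdsWithin_le_nhds).eventually (gt_mem_nhds (by positivity))
    obtain ⟨t, h1, h2, h3⟩ := (e1.and (e2.and self_mem_nhdsWithin)).exists
    exact ⟨t, h3, h2, h1⟩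
  set y₁ : V := x + t • u with hy1
  set y₂ : V := x - t • u with hy2
  have hn1 : ‖y₁‖ < ρ / 2 := by
    have := norm_add_le x (t • u)
    linarith
  have hn2 : ‖y₂‖ < ρ / 2 := by
    have := norm_sub_le x (t • u)
    linarith
  have hsum : γ • (y₁ + y₂) = y := by
    have h1 : y₁ + y₂ = (2 : ℝ) • x := by rw [hy1, hy2]; module
    rw [h1, hx, smul_smul, smul_smul]
    have h2 : γ * 2 * (2 * γ)⁻¹ = 1 := by field_simp
    rw [h2, one_smul]
  have hind : LinearIndependent ℝ ![y₁, y₂] := by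
    rw [LinearIndependent.pair_iff]
    intro a b hab
    have h1 : ((a + b) * (2 * γ)⁻¹) • y + ((a - b) * t) • u = 0 := by
      rw [← hab, hy1, hy2, hx]; module
    obtain ⟨h2, h3⟩ := hu _ _ h1
    have h4 : a + b = 0 := (mul_eq_zero.mp h2).resolve_right (by positivity)
    have h5 : a - b = 0 := (mul_eq_zero.mp h3).resolve_right ht0
    constructor <;> linarith
  obtain ⟨u1, a1, _⟩ := hball y₁ (by linarith)
  obtain ⟨u2, a2, _⟩ := hball y₂ (by linarith)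
  have e1 := hℓ y₁ hn1
  have e2 := hℓ y₂ hn2
  have e3 : γ * (m y₁ + m y₂) = ℓ y := by
    rw [e1, e2, ← map_add, ← smul_eq_mul, ← map_smul, hsum]
  have h := hrel y₁ y₂ γ hγ hind u1 u2
  rw [hsum, e3] at h
  rw [abs_lt] at a1 a2
  refine h hy ht2 ?_ ?_
  · linarith [a1.1, a1.2, a2.1, a2.2]
  · have : 0 < l y / γ := by positivity
    linarith [a1.1, a1.2, a2.1, a2.2]

end LINaux

theorem LIN_ok (hREL : S_REL) (hFIB : S_FIB) (hGB : S_GB) : S_LIN := by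
  intro N hN K hK c hc hI
  obtain ⟨-, -, hodd, -, hPr, hlen, hmidc, hlenc⟩ := hFIB K hK
  have hdim : 1 < Module.finrank ℝ (E N) := by
    rw [finrank_euclideanSpace, Fintype.card_fin]; omega
  have h0 : (0 : E N) ∈ interior (Pr K) := by
    obtain ⟨⟨r, R, hr, -, hsub, -⟩, -⟩ := hGB (Pr K) hPr
    exact interior_mono hsub (by
      apply mem_interior.mpr
      exact ⟨ball 0 r, ball_subset_closedBall, isOpen_ball, mem_ball_self hr⟩)
  have hm0 : mid K 0 = 0 := by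
    have := (hodd 0).1
    rw [neg_zero] at this
    linarith
  exact LINaux.main hdim (interior (Pr K)) isOpen_interior h0 (mid K) (len K) hmidc hlenc hm0 hlen
    (fun y₁ y₂ γ hγ hind h1 h2 h3 h4 h5 h6 => hREL hN K hK c hc hI y₁ y₂ γ hγ hind h1 h2 h3 h4 h5 h6)

end Pool.Agent.H638.IB
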