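import Pool.Agent.H638.IB.Defs

/-! LYAP: the functional `F` increases. -/

set_option autoImplicit false

open MeasureTheory Set Filter Topology Metric
open scoped Pointwise RealInnerProductSpace ENNReal

namespace Pool.Agent.H638.IB

namespace LYAPaux

theorem ae_ne_zero {N : ℕ} : ∀ᵐ x : E (N + 1), x ≠ 0 := by
  have h : (volume : Measure (E (N + 1))) {0} = 0 := by
    haveI : Nontrivial (E (N + 1)) := by
      refine ⟨⟨0, mk 1 0, ?_⟩⟩
      intro h
      exact mk_one_ne (0 : E N) h.symm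
    exact measure_singleton 0
  rw [ae_iff]
  have : {a : E (N + 1) | ¬ a ≠ 0} = {0} := by
    ext a
    simp
  rw [this]
  exact h

theorem lint_congr (hIBB : S_IBB) {N : ℕ} (hN : 1 ≤ N) (K S : Set (E (N + 1))) (hK : Body K) :
    ∫⁻ x in S, ENNReal.ofReal (A K x) = ∫⁻ x in S, ENNReal.ofReal (gauge (IB K) x)⁻¹ := by
  refine lintegral_congr_ae ?_
  refine ae_restrict_of_ae ?_
  filter_upwards [ae_ne_zero (N := N)] with x hx
  rw [(hIBB hN K hK).2 x hx, inv_inv]

end LYAPaux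

theorem LYAP_ok (hGB : S_GB) (hIBB : S_IBB) (hSYM : S_SYM) (hGINT : S_GINT) (hDM : S_DM) :
    S_LYAP := by
  intro N hN K hK
  have hK1 : Body (IB K) := (hIBB hN K hK).1
  have hK2 : Body (IB (IB K)) := (hIBB hN (IB K) hK1).1
  obtain ⟨-, -, -, -, -, -, hv0, hf0, -⟩ := hGB K hK
  obtain ⟨-, -, -, -, -, -, hv1, hf1, -⟩ := hGB (IB K) hK1
  obtain ⟨-, -, -, -, -, -, hv2, hf2, -⟩ := hGB (IB (IB K)) hK2
  have hsym := hSYM hN K (IB K) hK hK1
  rw [LYAPaux.lint_congr hIBB hN (IB K) K hK1, LYAPaux.lint_congr hIBB hN K (IB K) hK,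
    (hGINT hN (IB K) (IB K) hK1 hK1).2] at hsym
  obtain ⟨hdm, heq⟩ := hDM hN K (IB (IB K)) hK hK2
  have hNpos : (0 : ℝ) < N := by exact_mod_cast hN
  have hq : (0 : ℝ) < ((N : ℝ) + 1) / N := by positivity
  have hval : (∫⁻ x in K, ENNReal.ofReal (gauge (IB (IB K)) x)⁻¹).toReal =
      ((N : ℝ) + 1) / N * vol (IB K) := by
    rw [hsym, ENNReal.toReal_mul, ENNReal.toReal_ofReal hq.le]
    rfl
  rw [hval, mul_pow] at hdm heq
  have hqp : (0 : ℝ) < (((N : ℝ) + 1) / N) ^ (N + 1) := by positivity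
  have hmain : vol (IB K) ^ (N + 1) ≤ vol K ^ N * vol (IB (IB K)) := by
    rw [mul_assoc] at hdm
    exact le_of_mul_le_mul_left hdm hqp
  have hp0 : 0 < vol K ^ N := pow_pos hv0 N
  have hp1 : 0 < vol (IB K) ^ N := pow_pos hv1 N
  refine ⟨?_, ?_⟩
  · unfold F
    rw [div_le_div_iff₀ hp0 hp1]
    calc vol (IB K) * vol (IB K) ^ N = vol (IB K) ^ (N + 1) := by ring
      _ ≤ vol K ^ N * vol (IB (IB K)) := hmain
      _ = vol (IB (IB K)) * vol K ^ N := by ring
  · intro hF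
    unfold F at hF
    rw [div_eq_div_iff hp1.ne' hp0.ne'] at hF
    apply heq
    rw [mul_assoc]
    congr 1
    calc vol (IB K) ^ (N + 1) = vol (IB K) * vol (IB K) ^ N := by ring
      _ = vol (IB (IB K)) * vol K ^ N := hF.symm
      _ = vol K ^ N * vol (IB (IB K)) := by ring

end Pool.Agent.H638.IB
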