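import Mathlib
import Pool.Agent.H638.IB.Defs

set_option autoImplicit false

open MeasureTheory Set Filter Topology Metric
open scoped Pointwise RealInnerProductSpace ENNReal

namespace Pool.Agent.H638.IB

theorem MP_ok : S_MP := by
  intro N
  have h1 : MeasurePreserving (fun p : ℝ × E N => (p.1, (WithLp.ofLp p.2 : Fin N → ℝ)))
      ((volume : Measure ℝ).prod (volume : Measure (E N)))
      ((volume : Measure ℝ).prod (volume : Measure (Fin N → ℝ))) :=
    (MeasurePreserving.id (volume : Measure ℝ)).prod (PiLp.volume_preserving_ofLp (Fin N))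
  have h2 := (volume_preserving_piFinSuccAbove (fun _ : Fin (N + 1) => ℝ) 0).symm
  have h3 := PiLp.volume_preserving_toLp (Fin (N + 1))
  have h4 := h3.comp (h2.comp h1)
  have h5 : (fun p : ℝ × E N => mk p.1 p.2) =
      (fun f => WithLp.toLp 2 f) ∘
        ((MeasurableEquiv.piFinSuccAbove (fun _ : Fin (N + 1) => ℝ) 0).symm ∘
          fun p : ℝ × E N => (p.1, (WithLp.ofLp p.2 : Fin N → ℝ))) := by
    funext p
    ext i
    refine Fin.cases ?_ (fun j => ?_) i
    · show p.1 = Fin.insertNth (α := fun _ => ℝ) 0 p.1 (fun k => p.2 k) 0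
      exact (Fin.insertNth_apply_same (α := fun _ => ℝ) 0 p.1 (fun k => p.2 k)).symm
    · rfl
  rw [h5]
  exact h4

end Pool.Agent.H638.IB
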