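import Pool.Agent.H638.IB.Defs

set_option autoImplicit false

open MeasureTheory Set Filter Topology Metric
open scoped Pointwise RealInnerProductSpace ENNReal

namespace Pool.Agent.H638.IB

theorem NELL_ok (hCONT : S_CONT) (hSUP : S_SUP) (hLYAP : S_LYAP) (hRIG : S_RIG) (hIBB : S_IBB) :
    S_NELL := by
  intro N hN K hK hnear
  have hN1 : 1 ≤ N := by omega
  have h1 : F (closedBall (0 : E (N + 1)) 1) ≤ F K := by
    refine le_of_forall_pos_sub_le fun δ hδ => ?_
    obtain ⟨ε, hε, h⟩ := hCONT N hN δ hδ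
    exact h K hK (hnear ε hε)
  have h2 := hSUP N hN K hK
  have hIB := (hIBB hN1 K hK).1
  have h3 := hSUP N hN (IB K) hIB
  obtain ⟨h4, h5⟩ := hLYAP hN1 K hK
  obtain ⟨c, hc, hcK⟩ := h5 (le_antisymm (h3.trans h1) h4)
  exact hRIG hN K hK c hc hcK

end Pool.Agent.H638.IB
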