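import Pool.Agent.H638.IB.Defs

/-! Task PAR: the formula for `Qv` when the last `N` points form a basis. -/

set_option autoImplicit false

open MeasureTheory Set Filter Topology Metric
open scoped Pointwise RealInnerProductSpace ENNReal NNReal

namespace Pool.Agent.H638.IB

namespace PARaux

/-- The linear map `v ↦ (⟪v, y i⟫)_i`. -/
noncomputable def Lm {N : ℕ} (y : Fin N → E N) : E N →ₗ[ℝ] (Fin N → ℝ) where
  toFun v i := ⟪v, y i⟫
  map_add' a b := by ext i; simp [inner_add_left]
  map_smul' a b := by ext i; simp [inner_smul_left]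

theorem Lm_apply {N : ℕ} (y : Fin N → E N) (v : E N) (i : Fin N) : Lm y v i = ⟪v, y i⟫ := rfl

theorem Lm_inj {N : ℕ} (y : Fin N → E N) (hy : LinearIndependent ℝ y) :
    Function.Injective (Lm y) := by
  rw [injective_iff_map_eq_zero]
  intro v hv
  have hspan : Submodule.span ℝ (Set.range y) = ⊤ :=
    hy.span_eq_top_of_card_eq_finrank' (by simp)
  have h1 : ∀ w ∈ Submodule.span ℝ (Set.range y), (⟪v, w⟫ : ℝ) = 0 := by
    intro w hw
    induction hw using Submodule.span_induction with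
    | mem x hx =>
      obtain ⟨i, rfl⟩ := hx
      exact congrFun hv i
    | zero => simp
    | add a b _ _ ha hb => rw [inner_add_right, ha, hb, add_zero]
    | smul c a _ ha => rw [inner_smul_right, ha, mul_zero]
  have h2 := h1 v (by rw [hspan]; trivial)
  exact inner_self_eq_zero.mp h2

end PARaux

open PARaux in
theorem PAR_ok : S_PAR := by
  intro N K hK Y hY hli c hc
  let y : Fin N → E N := fun i => Y i.succ
  have hinj := Lm_inj y hli
  let L : E N ≃ₗ[ℝ] (Fin N → ℝ) := LinearEquiv.ofInjectiveOfFinrankEq (Lm y) hinj (by simp)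
  have hL : ∀ v i, L v i = ⟪v, y i⟫ := fun v i => rfl
  have hmeas : Measurable (L : E N → (Fin N → ℝ)) :=
    (LinearMap.continuous_of_finiteDimensional (L : E N →ₗ[ℝ] (Fin N → ℝ))).measurable
  let μ : Measure (Fin N → ℝ) := Measure.map (L : E N → (Fin N → ℝ)) volume
  have hμ : μ.IsAddHaarMeasure :=
    ContinuousLinearEquiv.isAddHaarMeasure_map L.toContinuousLinearEquiv volume
  let d : ℝ≥0 := Measure.addHaarScalarFactor μ volume
  have hd : 0 < d := Measure.addHaarScalarFactor_pos_of_isAddHaarMeasure μ volume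
  have hμd : μ = d • (volume : Measure (Fin N → ℝ)) :=
    Measure.isAddLeftInvariant_eq_smul μ volume
  let Le : E N ≃ᵐ (Fin N → ℝ) := L.toContinuousLinearEquiv.toHomeomorph.toMeasurableEquiv
  refine ⟨d, hd, ?_⟩
  intro τ
  set S : Set (Fin N → ℝ) := {r : Fin N → ℝ | (∀ i, |r i| ≤ len K (Y i.succ)) ∧
      |(∑ i, c i * r i) + τ * (mid K (Y 0) - ∑ i, c i * mid K (Y i.succ))| ≤ len K (Y 0)} with hS
  let m : Fin N → ℝ := fun i => τ * mid K (Y i.succ)
  have h1 : {v : E N | ∀ i, Y i ∈ Pr K ∧ |⟪v, Y i⟫ + τ * mid K (Y i)| ≤ len K (Y i)} =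
      Le ⁻¹' ((fun r => r + m) ⁻¹' S) := by
    ext v
    have hLe : ∀ i, Le v i = ⟪v, y i⟫ := fun i => rfl
    simp only [mem_ofPred_eq, mem_preimage, hS, Pi.add_apply, hLe, m, y]
    have h0 : (∑ i, c i * ((⟪v, Y i.succ⟫ : ℝ) + τ * mid K (Y i.succ))) +
        τ * (mid K (Y 0) - ∑ i, c i * mid K (Y i.succ)) = ⟪v, Y 0⟫ + τ * mid K (Y 0) := by
      rw [hc, inner_sum]
      simp only [inner_smul_right, mul_add, Finset.sum_add_distrib, mul_sub, Finset.mul_sum]
      rw [show (∑ x, τ * (c x * mid K (Y x.succ))) = ∑ x, c x * (τ * mid K (Y x.succ)) from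
        Finset.sum_congr rfl (fun x _ => by ring)]
      ring
    rw [h0]
    constructor
    · intro h
      exact ⟨fun i => (h i.succ).2, (h 0).2⟩
    · rintro ⟨ha, hb⟩ i
      refine ⟨hY i, ?_⟩
      refine Fin.cases hb (fun j => ha j) i
  rw [Qv, h1]
  have h2 : volume (Le ⁻¹' ((fun r => r + m) ⁻¹' S)) = μ ((fun r => r + m) ⁻¹' S) := by
    have : μ = Measure.map Le volume := rfl
    rw [this, MeasurableEquiv.map_apply]
  rw [h2, hμd, Measure.smul_apply, measure_preimage_add_right]
  simp [ENNReal.smul_def]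

end Pool.Agent.H638.IB
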