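import Pool.Agent.H638.IB.Defs

set_option autoImplicit false

open Set MeasureTheory

namespace Pool.Agent.H638.IB.PLANaux

/-- Length of the section of the box. -/
noncomputable def g (a b s : ℝ) : ℝ := max 0 (min (min (2 * a) (2 * b)) (a + b - |s|))

theorem g_cont (a b : ℝ) : Continuous (g a b) := by
  unfold g
  fun_prop

theorem g_nonneg (a b s : ℝ) : 0 ≤ g a b s := le_max_left _ _

theorem g_neg (a b s : ℝ) : g a b (-s) = g a b s := by
  unfold g
  rw [abs_neg]

theorem g_anti (a b s t : ℝ) (h : |s| ≤ |t|) : g a b t ≤ g a b s := by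
  unfold g
  apply max_le_max le_rfl
  apply min_le_min le_rfl
  linarith

theorem slice (a b s : ℝ) :
    {x : ℝ | |x| ≤ a ∧ |s - x| ≤ b} = Icc (max (-a) (s - b)) (min a (s + b)) := by
  ext x
  simp only [mem_setOf_eq, mem_Icc, abs_le, max_le_iff, le_min_iff]
  constructor
  · rintro ⟨⟨h1, h2⟩, h3, h4⟩
    refine ⟨⟨h1, by linarith⟩, h2, by linarith⟩
  · rintro ⟨⟨h1, h2⟩, h3, h4⟩
    refine ⟨⟨h1, h3⟩, by linarith, by linarith⟩

theorem slice_len (a b s : ℝ) :
    min a (s + b) - max (-a) (s - b) = min (min (2 * a) (2 * b)) (a + b - |s|) := by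
  rcases abs_cases s with ⟨h1, h2⟩ | ⟨h1, h2⟩ <;> rw [h1] <;>
  rcases le_total a (s + b) with h3 | h3 <;> rcases le_total (-a) (s - b) with h4 | h4 <;>
  rcases le_total a b with h5 | h5 <;>
  simp only [min_eq_left, min_eq_right, max_eq_left, max_eq_right, h3, h4, h5, mul_le_mul_iff_right₀,
    zero_lt_two] <;>
  first
  | (rw [min_eq_left (by linarith)]; linarith)
  | (rw [min_eq_right (by linarith)]; linarith)

theorem vol_slice (a b s : ℝ) :
    volume {x : ℝ | |x| ≤ a ∧ |s - x| ≤ b} = ENNReal.ofReal (g a b s) := by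
  rw [slice, Real.volume_Icc, slice_len]
  unfold g
  rcases le_total 0 (min (min (2 * a) (2 * b)) (a + b - |s|)) with h | h
  · rw [max_eq_right h]
  · rw [max_eq_left h, ENNReal.ofReal_zero, ENNReal.ofReal_of_nonpos h]

theorem area (a b d μ : ℝ) (hd : 0 ≤ d) :
    volume {p : ℝ × ℝ | |p.1| ≤ a ∧ |p.2| ≤ b ∧ |p.1 + p.2 + μ| ≤ d} =
      ENNReal.ofReal (∫ s in (-d - μ)..(d - μ), g a b s) := by
  have hmp : MeasurePreserving (fun z : ℝ × ℝ => (z.1, z.1 + z.2)) (volume.prod volume)
      (volume.prod volume) := measurePreserving_prod_add volume volume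
  have hmeas : MeasurableSet {p : ℝ × ℝ | |p.1| ≤ a ∧ |p.2 - p.1| ≤ b ∧ |p.2 + μ| ≤ d} := by
    apply IsClosed.measurableSet
    have c1 : IsClosed {p : ℝ × ℝ | |p.1| ≤ a} :=
      isClosed_le (f := fun p : ℝ × ℝ => |p.1|) (g := fun _ => a) (by fun_prop) (by fun_prop)
    have c2 : IsClosed {p : ℝ × ℝ | |p.2 - p.1| ≤ b} :=
      isClosed_le (f := fun p : ℝ × ℝ => |p.2 - p.1|) (g := fun _ => b) (by fun_prop) (by fun_prop)
    have c3 : IsClosed {p : ℝ × ℝ | |p.2 + μ| ≤ d} :=
      isClosed_le (f := fun p : ℝ × ℝ => |p.2 + μ|) (g := fun _ => d) (by fun_prop) (by fun_prop)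
    exact c1.inter (c2.inter c3)
  have hpre : {p : ℝ × ℝ | |p.1| ≤ a ∧ |p.2| ≤ b ∧ |p.1 + p.2 + μ| ≤ d} =
      (fun z : ℝ × ℝ => (z.1, z.1 + z.2)) ⁻¹'
        {p : ℝ × ℝ | |p.1| ≤ a ∧ |p.2 - p.1| ≤ b ∧ |p.2 + μ| ≤ d} := by
    ext p
    simp only [mem_setOf_eq, mem_preimage, add_sub_cancel_left]
  rw [hpre, Measure.volume_eq_prod, hmp.measure_preimage hmeas.nullMeasurableSet,
    Measure.prod_apply_symm hmeas]
  have hfun : (fun s : ℝ => volume ((fun x : ℝ => (x, s)) ⁻¹'
      {p : ℝ × ℝ | |p.1| ≤ a ∧ |p.2 - p.1| ≤ b ∧ |p.2 + μ| ≤ d})) =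
      (Icc (-d - μ) (d - μ)).indicator (fun s => ENNReal.ofReal (g a b s)) := by
    funext s
    by_cases hs : s ∈ Icc (-d - μ) (d - μ)
    · rw [indicator_of_mem hs, ← vol_slice]
      congr 1
      ext x
      simp only [mem_preimage, mem_setOf_eq]
      have : |s + μ| ≤ d := by
        rw [abs_le]
        exact ⟨by linarith [hs.1], by linarith [hs.2]⟩
      tauto
    · rw [indicator_of_notMem hs]
      have : (fun x : ℝ => (x, s)) ⁻¹'
        {p : ℝ × ℝ | |p.1| ≤ a ∧ |p.2 - p.1| ≤ b ∧ |p.2 + μ| ≤ d} = ∅ := by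
        ext x
        simp only [mem_preimage, mem_setOf_eq, mem_empty_iff_false, iff_false]
        rintro ⟨_, _, h3⟩
        rw [abs_le] at h3
        exact hs ⟨by linarith [h3.1], by linarith [h3.2]⟩
      rw [this, measure_empty]
  rw [hfun, lintegral_indicator measurableSet_Icc, ← ofReal_integral_eq_lintegral_ofReal,
    intervalIntegral.integral_of_le (by linarith), integral_Icc_eq_integral_Ioc]
  · exact (g_cont a b).continuousOn.integrableOn_Icc
  · exact Filter.Eventually.of_forall (fun s => g_nonneg a b s)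

theorem int_symm (a b d μ : ℝ) :
    ∫ s in (-d - μ)..(d - μ), g a b s = ∫ s in (-d - (-μ))..(d - (-μ)), g a b s := by
  have h := intervalIntegral.integral_comp_neg (a := -d - μ) (b := d - μ) (g a b)
  rw [intervalIntegral.integral_congr (g := g a b) (fun s _ => g_neg a b s)] at h
  rw [h]
  congr 1 <;> ring

theorem int_lt (a b d μ : ℝ) (h1 : |a - b| < d) (h2 : d < a + b) (hμ : 0 < μ) :
    ∫ s in (-d - μ)..(d - μ), g a b s < ∫ s in (-d)..d, g a b s := by
  have hc := g_cont a b
  have hi : ∀ u v : ℝ, IntervalIntegrable (g a b) volume u v := fun u v => hc.intervalIntegrable u v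
  have e1 : ∫ s in (-d)..d, g a b s = (∫ s in (-d)..(d - μ), g a b s) + ∫ s in (d - μ)..d, g a b s :=
    (intervalIntegral.integral_add_adjacent_intervals (hi _ _) (hi _ _)).symm
  have e2 : ∫ s in (-d - μ)..(d - μ), g a b s =
      (∫ s in (-d - μ)..(-d), g a b s) + ∫ s in (-d)..(d - μ), g a b s :=
    (intervalIntegral.integral_add_adjacent_intervals (hi _ _) (hi _ _)).symm
  have e3 : ∫ s in (d - μ)..d, g a b s = ∫ u in (0 : ℝ)..μ, g a b (d - u) := by
    rw [intervalIntegral.integral_comp_sub_left (g a b) d, sub_zero]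
  have e4 : ∫ s in (-d - μ)..(-d), g a b s = ∫ u in (0 : ℝ)..μ, g a b (d + u) := by
    have h := intervalIntegral.integral_comp_sub_left (a := 0) (b := μ) (g a b) (-d)
    rw [sub_zero] at h
    rw [← h]
    apply intervalIntegral.integral_congr
    intro u _
    show g a b (-d - u) = g a b (d + u)
    rw [← g_neg]
    congr 1
    ring
  have e5 : 0 < ∫ u in (0 : ℝ)..μ, (g a b (d - u) - g a b (d + u)) := by
    apply intervalIntegral.integral_pos hμ
    · apply Continuous.continuousOn
      have hc1 : Continuous (fun u => g a b (d - u)) := hc.comp (by fun_prop)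
      have hc2 : Continuous (fun u => g a b (d + u)) := hc.comp (by fun_prop)
      exact hc1.sub hc2
    · intro u hu
      have hd0 : 0 < d := lt_of_le_of_lt (abs_nonneg _) h1
      have : g a b (d + u) ≤ g a b (d - u) := by
        apply g_anti
        rw [abs_of_pos (by linarith [hu.1] : 0 < d + u), abs_le]
        constructor <;> linarith [hu.1]
      linarith
    · have hd0 : 0 < d := lt_of_le_of_lt (abs_nonneg _) h1
      set u := min μ (min ((d - |a - b|) / 2) ((a + b - d) / 2)) with hu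
      have hu0 : 0 < u := by
        apply lt_min hμ
        apply lt_min <;> linarith
      have hu1 : u ≤ μ := min_le_left _ _
      have hu2 : u ≤ (d - |a - b|) / 2 := (min_le_right _ _).trans (min_le_left _ _)
      have hu3 : u ≤ (a + b - d) / 2 := (min_le_right _ _).trans (min_le_right _ _)
      refine ⟨u, ⟨hu0.le, hu1⟩, ?_⟩
      have h3 := abs_nonneg (a - b)
      have h4 := le_abs_self (a - b)
      have h5 := neg_abs_le (a - b)
      have f1 : g a b (d - u) = a + b - (d - u) := by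
        unfold g
        rw [abs_of_nonneg (by linarith : 0 ≤ d - u), min_eq_right, max_eq_right]
        · linarith
        · apply le_min <;> linarith
      have f2 : g a b (d + u) = a + b - (d + u) := by
        unfold g
        rw [abs_of_nonneg (by linarith : 0 ≤ d + u), min_eq_right, max_eq_right]
        · linarith
        · apply le_min <;> linarith
      rw [f1, f2]
      linarith
  rw [intervalIntegral.integral_sub] at e5
  · rw [e1, e2, e3, e4]
    linarith
  · exact (hc.comp (by fun_prop : Continuous (fun u : ℝ => d - u))).intervalIntegrable _ _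
  · exact (hc.comp (by fun_prop : Continuous (fun u : ℝ => d + u))).intervalIntegrable _ _

end Pool.Agent.H638.IB.PLANaux

namespace Pool.Agent.H638.IB

open PLANaux

theorem PLAN_ok : S_PLAN := by
  intro a b d μ ha hb h1 h2 hμ hμ2
  have hd0 : 0 < d := lt_of_le_of_lt (abs_nonneg _) h1
  constructor
  · have hopen : IsOpen {p : ℝ × ℝ | |p.1| < a ∧ |p.2| < b ∧ |p.1 + p.2 + μ| < d} := by
      have c1 : IsOpen {p : ℝ × ℝ | |p.1| < a} :=
        isOpen_lt (f := fun p : ℝ × ℝ => |p.1|) (g := fun _ => a) (by fun_prop) (by fun_prop)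
      have c2 : IsOpen {p : ℝ × ℝ | |p.2| < b} :=
        isOpen_lt (f := fun p : ℝ × ℝ => |p.2|) (g := fun _ => b) (by fun_prop) (by fun_prop)
      have c3 : IsOpen {p : ℝ × ℝ | |p.1 + p.2 + μ| < d} :=
        isOpen_lt (f := fun p : ℝ × ℝ => |p.1 + p.2 + μ|) (g := fun _ => d) (by fun_prop) (by fun_prop)
      exact c1.inter (c2.inter c3)
    have hS : 0 < a + b + d := by linarith
    have hne : {p : ℝ × ℝ | |p.1| < a ∧ |p.2| < b ∧ |p.1 + p.2 + μ| < d}.Nonempty := by
      refine ⟨(-(μ * a / (a + b + d)), -(μ * b / (a + b + d))), ?_, ?_, ?_⟩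
      · show |-(μ * a / (a + b + d))| < a
        rw [abs_neg, abs_div, abs_mul, abs_of_pos ha, abs_of_pos hS, div_lt_iff₀ hS]
        nlinarith
      · show |-(μ * b / (a + b + d))| < b
        rw [abs_neg, abs_div, abs_mul, abs_of_pos hb, abs_of_pos hS, div_lt_iff₀ hS]
        nlinarith
      · show |-(μ * a / (a + b + d)) + -(μ * b / (a + b + d)) + μ| < d
        have e : -(μ * a / (a + b + d)) + -(μ * b / (a + b + d)) + μ = μ * d / (a + b + d) := by
          field_simp
          ring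
        rw [e, abs_div, abs_mul, abs_of_pos hd0, abs_of_pos hS, div_lt_iff₀ hS]
        nlinarith
    refine lt_of_lt_of_le (hopen.measure_pos volume hne) (measure_mono ?_)
    rintro p ⟨h3, h4, h5⟩
    exact ⟨h3.le, h4.le, h5.le⟩
  · have e0 : {p : ℝ × ℝ | |p.1| ≤ a ∧ |p.2| ≤ b ∧ |p.1 + p.2| ≤ d} =
        {p : ℝ × ℝ | |p.1| ≤ a ∧ |p.2| ≤ b ∧ |p.1 + p.2 + 0| ≤ d} := by
      simp only [add_zero]
    rw [e0, area a b d μ hd0.le, area a b d 0 hd0.le, sub_zero, sub_zero]
    have hlt : ∫ s in (-d - μ)..(d - μ), g a b s < ∫ s in (-d)..d, g a b s := by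
      rcases lt_or_gt_of_ne hμ with hneg | hpos
      · rw [int_symm]
        exact int_lt a b d (-μ) h1 h2 (by linarith)
      · exact int_lt a b d μ h1 h2 hpos
    have hnn : 0 ≤ ∫ s in (-d - μ)..(d - μ), g a b s :=
      intervalIntegral.integral_nonneg (by linarith) (fun s _ => g_nonneg a b s)
    exact (ENNReal.ofReal_lt_ofReal_iff (lt_of_le_of_lt hnn hlt)).mpr hlt

end Pool.Agent.H638.IB
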