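import Pool.Agent.H638.IB.Defs

/-! POLAR: integration in the chart. -/

set_option autoImplicit false

open MeasureTheory Set Filter Topology Metric
open scoped Pointwise RealInnerProductSpace ENNReal

namespace Pool.Agent.H638.IB

namespace POLARaux

/-- the one-dimensional integral -/
theorem int_abs_pow (m : ℕ) (a : ℝ) :
    ∫ x in (-a)..a, |x| ^ m = 2 / ((m : ℝ) + 1) * |a| ^ m * a := by
  have h1 : ∫ x in (-a)..0, |x| ^ m = ∫ x in (0:ℝ)..a, |x| ^ m := by
    have := intervalIntegral.integral_comp_neg (a := 0) (b := a) (fun x : ℝ => |x| ^ m)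
    simp only [abs_neg, neg_zero] at this
    exact this.symm
  have hc : ∀ u w : ℝ, IntervalIntegrable (fun x : ℝ => |x| ^ m) volume u w := fun u w =>
    (continuous_abs.pow m).intervalIntegrable _ _
  have h2 : ∀ b : ℝ, 0 ≤ b → ∫ x in (0:ℝ)..b, |x| ^ m = b ^ (m + 1) / ((m : ℝ) + 1) := by
    intro b hb
    have : ∫ x in (0:ℝ)..b, |x| ^ m = ∫ x in (0:ℝ)..b, x ^ m := by
      refine intervalIntegral.integral_congr fun x hx => ?_
      rw [uIcc_of_le hb] at hx
      simp only [abs_of_nonneg hx.1]
    rw [this, integral_pow]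
    simp
  have h3 : ∫ x in (0:ℝ)..a, |x| ^ m = |a| ^ m * a / ((m : ℝ) + 1) := by
    rcases le_total 0 a with ha | ha
    · rw [h2 a ha, abs_of_nonneg ha, pow_succ]
    · have hn := intervalIntegral.integral_comp_neg (a := 0) (b := -a) (fun x : ℝ => |x| ^ m)
      simp only [abs_neg, neg_zero, neg_neg] at hn
      rw [intervalIntegral.integral_symm, ← hn, h2 (-a) (by linarith), abs_of_nonpos ha, pow_succ]
      ring
  rw [← intervalIntegral.integral_add_adjacent_intervals (hc (-a) 0) (hc 0 a), h1, h3]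
  ring

/-- radial integral -/
theorem radial (m : ℕ) (a : ℝ) (ha : 0 ≤ a) :
    ∫⁻ l : ℝ, (if |l| ≤ a then ENNReal.ofReal (|l| ^ m) else 0)
      = ENNReal.ofReal (2 / ((m : ℝ) + 1)) * ENNReal.ofReal (a ^ (m + 1)) := by
  have hset : (fun l : ℝ => (if |l| ≤ a then ENNReal.ofReal (|l| ^ m) else 0))
      = (Icc (-a) a).indicator (fun l => ENNReal.ofReal (|l| ^ m)) := by
    funext l
    by_cases h : |l| ≤ a
    · rw [if_pos h, Set.indicator_of_mem (show l ∈ Icc (-a) a from abs_le.mp h)]
    · rw [if_neg h, Set.indicator_of_notMem (show l ∉ Icc (-a) a from fun hl => h (abs_le.mpr hl))]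
  rw [hset, lintegral_indicator measurableSet_Icc]
  rw [← ofReal_integral_eq_lintegral_ofReal]
  · rw [integral_Icc_eq_integral_Ioc, ← intervalIntegral.integral_of_le (by linarith),
      int_abs_pow, ← ENNReal.ofReal_mul (by positivity), abs_of_nonneg ha, pow_succ, mul_assoc]
  · exact ((continuous_abs.pow m).continuousOn).integrableOn_Icc
  · exact Filter.Eventually.of_forall fun x => by positivity

end POLARaux

open POLARaux in
theorem POLAR_ok (hMP : S_MP) (hGB : S_GB) : S_POLAR := by
  intro N L hL q hq φ hφ hhom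
  obtain ⟨-, hmem, hgpos, hghom, -, hgcont, -, -, hLmeas⟩ := hGB L hL
  have hmk : Measurable (fun p : ℝ × E N => mk p.1 p.2) := continuous_mk.measurable
  have hmk1 : Continuous (fun v : E N => mk 1 v) :=
    continuous_mk.comp (continuous_const.prodMk continuous_id)
  have hgc : Continuous (fun v : E N => gauge L (mk 1 v)) := hgcont.comp hmk1
  have hG : Measurable (L.indicator φ) := hφ.indicator hLmeas
  have hfr : Module.finrank ℝ (E N) = N := by simp [E]
  have hg0 : ∀ v : E N, 0 < gauge L (mk 1 v) := fun v => hgpos _ (mk_one_ne v)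
  -- the pointwise formula
  have hpt : ∀ (l : ℝ) (v : E N), l ≠ 0 → ENNReal.ofReal (|l| ^ N) *
      (L.indicator φ) (mk l (l • v))
      = (if |l| ≤ (gauge L (mk 1 v))⁻¹ then ENNReal.ofReal (|l| ^ (N - q)) else 0)
        * φ (mk 1 v) := by
    intro l v hl
    have hlp : 0 < |l| := abs_pos.mpr hl
    have h1 : mk l (l • v) = l • mk 1 v := by rw [smul_mk, mul_one]
    have h2 : l • mk 1 v ∈ L ↔ |l| ≤ (gauge L (mk 1 v))⁻¹ := by
      rw [← hmem, hghom, ← le_div_iff₀ (hg0 v), one_div]
    rw [h1]
    by_cases h : |l| ≤ (gauge L (mk 1 v))⁻¹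
    · rw [Set.indicator_of_mem (h2.mpr h), if_pos h, hhom l _ hl, ← mul_assoc,
        ← ENNReal.ofReal_mul (by positivity)]
      congr 2
      rw [inv_pow, ← pow_sub₀ _ hlp.ne' hq]
    · rw [Set.indicator_of_notMem (fun h' => h (h2.mp h')), if_neg h, mul_zero, zero_mul]
  -- change of variables in the fibre
  have hfib : ∀ l : ℝ, l ≠ 0 → ∫⁻ w : E N, (L.indicator φ) (mk l w)
      = ∫⁻ v : E N, (if |l| ≤ (gauge L (mk 1 v))⁻¹ then ENNReal.ofReal (|l| ^ (N - q)) else 0)
        * φ (mk 1 v) := by
    intro l hl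
    have hlp : 0 < |l| := abs_pos.mpr hl
    have hmeas : Measurable (fun w : E N => (L.indicator φ) (mk l w)) :=
      hG.comp (hmk.comp (measurable_const.prodMk measurable_id))
    have h1 : ∫⁻ v : E N, (L.indicator φ) (mk l (l • v))
        = ENNReal.ofReal |(l ^ N)⁻¹| * ∫⁻ w : E N, (L.indicator φ) (mk l w) := by
      have := Measure.map_addHaar_smul (volume : Measure (E N)) hl
      rw [hfr] at this
      have h3 : ∫⁻ w : E N, (L.indicator φ) (mk l w) ∂(Measure.map (fun x : E N => l • x) volume)
          = ENNReal.ofReal |(l ^ N)⁻¹| * ∫⁻ w : E N, (L.indicator φ) (mk l w) := by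
        rw [this, lintegral_smul_measure, smul_eq_mul]
      rw [← h3, lintegral_map hmeas (measurable_const_smul l)]
    have h2 : ∫⁻ w : E N, (L.indicator φ) (mk l w)
        = ENNReal.ofReal (|l| ^ N) * ∫⁻ v : E N, (L.indicator φ) (mk l (l • v)) := by
      rw [h1, ← mul_assoc, ← ENNReal.ofReal_mul (by positivity), abs_inv, abs_pow,
        mul_inv_cancel₀ (by positivity), ENNReal.ofReal_one, one_mul]
    rw [h2, ← lintegral_const_mul]
    · exact lintegral_congr fun v => hpt l v hl
    · exact hmeas.comp (measurable_const_smul l)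
  have hne : ∀ᵐ l : ℝ, l ≠ 0 := by
    rw [ae_iff]
    simp
  calc ∫⁻ x in L, φ x = ∫⁻ x, (L.indicator φ) x := (lintegral_indicator hLmeas _).symm
    _ = ∫⁻ p : ℝ × E N, (L.indicator φ) (mk p.1 p.2) ∂(volume.prod volume) :=
        ((hMP N).lintegral_comp hG).symm
    _ = ∫⁻ l : ℝ, ∫⁻ w : E N, (L.indicator φ) (mk l w) :=
        lintegral_prod _ (hG.comp hmk).aemeasurable
    _ = ∫⁻ l : ℝ, ∫⁻ v : E N,
          (if |l| ≤ (gauge L (mk 1 v))⁻¹ then ENNReal.ofReal (|l| ^ (N - q)) else 0)
          * φ (mk 1 v) := by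
        refine lintegral_congr_ae ?_
        filter_upwards [hne] with l hl using hfib l hl
    _ = ∫⁻ v : E N, ∫⁻ l : ℝ,
          (if |l| ≤ (gauge L (mk 1 v))⁻¹ then ENNReal.ofReal (|l| ^ (N - q)) else 0)
          * φ (mk 1 v) := by
        refine lintegral_lintegral_swap ?_
        refine Measurable.aemeasurable ?_
        refine Measurable.mul ?_ (hφ.comp (hmk1.measurable.comp measurable_snd))
        refine Measurable.ite ?_ ?_ measurable_const
        · exact measurableSet_le (measurable_fst.abs)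
            ((hgc.measurable.comp measurable_snd).inv)
        · exact ENNReal.measurable_ofReal.comp (measurable_fst.abs.pow_const _)
    _ = ∫⁻ v : E N, ENNReal.ofReal (2 / ((N : ℝ) + 1 - q)) *
          (ENNReal.ofReal ((gauge L (mk 1 v))⁻¹ ^ (N + 1 - q)) * φ (mk 1 v)) := by
        refine lintegral_congr fun v => ?_
        rw [lintegral_mul_const, radial _ _ (inv_nonneg.mpr (hg0 v).le), mul_assoc]
        · congr 3
          · rw [Nat.cast_sub hq]
            ring
          · congr 2
            omega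
        · refine Measurable.ite ?_ ?_ measurable_const
          · exact measurableSet_le measurable_id.abs measurable_const
          · exact ENNReal.measurable_ofReal.comp (measurable_id.abs.pow_const _)
    _ = ENNReal.ofReal (2 / ((N : ℝ) + 1 - q)) *
          ∫⁻ v : E N, ENNReal.ofReal ((gauge L (mk 1 v))⁻¹ ^ (N + 1 - q)) * φ (mk 1 v) := by
        rw [lintegral_const_mul]
        refine Measurable.mul ?_ (hφ.comp hmk1.measurable)
        exact ENNReal.measurable_ofReal.comp ((hgc.measurable.inv).pow_const _)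

end Pool.Agent.H638.IB
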