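import Pool.Agent.H638.IB.Defs

/-! POSN: position (Auerbach). -/

set_option autoImplicit false

open MeasureTheory Set Filter Topology Metric
open scoped Pointwise RealInnerProductSpace ENNReal Matrix

namespace Pool.Agent.H638.IB

namespace POSNaux

/-- Gauge of a linear combination. -/
theorem gauge_sum_le {n : ℕ} {K : Set (E n)} (hm : ∀ x, gauge K x ≤ 1 ↔ x ∈ K)
    (hs : ∀ (c : ℝ) x, gauge K (c • x) = |c| * gauge K x)
    (ha : ∀ x y, gauge K (x + y) ≤ gauge K x + gauge K y)
    (w : Fin n → E n) (hw : ∀ i, w i ∈ K) (c : Fin n → ℝ) :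
    gauge K (∑ i, c i • w i) ≤ ∑ i, |c i| := by
  have h : ∀ s : Finset (Fin n), gauge K (∑ i ∈ s, c i • w i) ≤ ∑ i ∈ s, |c i| := by
    intro s
    induction s using Finset.induction_on with
    | empty => simp
    | insert a s ha' ih =>
      rw [Finset.sum_insert ha', Finset.sum_insert ha']
      refine (ha _ _).trans (add_le_add ?_ ih)
      rw [hs]
      calc |c a| * gauge K (w a) ≤ |c a| * 1 :=
            mul_le_mul_of_nonneg_left ((hm _).2 (hw a)) (abs_nonneg _)
        _ = |c a| := mul_one _
  exact h _

end POSNaux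

theorem POSN_ok (hGB : S_GB) : S_POSN := by
  intro n
  refine ⟨(n : ℝ) + 1, by have : (0 : ℝ) ≤ n := Nat.cast_nonneg n; linarith, ?_⟩
  intro K hK
  obtain ⟨⟨r, R, hr, -, hrK, -⟩, hm, -, hs, ha, -, -, -, -⟩ := hGB K hK
  have hn0 : (0 : ℝ) ≤ n := Nat.cast_nonneg n
  set s : ℝ := Real.sqrt ((n : ℝ) + 1) with hsdef
  have hs0 : 0 < s := Real.sqrt_pos.2 (by linarith)
  have hs2 : s ^ 2 = (n : ℝ) + 1 := Real.sq_sqrt (by linarith)
  -- a small cross in `K`
  have hcross : ∀ i : Fin n, (EuclideanSpace.single i r : E n) ∈ K := by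
    intro i
    apply hrK
    rw [mem_closedBall, dist_zero_right, EuclideanSpace.norm_single, Real.norm_of_nonneg hr.le]
  -- maximise the determinant
  have hWc : IsCompact (Set.pi Set.univ (fun _ : Fin n => K)) :=
    isCompact_univ_pi (fun _ => hK.compact)
  have hFc : Continuous (fun w : Fin n → E n =>
      |(Matrix.of (fun i j => w i j) : Matrix (Fin n) (Fin n) ℝ).det|) := by
    apply Continuous.abs
    apply Continuous.matrix_det
    refine continuous_matrix fun i j => ?_
    simp only [Matrix.of_apply]
    fun_prop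
  obtain ⟨w, hw, hmax⟩ := hWc.exists_isMaxOn
    ⟨fun i => EuclideanSpace.single i r, fun i _ => hcross i⟩ hFc.continuousOn
  have hw' : ∀ i, w i ∈ K := fun i => hw i (mem_univ i)
  set A : Matrix (Fin n) (Fin n) ℝ := (Matrix.of (fun i j => w i j))ᵀ with hA
  have hdetA : A.det = (Matrix.of (fun i j => w i j) : Matrix (Fin n) (Fin n) ℝ).det :=
    Matrix.det_transpose _
  have hpos : 0 < |A.det| := by
    have h1 := hmax (a := fun i => EuclideanSpace.single i r) (fun i _ => hcross i)
    simp only [mem_setOf_eq] at h1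
    rw [hdetA]
    refine lt_of_lt_of_le ?_ h1
    have h2 : (Matrix.of (fun i j : Fin n => (EuclideanSpace.single i r : E n) j))
        = Matrix.diagonal (fun _ => r) := by
      ext i j
      simp only [Matrix.of_apply, Matrix.diagonal_apply, EuclideanSpace.single_apply]
      by_cases h : i = j
      · simp [h]
      · have h' : ¬ j = i := fun e => h e.symm
        simp [h, h']
    rw [h2, Matrix.det_diagonal]
    simp only [Finset.prod_const, Finset.card_univ, Fintype.card_fin]
    have : 0 < r ^ n := by positivity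
    exact abs_pos.mpr this.ne'
  have hne : A.det ≠ 0 := abs_pos.mp hpos
  -- coordinates
  set al : (Fin n → ℝ) →ₗ[ℝ] (Fin n → ℝ) := (A.det)⁻¹ • Matrix.cramer A with hal
  have hal1 : ∀ d ∈ K, ∀ i, |al (fun j => d j) i| ≤ 1 := by
    intro d hd i
    have h1 : Function.update w i d ∈ Set.pi Set.univ (fun _ : Fin n => K) := by
      intro j _
      by_cases h : j = i
      · subst h; simpa using hd
      · rw [Function.update_of_ne h]; exact hw' j
    have h2 := hmax h1
    simp only [mem_setOf_eq] at h2
    have h3 : Matrix.cramer A (fun j => d j) i =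
        (Matrix.of (fun k j => Function.update w i d k j) : Matrix (Fin n) (Fin n) ℝ).det := by
      rw [Matrix.cramer_apply, ← Matrix.det_transpose]
      congr 1
      ext k j
      simp only [Matrix.transpose_apply, Matrix.updateCol_apply, Matrix.of_apply, hA]
      by_cases h : k = i
      · subst h; simp
      · simp [h, Function.update_of_ne h]
    rw [hal, LinearMap.smul_apply, Pi.smul_apply, smul_eq_mul, h3, abs_mul, abs_inv,
      inv_mul_le_iff₀ hpos, mul_one, hdetA]
    exact h2
  have hal2 : ∀ y : E n, ∑ i, al (fun j => y j) i • w i = y := by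
    intro y
    have h1 : Matrix.mulVec A (Matrix.cramer A (fun j => y j)) = A.det • (fun j => y j) :=
      Matrix.mulVec_cramer A _
    ext j
    have h2 := congrFun h1 j
    simp only [Matrix.mulVec, dotProduct, Pi.smul_apply, smul_eq_mul] at h2
    have h3 : ∀ i, A j i = w i j := fun i => rfl
    simp only [h3] at h2
    have h4 : (∑ i, al (fun j => y j) i • w i) j = ∑ i, al (fun j => y j) i * w i j := by
      simp
    rw [h4]
    simp only [hal, LinearMap.smul_apply, Pi.smul_apply, smul_eq_mul]
    calc ∑ i, (A.det)⁻¹ * Matrix.cramer A (fun j => y j) i * w i j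
        = (A.det)⁻¹ * ∑ i, w i j * Matrix.cramer A (fun j => y j) i := by
          rw [Finset.mul_sum]
          exact Finset.sum_congr rfl fun i _ => by ring
      _ = y j := by rw [h2]; field_simp
  -- the linear maps
  let f : E n →ₗ[ℝ] E n :=
    { toFun := fun x => s • (WithLp.toLp 2 (al (fun j => x j)) : E n)
      map_add' := by
        intro x y
        have : (fun j => (x + y) j) = (fun j => x j) + (fun j => y j) := by
          funext j; simp
        rw [this, map_add]
        rw [WithLp.toLp_add, smul_add]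
      map_smul' := by
        intro c x
        have : (fun j => (c • x) j) = c • (fun j => x j) := by
          funext j; simp
        rw [this, map_smul, WithLp.toLp_smul, smul_comm]
        rfl }
  let g : E n →ₗ[ℝ] E n :=
    { toFun := fun z => ∑ i, (z i / s) • w i
      map_add' := by
        intro x y
        rw [← Finset.sum_add_distrib]
        refine Finset.sum_congr rfl fun i _ => ?_
        rw [← add_smul]
        congr 1
        simp only [PiLp.add_apply]
        ring
      map_smul' := by
        intro c x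
        rw [RingHom.id_apply, Finset.smul_sum]
        refine Finset.sum_congr rfl fun i _ => ?_
        rw [smul_smul]
        congr 1
        simp only [PiLp.smul_apply, smul_eq_mul]
        ring }
  have hf : ∀ x i, f x i = s * al (fun j => x j) i := fun x i => rfl
  have hg : ∀ z, g z = ∑ i, (z i / s) • w i := fun z => rfl
  have hgf : g ∘ₗ f = LinearMap.id := by
    ext1 x
    rw [LinearMap.comp_apply, LinearMap.id_apply, hg]
    conv_rhs => rw [← hal2 x]
    refine Finset.sum_congr rfl fun i _ => ?_
    rw [hf, mul_div_cancel_left₀ _ hs0.ne']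
  have hfg : f ∘ₗ g = LinearMap.id := by
    have h : g * f = 1 := hgf
    exact mul_eq_one_comm.mp h
  let T : E n ≃ₗ[ℝ] E n := LinearEquiv.ofLinearMap f g hfg hgf
  have hT : ∀ x, T x = f x := fun x => rfl
  refine ⟨T, ?_, ?_⟩
  · intro z hz
    rw [mem_closedBall, dist_zero_right] at hz
    refine ⟨g z, ?_, ?_⟩
    · rw [← hm, hg]
      refine (POSNaux.gauge_sum_le hm hs ha w hw' _).trans ?_
      have h1 : (∑ i, |z i|) ^ 2 ≤ (n : ℝ) * ∑ i, |z i| ^ 2 := by
        have := sq_sum_le_card_mul_sum_sq (s := (Finset.univ : Finset (Fin n)))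
          (f := fun i => |z i|)
        simpa using this
      have h2 : ∑ i, |z i| ^ 2 ≤ 1 := by
        have h3 := EuclideanSpace.norm_sq_eq z
        have h4 : ‖z‖ ^ 2 ≤ 1 := by
          have := norm_nonneg z
          nlinarith
        rw [h3] at h4
        simpa [Real.norm_eq_abs] using h4
      have h5 : ∑ i, |z i / s| = (∑ i, |z i|) / s := by
        rw [Finset.sum_div]
        refine Finset.sum_congr rfl fun i _ => ?_
        rw [abs_div, abs_of_pos hs0]
      rw [h5, div_le_one hs0]
      have h6 : 0 ≤ ∑ i, |z i| := Finset.sum_nonneg fun i _ => abs_nonneg _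
      have h7 : 0 ≤ ∑ i, |z i| ^ 2 := Finset.sum_nonneg fun i _ => by positivity
      refine le_of_sq_le_sq ?_ hs0.le
      rw [hs2]
      nlinarith
    · rw [hT]
      have := congrArg (fun φ : E n →ₗ[ℝ] E n => φ z) hfg
      simpa using this
  · rintro _ ⟨x, hx, rfl⟩
    rw [mem_closedBall, dist_zero_right, hT]
    have h1 : ‖f x‖ ^ 2 ≤ ((n : ℝ) + 1) ^ 2 := by
      rw [EuclideanSpace.norm_sq_eq]
      have h2 : ∀ i, ‖f x i‖ ^ 2 ≤ s ^ 2 := by
        intro i
        rw [hf, Real.norm_eq_abs, abs_mul, abs_of_pos hs0, mul_pow]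
        have := hal1 x hx i
        have h3 := abs_nonneg (al (fun j => x j) i)
        have h4 : |al (fun j => x j) i| ^ 2 ≤ 1 := by nlinarith
        nlinarith [sq_nonneg s]
      calc ∑ i, ‖f x i‖ ^ 2 ≤ ∑ _i : Fin n, s ^ 2 := Finset.sum_le_sum fun i _ => h2 i
        _ = n * ((n : ℝ) + 1) := by rw [Finset.sum_const, hs2]; simp; ring
        _ ≤ ((n : ℝ) + 1) ^ 2 := by nlinarith
    exact le_of_sq_le_sq h1 (by linarith)

end Pool.Agent.H638.IB
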