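import Pool.Agent.H638.IB.Defs

set_option autoImplicit false

namespace Pool.Agent.H638.IB

namespace PWIaux

theorem bern (C : ℝ) (hC : 0 < C) (N : ℕ) : ∀ t : ℝ, 0 ≤ t → t ≤ 1 →
    (1 + C * t) ^ N ≤ 1 + ((1 + C) ^ N - 1) * t := by
  induction N with
  | zero => intro t _ _; simp
  | succ N ih =>
    intro t h0 h1
    have h2 := ih t h0 h1
    have hD : 0 ≤ (1 + C) ^ N - 1 := sub_nonneg.2 (one_le_pow₀ (by linarith))
    have h3 : 0 ≤ 1 + C * t := by positivity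
    calc (1 + C * t) ^ (N + 1) = (1 + C * t) * (1 + C * t) ^ N := by ring
      _ ≤ (1 + C * t) * (1 + ((1 + C) ^ N - 1) * t) := mul_le_mul_of_nonneg_left h2 h3
      _ ≤ 1 + ((1 + C) ^ (N + 1) - 1) * t := by
        have h4 : 0 ≤ C * ((1 + C) ^ N - 1) * (t * (1 - t)) :=
          mul_nonneg (mul_nonneg hC.le hD) (mul_nonneg h0 (by linarith))
        have h5 : (1 + C) ^ (N + 1) = (1 + C) * (1 + C) ^ N := by ring
        rw [h5]
        nlinarith

theorem quad (B : ℝ) (hB : 0 ≤ B) (n : ℕ) : ∃ c : ℝ, 0 ≤ c ∧ ∀ x : ℝ, -1 ≤ x → x ≤ B →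
    (1 + x) ^ n ≤ 1 + n * x + c * x ^ 2 := by
  induction n with
  | zero => exact ⟨0, le_rfl, fun x _ _ => by simp⟩
  | succ n ih =>
    obtain ⟨c, hc, h⟩ := ih
    refine ⟨n + c * (1 + B), by positivity, fun x h0 h1 => ?_⟩
    have h2 := h x h0 h1
    have h3 : 0 ≤ 1 + x := by linarith
    calc (1 + x) ^ (n + 1) = (1 + x) * (1 + x) ^ n := by ring
      _ ≤ (1 + x) * (1 + n * x + c * x ^ 2) := mul_le_mul_of_nonneg_left h2 h3
      _ ≤ _ := by
        have h4 : 0 ≤ c * x ^ 2 * (B - x) := by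
          have : 0 ≤ B - x := by linarith
          positivity
        push_cast
        nlinarith

end PWIaux

open PWIaux in
theorem PWI_ok : S_PWI := by
  intro N C hC
  set D : ℝ := (1 + C) ^ N - 1 with hD
  have hD0 : 0 ≤ D := sub_nonneg.2 (one_le_pow₀ (by linarith))
  obtain ⟨c, hc, hq⟩ := quad D hD0 (N + 1)
  refine ⟨c * D ^ 2 + 1, by positivity, ?_⟩
  intro t a b ht0 ht1 ha hb h1 h2
  have hT := bern C hC N t ht0 ht1
  rw [← hD] at hT
  rcases ha.eq_or_lt with h0 | h0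
  · rw [← h0] at h1
    have hb0 : b = 0 := le_antisymm (by simpa using h1) hb
    rw [← h0, hb0]
    simp
  set y : ℝ := (1 + C * t) ^ N with hy
  have hy1 : 1 ≤ y := one_le_pow₀ (by nlinarith)
  obtain ⟨x, hx⟩ : ∃ x, x = b / a - 1 := ⟨_, rfl⟩
  have hbx : b = (1 + x) * a := by rw [hx]; field_simp; ring
  have hx0 : 0 ≤ 1 + x := by
    rw [hx]
    have : 0 ≤ b / a := div_nonneg hb h0.le
    linarith
  have hx1 : 1 + x ≤ y := by
    rw [hbx] at h1
    exact le_of_mul_le_mul_right h1 h0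
  have hx2 : 1 ≤ y * (1 + x) := by
    rw [hbx] at h2
    have : 1 * a ≤ (y * (1 + x)) * a := by linarith
    exact le_of_mul_le_mul_right this h0
  have hx3 : x ≤ D * t := by linarith
  have hx4 : -(D * t) ≤ x := by
    -- `1 ≤ y (1 + x)` and `y ≤ 1 + D t`
    have h5 : 1 ≤ (1 + D * t) * (1 + x) := hx2.trans (mul_le_mul_of_nonneg_right hT hx0)
    by_contra h
    push Not at h
    have h6 : 0 ≤ D * t := mul_nonneg hD0 ht0
    nlinarith
  have hx5 : x ^ 2 ≤ D ^ 2 * t ^ 2 := by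
    rw [← mul_pow]
    exact sq_le_sq' hx4 hx3
  have hxD : x ≤ D := hx3.trans (by nlinarith)
  have h3 := hq x (by linarith) hxD
  have h4 : (1 + x) ^ (N + 1) ≤ 1 + (N + 1) * x + (c * D ^ 2 + 1) * t ^ 2 := by
    push_cast at h3
    have : c * x ^ 2 ≤ c * (D ^ 2 * t ^ 2) := mul_le_mul_of_nonneg_left hx5 hc
    nlinarith [sq_nonneg t]
  have hap : 0 < a ^ (N + 1) := by positivity
  have h5 := mul_le_mul_of_nonneg_right h4 hap.le
  have h6 : b ^ (N + 1) = (1 + x) ^ (N + 1) * a ^ (N + 1) := by rw [hbx, mul_pow]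
  have h7 : a ^ N * b = (1 + x) * a ^ (N + 1) := by rw [hbx]; ring
  rw [h6, h7]
  nlinarith

end Pool.Agent.H638.IB
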