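import Pool.Agent.H638.IB.Defs

/-! QCON: continuity of `Qv` at nondegenerate configurations. -/

set_option autoImplicit false

open MeasureTheory Set Filter Topology Metric
open scoped Pointwise RealInnerProductSpace ENNReal

namespace Pool.Agent.H638.IB

namespace QCONaux

/-- hyperplanes are null sets -/
theorem null_hyper {n : ℕ} (y : E n) (hy : y ≠ 0) (c : ℝ) :
    volume {v : E n | (⟪v, y⟫ : ℝ) = c} = 0 := by
  rcases Set.eq_empty_or_nonempty {v : E n | (⟪v, y⟫ : ℝ) = c} with h | ⟨p, hp⟩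
  · rw [h, measure_empty]
  · let s : AffineSubspace ℝ (E n) :=
      AffineSubspace.mk' p (LinearMap.ker (innerSL ℝ y).toLinearMap)
    have hs : s ≠ ⊤ := by
      intro h
      have h1 : s.direction = ⊤ := by
        rw [h]
        exact AffineSubspace.direction_top _ _ _
      rw [AffineSubspace.direction_mk'] at h1
      have h2 : y ∈ LinearMap.ker (innerSL ℝ y).toLinearMap := by
        rw [h1]
        exact Submodule.mem_top
      rw [LinearMap.mem_ker] at h2
      have h3 : (⟪y, y⟫ : ℝ) = 0 := h2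
      exact hy (inner_self_eq_zero.1 h3)
    refine measure_mono_null ?_ (Measure.addHaar_affineSubspace volume s hs)
    intro v hv
    show v ∈ s
    rw [AffineSubspace.mem_mk', LinearMap.mem_ker]
    show (⟪y, v - p⟫ : ℝ) = 0
    rw [inner_sub_right, real_inner_comm, real_inner_comm p y]
    have h1 : (⟪v, y⟫ : ℝ) = c := hv
    have h2 : (⟪p, y⟫ : ℝ) = c := hp
    rw [h1, h2, sub_self]

/-- boundaries of slabs are null sets -/
theorem null_abs {n : ℕ} (y : E n) (hy : y ≠ 0) (m l : ℝ) :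
    volume {v : E n | |(⟪v, y⟫ : ℝ) + m| = l} = 0 := by
  refine measure_mono_null (t := {v : E n | (⟪v, y⟫ : ℝ) = l - m} ∪ {v : E n | (⟪v, y⟫ : ℝ) = -l - m})
    ?_ (measure_union_null (null_hyper y hy _) (null_hyper y hy _))
  intro v hv
  have hv' : |(⟪v, y⟫ : ℝ) + m| = l := hv
  rcases eq_or_eq_neg_of_abs_eq hv' with h | h
  · left
    show (⟪v, y⟫ : ℝ) = l - m
    linarith
  · right
    show (⟪v, y⟫ : ℝ) = -l - m
    linarith

/-- a basis controls the norm -/
theorem low {N : ℕ} (Y : Fin N → E N) (hY : LinearIndependent ℝ Y) :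
    ∃ c : ℝ, 0 < c ∧ ∀ (v : E N) (M : ℝ), 0 ≤ M → (∀ i, |(⟪v, Y i⟫ : ℝ)| ≤ M) → c * ‖v‖ ≤ M := by
  have hspan := hY.span_eq_top_of_card_eq_finrank' (by simp)
  let f : E N →ₗ[ℝ] (Fin N → ℝ) := LinearMap.pi (fun i => (innerSL ℝ (Y i)).toLinearMap)
  have hf : ∀ v i, f v i = (⟪Y i, v⟫ : ℝ) := fun v i => rfl
  have hker : LinearMap.ker f = ⊥ := by
    rw [LinearMap.ker_eq_bot']
    intro v hv
    have h1 : ∀ i, (⟪Y i, v⟫ : ℝ) = 0 := fun i => by rw [← hf, hv]; rfl
    have h2 : v ∈ (Submodule.span ℝ (Set.range Y))ᗮ := by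
      rw [Submodule.mem_orthogonal]
      intro u hu
      induction hu using Submodule.span_induction with
      | mem x hx =>
        obtain ⟨i, rfl⟩ := hx
        exact h1 i
      | zero => exact inner_zero_left _
      | add x y _ _ hx hy => rw [inner_add_left, hx, hy, add_zero]
      | smul a x _ hx => rw [inner_smul_left, hx, mul_zero]
    rw [hspan, Submodule.top_orthogonal_eq_bot] at h2
    exact (Submodule.mem_bot ℝ).1 h2
  obtain ⟨k, hk0, hk⟩ := f.exists_antilipschitzWith hker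
  have hk0' : (0:ℝ) < k := by exact_mod_cast hk0
  refine ⟨1 / k, by positivity, fun v M hM h => ?_⟩
  have h1 := hk.le_mul_dist v 0
  rw [dist_zero_right, map_zero, dist_zero_right] at h1
  have h2 : ‖f v‖ ≤ M := by
    rw [pi_norm_le_iff_of_nonneg hM]
    intro i
    rw [hf, real_inner_comm, Real.norm_eq_abs]
    exact h i
  have h3 : ‖v‖ ≤ k * M := h1.trans (mul_le_mul_of_nonneg_left h2 hk0'.le)
  rw [div_mul_eq_mul_div, one_mul, div_le_iff₀ hk0', mul_comm]
  exact h3

end QCONaux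

/-- QCON -/
theorem QCON_ok (hFIB : S_FIB) : S_QCON := by
  intro N K hK Y hY hli τ
  obtain ⟨-, -, hodd, -, -, hlen, hcm, hcl⟩ := hFIB K hK
  obtain ⟨c, hc, hlow⟩ := QCONaux.low (fun i : Fin N => Y i.succ) hli
  -- continuity of the data
  have hmc : ∀ i, ContinuousAt (fun Z : Fin (N + 1) → E N => mid K (Z i)) Y := fun i =>
    ContinuousAt.comp (g := mid K) (f := fun Z : Fin (N + 1) → E N => Z i)
      (hcm.continuousAt (isOpen_interior.mem_nhds (hY i))) (continuous_apply i).continuousAt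
  have hlc : ∀ i, ContinuousAt (fun Z : Fin (N + 1) → E N => len K (Z i)) Y := fun i =>
    ContinuousAt.comp (g := len K) (f := fun Z : Fin (N + 1) → E N => Z i)
      (hcl.continuousAt (isOpen_interior.mem_nhds (hY i))) (continuous_apply i).continuousAt
  have hPr : ∀ i, ∀ᶠ Z : Fin (N + 1) → E N in 𝓝 Y, Z i ∈ Pr K := fun i =>
    ((continuous_apply i).continuousAt.eventually (isOpen_interior.mem_nhds (hY i))).mono
      fun Z hZ => interior_subset hZ
  -- a uniform bound
  let b : Fin (N + 1) → (Fin (N + 1) → E N) → ℝ := fun i Z => len K (Z i) + |τ * mid K (Z i)|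
  have hbc : ∀ i, ContinuousAt (b i) Y := fun i =>
    (hlc i).add ((continuousAt_const.mul (hmc i)).abs)
  let M : ℝ := ∑ i, |b i Y| + 1
  have hM0 : 0 ≤ M := by
    have : 0 ≤ ∑ i, |b i Y| := Finset.sum_nonneg fun i _ => abs_nonneg _
    show 0 ≤ ∑ i, |b i Y| + 1
    linarith
  have hbM : ∀ i, ∀ᶠ Z in 𝓝 Y, b i Z ≤ M := by
    intro i
    have h1 : b i Y < M := by
      have h2 : |b i Y| ≤ ∑ j, |b j Y| :=
        Finset.single_le_sum (f := fun j => |b j Y|) (fun j _ => abs_nonneg _) (Finset.mem_univ i)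
      have h3 := le_abs_self (b i Y)
      show b i Y < ∑ j, |b j Y| + 1
      linarith
    exact ((hbc i).eventually (Iio_mem_nhds h1)).mono fun Z hZ => le_of_lt hZ
  have hcl2 : ∀ᶠ Z : Fin (N + 1) → E N in 𝓝 Y, dist Z Y < c / 2 := Metric.ball_mem_nhds Y (by positivity)
  let P : (Fin (N + 1) → E N) → Set (E N) := fun Z =>
    {v | ∀ i, Z i ∈ Pr K ∧ |(⟪v, Z i⟫ : ℝ) + τ * mid K (Z i)| ≤ len K (Z i)}
  have hQ : ∀ Z, Qv K Z τ = volume (P Z) := fun Z => rfl
  have hmeas : ∀ Z, MeasurableSet (P Z) := by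
    intro Z
    have : P Z = ⋂ i, {v : E N | Z i ∈ Pr K ∧ |(⟪v, Z i⟫ : ℝ) + τ * mid K (Z i)| ≤ len K (Z i)} := by
      ext v
      simp only [P, Set.mem_iInter]
      exact Iff.rfl
    rw [this]
    refine MeasurableSet.iInter fun i => ?_
    by_cases h : Z i ∈ Pr K
    · have h2 : {v : E N | Z i ∈ Pr K ∧ |(⟪v, Z i⟫ : ℝ) + τ * mid K (Z i)| ≤ len K (Z i)} =
          {v : E N | |(⟪v, Z i⟫ : ℝ) + τ * mid K (Z i)| ≤ len K (Z i)} := by
        ext v
        exact ⟨fun hv => hv.2, fun hv => ⟨h, hv⟩⟩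
      rw [h2]
      refine (isClosed_le ?_ continuous_const).measurableSet
      fun_prop
    · have h2 : {v : E N | Z i ∈ Pr K ∧ |(⟪v, Z i⟫ : ℝ) + τ * mid K (Z i)| ≤ len K (Z i)} = ∅ := by
        ext v
        exact ⟨fun hv => absurd hv.1 h, fun hv => absurd hv (Set.notMem_empty v)⟩
      rw [h2]
      exact MeasurableSet.empty
  have hsub : ∀ᶠ Z in 𝓝 Y, P Z ⊆ closedBall 0 (2 * M / c) := by
    filter_upwards [eventually_all.2 hbM, hcl2] with Z hZb hZd
    intro v hv
    rw [mem_closedBall_zero_iff]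
    have h1 : ∀ i, |(⟪v, Z i⟫ : ℝ)| ≤ M := by
      intro i
      have h2 := (hv i).2
      have h3 : |(⟪v, Z i⟫ : ℝ)| ≤ |(⟪v, Z i⟫ : ℝ) + τ * mid K (Z i)| + |τ * mid K (Z i)| := by
        have := abs_sub (a := (⟪v, Z i⟫ : ℝ) + τ * mid K (Z i)) (b := τ * mid K (Z i))
        rwa [add_sub_cancel_right] at this
      have h4 : len K (Z i) + |τ * mid K (Z i)| ≤ M := hZb i
      linarith
    have h5 : c * ‖v‖ ≤ M + ‖v‖ * (c / 2) := by
      refine hlow v _ (by positivity) fun i => ?_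
      have h6 : (⟪v, Y i.succ⟫ : ℝ) = ⟪v, Z i.succ⟫ - ⟪v, Z i.succ - Y i.succ⟫ := by
        rw [inner_sub_right]
        ring
      have h7 : |(⟪v, Z i.succ - Y i.succ⟫ : ℝ)| ≤ ‖v‖ * (c / 2) := by
        refine (abs_real_inner_le_norm _ _).trans (mul_le_mul_of_nonneg_left ?_ (norm_nonneg _))
        rw [← dist_eq_norm]
        exact (dist_le_pi_dist Z Y i.succ).trans hZd.le
      rw [h6]
      have h8 := abs_sub (a := (⟪v, Z i.succ⟫ : ℝ)) (b := ⟪v, Z i.succ - Y i.succ⟫)
      have h9 := h1 i.succ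
      linarith
    rw [le_div_iff₀ hc]
    linarith
  have hae : ∀ᵐ v : E N, ∀ i, |(⟪v, Y i⟫ : ℝ) + τ * mid K (Y i)| ≠ len K (Y i) := by
    rw [ae_all_iff]
    intro i
    by_cases h0 : Y i = 0
    · have hm0 : mid K (Y i) = 0 := by
        have h1 := (hodd (0 : E N)).1
        rw [neg_zero] at h1
        rw [h0]
        linarith
      refine Eventually.of_forall fun v hv => ?_
      rw [hm0, h0, inner_zero_right, mul_zero, add_zero, abs_zero] at hv
      have h2 := hlen (Y i) (hY i)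
      rw [h0, ← hv] at h2
      exact lt_irrefl _ h2
    · rw [ae_iff]
      simp only [ne_eq, not_not]
      exact QCONaux.null_abs (Y i) h0 _ _
  have hlim : ∀ᵐ v : E N, ∀ᶠ Z in 𝓝 Y, v ∈ P Z ↔ v ∈ P Y := by
    filter_upwards [hae] with v hv
    have h1 : ∀ i, ∀ᶠ Z : Fin (N + 1) → E N in 𝓝 Y,
        ((Z i ∈ Pr K ∧ |(⟪v, Z i⟫ : ℝ) + τ * mid K (Z i)| ≤ len K (Z i)) ↔
          (Y i ∈ Pr K ∧ |(⟪v, Y i⟫ : ℝ) + τ * mid K (Y i)| ≤ len K (Y i))) := by
      intro i
      have hf : ContinuousAt (fun Z : Fin (N + 1) → E N =>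
          |(⟪v, Z i⟫ : ℝ) + τ * mid K (Z i)|) Y := by
        refine ContinuousAt.abs (ContinuousAt.add ?_ (continuousAt_const.mul (hmc i)))
        exact (Continuous.inner continuous_const (continuous_apply i)).continuousAt
      have hYi : Y i ∈ Pr K := interior_subset (hY i)
      rcases lt_or_gt_of_ne (hv i) with h | h
      · filter_upwards [hf.eventually_lt (hlc i) h, hPr i] with Z hZ hZ2
        exact ⟨fun _ => ⟨hYi, h.le⟩, fun _ => ⟨hZ2, hZ.le⟩⟩
      · filter_upwards [(hlc i).eventually_lt hf h] with Z hZ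
        exact ⟨fun h3 => absurd h3.2 (not_le.2 hZ), fun h3 => absurd h3.2 (not_le.2 h)⟩
    filter_upwards [eventually_all.2 h1] with Z hZ
    exact forall_congr' hZ
  have hfin : volume (closedBall (0 : E N) (2 * M / c)) ≠ ∞ := measure_closedBall_lt_top.ne
  refine ⟨?_, ?_⟩
  · show Tendsto (fun Z => volume (P Z)) (𝓝 Y) (𝓝 (volume (P Y)))
    exact tendsto_measure_of_ae_tendsto_indicator (𝓝 Y) (hmeas Y) hmeas measurableSet_closedBall
      hfin hsub hlim
  · rw [hQ]
    exact ne_top_of_le_ne_top hfin (measure_mono hsub.self_of_nhds)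

end Pool.Agent.H638.IB
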