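import Pool.Agent.H638.IB.Defs

set_option autoImplicit false

open MeasureTheory Set Filter Topology Metric
open scoped Pointwise RealInnerProductSpace ENNReal

namespace Pool.Agent.H638.IB

namespace REFLaux

/-- the functional `mk s y ↦ s - ℓ y` -/
noncomputable def fn {N : ℕ} (l : E N →ₗ[ℝ] ℝ) : E (N + 1) →ₗ[ℝ] ℝ where
  toFun x := x 0 - l (WithLp.toLp 2 (fun i => x i.succ))
  map_add' x y := by
    have h : (WithLp.toLp 2 (fun i => (x + y) i.succ) : E N)
        = WithLp.toLp 2 (fun i => x i.succ) + WithLp.toLp 2 (fun i => y i.succ) := by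
      ext i; simp
    rw [h, map_add]
    simp only [PiLp.add_apply]
    ring
  map_smul' c x := by
    have h : (WithLp.toLp 2 (fun i => (c • x) i.succ) : E N)
        = c • WithLp.toLp 2 (fun i => x i.succ) := by
      ext i; simp
    rw [h, map_smul]
    simp only [PiLp.smul_apply, smul_eq_mul, RingHom.id_apply]
    ring

theorem fn_mk {N : ℕ} (l : E N →ₗ[ℝ] ℝ) (s : ℝ) (y : E N) : fn l (mk s y) = s - l y := rfl

end REFLaux

open REFLaux in
theorem REFL_ok (hLIN : S_LIN) (hFIB : S_FIB) (hGB : S_GB) : S_REFL := by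
  intro N hN K hK c hc hfix
  obtain ⟨l, hl⟩ := hLIN hN K hK c hc hfix
  obtain ⟨hmem, -, -, -, hPr, -, -, -⟩ := hFIB K hK
  refine ⟨fn l, ?_, ?_⟩
  · rw [fn_mk, map_zero, sub_zero]
  -- interior points
  have hint : ∀ (s : ℝ) (y : E N), y ∈ interior (Pr K) → mk s y ∈ K →
      mk (2 * l y - s) y ∈ K := by
    intro s y hy hs
    rw [hmem] at hs ⊢
    refine ⟨hs.1, ?_⟩
    rw [hl y hy] at hs ⊢
    have : 2 * l y - s - l y = -(s - l y) := by ring
    rw [this, abs_neg]
    exact hs.2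
  have h0 : (0 : E N) ∈ interior (Pr K) := by
    obtain ⟨⟨r, R, hr, -, hrK, -⟩, -⟩ := hGB (Pr K) hPr
    exact interior_mono hrK (ball_subset_interior_closedBall (mem_ball_self hr))
  have h0K : (0 : E (N + 1)) ∈ K := by
    obtain ⟨⟨r, R, hr, -, hrK, -⟩, -⟩ := hGB K hK
    exact hrK (mem_closedBall_self hr.le)
  intro x hx
  obtain ⟨s, y, rfl⟩ := exists_mk x
  have hy : y ∈ Pr K := ⟨s, hx⟩
  have hgoal : mk s y - (2 * fn l (mk s y)) • mk 1 (0 : E N) = mk (2 * l y - s) y := by
    rw [fn_mk, smul_mk, mk_sub, mk_inj]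
    refine ⟨by ring, by simp⟩
  rw [hgoal]
  have hcl : IsClosed K := hK.compact.isClosed
  have htend : Tendsto (fun t : ℝ => t • mk (2 * l y - s) y) (𝓝[<] 1)
      (𝓝 (mk (2 * l y - s) y)) := by
    have h1 : Continuous fun t : ℝ => t • mk (2 * l y - s) y := by fun_prop
    have h2 := h1.tendsto 1
    rw [one_smul] at h2
    exact h2.mono_left nhdsWithin_le_nhds
  refine hcl.mem_of_tendsto htend ?_
  have hev : ∀ᶠ t : ℝ in 𝓝[<] 1, t ∈ Ioo (0:ℝ) 1 := Ioo_mem_nhdsLT (by norm_num)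
  filter_upwards [hev] with t ht
  have h3 : t • mk s y ∈ K := by
    have := hK.convex h0K hx (by linarith [ht.2] : (0:ℝ) ≤ 1 - t) ht.1.le (by ring)
    simpa using this
  have h4 : t • y ∈ interior (Pr K) := by
    have := hPr.convex.combo_interior_self_mem_interior h0 hy
      (by linarith [ht.2] : (0:ℝ) < 1 - t) ht.1.le (by ring)
    simpa using this
  rw [smul_mk] at h3
  have h5 := hint _ _ h4 h3
  rw [smul_mk]
  have h6 : t * (2 * l y - s) = 2 * l (t • y) - t * s := by
    rw [map_smul, smul_eq_mul]; ring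
  rw [h6]
  exact h5

end Pool.Agent.H638.IB
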