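import Pool.Agent.H638.IB.Defs

/-! REL: the relation between the midpoints at a fixed point. -/

set_option autoImplicit false

open MeasureTheory Set Filter Topology Metric
open scoped Pointwise RealInnerProductSpace ENNReal

namespace Pool.Agent.H638.IB

theorem REL_ok (h1 : S_STR) (h2 : S_QCON) (h3 : S_AEZ) : S_REL := by
  intro N hN K hK c hc hI y₁ y₂ γ hγ hli hy1 hy2 hy3 a1 a2 a3
  by_contra hne
  obtain ⟨Y, hYi, hYl, hY1, hY2⟩ := h1 hN K hK y₁ y₂ γ hγ hli hy1 hy2 hy3 a1 a2 a3 hne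
  have hc0 := (h2 K hK Y hYi hYl 0).1
  have hc1 := (h2 K hK Y hYi hYl 1).1
  have e1 : ∀ᶠ Z in 𝓝 Y, Qv K Z 1 < Qv K Z 0 := hc1.eventually_lt hc0 hY2
  have e2 : ∀ᶠ Z in 𝓝 Y, 0 < Qv K Z 1 := hc1.eventually (lt_mem_nhds hY1)
  have hae := h3 (by omega) K hK c hc hI
  have hnull : volume {Z : Fin (N + 1) → E N |
      ¬ (Qv K Z 0 ≠ ∞ ∧ (Qv K Z 1 = 0 ∨ Qv K Z 0 = Qv K Z 1))} = 0 := hae
  have hpos : 0 < volume {Z : Fin (N + 1) → E N |
      ¬ (Qv K Z 0 ≠ ∞ ∧ (Qv K Z 1 = 0 ∨ Qv K Z 0 = Qv K Z 1))} := by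
    apply MeasureTheory.Measure.measure_pos_of_mem_nhds volume (x := Y)
    filter_upwards [e1, e2] with Z hZ1 hZ2
    rintro ⟨-, h | h⟩
    · exact hZ2.ne' h
    · exact hZ1.ne' h
  exact hpos.ne' hnull

end Pool.Agent.H638.IB
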