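import Pool.Agent.H638.IB.Defs

set_option autoImplicit false

open MeasureTheory Set Filter Topology Metric
open scoped Pointwise RealInnerProductSpace ENNReal

namespace Pool.Agent.H638.IB

theorem REP_ok : S_REP := by
  intro N K hK
  set T : Set (E N × (Fin (N + 1) → E N)) :=
    {p | ∀ i, mk (-⟪p.1, p.2 i⟫) (p.2 i) ∈ K} with hTdef
  have hT : IsClosed T := by
    have h1 : T = ⋂ i, (fun p : E N × (Fin (N + 1) → E N) =>
        mk (-⟪p.1, p.2 i⟫) (p.2 i)) ⁻¹' K := by
      ext p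
      simp [hTdef]
    rw [h1]
    refine isClosed_iInter fun i => hK.preimage ?_
    have h2 : Continuous fun p : E N × (Fin (N + 1) → E N) =>
        ((-⟪p.1, p.2 i⟫ : ℝ), p.2 i) := by fun_prop
    exact continuous_mk.comp h2
  have hm : MeasurableSet T := hT.measurableSet
  have h1 : ∀ v : E N, aE K v ^ (N + 1)
      = ∫⁻ Y : Fin (N + 1) → E N, T.indicator (fun _ => (1 : ℝ≥0∞)) (v, Y) := by
    intro v
    have h2 : {Y : Fin (N + 1) → E N | (v, Y) ∈ T}
        = Set.pi univ (fun _ : Fin (N + 1) => {y : E N | mk (-⟪v, y⟫) y ∈ K}) := by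
      ext Y
      simp [hTdef]
    have h3 : (fun Y : Fin (N + 1) → E N => T.indicator (fun _ => (1 : ℝ≥0∞)) (v, Y))
        = {Y : Fin (N + 1) → E N | (v, Y) ∈ T}.indicator (fun _ => (1 : ℝ≥0∞)) := by
      funext Y
      by_cases hY : (v, Y) ∈ T
      · rw [Set.indicator_of_mem hY, Set.indicator_of_mem (show Y ∈ {Y | (v, Y) ∈ T} from hY)]
      · rw [Set.indicator_of_notMem hY,
          Set.indicator_of_notMem (show Y ∉ {Y | (v, Y) ∈ T} from hY)]
    have h5 : MeasurableSet {Y : Fin (N + 1) → E N | (v, Y) ∈ T} := measurable_prodMk_left hm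
    rw [h3, lintegral_indicator h5, lintegral_const, Measure.restrict_apply_univ, one_mul]
    rw [h2, volume_pi_pi]
    simp [aE]
  have h4 : ∀ Y : Fin (N + 1) → E N, volume {v : E N | ∀ i, mk (-⟪v, Y i⟫) (Y i) ∈ K}
      = ∫⁻ v : E N, T.indicator (fun _ => (1 : ℝ≥0∞)) (v, Y) := by
    intro Y
    have h3 : (fun v : E N => T.indicator (fun _ => (1 : ℝ≥0∞)) (v, Y))
        = {v : E N | ∀ i, mk (-⟪v, Y i⟫) (Y i) ∈ K}.indicator (fun _ => (1 : ℝ≥0∞)) := by
      funext v
      by_cases hY : (v, Y) ∈ T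
      · rw [Set.indicator_of_mem hY, Set.indicator_of_mem
          (show v ∈ {v : E N | ∀ i, mk (-⟪v, Y i⟫) (Y i) ∈ K} from hY)]
      · rw [Set.indicator_of_notMem hY, Set.indicator_of_notMem
          (show v ∉ {v : E N | ∀ i, mk (-⟪v, Y i⟫) (Y i) ∈ K} from hY)]
    have h5 : MeasurableSet {v : E N | ∀ i, mk (-⟪v, Y i⟫) (Y i) ∈ K} :=
      measurable_prodMk_right (y := Y) hm
    rw [h3, lintegral_indicator h5, lintegral_const, Measure.restrict_apply_univ, one_mul]
  simp_rw [h1, h4]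
  rw [lintegral_lintegral_swap]
  exact (measurable_const.indicator hm).aemeasurable

end Pool.Agent.H638.IB
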