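import Pool.Agent.H638.IB.Defs

/-! Task RIG (helper828). -/

set_option autoImplicit false

namespace Pool.Agent.H638.IB

theorem RIG_ok (h1 : S_REFA) (h2 : S_ELL) : S_RIG := by
  intro N hN K hK c hc h
  exact h2 K hK (fun e he => h1 hN K hK c hc h e he)

end Pool.Agent.H638.IB
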