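import Pool.Agent.H638.IB.Defs

/-! SC: sections of dilates. -/

set_option autoImplicit false

open MeasureTheory Set Filter Topology Metric
open scoped Pointwise RealInnerProductSpace ENNReal

namespace Pool.Agent.H638.IB

theorem SC_ok : S_SC := by
  intro N K _ c hc x hx
  unfold A secVol
  have hfin : Module.finrank ℝ (ℝ ∙ x)ᗮ = N := by
    have : Fact (Module.finrank ℝ (E (N + 1)) = N + 1) := ⟨by simp⟩
    exact Submodule.finrank_orthogonal_span_singleton hx
  have hset : {y : (ℝ ∙ x)ᗮ | (y : E (N + 1)) ∈ c • K} =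
      c • {y : (ℝ ∙ x)ᗮ | (y : E (N + 1)) ∈ K} := by
    ext y
    rw [Set.mem_smul_set_iff_inv_smul_mem₀ hc.ne']
    simp only [Set.mem_ofPred_eq]
    rw [Set.mem_smul_set_iff_inv_smul_mem₀ hc.ne']
    rfl
  rw [hset, Measure.addHaar_smul, hfin, ENNReal.toReal_mul, abs_of_pos (pow_pos hc N),
    ENNReal.toReal_ofReal (pow_pos hc N).le]
  ring

end Pool.Agent.H638.IB
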