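import Pool.Agent.H638.IB.Defs

set_option autoImplicit false

open MeasureTheory Set Filter Topology Metric
open scoped Pointwise RealInnerProductSpace ENNReal

namespace Pool.Agent.H638.IB

namespace SELaux

/-- gauge bounds -/
theorem gauge_le_norm (h : S_GB) {n : ℕ} {K : Set (E n)} (hK : Body K)
    (h1 : closedBall 0 1 ⊆ K) (x : E n) : gauge K x ≤ ‖x‖ := by
  obtain ⟨-, hm, hpos, hhom, hsub, hcont, -, -, -⟩ := h K hK
  by_cases hx : x = 0
  · subst hx
    have := hhom 0 (0 : E n)
    simp at this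
    simp
  · have hx' : 0 < ‖x‖ := norm_pos_iff.mpr hx
    have h2 : gauge K (‖x‖⁻¹ • x) ≤ 1 := by
      rw [hm]
      apply h1
      rw [mem_closedBall, dist_zero_right, norm_smul, norm_inv, norm_norm,
        inv_mul_cancel₀ hx'.ne']
    rw [hhom, abs_of_pos (inv_pos.mpr hx')] at h2
    rwa [inv_mul_le_iff₀ hx', mul_one] at h2

theorem norm_le_gauge (h : S_GB) {n : ℕ} {K : Set (E n)} (hK : Body K) {C : ℝ}
    (hC : 1 ≤ C)
    (h1 : K ⊆ closedBall 0 C) (x : E n) : ‖x‖ ≤ C * gauge K x := by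
  obtain ⟨-, hm, hpos, hhom, hsub, hcont, -, -, -⟩ := h K hK
  by_cases hx : x = 0
  · subst hx
    have := hhom 0 (0 : E n)
    simp at this
    simp
  · have hg := hpos x hx
    have h2 : (gauge K x)⁻¹ • x ∈ K := by
      rw [← hm, hhom, abs_of_pos (inv_pos.mpr hg), inv_mul_cancel₀ hg.ne']
    have h3 := h1 h2
    rw [mem_closedBall, dist_zero_right, norm_smul, norm_inv, Real.norm_eq_abs,
      abs_of_pos hg, inv_mul_le_iff₀ hg] at h3
    linarith [mul_comm C (gauge K x)]

theorem gauge_sub_le (h : S_GB) {n : ℕ} {K : Set (E n)} (hK : Body K)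
    (h1 : closedBall 0 1 ⊆ K) (x y : E n) : |gauge K x - gauge K y| ≤ ‖x - y‖ := by
  obtain ⟨-, hm, hpos, hhom, hsub, hcont, -, -, -⟩ := h K hK
  have h2 := gauge_le_norm h hK h1 (x - y)
  have h3 := gauge_le_norm h hK h1 (y - x)
  have h4 := hsub (x - y) y
  have h5 := hsub (y - x) x
  rw [sub_add_cancel] at h4 h5
  rw [norm_sub_rev] at h3
  rw [abs_le]
  constructor <;> linarith

/-- The compact set of functions. -/
def AA (n : ℕ) : Set (BoundedContinuousFunction (closedBall (0 : E n) 1) ℝ) :=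
  {f | (∀ x, 0 ≤ f x ∧ f x ≤ 1) ∧ ∀ x y : closedBall (0 : E n) 1,
    |f x - f y| ≤ ‖(x : E n) - (y : E n)‖}

theorem AA_closed (n : ℕ) : IsClosed (AA n) := by
  have h1 : AA n = (⋂ x : closedBall (0 : E n) 1, {f | 0 ≤ f x ∧ f x ≤ 1}) ∩
      ⋂ x : closedBall (0 : E n) 1, ⋂ y : closedBall (0 : E n) 1, {f | |f x - f y| ≤
      ‖(x : E n) - (y : E n)‖} := by
    ext f
    simp only [AA, mem_ofPred_eq, mem_inter_iff, mem_iInter]
  rw [h1]
  have hc : ∀ x, Continuous fun f : BoundedContinuousFunction (closedBall (0 : E n) 1) ℝ => f x :=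
    fun x => continuous_eval_const x
  refine IsClosed.inter ?_ ?_
  · refine isClosed_iInter fun x => ?_
    exact (isClosed_le continuous_const (hc x)).inter (isClosed_le (hc x) continuous_const)
  · refine isClosed_iInter fun x => isClosed_iInter fun y => ?_
    exact isClosed_le (((hc x).sub (hc y)).abs) continuous_const

theorem AA_compact (n : ℕ) : IsCompact (AA n) := by
  have : CompactSpace (closedBall (0 : E n) 1) :=
    isCompact_iff_compactSpace.mp (isCompact_closedBall 0 1)
  refine BoundedContinuousFunction.arzela_ascoli₂ (Icc (0 : ℝ) 1) isCompact_Icc (AA n)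
    (AA_closed n) ?_ ?_
  · intro f x hf
    exact hf.1 x
  · refine Metric.equicontinuous_of_continuity_modulus (fun t => t) ?_ _ ?_
    · exact tendsto_id
    · intro x y f
      rw [Real.dist_eq, Subtype.dist_eq, dist_eq_norm]
      exact f.2.2 x y

end SELaux

open SELaux in
theorem SEL_ok (hGB : S_GB) (hGC : S_GC) (hGM : S_GM) : S_SEL := by
  intro n C hC K hK hb
  have : CompactSpace (closedBall (0 : E n) 1) :=
    isCompact_iff_compactSpace.mp (isCompact_closedBall 0 1)
  -- the functions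
  have hcont : ∀ j, Continuous (gauge (K j)) := fun j => (hGB (K j) (hK j)).2.2.2.2.2.1
  let f : ℕ → BoundedContinuousFunction (closedBall (0 : E n) 1) ℝ := fun j =>
    BoundedContinuousFunction.mkOfCompact ⟨fun x => gauge (K j) x,
      (hcont j).comp continuous_subtype_val⟩
  have hfx : ∀ j x, f j x = gauge (K j) x := fun j x => rfl
  have hf : ∀ j, f j ∈ AA n := by
    intro j
    refine ⟨fun x => ⟨gauge_nonneg _, ?_⟩, fun x y => gauge_sub_le hGB (hK j) (hb j).1 x y⟩
    have h1 := gauge_le_norm hGB (hK j) (hb j).1 (x : E n)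
    have h2 := x.2
    rw [mem_closedBall, dist_zero_right] at h2
    exact h1.trans h2
  obtain ⟨g, hg, φ, hφ, hlim⟩ := (AA_compact n).tendsto_subseq hf
  -- the limit norm
  have hmem : ∀ x : E n, ‖x‖⁻¹ • x ∈ closedBall (0 : E n) 1 := by
    intro x
    rw [mem_closedBall, dist_zero_right, norm_smul, norm_inv, norm_norm]
    exact inv_mul_le_one
  let p : E n → ℝ := fun x => ‖x‖ * g ⟨‖x‖⁻¹ • x, hmem x⟩
  have hhomj : ∀ j (c : ℝ) x, gauge (K j) (c • x) = |c| * gauge (K j) x := fun j =>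
    (hGB (K j) (hK j)).2.2.2.1
  have hrep : ∀ j x, gauge (K j) x = ‖x‖ * f j ⟨‖x‖⁻¹ • x, hmem x⟩ := by
    intro j x
    rw [hfx]
    simp only []
    rw [hhomj, abs_of_nonneg (inv_nonneg.mpr (norm_nonneg x))]
    by_cases hx : x = 0
    · subst hx
      simp
    · rw [← mul_assoc, mul_inv_cancel₀ (norm_pos_iff.mpr hx).ne', one_mul]
  have hdist : ∀ j x, |gauge (K j) x - p x| ≤ dist (f j) g * ‖x‖ := by
    intro j x
    rw [hrep j x]
    simp only [p]
    rw [← mul_sub, abs_mul, abs_of_nonneg (norm_nonneg x), mul_comm]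
    refine mul_le_mul_of_nonneg_right ?_ (norm_nonneg x)
    have := BoundedContinuousFunction.dist_coe_le_dist (f := f j) (g := g)
      (⟨‖x‖⁻¹ • x, hmem x⟩ : closedBall (0 : E n) 1)
    rwa [Real.dist_eq] at this
  have hd0 : Tendsto (fun j => dist (f (φ j)) g) atTop (𝓝 0) :=
    tendsto_iff_dist_tendsto_zero.mp hlim
  have hpt : ∀ x, Tendsto (fun j => gauge (K (φ j)) x) atTop (𝓝 (p x)) := by
    intro x
    rw [tendsto_iff_dist_tendsto_zero]
    refine squeeze_zero (g := fun j => dist (f (φ j)) g * ‖x‖) (fun _ => dist_nonneg)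
      (fun j => ?_) ?_
    · rw [Real.dist_eq]
      exact hdist (φ j) x
    · simpa using hd0.mul_const ‖x‖
  have hC0 : 0 < C := by linarith
  have hplow : ∀ x, ‖x‖ ≤ C * p x := by
    intro x
    refine ge_of_tendsto ((hpt x).const_mul C) (Eventually.of_forall fun j => ?_)
    exact norm_le_gauge hGB (hK _) hC (hb _).2 x
  have hadd : ∀ x y, p (x + y) ≤ p x + p y := by
    intro x y
    refine le_of_tendsto_of_tendsto (hpt (x + y)) ((hpt x).add (hpt y))
      (Eventually.of_forall fun j => ?_)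
    exact (hGB (K (φ j)) (hK (φ j))).2.2.2.2.1 x y
  have hhom : ∀ (c : ℝ) x, p (c • x) = |c| * p x := by
    intro c x
    refine tendsto_nhds_unique (hpt (c • x)) ?_
    have := (hpt x).const_mul |c|
    refine this.congr fun j => ?_
    rw [hhomj]
  have hpos : ∀ x, x ≠ 0 → 0 < p x := by
    intro x hx
    have h1 := hplow x
    have h2 : 0 < ‖x‖ := norm_pos_iff.mpr hx
    by_contra hcon
    push Not at hcon
    nlinarith
  obtain ⟨hL, hgL⟩ := hGC p hadd hhom hpos
  refine ⟨{x | p x ≤ 1}, φ, hL, hφ, ?_⟩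
  intro ε hε
  have hev : ∀ᶠ j in atTop, dist (f (φ j)) g < ε / C :=
    (tendsto_order.mp hd0).2 _ (div_pos hε hC0)
  filter_upwards [hev] with j hj
  have hjC : dist (f (φ j)) g * C ≤ ε := by
    rw [lt_div_iff₀ hC0] at hj
    exact hj.le
  have hd := hdist (φ j)
  constructor
  · rw [hGM _ _ (hK _) hL (1 + ε) (by linarith)]
    intro x
    rw [hgL]
    have h1 := (abs_le.mp (hd x)).1
    have h2 := norm_le_gauge hGB (hK (φ j)) hC (hb (φ j)).2 x
    have h3 : dist (f (φ j)) g * ‖x‖ ≤ ε * gauge (K (φ j)) x := by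
      calc dist (f (φ j)) g * ‖x‖ ≤ dist (f (φ j)) g * (C * gauge (K (φ j)) x) :=
            mul_le_mul_of_nonneg_left h2 dist_nonneg
        _ = (dist (f (φ j)) g * C) * gauge (K (φ j)) x := by ring
        _ ≤ ε * gauge (K (φ j)) x := mul_le_mul_of_nonneg_right hjC (gauge_nonneg x)
    linarith
  · rw [hGM _ _ hL (hK _) (1 + ε) (by linarith)]
    intro x
    rw [hgL]
    have h1 := (abs_le.mp (hd x)).2
    have h2 := hplow x
    have hp0 : 0 ≤ p x := by
      have := norm_nonneg x
      by_contra hcon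
      push Not at hcon
      nlinarith
    have h3 : dist (f (φ j)) g * ‖x‖ ≤ ε * p x := by
      calc dist (f (φ j)) g * ‖x‖ ≤ dist (f (φ j)) g * (C * p x) :=
            mul_le_mul_of_nonneg_left h2 dist_nonneg
        _ = (dist (f (φ j)) g * C) * p x := by ring
        _ ≤ ε * p x := mul_le_mul_of_nonneg_right hjC hp0
    linarith

end Pool.Agent.H638.IB
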