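import Mathlib
import Pool.Agent.H638.IB.Defs
import Pool.Agent.Helper734.IB.Mpdec

set_option autoImplicit false

open MeasureTheory Set Filter Topology Metric
open scoped Pointwise RealInnerProductSpace ENNReal

namespace Pool.Agent.H638.IB.SLABaux

variable {n : ℕ}

/-- slices orthogonal to `v` -/
noncomputable def sl (K : Set (E n)) (v : E n) (t : ℝ) : ℝ≥0∞ :=
  volume {z : (ℝ ∙ v)ᗮ | (z : E n) + t • v ∈ K}

theorem slab_eq (K : Set (E n)) (hK : MeasurableSet K) (v : E n) (hv : ‖v‖ = 1) (c δ : ℝ)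
    (hc : 0 < c) :
    volume (K ∩ {z | |⟪c • v, z⟫| ≤ c * δ}) = ∫⁻ t in Icc (-δ) δ, sl K v t := by
  obtain ⟨hmp, hme⟩ := Pool.Agent.Helper734.IB.mpdec v hv
  have hS : MeasurableSet (K ∩ {z : E n | |⟪c • v, z⟫| ≤ c * δ}) := by
    refine hK.inter ?_
    exact (isClosed_le (by fun_prop) continuous_const).measurableSet
  rw [← hmp.measure_preimage_emb hme, Measure.volume_eq_prod,
    Measure.prod_apply_symm (hme.measurable hS), ← lintegral_indicator measurableSet_Icc]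
  refine lintegral_congr fun t => ?_
  have hin : ∀ z : (ℝ ∙ v)ᗮ, (⟪c • v, (z : E n) + t • v⟫ : ℝ) = c * t := by
    intro z
    rw [real_inner_smul_left, inner_add_right, (Pool.Agent.Helper734.IB.perp_inner v z).2,
      real_inner_smul_right, real_inner_self_eq_norm_sq, hv]
    ring
  by_cases ht : t ∈ Icc (-δ) δ
  · rw [indicator_of_mem ht]
    unfold sl
    congr 1
    ext z
    simp only [mem_preimage, mem_inter_iff, mem_ofPred_eq, hin]
    constructor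
    · exact fun h => h.1
    · intro h
      refine ⟨h, ?_⟩
      rw [abs_mul, abs_of_pos hc]
      exact mul_le_mul_of_nonneg_left (abs_le.2 ht) hc.le
  · rw [indicator_of_notMem ht]
    have : (fun z : (ℝ ∙ v)ᗮ => (z, t)) ⁻¹' ((fun p : (ℝ ∙ v)ᗮ × ℝ => (p.1 : E n) + p.2 • v) ⁻¹'
        (K ∩ {z | |⟪c • v, z⟫| ≤ c * δ})) = ∅ := by
      rw [eq_empty_iff_forall_notMem]
      intro z hz
      simp only [mem_preimage, mem_inter_iff, mem_ofPred_eq, hin] at hz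
      have h2 := hz.2
      rw [abs_mul, abs_of_pos hc] at h2
      exact ht (abs_le.1 (le_of_mul_le_mul_left h2 hc))
    rw [this, measure_empty]

theorem lower (K : Set (E n)) (hK : Convex ℝ K) (v : E n) (hv : ‖v‖ = 1) (r : ℝ) (hr : 0 < r)
    (hball : closedBall 0 r ⊆ K) (t : ℝ) (ht : |t| < r) :
    ENNReal.ofReal ((1 - |t| / r) ^ Module.finrank ℝ (ℝ ∙ v)ᗮ) * sl K v 0 ≤ sl K v t := by
  have h1 : 0 < 1 - |t| / r := by
    rw [sub_pos, div_lt_one hr]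
    exact ht
  have h2 : ENNReal.ofReal ((1 - |t| / r) ^ Module.finrank ℝ (ℝ ∙ v)ᗮ) * sl K v 0 =
      volume ((1 - |t| / r) • {z : (ℝ ∙ v)ᗮ | (z : E n) + (0 : ℝ) • v ∈ K}) := by
    rw [Measure.addHaar_smul, abs_of_nonneg (pow_nonneg h1.le _)]
    rfl
  rw [h2]
  refine measure_mono ?_
  rintro z ⟨y, hy, rfl⟩
  have hy' : (y : E n) ∈ K := by
    have : (y : E n) + (0 : ℝ) • v ∈ K := hy
    rwa [zero_smul, add_zero] at this
  show (((1 - |t| / r) • y : (ℝ ∙ v)ᗮ) : E n) + t • v ∈ K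
  have hp : (t * (r / |t|)) • v ∈ K := by
    apply hball
    rw [mem_closedBall_zero_iff, norm_smul, hv, mul_one, Real.norm_eq_abs, abs_mul, abs_div,
      abs_abs, abs_of_pos hr]
    by_cases h0 : |t| = 0
    · rw [h0]; simp [hr.le]
    · rw [mul_div_cancel₀ _ h0]
  have h3 := hK hy' hp h1.le (by positivity : 0 ≤ |t| / r) (by ring)
  have h4 : (1 - |t| / r) • (y : E n) + (|t| / r) • ((t * (r / |t|)) • v) =
      (((1 - |t| / r) • y : (ℝ ∙ v)ᗮ) : E n) + t • v := by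
    rw [smul_smul, Submodule.coe_smul]
    congr 2
    by_cases h0 : |t| = 0
    · have : t = 0 := abs_eq_zero.1 h0
      subst this
      simp
    · field_simp
  rw [← h4]
  exact h3

theorem upper (K : Set (E n)) (hK : Convex ℝ K) (v : E n) (hv : ‖v‖ = 1) (r : ℝ) (hr : 0 < r)
    (hball : closedBall 0 r ⊆ K) (t : ℝ) :
    sl K v t ≤ ENNReal.ofReal ((1 + |t| / r) ^ Module.finrank ℝ (ℝ ∙ v)ᗮ) * sl K v 0 := by
  have h1 : 0 < 1 + |t| / r := by positivity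
  have h2 : ENNReal.ofReal ((1 + |t| / r) ^ Module.finrank ℝ (ℝ ∙ v)ᗮ) * sl K v 0 =
      volume ((1 + |t| / r) • {z : (ℝ ∙ v)ᗮ | (z : E n) + (0 : ℝ) • v ∈ K}) := by
    rw [Measure.addHaar_smul, abs_of_nonneg (pow_nonneg h1.le _)]
    rfl
  rw [h2]
  refine measure_mono ?_
  intro y hy
  have hy' : (y : E n) + t • v ∈ K := hy
  rw [mem_smul_set_iff_inv_smul_mem₀ h1.ne']
  show (((1 + |t| / r)⁻¹ • y : (ℝ ∙ v)ᗮ) : E n) + (0 : ℝ) • v ∈ K
  have hp : (-(t * (r / |t|))) • v ∈ K := by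
    apply hball
    rw [mem_closedBall_zero_iff, norm_smul, hv, mul_one, Real.norm_eq_abs, abs_neg, abs_mul,
      abs_div, abs_abs, abs_of_pos hr]
    by_cases h0 : |t| = 0
    · rw [h0]; simp [hr.le]
    · rw [mul_div_cancel₀ _ h0]
  have h3 := hK hy' hp (by positivity : 0 ≤ (1 + |t| / r)⁻¹)
    (by positivity : 0 ≤ (1 + |t| / r)⁻¹ * (|t| / r)) (by field_simp)
  have h4 : (1 + |t| / r)⁻¹ • ((y : E n) + t • v) +
      ((1 + |t| / r)⁻¹ * (|t| / r)) • ((-(t * (r / |t|))) • v) =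
      (((1 + |t| / r)⁻¹ • y : (ℝ ∙ v)ᗮ) : E n) + (0 : ℝ) • v := by
    rw [smul_smul, Submodule.coe_smul, smul_add, add_assoc, smul_smul, ← add_smul]
    congr 2
    by_cases h0 : |t| = 0
    · have : t = 0 := abs_eq_zero.1 h0
      subst this
      simp
    · field_simp
      ring
  rw [← h4]
  exact h3

theorem secVol_eq (K : Set (E n)) (x v : E n) (h : (ℝ ∙ x) = (ℝ ∙ v)) :
    secVol K x = (sl K v 0).toReal := by
  have key : ∀ S S' : Submodule ℝ (E n), S = S' →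
      volume {y : Sᗮ | (y : E n) ∈ K} = volume {y : S'ᗮ | (y : E n) + (0 : ℝ) • v ∈ K} := by
    rintro S S' rfl
    simp only [zero_smul, add_zero]
  unfold secVol sl
  rw [key _ _ h]

theorem sl_zero_ne_top (K : Set (E n)) (v : E n) (R : ℝ) (hK : K ⊆ closedBall 0 R) :
    sl K v 0 ≠ ∞ := by
  refine ne_top_of_le_ne_top (measure_closedBall_lt_top (μ := (volume : Measure (ℝ ∙ v)ᗮ))
    (x := 0) (r := R)).ne ?_
  refine measure_mono ?_
  intro y hy
  have hy' : (y : E n) + (0 : ℝ) • v ∈ K := hy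
  rw [zero_smul, add_zero] at hy'
  have := hK hy'
  rw [mem_closedBall_zero_iff] at this ⊢
  exact this

theorem core (K : Set (E n)) (hK : MeasurableSet K) (hc : Convex ℝ K) (r R : ℝ) (hr : 0 < r)
    (hball : closedBall 0 r ⊆ K) (hR : K ⊆ closedBall 0 R) (x : E n) (hx : x ≠ 0) :
    Tendsto (fun ε : ℝ => vol (K ∩ {z | |⟪x, z⟫| ≤ ε}) / (2 * ε)) (𝓝[>] 0) (𝓝 (A K x)) := by
  have hx0 : 0 < ‖x‖ := norm_pos_iff.2 hx
  obtain ⟨v, hvdef⟩ : ∃ v : E n, v = ‖x‖⁻¹ • x := ⟨_, rfl⟩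
  have hv : ‖v‖ = 1 := by
    rw [hvdef, norm_smul, norm_inv, norm_norm, inv_mul_cancel₀ hx0.ne']
  have hxv : x = ‖x‖ • v := by
    rw [hvdef, smul_smul, mul_inv_cancel₀ hx0.ne', one_smul]
  have hspan : (ℝ ∙ x) = (ℝ ∙ v) := by
    rw [hvdef]
    exact (Submodule.span_singleton_smul_eq (IsUnit.mk0 _ (inv_ne_zero hx0.ne')) x).symm
  have hA : A K x = (sl K v 0).toReal / ‖x‖ := by
    unfold A
    rw [secVol_eq K x v hspan]
  have hfin := sl_zero_ne_top K v R hR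
  set m := Module.finrank ℝ (ℝ ∙ v)ᗮ with hm
  set s0 := (sl K v 0).toReal with hs0
  have hs0' : sl K v 0 = ENNReal.ofReal s0 := (ENNReal.ofReal_toReal hfin).symm
  have hs00 : 0 ≤ s0 := ENNReal.toReal_nonneg
  rw [hA]
  have hlow : Tendsto (fun ε : ℝ => (1 - ε / ‖x‖ / r) ^ m * s0 / ‖x‖) (𝓝[>] 0)
      (𝓝 (s0 / ‖x‖)) := by
    have : Tendsto (fun ε : ℝ => (1 - ε / ‖x‖ / r) ^ m * s0 / ‖x‖) (𝓝 0)
        (𝓝 ((1 - 0 / ‖x‖ / r) ^ m * s0 / ‖x‖)) := by
      have hcont : Continuous (fun ε : ℝ => (1 - ε / ‖x‖ / r) ^ m * s0 / ‖x‖) := by fun_prop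
      exact hcont.tendsto 0
    rw [zero_div, zero_div, sub_zero, one_pow, one_mul] at this
    exact this.mono_left nhdsWithin_le_nhds
  have hup : Tendsto (fun ε : ℝ => (1 + ε / ‖x‖ / r) ^ m * s0 / ‖x‖) (𝓝[>] 0)
      (𝓝 (s0 / ‖x‖)) := by
    have : Tendsto (fun ε : ℝ => (1 + ε / ‖x‖ / r) ^ m * s0 / ‖x‖) (𝓝 0)
        (𝓝 ((1 + 0 / ‖x‖ / r) ^ m * s0 / ‖x‖)) := by
      have hcont : Continuous (fun ε : ℝ => (1 + ε / ‖x‖ / r) ^ m * s0 / ‖x‖) := by fun_prop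
      exact hcont.tendsto 0
    rw [zero_div, zero_div, add_zero, one_pow, one_mul] at this
    exact this.mono_left nhdsWithin_le_nhds
  have hev : ∀ᶠ ε : ℝ in 𝓝[>] 0, (1 - ε / ‖x‖ / r) ^ m * s0 / ‖x‖ ≤
      vol (K ∩ {z | |⟪x, z⟫| ≤ ε}) / (2 * ε) ∧
      vol (K ∩ {z | |⟪x, z⟫| ≤ ε}) / (2 * ε) ≤ (1 + ε / ‖x‖ / r) ^ m * s0 / ‖x‖ := by
    have hmem : Ioo (0 : ℝ) (‖x‖ * r) ∈ 𝓝[>] (0 : ℝ) := Ioo_mem_nhdsGT (by positivity)
    filter_upwards [hmem] with ε hε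
    obtain ⟨δ, hδ⟩ : ∃ δ : ℝ, δ = ε / ‖x‖ := ⟨_, rfl⟩
    have hδ0 : 0 < δ := by rw [hδ]; exact div_pos hε.1 hx0
    have hεδ : ε = ‖x‖ * δ := by rw [hδ]; field_simp
    have hδr : δ < r := by
      rw [hδ, div_lt_iff₀ hx0, mul_comm]
      exact hε.2
    have heq : volume (K ∩ {z | |⟪x, z⟫| ≤ ε}) = ∫⁻ t in Icc (-δ) δ, sl K v t := by
      rw [← slab_eq K hK v hv ‖x‖ δ hx0, ← hxv, ← hεδ]
    have h1 : (0 : ℝ) ≤ 1 - δ / r := by
      rw [sub_nonneg, div_le_one hr]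
      exact hδr.le
    have hvolI : volume (Icc (-δ) δ) = ENNReal.ofReal (2 * δ) := by
      rw [Real.volume_Icc]
      congr 1
      ring
    have hlo : ENNReal.ofReal ((1 - δ / r) ^ m * s0 * (2 * δ)) ≤
        volume (K ∩ {z | |⟪x, z⟫| ≤ ε}) := by
      rw [heq, ENNReal.ofReal_mul (by positivity), ENNReal.ofReal_mul (by positivity), ← hs0',
        ← hvolI, ← setLIntegral_const]
      refine setLIntegral_mono' measurableSet_Icc ?_
      intro t ht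
      have ht' : |t| ≤ δ := abs_le.2 ht
      refine le_trans ?_ (lower K hc v hv r hr hball t (ht'.trans_lt hδr))
      gcongr
    have hhi : volume (K ∩ {z | |⟪x, z⟫| ≤ ε}) ≤
        ENNReal.ofReal ((1 + δ / r) ^ m * s0 * (2 * δ)) := by
      rw [heq, ENNReal.ofReal_mul (by positivity), ENNReal.ofReal_mul (by positivity), ← hs0',
        ← hvolI, ← setLIntegral_const]
      refine setLIntegral_mono' measurableSet_Icc ?_
      intro t ht
      have ht' : |t| ≤ δ := abs_le.2 ht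
      refine (upper K hc v hv r hr hball t).trans ?_
      gcongr
    have hne : volume (K ∩ {z | |⟪x, z⟫| ≤ ε}) ≠ ∞ :=
      ne_top_of_le_ne_top ENNReal.ofReal_ne_top hhi
    have hlo' : (1 - δ / r) ^ m * s0 * (2 * δ) ≤ vol (K ∩ {z | |⟪x, z⟫| ≤ ε}) :=
      (ENNReal.ofReal_le_iff_le_toReal hne).1 hlo
    have hhi' : vol (K ∩ {z | |⟪x, z⟫| ≤ ε}) ≤ (1 + δ / r) ^ m * s0 * (2 * δ) :=
      ENNReal.toReal_le_of_le_ofReal (by positivity) hhi
    rw [← hδ]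
    have hε0 : 0 < 2 * ε := by have := hε.1; positivity
    have e1 : ∀ c : ℝ, c * s0 / ‖x‖ = c * s0 * (2 * δ) / (2 * ε) := by
      intro c
      rw [hεδ]
      field_simp
    rw [e1, e1]
    exact ⟨div_le_div_of_nonneg_right hlo' hε0.le, div_le_div_of_nonneg_right hhi' hε0.le⟩
  exact tendsto_of_tendsto_of_tendsto_of_le_of_le' hlow hup (hev.mono fun _ h => h.1)
    (hev.mono fun _ h => h.2)

end Pool.Agent.H638.IB.SLABaux

namespace Pool.Agent.H638.IB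

theorem SLAB_ok (hGB : S_GB) : S_SLAB := by
  intro n K hK x hx
  obtain ⟨⟨r, R, hr, hR, hball, hsub⟩, -, -, -, -, -, -, -, hmeas⟩ := hGB K hK
  exact SLABaux.core K hmeas hK.convex r R hr hball hsub x hx

end Pool.Agent.H638.IB
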