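import Pool.Agent.H638.IB.Defs

/-! Task STR of the project IB (helper814). -/

set_option autoImplicit false

open MeasureTheory Set Filter Topology Metric
open scoped Pointwise RealInnerProductSpace ENNReal

namespace Pool.Agent.H638.IB

namespace STRaux

/-- two independent vectors are the beginning of a basis -/
theorem ext_li (n : ℕ) (y1 y2 : E (n + 2)) (h : LinearIndependent ℝ ![y1, y2]) :
    ∀ m ≤ n, ∃ v : Fin (m + 2) → E (n + 2), LinearIndependent ℝ v ∧ v 0 = y1 ∧ v 1 = y2 := by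
  intro m
  induction m with
  | zero => intro _; exact ⟨![y1, y2], h, rfl, rfl⟩
  | succ m ih =>
    intro hm
    obtain ⟨v, hv, h0, h1⟩ := ih (by omega)
    obtain ⟨x, hx⟩ := exists_linearIndependent_snoc_of_lt_finrank hv (by
      rw [finrank_euclideanSpace_fin]; omega)
    refine ⟨Fin.snoc v x, hx, ?_, ?_⟩
    · rw [← h0]
      exact Fin.snoc_castSucc (α := fun _ => E (n + 2)) x v 0
    · rw [← h1]
      exact Fin.snoc_castSucc (α := fun _ => E (n + 2)) x v 1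

theorem zero_mem_int {n : ℕ} {K : Set (E n)} (hK : Body K) : (0 : E n) ∈ interior K := by
  obtain ⟨x, hx⟩ := hK.int
  have hneg : -x ∈ interior K := by
    have h1 : IsOpen (-interior K) := isOpen_interior.neg
    have h2 : -interior K ⊆ K := by
      intro y hy
      have := hK.neg _ (interior_subset (Set.mem_neg.1 hy))
      rwa [neg_neg] at this
    have h3 := interior_maximal h2 h1
    apply h3
    rw [Set.mem_neg, neg_neg]
    exact hx
  have h := hK.convex.interior hx hneg (by norm_num : (0 : ℝ) ≤ 1 / 2)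
    (by norm_num : (0 : ℝ) ≤ 1 / 2) (by norm_num)
  rw [smul_neg, add_neg_cancel] at h
  exact h

/-- small multiples -/
theorem small {n : ℕ} {U : Set (E n)} (hU : IsOpen U) (h0 : (0 : E n) ∈ U) (v : E n) :
    ∃ t : ℝ, 0 < t ∧ t • v ∈ U := by
  have hc : ContinuousAt (fun t : ℝ => t • v) 0 := by fun_prop
  have h1 : ∀ᶠ t : ℝ in 𝓝 0, t • v ∈ U := by
    apply hc
    show U ∈ 𝓝 ((0 : ℝ) • v)
    rw [zero_smul]
    exact hU.mem_nhds h0
  have h2 : ∀ᶠ t : ℝ in 𝓝[>] 0, t • v ∈ U ∧ 0 < t :=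
    (h1.filter_mono nhdsWithin_le_nhds).and (eventually_mem_nhdsWithin)
  obtain ⟨t, h3, h4⟩ := h2.exists
  exact ⟨t, h4, h3⟩

/-- splitting off two coordinates -/
theorem vol_split (n : ℕ) (P : Set (ℝ × ℝ)) (B : Set (Fin n → ℝ)) :
    volume {r : Fin (n + 2) → ℝ | (r 0, r 1) ∈ P ∧ (fun i : Fin n => r i.succ.succ) ∈ B} =
      volume P * volume B := by
  let e1 := MeasurableEquiv.piFinSuccAbove (fun _ : Fin (n + 2) => ℝ) 0
  let e2 := MeasurableEquiv.piFinSuccAbove (fun _ : Fin (n + 1) => ℝ) 0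
  let e3 : ℝ × (Fin (n + 1) → ℝ) ≃ᵐ ℝ × (ℝ × (Fin n → ℝ)) :=
    MeasurableEquiv.prodCongr (MeasurableEquiv.refl ℝ) e2
  let e4 : ℝ × (ℝ × (Fin n → ℝ)) ≃ᵐ (ℝ × ℝ) × (Fin n → ℝ) := MeasurableEquiv.prodAssoc.symm
  have m1 : MeasurePreserving e1 := volume_preserving_piFinSuccAbove (fun _ => ℝ) 0
  have m2 : MeasurePreserving e2 := volume_preserving_piFinSuccAbove (fun _ => ℝ) 0
  have m3 : MeasurePreserving e3 := (MeasurePreserving.id volume).prod m2
  have m4 : MeasurePreserving e4 := volume_preserving_prodAssoc.symm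
  have m : MeasurePreserving ((e1.trans e3).trans e4) := (m1.trans m3).trans m4
  have h1 := m.measure_preimage_equiv (P ×ˢ B)
  have h2 : volume (P ×ˢ B) = volume P * volume B := Measure.prod_prod P B
  rw [← h2, ← h1]
  rfl

/-- volume of a box -/
theorem vol_box (n : ℕ) (l : Fin n → ℝ) (hl : ∀ i, 0 < l i) :
    volume {z : Fin n → ℝ | ∀ i, |z i| ≤ l i} ≠ 0 ∧ volume {z : Fin n → ℝ | ∀ i, |z i| ≤ l i} ≠ ∞ := by
  have h : {z : Fin n → ℝ | ∀ i, |z i| ≤ l i} = Set.pi univ (fun i => Icc (-l i) (l i)) := by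
    ext z
    simp only [mem_setOf_eq, Set.mem_pi, mem_univ, true_implies, mem_Icc, abs_le]
  rw [h, volume_pi_pi]
  constructor
  · rw [Finset.prod_ne_zero_iff]
    intro i _
    rw [Real.volume_Icc]
    have := hl i
    simp only [ne_eq, ENNReal.ofReal_eq_zero, not_le]
    linarith
  · apply ENNReal.prod_ne_top
    intro i _
    rw [Real.volume_Icc]
    exact ENNReal.ofReal_ne_top

end STRaux

theorem STR_ok (hPAR : S_PAR) (hPLAN : S_PLAN) (hFIB : S_FIB) : S_STR := by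
  intro N hN K hK y1 y2 γ hγ hli hy1 hy2 hy0 h1 h2 h3 h4
  obtain ⟨n, rfl⟩ : ∃ n, N = n + 2 := ⟨N - 2, by omega⟩
  obtain ⟨-, -, -, hlen0, hPr, hlenpos, -, -⟩ := hFIB K hK
  obtain ⟨v, hv, hv0, hv1⟩ := STRaux.ext_li n y1 y2 hli n le_rfl
  have hs : ∀ i : Fin (n + 2), ∃ t : ℝ, 0 < t ∧ t • v i ∈ interior (Pr K) ∧
      (i = 0 ∨ i = 1 → t = 1) := by
    intro i
    by_cases hi : i = 0 ∨ i = 1
    · refine ⟨1, one_pos, ?_, fun _ => rfl⟩
      rw [one_smul]
      rcases hi with rfl | rfl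
      · rw [hv0]; exact hy1
      · rw [hv1]; exact hy2
    · obtain ⟨t, ht, ht2⟩ := STRaux.small isOpen_interior (STRaux.zero_mem_int hPr) (v i)
      exact ⟨t, ht, ht2, fun h => absurd h hi⟩
  choose t ht0 ht1 ht2 using hs
  have ht0' : t 0 = 1 := ht2 0 (Or.inl rfl)
  have ht1' : t 1 = 1 := ht2 1 (Or.inr rfl)
  let Y : Fin (n + 2 + 1) → E (n + 2) := Fin.cons (γ • (y1 + y2)) (fun i => t i • v i)
  have hYs : ∀ i : Fin (n + 2), Y i.succ = t i • v i := fun i => rfl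
  have hY0 : Y 0 = γ • (y1 + y2) := rfl
  have hY1 : Y (Fin.succ 0) = y1 := by rw [hYs, ht0', one_smul, hv0]
  have hY2 : Y (Fin.succ 1) = y2 := by rw [hYs, ht1', one_smul, hv1]
  have hYint : ∀ i, Y i ∈ interior (Pr K) := by
    intro i
    refine Fin.cases ?_ (fun j => ?_) i
    · rw [hY0]; exact hy0
    · rw [hYs]; exact ht1 j
  have hLI : LinearIndependent ℝ (fun i : Fin (n + 2) => Y i.succ) :=
    hv.units_smul (fun i => Units.mk0 (t i) (ht0 i).ne')
  let c : Fin (n + 2) → ℝ := Fin.cons γ (Fin.cons γ (fun _ => 0))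
  have hc0 : c 0 = γ := rfl
  have hc1 : c (Fin.succ 0) = γ := rfl
  have hcs : ∀ i : Fin n, c i.succ.succ = 0 := fun i => rfl
  have hsum : Y 0 = ∑ i, c i • Y i.succ := by
    rw [Fin.sum_univ_succ, Fin.sum_univ_succ, hc0, hc1]
    have : ∑ i : Fin n, c i.succ.succ • Y i.succ.succ.succ = 0 := by
      refine Finset.sum_eq_zero fun i _ => ?_
      rw [hcs, zero_smul]
    rw [this, add_zero, hY0, hY1, show (Fin.succ (0 : Fin (n + 1))) = 1 from rfl, hY2, smul_add]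
  obtain ⟨d, hd, hQ⟩ := hPAR K hK Y (fun i => interior_subset (hYint i)) hLI c hsum
  have hmu : mid K (Y 0) - ∑ i, c i * mid K (Y i.succ) =
      mid K (γ • (y1 + y2)) - γ * (mid K y1 + mid K y2) := by
    rw [Fin.sum_univ_succ, Fin.sum_univ_succ, hc0, hc1]
    have : ∑ i : Fin n, c i.succ.succ * mid K (Y i.succ.succ.succ) = 0 := by
      refine Finset.sum_eq_zero fun i _ => ?_
      rw [hcs, zero_mul]
    rw [this, add_zero, hY0, hY1, show (Fin.succ (0 : Fin (n + 1))) = 1 from rfl, hY2, mul_add]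
  rw [hmu] at hQ
  set μ : ℝ := mid K (γ • (y1 + y2)) - γ * (mid K y1 + mid K y2) with hμ
  have hμ0 : μ ≠ 0 := sub_ne_zero.2 h4
  set L : ℝ := len K (γ • (y1 + y2)) with hL
  have hvol : ∀ τ : ℝ, Qv K Y τ = ENNReal.ofReal d *
      (volume {p : ℝ × ℝ | |p.1| ≤ len K y1 ∧ |p.2| ≤ len K y2 ∧
        |p.1 + p.2 + τ * (μ / γ)| ≤ L / γ} *
      volume {z : Fin n → ℝ | ∀ i, |z i| ≤ len K (Y i.succ.succ.succ)}) := by
    intro τ
    rw [hQ τ, ← STRaux.vol_split]
    congr 2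
    ext r
    simp only [mem_setOf_eq]
    rw [Fin.forall_fin_succ, Fin.forall_fin_succ, Fin.sum_univ_succ, Fin.sum_univ_succ, hc0, hc1]
    have h5 : ∑ i : Fin n, c i.succ.succ * r i.succ.succ = 0 := by
      refine Finset.sum_eq_zero fun i _ => ?_
      rw [hcs, zero_mul]
    rw [h5, add_zero, hY0, hY1, show (Fin.succ (0 : Fin (n + 1))) = 1 from rfl, hY2]
    have h6 : |γ * r 0 + γ * r 1 + τ * μ| ≤ L ↔ |r 0 + r 1 + τ * (μ / γ)| ≤ L / γ := by
      rw [le_div_iff₀ hγ]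
      have e : γ * r 0 + γ * r 1 + τ * μ = (r 0 + r 1 + τ * (μ / γ)) * γ := by
        field_simp
      rw [e, abs_mul, abs_of_pos hγ]
    rw [h6]
    tauto
  have hl1 : 0 < len K y1 := hlenpos _ hy1
  have hl2 : 0 < len K y2 := hlenpos _ hy2
  obtain ⟨hp1, hp2⟩ := hPLAN (len K y1) (len K y2) (L / γ) (μ / γ) hl1 hl2 h1 h2
    (div_ne_zero hμ0 hγ.ne') (by rw [abs_div, abs_of_pos hγ]; exact h3)
  obtain ⟨hB0, hB1⟩ := STRaux.vol_box n (fun i => len K (Y i.succ.succ.succ))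
    (fun i => hlenpos _ (hYint _))
  have hd0 : ENNReal.ofReal d ≠ 0 := by
    simp only [ne_eq, ENNReal.ofReal_eq_zero, not_le]
    exact hd
  refine ⟨Y, hYint, hLI, ?_, ?_⟩
  · rw [hvol 1, one_mul]
    exact ENNReal.mul_pos hd0 (mul_ne_zero hp1.ne' hB0)
  · rw [hvol 1, hvol 0, one_mul, zero_mul]
    simp only [add_zero]
    refine (ENNReal.mul_lt_mul_iff_right hd0 ENNReal.ofReal_ne_top).2 ?_
    exact (ENNReal.mul_lt_mul_iff_left hB0 hB1).2 hp2

end Pool.Agent.H638.IB
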