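import Pool.Agent.H638.IB.Defs

/-! # Task SUP: the functional is maximal at the ball -/

set_option autoImplicit false

open MeasureTheory Set Filter Topology Metric
open scoped Pointwise RealInnerProductSpace ENNReal

namespace Pool.Agent.H638.IB.SUPaux

theorem body_ball (n : ℕ) : Body (closedBall (0 : E n) 1) where
  compact := isCompact_closedBall _ _
  convex := convex_closedBall _ _
  int := ⟨0, ball_subset_interior_closedBall (mem_ball_self one_pos)⟩
  neg := by
    intro x hx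
    simpa using hx

theorem body_iter (hIBB : S_IBB) {N : ℕ} (hN : 1 ≤ N) (K : Set (E (N + 1))) (hK : Body K) (m : ℕ) :
    Body (IB^[m] K) := by
  induction m with
  | zero => simpa using hK
  | succ m ih =>
    rw [Function.iterate_succ_apply']
    exact (hIBB hN _ ih).1

theorem mono_iter (hIBB : S_IBB) (hLYAP : S_LYAP) {N : ℕ} (hN : 1 ≤ N) (K : Set (E (N + 1)))
    (hK : Body K) (m : ℕ) : F K ≤ F (IB^[m] K) := by
  induction m with
  | zero => simp
  | succ m ih =>
    rw [Function.iterate_succ_apply']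
    exact ih.trans (hLYAP hN _ (body_iter hIBB hN K hK m)).1

theorem exists_small (hFBD : S_FBD) (hIBB : S_IBB) {N : ℕ} (hN : 1 ≤ N) (K : Set (E (N + 1)))
    (hK : Body K) (δ : ℝ) (hδ : 0 < δ) : ∃ m : ℕ, F (IB (IB^[m] K)) ≤ F (IB^[m] K) + δ := by
  by_contra hcon
  push_neg at hcon
  obtain ⟨C, hC⟩ := hFBD N hN
  have hgrow : ∀ m : ℕ, F K + m * δ ≤ F (IB^[m] K) := by
    intro m
    induction m with
    | zero => simp
    | succ m ih =>
      rw [Function.iterate_succ_apply']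
      have := hcon m
      push_cast
      linarith
  obtain ⟨m, hm⟩ := exists_nat_gt ((C - F K) / δ)
  have h1 := hgrow m
  have h2 := (hC _ (body_iter hIBB hN K hK m)).2
  rw [div_lt_iff₀ hδ] at hm
  linarith

theorem near_bound (hGS : S_GS) (hFNEAR : S_FNEAR) (hFLIN : S_FLIN) {N : ℕ} (hN : 1 ≤ N)
    (K : Set (E (N + 1))) (hK : Body K) (ε : ℝ) (hε : 0 < ε) (hnear : Near ε K) :
    F K ≤ (1 + ε) ^ (2 * (N + 1) * N) * F (closedBall (0 : E (N + 1)) 1) := by
  obtain ⟨T, h1, h2⟩ := hnear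
  have hL : Body (T '' K) := ((hGS K hK).2 T).1
  have hl : (1 : ℝ) ≤ 1 + ε := by linarith
  have hl0 : (0 : ℝ) < 1 + ε := by linarith
  have key := (hFNEAR hN (closedBall (0 : E (N + 1)) 1) (T '' K) (body_ball _) hL (1 + ε) hl ?_ ?_).1
  · rw [hFLIN hN K hK T] at key
    exact key
  · intro x hx
    refine ⟨(1 + ε)⁻¹ • x, h1 ?_, ?_⟩
    · rw [mem_closedBall_zero_iff] at hx ⊢
      rw [norm_smul, norm_inv, Real.norm_eq_abs, abs_of_pos hl0]
      calc (1 + ε)⁻¹ * ‖x‖ ≤ 1 * 1 :=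
            mul_le_mul (inv_le_one_of_one_le₀ hl) hx (norm_nonneg _) zero_le_one
        _ = 1 := one_mul _
    · simp only [smul_smul, mul_inv_cancel₀ hl0.ne', one_smul]
  · intro x hx
    have hx2 := h2 hx
    refine ⟨(1 + ε)⁻¹ • x, ?_, ?_⟩
    · rw [mem_closedBall_zero_iff] at hx2 ⊢
      rw [norm_smul, norm_inv, Real.norm_eq_abs, abs_of_pos hl0, inv_mul_le_iff₀ hl0, mul_one]
      exact hx2
    · simp only [smul_smul, mul_inv_cancel₀ hl0.ne', one_smul]

end Pool.Agent.H638.IB.SUPaux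

namespace Pool.Agent.H638.IB

open SUPaux in
theorem SUP_ok (hGAP : S_GAP) (hFBD : S_FBD) (hLYAP : S_LYAP) (hIBB : S_IBB) (hFNEAR : S_FNEAR)
    (hFLIN : S_FLIN) (hGS : S_GS) : S_SUP := by
  intro N hN K hK
  have hN1 : 1 ≤ N := by omega
  have hall : ∀ ε : ℝ, 0 < ε →
      F K ≤ (1 + ε) ^ (2 * (N + 1) * N) * F (closedBall (0 : E (N + 1)) 1) := by
    intro ε hε
    obtain ⟨δ, hδ, hg⟩ := hGAP N hN ε hε
    obtain ⟨m, hm⟩ := exists_small hFBD hIBB hN1 K hK δ hδ
    have hb := body_iter hIBB hN1 K hK m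
    have hnear := hg _ hb hm
    exact (mono_iter hIBB hLYAP hN1 K hK m).trans
      (near_bound hGS hFNEAR hFLIN hN1 _ hb ε hε hnear)
  have hlim : Tendsto (fun ε : ℝ => (1 + ε) ^ (2 * (N + 1) * N) *
      F (closedBall (0 : E (N + 1)) 1)) (𝓝[>] 0) (𝓝 ((1 + 0) ^ (2 * (N + 1) * N) *
      F (closedBall (0 : E (N + 1)) 1))) := by
    have hcont : Continuous (fun ε : ℝ => (1 + ε) ^ (2 * (N + 1) * N) *
      F (closedBall (0 : E (N + 1)) 1)) := by fun_prop
    exact (hcont.tendsto 0).mono_left nhdsWithin_le_nhds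
  have hfin := ge_of_tendsto hlim (eventually_nhdsWithin_of_forall fun ε hε => hall ε hε)
  simpa using hfin

end Pool.Agent.H638.IB
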