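import Pool.Agent.H638.IB.Defs

set_option autoImplicit false

open MeasureTheory Set Filter Topology Metric
open scoped Pointwise RealInnerProductSpace ENNReal

namespace Pool.Agent.H638.IB

namespace SYMaux

theorem norm_inv_fin {N : ℕ} (hN : 1 ≤ N) (R : ℝ) :
    ∫⁻ x in closedBall (0 : E (N + 1)) R, ENNReal.ofReal (‖x‖⁻¹) < ∞ := by
  have hint : Integrable (fun z : E (N + 1) => (Set.Iic R).indicator (fun r : ℝ => r⁻¹) ‖z‖) := by
    rw [integrable_fun_norm_addHaar (volume : Measure (E (N + 1)))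
      (f := fun y : ℝ => (Set.Iic R).indicator (fun r : ℝ => r⁻¹) y)]
    have hfr : Module.finrank ℝ (E (N + 1)) - 1 = N := by simp
    rw [hfr]
    have h1 : IntegrableOn (fun y : ℝ => (Set.Iic R).indicator (fun r : ℝ => r ^ (N - 1)) y) (Ioi 0) := by
      rw [integrableOn_indicator_iff measurableSet_Iic, Set.inter_comm]
      have : Set.Ioi (0 : ℝ) ∩ Set.Iic R = Set.Ioc 0 R := rfl
      rw [this]
      exact (continuous_pow (N - 1)).integrableOn_Ioc
    refine h1.congr_fun ?_ measurableSet_Ioi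
    intro y hy
    have hy0 : (0 : ℝ) < y := hy
    by_cases hyR : y ∈ Set.Iic R
    · simp only [Set.indicator_of_mem hyR, smul_eq_mul]
      obtain ⟨M, rfl⟩ : ∃ M, N = M + 1 := ⟨N - 1, by omega⟩
      rw [Nat.add_sub_cancel, pow_succ]
      field_simp
    · simp only [Set.indicator_of_notMem hyR, smul_zero]
  have h := hint.lintegral_lt_top
  rw [← lintegral_indicator isClosed_closedBall.measurableSet]
  refine lt_of_le_of_lt (lintegral_mono fun x => ?_) h
  by_cases hx : x ∈ closedBall (0 : E (N + 1)) R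
  · rw [Set.indicator_of_mem hx]
    rw [mem_closedBall_zero_iff] at hx
    rw [Set.indicator_of_mem (show ‖x‖ ∈ Set.Iic R from hx)]
  · rw [Set.indicator_of_notMem hx]
    exact bot_le

/-- the slab function -/
noncomputable def sl {n : ℕ} (L : Set (E n)) (ε : ℝ) (x : E n) : ℝ≥0∞ :=
  volume (L ∩ {z | |⟪x, z⟫| ≤ ε})

theorem sl_eq {n : ℕ} (L : Set (E n)) (ε : ℝ) (x : E n) :
    sl L ε x = ∫⁻ z in L, {p : E n × E n | |⟪p.1, p.2⟫| ≤ ε}.indicator (fun _ => (1 : ℝ≥0∞)) (x, z) := by
  have hm : MeasurableSet {z : E n | |⟪x, z⟫| ≤ ε} := by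
    apply measurableSet_le _ measurable_const
    exact (continuous_abs.comp (continuous_const.inner continuous_id)).measurable
  have : (fun z => {p : E n × E n | |⟪p.1, p.2⟫| ≤ ε}.indicator (fun _ => (1 : ℝ≥0∞)) (x, z)) =
      {z : E n | |⟪x, z⟫| ≤ ε}.indicator (fun _ => 1) := by
    funext z
    rfl
  rw [this, lintegral_indicator hm, setLIntegral_const, one_mul, sl, Measure.restrict_apply hm, 
    Set.inter_comm]

theorem measP {n : ℕ} (ε : ℝ) : MeasurableSet {p : E n × E n | |⟪p.1, p.2⟫| ≤ ε} := by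
  apply measurableSet_le _ measurable_const
  exact (continuous_abs.comp (continuous_fst.inner continuous_snd)).measurable

theorem measurable_sl {n : ℕ} (L : Set (E n)) (ε : ℝ) :
    Measurable (sl L ε) := by
  have : sl L ε = fun x => ∫⁻ z in L, {p : E n × E n | |⟪p.1, p.2⟫| ≤ ε}.indicator 
    (fun _ => (1 : ℝ≥0∞)) (x, z) := funext (sl_eq L ε)
  rw [this]
  exact Measurable.lintegral_prod_right' (measurable_const.indicator (measP ε))

theorem sl_symm {n : ℕ} (K L : Set (E n)) (ε : ℝ) :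
    ∫⁻ x in K, sl L ε x = ∫⁻ x in L, sl K ε x := by
  simp only [sl_eq L, sl_eq K]
  have hm : AEMeasurable (Function.uncurry fun x z : E n => 
      {p : E n × E n | |⟪p.1, p.2⟫| ≤ ε}.indicator (fun _ => (1 : ℝ≥0∞)) (x, z)) 
      ((volume.restrict K).prod (volume.restrict L)) := 
    (measurable_const.indicator (measP ε)).aemeasurable
  rw [lintegral_lintegral_swap hm]
  refine lintegral_congr fun z => lintegral_congr fun x => ?_
  by_cases h : |⟪x, z⟫| ≤ ε
  · rw [Set.indicator_of_mem (show (x, z) ∈ {p : E n × E n | |⟪p.1, p.2⟫| ≤ ε} from h), 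
      Set.indicator_of_mem]
    show |⟪z, x⟫| ≤ ε
    rw [real_inner_comm]
    exact h
  · rw [Set.indicator_of_notMem (show (x, z) ∉ {p : E n × E n | |⟪p.1, p.2⟫| ≤ ε} from h), 
      Set.indicator_of_notMem]
    show ¬ |⟪z, x⟫| ≤ ε
    rw [real_inner_comm]
    exact h

theorem sl_ofReal {n : ℕ} {L : Set (E n)} (hL : volume L ≠ ∞) {ε : ℝ} (hε : 0 < ε) (x : E n) :
    ENNReal.ofReal (vol (L ∩ {z | |⟪x, z⟫| ≤ ε}) / (2 * ε)) = sl L ε x / ENNReal.ofReal (2 * ε) := by
  have h : volume (L ∩ {z | |⟪x, z⟫| ≤ ε}) ≠ ∞ := 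
    ne_top_of_le_ne_top hL (measure_mono Set.inter_subset_left)
  rw [ENNReal.ofReal_div_of_pos (by linarith), vol, ENNReal.ofReal_toReal h, sl]

theorem tends {N : ℕ} (hN : 1 ≤ N) (hSL : S_SLAB) (hBND : S_BND) {K L : Set (E (N + 1))} (hK : Body K) 
    (hL : Body L) : 
    Tendsto (fun k : ℕ => ∫⁻ x in K, ENNReal.ofReal 
      (vol (L ∩ {z | |⟪x, z⟫| ≤ 1 / ((k : ℝ) + 1)}) / (2 * (1 / ((k : ℝ) + 1))))) atTop 
      (𝓝 (∫⁻ x in K, ENNReal.ofReal (A L x))) := by
  have hLm : MeasurableSet L := hL.compact.isClosed.measurableSet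
  have hKm : MeasurableSet K := hK.compact.isClosed.measurableSet
  have hLf : volume L ≠ ∞ := hL.compact.measure_lt_top.ne
  obtain ⟨c, C, hc, hC, hb⟩ := hBND L hL
  obtain ⟨R, hR⟩ := hK.compact.isBounded.subset_closedBall (0 : E (N + 1))
  have hne : ∀ᵐ x ∂((volume : Measure (E (N + 1))).restrict K), x ≠ 0 := by
    refine ae_restrict_of_ae ?_
    exact Measure.ae_ne volume 0
  have hpos : ∀ k : ℕ, (0 : ℝ) < 1 / ((k : ℝ) + 1) := fun k => by positivity
  refine tendsto_lintegral_of_dominated_convergence' (fun x => ENNReal.ofReal (C * ‖x‖⁻¹)) 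
    (fun k => ?_) (fun k => ?_) ?_ ?_
  · simp only [sl_ofReal hLf (hpos k)]
    exact ((measurable_sl L _).div_const _).aemeasurable
  · filter_upwards [hne] with x hx
    refine ENNReal.ofReal_le_ofReal ?_
    have := (hb x hx).2.2 _ (hpos k)
    rwa [div_eq_mul_inv C] at this
  · have h1 : ∀ x : E (N + 1), ENNReal.ofReal (C * ‖x‖⁻¹) = ENNReal.ofReal C * ENNReal.ofReal (‖x‖⁻¹) := 
      fun x => ENNReal.ofReal_mul hC.le
    simp only [h1]
    rw [lintegral_const_mul' _ _ ENNReal.ofReal_ne_top]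
    refine ENNReal.mul_ne_top ENNReal.ofReal_ne_top ?_
    exact (lt_of_le_of_lt (lintegral_mono_set hR) (norm_inv_fin hN R)).ne
  · filter_upwards [hne] with x hx
    refine (ENNReal.continuous_ofReal.tendsto _).comp ?_
    have h1 := hSL L hL x hx
    refine h1.comp ?_
    rw [tendsto_nhdsWithin_iff]
    exact ⟨tendsto_one_div_add_atTop_nhds_zero_nat, Eventually.of_forall fun k => hpos k⟩

end SYMaux

open SYMaux

/-- SYM -/
theorem SYM_ok (hSL : S_SLAB) (hBND : S_BND) : S_SYM := by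
  intro N hN K L hK hL
  have hLm : MeasurableSet L := hL.compact.isClosed.measurableSet
  have hKm : MeasurableSet K := hK.compact.isClosed.measurableSet
  have hLf : volume L ≠ ∞ := hL.compact.measure_lt_top.ne
  have hKf : volume K ≠ ∞ := hK.compact.measure_lt_top.ne
  have h1 := tends hN hSL hBND hK hL
  have h2 := tends hN hSL hBND hL hK
  refine tendsto_nhds_unique h1 (h2.congr fun k => ?_)
  have hpos : (0 : ℝ) < 1 / ((k : ℝ) + 1) := by positivity
  simp only [sl_ofReal hLf hpos, sl_ofReal hKf hpos]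
  simp only [ENNReal.div_eq_inv_mul]
  rw [lintegral_const_mul _ (measurable_sl K _), lintegral_const_mul _ (measurable_sl L _), 
    sl_symm K L]

end Pool.Agent.H638.IB
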