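import Pool.Agent.H638.IB.Defs

set_option autoImplicit false

open MeasureTheory Set Filter Topology Metric
open scoped Pointwise RealInnerProductSpace ENNReal

namespace Pool.Agent.H638.IB

theorem UNI_ok (hGAP : S_GAP) (hSUP : S_SUP) (hCONT : S_CONT) (hLYAP : S_LYAP) (hIBB : S_IBB) :
    S_UNI := by
  intro N hN ε hε
  have hN1 : 1 ≤ N := by omega
  obtain ⟨δ, hδ, hG⟩ := hGAP N hN ε hε
  obtain ⟨e1, he1, hC⟩ := hCONT N hN δ hδ
  obtain ⟨δ1, hδ1, hG1⟩ := hGAP N hN e1 he1
  obtain ⟨M, hM⟩ := exists_nat_gt (F (closedBall (0 : E (N + 1)) 1) / δ1)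
  refine ⟨M, fun m hm K hK => ?_⟩
  have hbody : ∀ k : ℕ, Body (IB^[k] K) := by
    intro k
    induction k with
    | zero => exact hK
    | succ k ih =>
      rw [Function.iterate_succ_apply']
      exact (hIBB hN1 _ ih).1
  have hnn : ∀ k : ℕ, 0 ≤ F (IB^[k] K) := by
    intro k
    unfold F vol
    positivity
  have hstep : ∀ k : ℕ, F (closedBall (0 : E (N + 1)) 1) - δ ≤ F (IB^[k] K) ∨
      (k : ℝ) * δ1 ≤ F (IB^[k] K) := by
    intro k
    induction k with
    | zero =>
      right
      have := hnn 0
      simpa using this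
    | succ k ih =>
      have hmono : F (IB^[k] K) ≤ F (IB^[k + 1] K) := by
        rw [Function.iterate_succ_apply']
        exact (hLYAP hN1 _ (hbody k)).1
      rcases ih with h | h
      · left
        exact h.trans hmono
      · by_cases h2 : F (closedBall (0 : E (N + 1)) 1) - δ ≤ F (IB^[k] K)
        · left
          exact h2.trans hmono
        · right
          have h3 : ¬ F (IB (IB^[k] K)) ≤ F (IB^[k] K) + δ1 := fun h4 =>
            h2 (hC _ (hbody k) (hG1 _ (hbody k) h4))
          rw [← Function.iterate_succ_apply' IB k K] at h3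
          push Not at h3
          push_cast
          linarith
  have hm' : F (closedBall (0 : E (N + 1)) 1) - δ ≤ F (IB^[m] K) := by
    rcases hstep m with h | h
    · exact h
    · exfalso
      have h1 := hSUP N hN _ (hbody m)
      have h2 : (M : ℝ) * δ1 ≤ (m : ℝ) * δ1 := by
        have : (M : ℝ) ≤ m := by exact_mod_cast hm
        nlinarith
      rw [div_lt_iff₀ hδ1] at hM
      linarith
  refine ⟨hbody m, hG _ (hbody m) ?_⟩
  have h1 := hSUP N hN _ (hbody (m + 1))
  rw [Function.iterate_succ_apply'] at h1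
  linarith

end Pool.Agent.H638.IB
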