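import Pool.Agent.H638.IB.Defs

/-! UPB: second order upper bound for the volume of the intersection body under the continuous
Steiner symmetrization of a fixed point of the intersection body operator. -/

set_option autoImplicit false

open MeasureTheory Set Filter Topology Metric
open scoped Pointwise RealInnerProductSpace ENNReal

namespace Pool.Agent.H638.IB

namespace UPBaux

theorem measurable_aE {N : ℕ} (K : Set (E (N + 1))) (hK : IsClosed K) : Measurable (aE K) := by
  have hcont : Continuous (fun p : E N × E N => mk (-⟪p.1, p.2⟫) p.2) := by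
    have h1 : Continuous (fun p : E N × E N => ((-⟪p.1, p.2⟫ : ℝ), p.2)) := by fun_prop
    exact continuous_mk.comp h1
  have hS : MeasurableSet {p : E N × E N | mk (-⟪p.1, p.2⟫) p.2 ∈ K} :=
    (hK.preimage hcont).measurableSet
  have := measurable_measure_prodMk_left (ν := (volume : Measure (E N))) hS
  exact this

theorem aE_ne_top {N : ℕ} (K : Set (E (N + 1))) (hK : Body K) (v : E N) : aE K v ≠ ∞ := by
  obtain ⟨R, hR⟩ := hK.compact.isBounded.subset_closedBall 0
  have hsub : {y : E N | mk (-⟪v, y⟫) y ∈ K} ⊆ closedBall 0 R := by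
    intro y hy
    have h1 := hR hy
    rw [mem_closedBall_zero_iff] at h1 ⊢
    refine le_trans ?_ h1
    have h2 := norm_mk_sq (-⟪v, y⟫) y
    have h3 : ‖y‖ ^ 2 ≤ ‖mk (-⟪v, y⟫) y‖ ^ 2 := by
      rw [h2]
      nlinarith [sq_nonneg (-⟪v, y⟫ : ℝ)]
    exact le_of_sq_le_sq h3 (norm_nonneg _)
  exact ne_top_of_le_ne_top (isCompact_closedBall (0 : E N) R).measure_lt_top.ne
    (measure_mono hsub)

end UPBaux

open UPBaux in
theorem UPB_ok (hSYM : S_SYM) (hIBB : S_IBB) (hBATH : S_BATH) (hKTB : S_KTB) (hKTN : S_KTN)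
    (hDMV : S_DMV) (hVIB : S_VIB) (hPWI : S_PWI) (hHOM : S_HOM) (hSC : S_SC) (hHSEC : S_HSEC)
    (hGS : S_GS) : S_UPB := by
  intro N hN K hK c hc hfix
  have hIK := (hIBB hN K hK).1
  obtain ⟨C, hC, hCK⟩ := hKTN K hK
  obtain ⟨C', hC', hP⟩ := hPWI N C hC
  refine ⟨C', hC', fun t ht0 ht1 => ?_⟩
  obtain ⟨hM, hvol⟩ := hKTB K hK t ht0 ht1
  obtain ⟨hKM, hMK⟩ := hCK t ht0 ht1
  set M := Kt K t with hMdef
  -- `A (IB K) = c / gauge K`
  have hA : ∀ x, A (IB K) x = c * (gauge K x)⁻¹ := by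
    intro x
    by_cases hx : x = 0
    · subst hx
      simp [A]
    · have h1 := (hIBB hN (IB K) hIK).2 x hx
      rw [hfix, ((hGS K hK).1 c hc).2.2 x] at h1
      rw [← inv_inv (A (IB K) x), ← h1, mul_inv, inv_inv]
  -- comparison of the integrals
  have hcomp : ∫⁻ x in IB K, ENNReal.ofReal (A M x) ≤ ∫⁻ x in IB K, ENNReal.ofReal (A K x) := by
    rw [hSYM hN (IB K) M hIK hM, hSYM hN (IB K) K hIK hK]
    simp only [hA, ENNReal.ofReal_mul hc.le]
    rw [lintegral_const_mul' _ _ ENNReal.ofReal_ne_top,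
      lintegral_const_mul' _ _ ENNReal.ofReal_ne_top]
    gcongr ENNReal.ofReal c * ?_
    exact (hBATH hN M K hM hK hvol).1
  rw [hDMV hN K M hK hM, hDMV hN K K hK hK] at hcomp
  have hN0 : (0 : ℝ) < N := by exact_mod_cast hN
  have h2N : ENNReal.ofReal (2 / (N : ℝ)) ≠ 0 := by
    rw [Ne, ENNReal.ofReal_eq_zero, not_le]
    positivity
  have hmix : ∫⁻ v : E N, aE K v ^ N * aE M v ≤ ∫⁻ v : E N, aE K v ^ (N + 1) := by
    have := (ENNReal.mul_le_mul_iff_right h2N ENNReal.ofReal_ne_top).1 hcomp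
    simpa only [pow_succ] using this
  -- finiteness
  have hfin : ∫⁻ v : E N, aE K v ^ (N + 1) ≠ ∞ := by
    intro htop
    have h1 := hVIB hN K hK
    have h3 : ENNReal.ofReal (2 / ((N : ℝ) + 1)) ≠ 0 := by
      rw [Ne, ENNReal.ofReal_eq_zero, not_le]
      positivity
    rw [htop, ENNReal.mul_top h3] at h1
    exact hIK.compact.measure_lt_top.ne h1
  -- pointwise
  have hpt : ∀ v : E N, aE M v ^ (N + 1) + ((N : ℝ≥0∞) + 1) * aE K v ^ (N + 1) ≤
      ENNReal.ofReal (1 + C' * t ^ 2) * aE K v ^ (N + 1) +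
        ((N : ℝ≥0∞) + 1) * (aE K v ^ N * aE M v) := by
    intro v
    have hKv := aE_ne_top K hK v
    have hMv := aE_ne_top M hM v
    have ha : A K (mk 1 v) = (aE K v).toReal := hHSEC K hK v
    have hb : A M (mk 1 v) = (aE M v).toReal := hHSEC M hM v
    have hct : 0 < 1 + C * t := by positivity
    have h1 : (aE M v).toReal ≤ (1 + C * t) ^ N * (aE K v).toReal := by
      rw [← ha, ← hb, ← hSC K hK (1 + C * t) hct _ (mk_one_ne v)]
      exact (hHOM M).2.2 _ hMK ((hGS K hK).1 _ hct).1 _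
    have h2 : (aE K v).toReal ≤ (1 + C * t) ^ N * (aE M v).toReal := by
      rw [← ha, ← hb, ← hSC M hM (1 + C * t) hct _ (mk_one_ne v)]
      exact (hHOM K).2.2 _ hKM ((hGS M hM).1 _ hct).1 _
    have h3 := hP t (aE K v).toReal (aE M v).toReal ht0 ht1 ENNReal.toReal_nonneg
      ENNReal.toReal_nonneg h1 h2
    have h4 := ENNReal.ofReal_le_ofReal h3
    have hN1 : ENNReal.ofReal ((N : ℝ) + 1) = (N : ℝ≥0∞) + 1 := by
      rw [ENNReal.ofReal_add (by positivity) (by positivity), ENNReal.ofReal_natCast,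
        ENNReal.ofReal_one]
    rw [ENNReal.ofReal_add (by positivity) (by positivity),
      ENNReal.ofReal_add (by positivity) (by positivity), ENNReal.ofReal_mul (by positivity),
      ENNReal.ofReal_mul (by positivity), ENNReal.ofReal_mul (by positivity),
      ENNReal.ofReal_mul (by positivity), ENNReal.ofReal_pow (by positivity),
      ENNReal.ofReal_pow (by positivity), ENNReal.ofReal_pow (by positivity),
      ENNReal.ofReal_toReal hKv, ENNReal.ofReal_toReal hMv, hN1] at h4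
    exact h4
  have hmK : Measurable (aE K) := measurable_aE K hK.compact.isClosed
  have hmM : Measurable (aE M) := measurable_aE M hM.compact.isClosed
  have hint := lintegral_mono (μ := (volume : Measure (E N))) hpt
  have hN1top : ((N : ℝ≥0∞) + 1) ≠ ∞ := by
    simp
  rw [lintegral_add_left (hmM.pow_const _), lintegral_const_mul' _ _ hN1top,
    lintegral_add_left ((hmK.pow_const _).const_mul _), lintegral_const_mul' _ _ hN1top,
    lintegral_const_mul' _ _ ENNReal.ofReal_ne_top] at hint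
  have hint2 : (∫⁻ v : E N, aE M v ^ (N + 1)) + ((N : ℝ≥0∞) + 1) * ∫⁻ v : E N, aE K v ^ (N + 1) ≤
      (ENNReal.ofReal (1 + C' * t ^ 2) * ∫⁻ v : E N, aE K v ^ (N + 1)) +
        ((N : ℝ≥0∞) + 1) * ∫⁻ v : E N, aE K v ^ (N + 1) := by
    refine hint.trans ?_
    gcongr
  exact (ENNReal.add_le_add_iff_right (ENNReal.mul_ne_top hN1top hfin)).1 hint2

end Pool.Agent.H638.IB
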