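import Pool.Agent.H638.IB.Defs

set_option autoImplicit false

open MeasureTheory Set Filter Topology Metric
open scoped Pointwise RealInnerProductSpace ENNReal

namespace Pool.Agent.H638.IB

namespace VIBaux

theorem aE_lt_top {N : ℕ} (K : Set (E (N + 1))) (hK : Bornology.IsBounded K) (v : E N) :
    aE K v < ∞ := by
  obtain ⟨R, hR⟩ := hK.subset_closedBall (0 : E (N + 1))
  have hsub : {y : E N | mk (-⟪v, y⟫) y ∈ K} ⊆ closedBall (0 : E N) (max R 0) := by
    intro y hy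
    have h1 : mk (-⟪v, y⟫) y ∈ closedBall (0 : E (N + 1)) R := hR hy
    rw [mem_closedBall, dist_zero_right] at h1 ⊢
    have h2 := norm_mk_sq (-⟪v, y⟫) y
    have h3 : ‖y‖ ^ 2 ≤ ‖mk (-⟪v, y⟫) y‖ ^ 2 := by
      rw [h2]
      nlinarith [sq_nonneg (-⟪v, y⟫ : ℝ)]
    have h4 : ‖y‖ ≤ ‖mk (-⟪v, y⟫) y‖ := by
      exact le_of_sq_le_sq h3 (norm_nonneg _)
    exact h4.trans (h1.trans (le_max_left _ _))
  exact (measure_mono hsub).trans_lt (isCompact_closedBall (0 : E N) _).measure_lt_top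

end VIBaux

theorem VIB_ok (hPOLAR : S_POLAR) (hIBB : S_IBB) (hHSEC : S_HSEC) : S_VIB := by
  intro N hN K hK
  obtain ⟨hB, hg⟩ := hIBB hN K hK
  have h := hPOLAR (IB K) hB 0 (Nat.zero_le _) (fun _ => 1) measurable_const (by simp)
  simp only [lintegral_const, MeasurableSet.univ, Measure.restrict_apply, univ_inter, one_mul,
    mul_one, Nat.sub_zero, Nat.cast_zero, sub_zero] at h
  rw [h]
  congr 1
  refine lintegral_congr fun v => ?_
  rw [hg _ (mk_one_ne v), inv_inv, hHSEC K hK v]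
  have hf : aE K v ≠ ∞ := (VIBaux.aE_lt_top K hK.compact.isBounded v).ne
  change ENNReal.ofReal ((aE K v).toReal ^ (N + 1)) = _
  rw [← ENNReal.toReal_pow, ENNReal.ofReal_toReal (ENNReal.pow_ne_top hf)]

end Pool.Agent.H638.IB
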