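import Pool.Agent.H638.IB.Fin0
import Pool.Agent.H638.IB.T_GB
import Pool.Agent.H638.IB.T_POSN
import Pool.Agent.H638.IB.T_GC
import Pool.Agent.H638.IB.T_GM
import Pool.Agent.H638.IB.T_SEL
import Pool.Agent.H638.IB.T_GS
import Pool.Agent.H638.IB.T_CPT
import Pool.Agent.H638.IB.T_BU1
import Pool.Agent.H638.IB.T_SLAB
import Pool.Agent.H638.IB.T_MP
import Pool.Agent.H638.IB.T_HSEC
import Pool.Agent.H638.IB.T_COV
import Pool.Agent.H638.IB.T_BU2
import Pool.Agent.H638.IB.T_HP
import Pool.Agent.H638.IB.T_LCR
import Pool.Agent.H638.IB.T_HOM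
import Pool.Agent.H638.IB.T_BALL
import Pool.Agent.H638.IB.T_BND
import Pool.Agent.H638.IB.T_BUC
import Pool.Agent.H638.IB.T_BUS
import Pool.Agent.H638.IB.T_IBB
import Pool.Agent.H638.IB.T_SYM
import Pool.Agent.H638.IB.T_GINT
import Pool.Agent.H638.IB.T_BATH
import Pool.Agent.H638.IB.T_DM
import Pool.Agent.H638.IB.T_LYAP
import Pool.Agent.H638.IB.T_SC
import Pool.Agent.H638.IB.T_ICOV
import Pool.Agent.H638.IB.T_FLIN
import Pool.Agent.H638.IB.T_FNEAR
import Pool.Agent.H638.IB.T_PAR
import Pool.Agent.H638.IB.T_PLAN
import Pool.Agent.H638.IB.T_FIB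
import Pool.Agent.H638.IB.T_STR
import Pool.Agent.H638.IB.T_QCON
import Pool.Agent.H638.IB.T_KTB
import Pool.Agent.H638.IB.T_KTN
import Pool.Agent.H638.IB.T_POLAR
import Pool.Agent.H638.IB.T_DMV
import Pool.Agent.H638.IB.T_VIB
import Pool.Agent.H638.IB.T_PWI
import Pool.Agent.H638.IB.T_UPB
import Pool.Agent.H638.IB.T_REP
import Pool.Agent.H638.IB.T_LCQ
import Pool.Agent.H638.IB.T_LCS
import Pool.Agent.H638.IB.T_AEZ
import Pool.Agent.H638.IB.T_REL
import Pool.Agent.H638.IB.T_LIN
import Pool.Agent.H638.IB.T_REFL
import Pool.Agent.H638.IB.T_REFA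
import Pool.Agent.H638.IB.T_ISO
import Pool.Agent.H638.IB.T_ELL
import Pool.Agent.H638.IB.T_RIG
import Pool.Agent.H638.IB.T_GAP
import Pool.Agent.H638.IB.T_FBD
import Pool.Agent.H638.IB.T_SUP
import Pool.Agent.H638.IB.T_CONT
import Pool.Agent.H638.IB.T_UNI
import Pool.Agent.H638.IB.T_NELL
import Pool.Agent.H638.IB.T_EPRE

/-! Assembly of the project IB (MP_5ac201_gt): all statements proved. -/

set_option autoImplicit false

namespace Pool.Agent.H638.IB

theorem GB_final : S_GB := GB_ok

theorem POSN_final : S_POSN := POSN_ok GB_final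

theorem GC_final : S_GC := GC_ok

theorem GM_final : S_GM := GM_ok GB_final

theorem SEL_final : S_SEL := SEL_ok GB_final GC_final GM_final

theorem GS_final : S_GS := GS_ok

theorem CPT_final : S_CPT := CPT_ok POSN_final SEL_final GS_final

theorem BU1_final : S_BU1 := BU1_ok

theorem SLAB_final : S_SLAB := SLAB_ok GB_final

theorem MP_final : S_MP := MP_ok

theorem HSEC_final : S_HSEC := HSEC_ok SLAB_final MP_final GB_final

theorem COV_final : S_COV := COV_ok SLAB_final GS_final

theorem BU2_final : S_BU2 := BU2_ok HSEC_final MP_final COV_final GS_final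

theorem HP_final : S_HP := HP_ok

theorem LCR_final : S_LCR := LCR_ok

theorem HOM_final : S_HOM := HOM_ok

theorem BALL_final : S_BALL := BALL_ok

theorem BND_final : S_BND := BND_ok GB_final HOM_final BALL_final SLAB_final

theorem BUC_final : S_BUC := BUC_ok BU1_final BU2_final HP_final LCR_final BND_final

theorem BUS_final : S_BUS := BUS_ok BUC_final COV_final GS_final HOM_final

theorem IBB_final : S_IBB := IBB_ok BUS_final HOM_final BND_final GC_final

theorem SYM_final : S_SYM := SYM_ok SLAB_final BND_final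

theorem GINT_final : S_GINT := GINT_ok GB_final GS_final

theorem BATH_final : S_BATH := BATH_ok GB_final GINT_final

theorem DM_final : S_DM := DM_ok GB_final GS_final GINT_final BATH_final

theorem LYAP_final : S_LYAP := LYAP_ok GB_final IBB_final SYM_final GINT_final DM_final

theorem SC_final : S_SC := SC_ok

theorem ICOV_final : S_ICOV := ICOV_ok COV_final SC_final IBB_final HOM_final

theorem FLIN_final : S_FLIN := FLIN_ok ICOV_final GS_final IBB_final

theorem FNEAR_final : S_FNEAR := FNEAR_ok ICOV_final GS_final IBB_final GB_final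

theorem PAR_final : S_PAR := PAR_ok

theorem PLAN_final : S_PLAN := PLAN_ok

theorem FIB_final : S_FIB := FIB_ok GB_final

theorem STR_final : S_STR := STR_ok PAR_final PLAN_final FIB_final

theorem QCON_final : S_QCON := QCON_ok FIB_final

theorem KTB_final : S_KTB := KTB_ok FIB_final MP_final GB_final

theorem KTN_final : S_KTN := KTN_ok GB_final

theorem POLAR_final : S_POLAR := POLAR_ok MP_final GB_final

theorem DMV_final : S_DMV := DMV_ok POLAR_final IBB_final HSEC_final HOM_final GB_final

theorem VIB_final : S_VIB := VIB_ok POLAR_final IBB_final HSEC_final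

theorem PWI_final : S_PWI := PWI_ok

theorem UPB_final : S_UPB := UPB_ok SYM_final IBB_final BATH_final KTB_final KTN_final DMV_final VIB_final PWI_final HOM_final SC_final HSEC_final GS_final

theorem REP_final : S_REP := REP_ok

theorem LCQ_final : S_LCQ := LCQ_ok

theorem LCS_final : S_LCS := LCS_ok

theorem AEZ_final : S_AEZ := AEZ_ok UPB_final REP_final FIB_final KTB_final LCQ_final LCS_final VIB_final IBB_final GB_final

theorem REL_final : S_REL := REL_ok STR_final QCON_final AEZ_final

theorem LIN_final : S_LIN := LIN_ok REL_final FIB_final GB_final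

theorem REFL_final : S_REFL := REFL_ok LIN_final FIB_final GB_final

theorem REFA_final : S_REFA := REFA_ok REFL_final ICOV_final GS_final

theorem ISO_final : S_ISO := ISO_ok

theorem ELL_final : S_ELL := ELL_ok ISO_final GS_final GB_final

theorem RIG_final : S_RIG := RIG_ok REFA_final ELL_final

theorem GAP_final : S_GAP := GAP_ok CPT_final LYAP_final FLIN_final FNEAR_final ICOV_final IBB_final RIG_final GS_final

theorem FBD_final : S_FBD := FBD_ok GB_final GS_final IBB_final ICOV_final FLIN_final POSN_final

theorem SUP_final : S_SUP := SUP_ok GAP_final FBD_final LYAP_final IBB_final FNEAR_final FLIN_final GS_final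

theorem CONT_final : S_CONT := CONT_ok FNEAR_final FLIN_final

theorem UNI_final : S_UNI := UNI_ok GAP_final SUP_final CONT_final LYAP_final IBB_final

theorem NELL_final : S_NELL := NELL_ok CONT_final SUP_final LYAP_final RIG_final IBB_final

theorem EPRE_final : S_EPRE := EPRE_ok GB_final GS_final COV_final BALL_final IBB_final

end Pool.Agent.H638.IB
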