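import Pool.Agent.H638.IB.Defs

set_option autoImplicit false

open MeasureTheory Set Filter Topology Metric
open scoped Pointwise RealInnerProductSpace ENNReal

namespace Pool.Agent.H638.IB

namespace FIBaux

variable {N : ℕ}

/-- The fibre. -/
def fib (K : Set (E (N + 1))) (y : E N) : Set ℝ := {s | mk s y ∈ K}

/-- The upper end of the fibre. -/
noncomputable def up (K : Set (E (N + 1))) (y : E N) : ℝ := sSup (fib K y)

/-- The lower end of the fibre. -/
noncomputable def lo (K : Set (E (N + 1))) (y : E N) : ℝ := sInf (fib K y)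

theorem mid_eq (K : Set (E (N + 1))) (y : E N) : mid K y = (up K y + lo K y) / 2 := rfl

theorem len_eq (K : Set (E (N + 1))) (y : E N) : len K y = (up K y - lo K y) / 2 := rfl

theorem cont_mk1 (y : E N) : Continuous (fun s : ℝ => mk s y) :=
  continuous_mk.comp (by fun_prop : Continuous fun s : ℝ => (s, y))

theorem abs_le_norm_mk (s : ℝ) (y : E N) : |s| ≤ ‖mk s y‖ := by
  have h := norm_mk_sq s y
  have h1 : |s| ^ 2 ≤ ‖mk s y‖ ^ 2 := by rw [sq_abs, h]; nlinarith [sq_nonneg ‖y‖]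
  exact le_of_sq_le_sq h1 (norm_nonneg _)
where
  le_of_sq_le_sq {a b : ℝ} (h : a ^ 2 ≤ b ^ 2) (hb : 0 ≤ b) : a ≤ b := by
    by_contra hcon
    push Not at hcon
    nlinarith

theorem fib_compact {K : Set (E (N + 1))} (hK : IsCompact K) (y : E N) : IsCompact (fib K y) := by
  obtain ⟨R, hR⟩ := hK.isBounded.exists_norm_le
  refine Metric.isCompact_of_isClosed_isBounded (hK.isClosed.preimage (cont_mk1 y)) ?_
  refine (Metric.isBounded_closedBall (x := (0 : ℝ)) (r := R)).subset ?_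
  intro s hs
  rw [mem_closedBall_zero_iff, Real.norm_eq_abs]
  exact (abs_le_norm_mk s y).trans (hR _ hs)

theorem mem_fib_iff {K : Set (E (N + 1))} (hK : Body K) {y : E N} (hy : y ∈ Pr K) (s : ℝ) :
    mk s y ∈ K ↔ lo K y ≤ s ∧ s ≤ up K y := by
  have hc := fib_compact hK.compact y
  have hne : (fib K y).Nonempty := hy
  constructor
  · intro h
    exact ⟨csInf_le hc.bddBelow h, le_csSup hc.bddAbove h⟩
  · rintro ⟨h1, h2⟩
    have hu : mk (up K y) y ∈ K := hc.sSup_mem hne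
    have hl : mk (lo K y) y ∈ K := hc.sInf_mem hne
    rcases h1.eq_or_lt with h | h
    · rwa [← h]
    have hlt : lo K y < up K y := h.trans_le h2
    set l := (s - lo K y) / (up K y - lo K y) with hldef
    have hpos : 0 < up K y - lo K y := by linarith
    have hl0 : 0 ≤ l := div_nonneg (by linarith) hpos.le
    have hl1 : l ≤ 1 := by rw [hldef, div_le_one hpos]; linarith
    have h3 := hK.convex hl hu (show (0 : ℝ) ≤ 1 - l by linarith) hl0 (by ring)
    rw [smul_mk, smul_mk, mk_add, ← add_smul, sub_add_cancel, one_smul] at h3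
    have h4 : (1 - l) * lo K y + l * up K y = s := by
      rw [hldef]; field_simp; ring
    rwa [h4] at h3

theorem lo_le_up {K : Set (E (N + 1))} (hK : Body K) {y : E N} (hy : y ∈ Pr K) :
    lo K y ≤ up K y := by
  obtain ⟨s, hs⟩ := hy
  have := (mem_fib_iff hK ⟨s, hs⟩ s).1 hs
  linarith

theorem part1 {K : Set (E (N + 1))} (hK : Body K) (s : ℝ) (y : E N) :
    mk s y ∈ K ↔ y ∈ Pr K ∧ |s - mid K y| ≤ len K y := by
  constructor
  · intro h
    have hy : y ∈ Pr K := ⟨s, h⟩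
    refine ⟨hy, ?_⟩
    obtain ⟨h1, h2⟩ := (mem_fib_iff hK hy s).1 h
    rw [abs_le, mid_eq, len_eq]
    constructor <;> linarith
  · rintro ⟨hy, h⟩
    rw [abs_le, mid_eq, len_eq] at h
    rw [mem_fib_iff hK hy]
    constructor <;> linarith

theorem part2 {K : Set (E (N + 1))} (hK : Body K) {t : ℝ} (ht0 : 0 ≤ t) (ht1 : t ≤ 1) (s : ℝ)
    (y : E N) : mk s y ∈ Kt K t ↔ y ∈ Pr K ∧ |s - (1 - t) * mid K y| ≤ len K y := by
  constructor
  · rintro ⟨y', s₁, s₂, h1, h2, h3⟩
    obtain ⟨h4, rfl⟩ := mk_inj.1 h3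
    obtain ⟨hy, h1⟩ := (part1 hK s₁ y).1 h1
    obtain ⟨-, h2⟩ := (part1 hK s₂ y).1 h2
    refine ⟨hy, ?_⟩
    rw [abs_le] at h1 h2 ⊢
    rw [h4]
    constructor <;> nlinarith
  · rintro ⟨hy, h⟩
    refine ⟨y, mid K y + (s - (1 - t) * mid K y), mid K y - (s - (1 - t) * mid K y), ?_, ?_, ?_⟩
    · rw [part1 hK]
      refine ⟨hy, ?_⟩
      rwa [add_sub_cancel_left]
    · rw [part1 hK]
      refine ⟨hy, ?_⟩
      rwa [sub_sub_cancel_left, abs_neg]
    · rw [mk_inj]
      refine ⟨by ring, rfl⟩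

theorem fib_neg {K : Set (E (N + 1))} (hK : Body K) (y : E N) : fib K (-y) = -fib K y := by
  ext s
  simp only [fib, Set.mem_ofPred_eq, Set.mem_neg]
  constructor
  · intro h
    have := hK.neg _ h
    rwa [neg_mk, neg_neg] at this
  · intro h
    have := hK.neg _ h
    rwa [neg_mk, neg_neg] at this

theorem up_neg {K : Set (E (N + 1))} (hK : Body K) (y : E N) : up K (-y) = -lo K y := by
  unfold up lo
  rw [fib_neg hK, Real.sInf_def, neg_neg]

theorem lo_neg {K : Set (E (N + 1))} (hK : Body K) (y : E N) : lo K (-y) = -up K y := by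
  have := up_neg hK (-y)
  rw [neg_neg] at this
  rw [this, neg_neg]

/-- the projection -/
noncomputable def prj : E (N + 1) →ₗ[ℝ] E N where
  toFun x := WithLp.toLp 2 (fun i => x i.succ)
  map_add' x y := by ext i; rfl
  map_smul' c x := by ext i; rfl

theorem prj_mk (s : ℝ) (y : E N) : prj (mk s y) = y := by
  ext i; rfl

theorem Pr_eq (K : Set (E (N + 1))) : Pr K = prj '' K := by
  ext y
  constructor
  · rintro ⟨s, hs⟩
    exact ⟨_, hs, prj_mk s y⟩
  · rintro ⟨x, hx, rfl⟩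
    obtain ⟨s, y, rfl⟩ := exists_mk x
    rw [prj_mk]
    exact ⟨s, hx⟩

theorem mk_mem_ball {r : ℝ} {s : ℝ} {y : E N} (h : s ^ 2 + ‖y‖ ^ 2 ≤ r ^ 2) (hr : 0 ≤ r) :
    mk s y ∈ closedBall (0 : E (N + 1)) r := by
  rw [mem_closedBall_zero_iff]
  refine abs_le_norm_mk.le_of_sq_le_sq ?_ hr
  rwa [norm_mk_sq]

theorem Pr_body (hGB : S_GB) {K : Set (E (N + 1))} (hK : Body K) : Body (Pr K) := by
  obtain ⟨⟨r, R, hr, hR, hrK, hKR⟩, -⟩ := hGB K hK
  refine ⟨?_, ?_, ?_, ?_⟩
  · rw [Pr_eq]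
    exact hK.compact.image (prj (N := N)).continuous_of_finiteDimensional
  · rw [Pr_eq]
    exact hK.convex.linear_image _
  · refine ⟨0, mem_interior.2 ⟨ball 0 r, ?_, isOpen_ball, mem_ball_self hr⟩⟩
    intro y hy
    rw [mem_ball_zero_iff] at hy
    refine ⟨0, hrK (mk_mem_ball ?_ hr.le)⟩
    nlinarith [norm_nonneg y]
  · rintro y ⟨s, hs⟩
    refine ⟨-s, ?_⟩
    rw [← neg_mk]
    exact hK.neg _ hs

theorem up_concave (hGB : S_GB) {K : Set (E (N + 1))} (hK : Body K) :
    ConcaveOn ℝ (Pr K) (up K) := by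
  refine ⟨(Pr_body hGB hK).convex, ?_⟩
  intro x hx y hy a b ha hb hab
  have h1 : mk (up K x) x ∈ K := (mem_fib_iff hK hx _).2 ⟨lo_le_up hK hx, le_rfl⟩
  have h2 : mk (up K y) y ∈ K := (mem_fib_iff hK hy _).2 ⟨lo_le_up hK hy, le_rfl⟩
  have h3 := hK.convex h1 h2 ha hb hab
  rw [smul_mk, smul_mk, mk_add] at h3
  exact ((mem_fib_iff hK ⟨_, h3⟩ _).1 h3).2

theorem lo_convex (hGB : S_GB) {K : Set (E (N + 1))} (hK : Body K) :
    ConvexOn ℝ (Pr K) (lo K) := by
  refine ⟨(Pr_body hGB hK).convex, ?_⟩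
  intro x hx y hy a b ha hb hab
  have h1 : mk (lo K x) x ∈ K := (mem_fib_iff hK hx _).2 ⟨le_rfl, lo_le_up hK hx⟩
  have h2 : mk (lo K y) y ∈ K := (mem_fib_iff hK hy _).2 ⟨le_rfl, lo_le_up hK hy⟩
  have h3 := hK.convex h1 h2 ha hb hab
  rw [smul_mk, smul_mk, mk_add] at h3
  exact ((mem_fib_iff hK ⟨_, h3⟩ _).1 h3).1

end FIBaux

open FIBaux

theorem FIB_ok (hGB : S_GB) : S_FIB := by
  intro N K hK
  have hup := up_concave hGB hK
  have hlo := lo_convex hGB hK
  have hBP := Pr_body hGB hK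
  have hlen0 : ∀ y ∈ Pr K, 0 ≤ len K y := by
    intro y hy
    rw [len_eq]
    linarith [lo_le_up hK hy]
  refine ⟨part1 hK, fun t h0 h1 s y => part2 hK h0 h1 s y, ?_, hlen0, hBP, ?_, ?_, ?_⟩
  · intro y
    rw [mid_eq, mid_eq, len_eq, len_eq, up_neg hK, lo_neg hK]
    constructor <;> ring
  · intro y hy
    obtain ⟨⟨r, R, hr, hR, hrK, hKR⟩, -⟩ := hGB K hK
    -- the fibre over the origin
    have h0P : (0 : E N) ∈ Pr K := ⟨0, hrK (mk_mem_ball (by simp; positivity) hr.le)⟩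
    have h0 : r ≤ len K 0 := by
      have h1 : mk r (0 : E N) ∈ K := hrK (mk_mem_ball (by simp) hr.le)
      have h2 : mk (-r) (0 : E N) ∈ K := hrK (mk_mem_ball (by simp) hr.le)
      have h3 := ((mem_fib_iff hK h0P r).1 h1).2
      have h4 := ((mem_fib_iff hK h0P (-r)).1 h2).1
      rw [len_eq]
      linarith
    -- a larger multiple of y
    obtain ⟨d, hd, hdy⟩ : ∃ d : ℝ, 0 < d ∧ (1 + d) • y ∈ Pr K := by
      have hcont : Continuous (fun d : ℝ => (1 + d) • y) := by fun_prop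
      have hmem : (fun d : ℝ => (1 + d) • y) ⁻¹' interior (Pr K) ∈ 𝓝 (0 : ℝ) := by
        refine (isOpen_interior.preimage hcont).mem_nhds ?_
        simpa using hy
      obtain ⟨ε, hε, hsub⟩ := Metric.mem_nhds_iff.1 hmem
      refine ⟨ε / 2, by positivity, interior_subset (hsub ?_)⟩
      rw [mem_ball_zero_iff, Real.norm_eq_abs, abs_of_pos (by positivity)]
      linarith
    have h1d : 0 < 1 + d := by linarith
    have ha : (0 : ℝ) ≤ 1 / (1 + d) := by positivity
    have hb : (0 : ℝ) ≤ d / (1 + d) := by positivity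
    have hab : 1 / (1 + d) + d / (1 + d) = 1 := by field_simp
    have hy' : (1 / (1 + d)) • ((1 + d) • y) + (d / (1 + d)) • (0 : E N) = y := by
      rw [smul_smul, smul_zero, add_zero, one_div_mul_cancel h1d.ne', one_smul]
    have h5 := hup.2 hdy h0P ha hb hab
    have h6 := hlo.2 hdy h0P ha hb hab
    rw [hy'] at h5 h6
    simp only [smul_eq_mul] at h5 h6
    have h7 := lo_le_up hK hdy
    have h8 : 0 < d / (1 + d) := by positivity
    rw [len_eq] at h0 ⊢
    have h9 : 0 ≤ 1 / (1 + d) * (up K ((1 + d) • y) - lo K ((1 + d) • y)) :=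
      mul_nonneg ha (by linarith)
    have h10 : 0 < d / (1 + d) * (up K 0 - lo K 0) := mul_pos h8 (by linarith)
    nlinarith
  · have h := (hup.continuousOn_interior.add hlo.continuousOn_interior).div_const 2
    exact h
  · have h := (hup.continuousOn_interior.sub hlo.continuousOn_interior).div_const 2
    exact h

end Pool.Agent.H638.IB
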