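import Pool.Agent.H638.IB.Defs

/-! Task HOM: homogeneity, positivity and monotonicity of `A K` (helper287). -/

set_option autoImplicit false

open MeasureTheory Set Filter Topology Metric
open scoped Pointwise RealInnerProductSpace ENNReal

namespace Pool.Agent.H638.IB

namespace HOMaux

theorem vol_congr {n : ℕ} (K : Set (E n)) (S S' : Submodule ℝ (E n)) (h : S = S') :
    (volume : Measure Sᗮ) {y | (y : E n) ∈ K} = (volume : Measure S'ᗮ) {y | (y : E n) ∈ K} := by
  subst h
  rfl

theorem secVol_smul {n : ℕ} (K : Set (E n)) (c : ℝ) (hc : c ≠ 0) (x : E n) :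
    secVol K (c • x) = secVol K x := by
  unfold secVol
  rw [vol_congr K _ _ (Submodule.span_singleton_smul_eq (IsUnit.mk0 c hc) x)]

theorem vol_lt_top {n : ℕ} (L : Set (E n)) (hL : IsCompact L) (S : Submodule ℝ (E n)) :
    (volume : Measure Sᗮ) {y | (y : E n) ∈ L} < ∞ := by
  have hcl : IsClosed ((Sᗮ : Submodule ℝ (E n)) : Set (E n)) := Submodule.isClosed_orthogonal S
  have hemb : IsClosedEmbedding (fun y : Sᗮ => (y : E n)) := hcl.isClosedEmbedding_subtypeVal
  have hc : IsCompact {y : Sᗮ | (y : E n) ∈ L} := hemb.isCompact_preimage hL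
  exact hc.measure_lt_top

theorem secVol_mono {n : ℕ} (K L : Set (E n)) (hKL : K ⊆ L) (hL : IsCompact L) (x : E n) :
    secVol K x ≤ secVol L x := by
  unfold secVol
  refine ENNReal.toReal_mono (vol_lt_top L hL _).ne (measure_mono ?_)
  intro y hy
  exact hKL hy

end HOMaux

open HOMaux in
theorem HOM_ok : S_HOM := by
  intro n K
  refine ⟨?_, ?_, ?_⟩
  · intro c x hc
    unfold A
    rw [secVol_smul K c hc, norm_smul, Real.norm_eq_abs, div_eq_mul_inv, div_eq_mul_inv, mul_inv]
    ring
  · intro x
    exact div_nonneg ENNReal.toReal_nonneg (norm_nonneg _)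
  · intro L hKL hL x
    exact div_le_div_of_nonneg_right (secVol_mono K L hKL hL.compact x) (norm_nonneg _)

end Pool.Agent.H638.IB
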