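import Pool.Agent.H638.IB.Defs

/-! Task REFA: reflections in all directions. -/

set_option autoImplicit false

open MeasureTheory Set Filter Topology Metric
open scoped Pointwise RealInnerProductSpace ENNReal

namespace Pool.Agent.H638.IB

theorem REFA_ok (hREFL : S_REFL) (hICOV : S_ICOV) (hGS : S_GS) : S_REFA := by
  intro N hN K hK c hc hcK e he
  have hone : (mk 1 0 : E (N + 1)) ≠ 0 := mk_one_ne 0
  obtain ⟨T', hT'⟩ := SeparatingDual.exists_continuousLinearEquiv_apply_eq (R := ℝ) he hone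
  set T : E (N + 1) ≃ₗ[ℝ] E (N + 1) := T'.toLinearEquiv with hT
  have hTe : T e = mk 1 0 := hT'
  have hM : Body (T '' K) := ((hGS K hK).2 T).1
  obtain ⟨S, -, -, c1, hc1, h1⟩ := (hICOV (by omega : 1 ≤ N) K hK).1 T
  have h2 : T '' (c • K) = c • (T '' K) := by
    ext z
    constructor
    · rintro ⟨_, ⟨y, hy, rfl⟩, rfl⟩
      exact ⟨T y, ⟨y, hy, rfl⟩, (map_smul T c y).symm⟩
    · rintro ⟨_, ⟨y, hy, rfl⟩, rfl⟩
      exact ⟨c • y, ⟨y, hy, rfl⟩, map_smul T c y⟩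
  have h3 : IB (IB (T '' K)) = (c1 * c) • (T '' K) := by
    rw [h1, hcK, h2, smul_smul]
  obtain ⟨φ, hφ1, hφ2⟩ := hREFL hN (T '' K) hM (c1 * c) (mul_pos hc1 hc) h3
  refine ⟨φ.comp (T : E (N + 1) →ₗ[ℝ] E (N + 1)), ?_, ?_⟩
  · simp only [LinearMap.comp_apply, LinearEquiv.coe_coe]
    rw [hTe, hφ1]
  · intro x hx
    have h4 := hφ2 (T x) ⟨x, hx, rfl⟩
    rw [← hTe, ← map_smul, ← map_sub] at h4
    exact (T.injective.mem_set_image).1 h4

end Pool.Agent.H638.IB
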